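import Pool.Agent.XA.Defs

set_option autoImplicit false
open MeasureTheory Set

namespace Pool.Agent.XA

/-- the length of the chord of `K` at the level `c` -/
noncomputable def len (K : Set (ℝ × ℝ)) (θ c : ℝ) : ℝ := (volume {t : ℝ | pt θ c t ∈ K}).toReal

end Pool.Agent.XA
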