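import Pool.Agent.XA.B1

set_option autoImplicit false
open MeasureTheory Set

namespace Pool.Agent.XA

theorem IsArc.symm {K L : Set (ℝ × ℝ)} {α β : ℝ} (h : IsArc K L α β) : IsArc L K α β :=
  ⟨h.lt, h.left.symm, h.right.symm, fun ψ hψ => (h.ne ψ hψ).symm⟩

theorem DS_symm (K L : Set (ℝ × ℝ)) (α β : ℝ) : DS K L α β = DS L K α β :=
  Set.ext fun _ => or_comm

/-- `hs_add_int_two_pi` -/
theorem IsArc.shift {K L : Set (ℝ × ℝ)} {α β : ℝ} (h : IsArc K L α β) (k : ℤ) :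
    IsArc K L (α + k * (2 * Real.pi)) (β + k * (2 * Real.pi)) := by
  refine ⟨by linarith [h.lt], ?_, ?_, ?_⟩
  · rw [hs_add_int_two_pi, hs_add_int_two_pi, h.left]
  · rw [hs_add_int_two_pi, hs_add_int_two_pi, h.right]
  · intro ψ hψ he
    have h1 := hs_add_int_two_pi K (ψ - k * (2 * Real.pi)) k
    have h2 := hs_add_int_two_pi L (ψ - k * (2 * Real.pi)) k
    rw [sub_add_cancel] at h1 h2
    apply h.ne (ψ - k * (2 * Real.pi)) ⟨by linarith [hψ.1], by linarith [hψ.2]⟩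
    rw [← h1, ← h2, he]

theorem a1_shift_aux (K L : Set (ℝ × ℝ)) (α β : ℝ) (k : ℤ) (w : ℝ × ℝ) :
    (w ∈ interior K ∧ ∃ ψ ∈ Ioo (α + k * (2 * Real.pi)) (β + k * (2 * Real.pi)),
      hs L ψ < lv ψ w) ↔ (w ∈ interior K ∧ ∃ ψ ∈ Ioo α β, hs L ψ < lv ψ w) := by
  constructor
  · rintro ⟨hw, ψ, hψ, hlt⟩
    refine ⟨hw, ψ - k * (2 * Real.pi), ⟨by linarith [hψ.1], by linarith [hψ.2]⟩, ?_⟩
    have h1 := hs_add_int_two_pi L (ψ - k * (2 * Real.pi)) k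
    have h2 := lv_add_int_two_pi (ψ - k * (2 * Real.pi)) k w
    rw [sub_add_cancel] at h1 h2
    rw [← h1, ← h2]
    exact hlt
  · rintro ⟨hw, ψ, hψ, hlt⟩
    refine ⟨hw, ψ + k * (2 * Real.pi), ⟨by linarith [hψ.1], by linarith [hψ.2]⟩, ?_⟩
    rw [hs_add_int_two_pi, lv_add_int_two_pi]
    exact hlt

/-- `hs_add_int_two_pi`, `lv_add_int_two_pi`, translate the angle `ψ` -/
theorem DS_shift (K L : Set (ℝ × ℝ)) (α β : ℝ) (k : ℤ) :
    DS K L (α + k * (2 * Real.pi)) (β + k * (2 * Real.pi)) = DS K L α β := by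
  ext w
  exact or_congr (a1_shift_aux K L α β k w) (a1_shift_aux L K α β k w)

theorem Dir.symm {K L : Set (ℝ × ℝ)} {θ c1 : ℝ} (h : Dir K L θ c1) : Dir L K θ c1 := by
  refine ⟨h.bL, h.bK, h.top.symm, h.bot.symm, ?_⟩
  intro c h1 h2 h3
  rw [← h.bot] at h2
  rw [← h.top] at h3
  exact (h.len c h1 h2 h3).symm

theorem Chords.symm {K L : Set (ℝ × ℝ)} {θ c a b a' b' : ℝ} (h : Chords K L θ c a b a' b') :
    Chords L K θ c a' b' a b :=
  ⟨by linarith [h.lt, h.eq], h.eq.symm, h.sL, h.iL, h.sK, h.iK⟩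

/-- An angle at which the support functions agree is not inside an arc. -/
theorem IsArc.not_mem {K L : Set (ℝ × ℝ)} {α β : ℝ} (h : IsArc K L α β) {θ : ℝ}
    (hθ : hs K θ = hs L θ) : θ ≤ α ∨ β ≤ θ := by
  by_contra hc
  push Not at hc
  exact h.ne θ ⟨hc.1, hc.2⟩ hθ

end Pool.Agent.XA
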