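import Pool.Agent.XA.B1
import Pool.Agent.XA.A1

set_option autoImplicit false
open MeasureTheory Set

namespace Pool.Agent.XA

theorem a6_open (A B : Set (ℝ × ℝ)) (α β : ℝ) :
    IsOpen {w : ℝ × ℝ | w ∈ interior A ∧ ∃ ψ ∈ Ioo α β, hs B ψ < lv ψ w} := by
  have h : {w : ℝ × ℝ | w ∈ interior A ∧ ∃ ψ ∈ Ioo α β, hs B ψ < lv ψ w} =
      interior A ∩ ⋃ ψ ∈ Ioo α β, {w : ℝ × ℝ | hs B ψ < lv ψ w} := by
    ext w
    rw [Set.mem_inter_iff, Set.mem_iUnion₂]
    constructor
    · rintro ⟨h1, ψ, h2, h3⟩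
      exact ⟨h1, ψ, h2, h3⟩
    · rintro ⟨h1, ψ, h2, h3⟩
      exact ⟨h1, ψ, h2, h3⟩
  rw [h]
  exact isOpen_interior.inter (isOpen_biUnion fun ψ _ =>
    isOpen_lt continuous_const (continuous_lv_right ψ))

/-- `DS` is open: a union over `ψ` of `interior K ∩ {w | hs L ψ < lv ψ w}` and the same with `K`, `L`
exchanged. -/
theorem DS_isOpen (K L : Set (ℝ × ℝ)) (α β : ℝ) : IsOpen (DS K L α β) := by
  exact (a6_open K L α β).union (a6_open L K α β)

theorem DS_subset (K L : Set (ℝ × ℝ)) (α β : ℝ) : DS K L α β ⊆ K ∪ L := by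
  rintro w (⟨h, -⟩ | ⟨h, -⟩)
  · exact Or.inl (interior_subset h)
  · exact Or.inr (interior_subset h)

/-- contained in the compact set `K ∪ L` -/
theorem DS_bounded {K L : Set (ℝ × ℝ)} (hK : IsCompact K) (hL : IsCompact L) (α β : ℝ) :
    Bornology.IsBounded (DS K L α β) := by
  exact (hK.union hL).isBounded.subset (DS_subset K L α β)

theorem volume_DS_lt_top {K L : Set (ℝ × ℝ)} (hK : IsCompact K) (hL : IsCompact L) (α β : ℝ) :
    volume (DS K L α β) < ⊤ := by
  exact (DS_bounded hK hL α β).measure_lt_top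

/-- `lv θ` is an open map: the image of an open set `D` under `lv θ` is open.  (If `w ∈ D` and `|r|` is
small then `w + r • (cos θ, sin θ) ∈ D` has the level `lv θ w + r`.)  Alternatively: `lv θ` is a
nonzero continuous linear functional (`ContinuousLinearMap.isOpenMap` or
`LinearMap.isOpenMap_of_finiteDimensional`). -/
theorem isOpen_levels {D : Set (ℝ × ℝ)} (hD : IsOpen D) (θ : ℝ) : IsOpen (lv θ '' D) := by
  have h : lv θ '' D = ⋃ t : ℝ, (fun c : ℝ => pt θ c t) ⁻¹' D := by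
    ext c
    rw [Set.mem_iUnion]
    constructor
    · rintro ⟨w, hw, rfl⟩
      refine ⟨tg θ w, ?_⟩
      show pt θ (lv θ w) (tg θ w) ∈ D
      rw [pt_lv_tg]
      exact hw
    · rintro ⟨t, ht⟩
      exact ⟨pt θ c t, ht, lv_pt θ c t⟩
  rw [h]
  refine isOpen_iUnion fun t => hD.preimage ?_
  unfold pt
  fun_prop

end Pool.Agent.XA
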