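import Pool.Agent.XA.B2

set_option autoImplicit false
open MeasureTheory Set

namespace Pool.Agent.XA

theorem c1_pt_comb (θ c t₁ t₂ a b : ℝ) (h : a + b = 1) :
    a • pt θ c t₁ + b • pt θ c t₂ = pt θ c (a * t₁ + b * t₂) := by
  ext
  · simp only [pt, Prod.smul_mk, Prod.mk_add_mk, smul_eq_mul]
    linear_combination (c * Real.cos θ) * h
  · simp only [pt, Prod.smul_mk, Prod.mk_add_mk, smul_eq_mul]
    linear_combination (c * Real.sin θ) * h

/-- an interior point of the level `c` -/
theorem c1_interior {K : Set (ℝ × ℝ)} (hK : IsBody K) {θ c : ℝ}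
    (h1 : -hs K (θ + Real.pi) < c) (h2 : c < hs K θ) : ∃ t, pt θ c t ∈ interior K := by
  have hne : K.Nonempty := hK.nonempty.mono interior_subset
  suffices h : ∃ w ∈ interior K, lv θ w = c by
    obtain ⟨w, hw, rfl⟩ := h
    exact ⟨tg θ w, by rw [pt_lv_tg]; exact hw⟩
  obtain ⟨z, hz⟩ := hK.nonempty
  obtain ⟨x, hx, hx'⟩ := exists_lv_eq_hs hK.compact hne θ
  obtain ⟨y, hy, hy'⟩ := exists_lv_eq_hs hK.compact hne (θ + Real.pi)
  rw [lv_add_pi] at hy'
  have key : ∀ v ∈ K, ∀ s : ℝ, 0 ≤ s → s < 1 → (1 - s) * lv θ z + s * lv θ v = c →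
      ∃ w ∈ interior K, lv θ w = c := by
    intro v hv s hs0 hs1 hc
    refine ⟨(1 - s) • z + s • v, ?_, ?_⟩
    · exact hK.convex.combo_interior_self_mem_interior hz hv (by linarith) hs0 (by ring)
    · rw [lv_add, lv_smul, lv_smul, hc]
  rcases lt_trichotomy (lv θ z) c with h | h | h
  · have hpos : 0 < hs K θ - lv θ z := by linarith
    apply key x hx ((c - lv θ z) / (hs K θ - lv θ z))
    · exact div_nonneg (by linarith) hpos.le
    · rw [div_lt_one hpos]; linarith
    · rw [hx']
      field_simp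
      ring
  · exact ⟨z, hz, h⟩
  · have hpos : 0 < lv θ z - lv θ y := by linarith
    apply key y hy ((lv θ z - c) / (lv θ z - lv θ y))
    · exact div_nonneg (by linarith) hpos.le
    · rw [div_lt_one hpos]; linarith
    · field_simp
      ring

/-- **Chords.**  There are `x, y ∈ K` with `lv θ x = hs K θ > c` and `lv θ y = - hs K (θ + π) < c`
(`exists_lv_eq_hs`, `lv_add_pi`), and a point `z ∈ interior K`.  If `lv θ z < c` take the point of level
`c` in the half-open segment from `z` to `x` (it is in the interior: `Convex.openSegment_interior_self_subset_interior`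
or `Convex.combo_interior_self_subset_interior`); if `c < lv θ z` use `y`; if `= c` take `z`.  So there is
`t₀` with `pt θ c t₀ ∈ interior K` (`pt_lv_tg`).  The set `S = {t | pt θ c t ∈ K}` is compact (closed
and bounded) and convex, so `S = Icc a b` with `a = sInf S`, `b = sSup S`; the set
`S° = {t | pt θ c t ∈ interior K}` is open, contains `t₀`, and is contained in `S`, hence in
`interior S = Ioo a b`; so `a < b`.  Conversely, `t ∈ Ioo a b`: e.g. `t₀ < t < b`: `pt θ c t` is in the
open segment between the interior point `pt θ c t₀` and the point `pt θ c b ∈ K`, so it is in the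
interior. -/
theorem chord_single {K : Set (ℝ × ℝ)} (hK : IsBody K) {θ c : ℝ}
    (h1 : -hs K (θ + Real.pi) < c) (h2 : c < hs K θ) :
    ∃ a b, a < b ∧ {t : ℝ | pt θ c t ∈ K} = Icc a b ∧
      {t : ℝ | pt θ c t ∈ interior K} = Ioo a b := by
  obtain ⟨t₀, ht₀⟩ := c1_interior hK h1 h2
  have hcont : Continuous (fun t : ℝ => pt θ c t) := continuous_pt_right θ c
  set S : Set ℝ := {t : ℝ | pt θ c t ∈ K} with hS
  set I : Set ℝ := {t : ℝ | pt θ c t ∈ interior K} with hI
  have hSclosed : IsClosed S := hK.compact.isClosed.preimage hcont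
  have hScompact : IsCompact S := by
    refine IsCompact.of_isClosed_subset (hK.compact.image (continuous_tg_right θ)) hSclosed ?_
    intro t ht
    exact ⟨pt θ c t, ht, tg_pt θ c t⟩
  have hSconv : Convex ℝ S := by
    intro t₁ h₁ t₂ h₂ a b ha hb hab
    have h3 := hK.convex h₁ h₂ ha hb hab
    rw [c1_pt_comb θ c t₁ t₂ a b hab] at h3
    exact h3
  have hIS : I ⊆ S := fun t ht => (interior_subset : interior K ⊆ K) ht
  have hSconn : IsConnected S := ⟨⟨t₀, hIS ht₀⟩, hSconv.isPreconnected⟩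
  have hSI : S = Icc (sInf S) (sSup S) := eq_Icc_of_connected_compact hSconn hScompact
  set a := sInf S with ha
  set b := sSup S with hb
  have hIopen : IsOpen I := isOpen_interior.preimage hcont
  have hI1 : I ⊆ Ioo a b := by
    rw [← interior_Icc, ← hSI]
    exact interior_maximal hIS hIopen
  have hab : a < b := (hI1 ht₀).1.trans (hI1 ht₀).2
  have haS : a ∈ S := by rw [hSI]; exact left_mem_Icc.2 hab.le
  have hbS : b ∈ S := by rw [hSI]; exact right_mem_Icc.2 hab.le
  refine ⟨a, b, hab, hSI, Subset.antisymm hI1 ?_⟩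
  have key : ∀ v ∈ S, ∀ s : ℝ, 0 ≤ s → s < 1 → (1 - s) * t₀ + s * v ∈ I := by
    intro v hv s hs0 hs1
    have h3 := hK.convex.combo_interior_self_mem_interior ht₀ hv
      (show 0 < 1 - s by linarith) hs0 (by ring)
    rw [c1_pt_comb θ c t₀ v (1 - s) s (by ring)] at h3
    exact h3
  intro t ht
  rcases lt_trichotomy t t₀ with h | h | h
  · have hpos : 0 < t₀ - a := by linarith [ht.1]
    have h3 := key a haS ((t₀ - t) / (t₀ - a)) (div_nonneg (by linarith) hpos.le)
      (by rw [div_lt_one hpos]; linarith [ht.1])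
    have h4 : (1 - (t₀ - t) / (t₀ - a)) * t₀ + (t₀ - t) / (t₀ - a) * a = t := by
      field_simp
      ring
    rwa [h4] at h3
  · rw [h]; exact ht₀
  · have hpos : 0 < b - t₀ := by linarith [ht.2]
    have h3 := key b hbS ((t - t₀) / (b - t₀)) (div_nonneg (by linarith) hpos.le)
      (by rw [div_lt_one hpos]; linarith [ht.2])
    have h4 : (1 - (t - t₀) / (b - t₀)) * t₀ + (t - t₀) / (b - t₀) * b = t := by
      field_simp
      ring
    rwa [h4] at h3

/-- `chord_single` for `K` and for `L` (`Dir.top`, `Dir.bot`), and `Dir.len` with `Real.volume_Icc`. -/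
theorem exists_chords {K L : Set (ℝ × ℝ)} {θ c1 c : ℝ} (h : Dir K L θ c1) (hc : c1 ≤ c)
    (h1 : -hs K (θ + Real.pi) < c) (h2 : c < hs K θ) :
    ∃ a b a' b', Chords K L θ c a b a' b' := by
  obtain ⟨a, b, hab, hS, hI⟩ := chord_single h.bK h1 h2
  obtain ⟨a', b', hab', hS', hI'⟩ := chord_single h.bL (by rw [← h.bot]; exact h1)
    (by rw [← h.top]; exact h2)
  refine ⟨a, b, a', b', hab, ?_, hS, hI, hS', hI'⟩
  have h3 := h.len c hc h1 h2
  rw [hS, hS', Real.volume_Icc, Real.volume_Icc] at h3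
  exact (ENNReal.ofReal_eq_ofReal_iff (by linarith) (by linarith)).1 h3

/-- the levels of a piece are in the open range (`DS`: `w ∈ interior K` or `w ∈ interior L`;
`lv_lt_hs`, `neg_hs_lt_lv`, `Dir.top`, `Dir.bot`) -/
theorem level_range {K L : Set (ℝ × ℝ)} {θ c1 : ℝ} (h : Dir K L θ c1) {α β : ℝ} {w : ℝ × ℝ}
    (hw : w ∈ DS K L α β) : -hs K (θ + Real.pi) < lv θ w ∧ lv θ w < hs K θ := by
  rcases hw with ⟨hw, -⟩ | ⟨hw, -⟩
  · exact ⟨neg_hs_lt_lv h.bK.compact θ hw, lv_lt_hs h.bK.compact θ hw⟩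
  · rw [h.top, h.bot]
    exact ⟨neg_hs_lt_lv h.bL.compact θ hw, lv_lt_hs h.bL.compact θ hw⟩

end Pool.Agent.XA
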