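import Pool.Agent.XA.V0
import Pool.Agent.XA.C1
import Pool.Agent.XA.A6

set_option autoImplicit false
open MeasureTheory Set

namespace Pool.Agent.XA

/-- The slice of a compact set is closed. -/
theorem v1_slice_closed {K : Set (ℝ × ℝ)} (hK : IsCompact K) (θ c : ℝ) :
    IsClosed {t : ℝ | pt θ c t ∈ K} :=
  hK.isClosed.preimage (continuous_pt_right θ c)

theorem v1_slice_open {I : Set (ℝ × ℝ)} (hI : IsOpen I) (θ c : ℝ) :
    IsOpen {t : ℝ | pt θ c t ∈ I} :=
  hI.preimage (continuous_pt_right θ c)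

/-- The slice of a compact set is compact, in particular of finite volume (closed as preimage under the
continuous `t ↦ pt θ c t`; bounded since `t = tg θ (pt θ c t)` and `tg θ` is bounded on `K`). -/
theorem slice_lt_top {K : Set (ℝ × ℝ)} (hK : IsCompact K) (θ c : ℝ) :
    volume {t : ℝ | pt θ c t ∈ K} < ⊤ := by
  have h1 : IsCompact (tg θ '' K) := hK.image (continuous_tg_right θ)
  refine lt_of_le_of_lt (measure_mono ?_) h1.measure_lt_top
  intro t ht
  exact ⟨pt θ c t, ht, tg_pt θ c t⟩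

/-- monotone (the larger set bounded by a compact set) -/
theorem len_mono {A K : Set (ℝ × ℝ)} (hK : IsCompact K) (h : A ⊆ K) (θ c : ℝ) :
    len A θ c ≤ len K θ c := by
  unfold len
  exact ENNReal.toReal_mono (slice_lt_top hK θ c).ne (measure_mono fun t ht => h ht)

/-- A chord is not longer than a bound `D` of all widths: for two points `pt θ c t`, `pt θ c t'` of `K`,
`t - t' = tg θ _ - tg θ _ = lv (θ + π/2) _ - lv (θ + π/2) _ ≤ hs K (θ + π/2) + hs K (θ + π/2 + π) ≤ D`; so the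
slice is contained in an interval of length `D` (`Icc (sInf) (sSup)`, or `[t₁ - D + …]`; the empty case is
trivial since `0 ≤ D`). -/
theorem len_le_width {K : Set (ℝ × ℝ)} (hK : IsBody K) {D : ℝ}
    (hw : ∀ ψ, hs K ψ + hs K (ψ + Real.pi) ≤ D) (θ c : ℝ) : len K θ c ≤ D := by
  have hbdd : ∀ ψ : ℝ, BddAbove (lv ψ '' K) := fun ψ =>
    (hK.compact.image (continuous_lv_right ψ)).bddAbove
  have hle : ∀ (ψ : ℝ) (w : ℝ × ℝ), w ∈ K → lv ψ w ≤ hs K ψ := fun ψ w hwK =>
    le_csSup (hbdd ψ) ⟨w, hwK, rfl⟩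
  have htg : ∀ w : ℝ × ℝ, tg θ w = lv (θ + Real.pi / 2) w := by
    intro w
    simp only [tg, lv, Real.cos_add_pi_div_two, Real.sin_add_pi_div_two]
    ring
  set a : ℝ := -hs K (θ + Real.pi / 2 + Real.pi) with ha
  set b : ℝ := hs K (θ + Real.pi / 2) with hb
  have hsub : {t : ℝ | pt θ c t ∈ K} ⊆ Icc a b := by
    intro t ht
    have ht' : pt θ c t ∈ K := ht
    have e1 : lv (θ + Real.pi / 2) (pt θ c t) = t := by rw [← htg, tg_pt]
    have h1 := hle (θ + Real.pi / 2) _ ht'
    have h2 := hle (θ + Real.pi / 2 + Real.pi) _ ht'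
    rw [lv_add_pi] at h2
    rw [e1] at h1 h2
    exact ⟨by rw [ha]; linarith, h1⟩
  have h0 : b - a ≤ D := by
    have := hw (θ + Real.pi / 2)
    rw [ha, hb]
    linarith
  have hD : 0 ≤ D := by
    obtain ⟨z, hz⟩ := hK.nonempty
    have hz' := interior_subset hz
    have h1 := hle 0 z hz'
    have h2 := hle (0 + Real.pi) z hz'
    rw [lv_add_pi] at h2
    have := hw 0
    linarith
  unfold len
  refine ENNReal.toReal_le_of_le_ofReal hD ?_
  refine (measure_mono hsub).trans ?_
  rw [Real.volume_Icc]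
  exact ENNReal.ofReal_le_ofReal h0

/-- At a level in the open range the chord of the interior is as long as the closed chord
(`chord_single`). -/
theorem len_interior {K : Set (ℝ × ℝ)} (hK : IsBody K) {θ c : ℝ}
    (h1 : -hs K (θ + Real.pi) < c) (h2 : c < hs K θ) : len (interior K) θ c = len K θ c := by
  obtain ⟨a, b, -, hs1, hs2⟩ := chord_single hK h1 h2
  unfold len
  rw [hs1, hs2, Real.volume_Icc, Real.volume_Ioo]

/-- If `volume {t | pt θ c t ∈ K \ I} = volume {t | pt θ c t ∈ L \ J}` with `I ⊆ K`, `J ⊆ L` open, `K`, `L`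
compact: subtract (the slices of `K \ I` and `I` are disjoint, measurable, of finite volume). -/
theorem len_diff {K L I J : Set (ℝ × ℝ)} (hK : IsCompact K) (hL : IsCompact L) (hI : IsOpen I)
    (hJ : IsOpen J) (hIK : I ⊆ K) (hJL : J ⊆ L) {θ c : ℝ}
    (h : volume {t : ℝ | pt θ c t ∈ K \ I} = volume {t : ℝ | pt θ c t ∈ L \ J}) :
    len K θ c - len I θ c = len L θ c - len J θ c := by
  have key : ∀ (M O : Set (ℝ × ℝ)), IsCompact M → IsOpen O → O ⊆ M →
      (volume {t : ℝ | pt θ c t ∈ M \ O}).toReal = len M θ c - len O θ c := by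
    intro M O hM hO hOM
    have e : {t : ℝ | pt θ c t ∈ M \ O} = {t : ℝ | pt θ c t ∈ M} \ {t : ℝ | pt θ c t ∈ O} := rfl
    have hs : {t : ℝ | pt θ c t ∈ O} ⊆ {t : ℝ | pt θ c t ∈ M} := fun t ht => hOM ht
    have hfin : volume {t : ℝ | pt θ c t ∈ O} ≠ ⊤ :=
      ((measure_mono hs).trans_lt (slice_lt_top hM θ c)).ne
    rw [e, measure_sdiff hs (v1_slice_open hO θ c).measurableSet.nullMeasurableSet hfin,
      ENNReal.toReal_sub_of_le (measure_mono hs) (slice_lt_top hM θ c).ne]
    rfl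
  rw [← key K I hK hI hIK, ← key L J hL hJ hJL, h]

end Pool.Agent.XA
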