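import Pool.Agent.XA.B1

set_option autoImplicit false
open MeasureTheory Set

namespace Pool.Agent.XA

/-- A point `w` of the interior is not extreme: for small `r > 0` the point `w + r • e(θ)`, i.e.
`w + r • (cos θ, sin θ)`, is in `K` (the interior is open, continuity of `r ↦ w + r • (..)` at `0`)
and has the level `lv θ w + r` (`sin² + cos² = 1`), which is `≤ hs K θ` by `lv_le_hs`. -/
theorem lv_lt_hs {K : Set (ℝ × ℝ)} (hK : IsCompact K) (θ : ℝ) {w : ℝ × ℝ}
    (hw : w ∈ interior K) : lv θ w < hs K θ := by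
  have hc : Continuous (fun r : ℝ => pt θ (lv θ w + r) (tg θ w)) := by
    unfold pt
    fun_prop
  have h0 : (fun r : ℝ => pt θ (lv θ w + r) (tg θ w)) 0 ∈ interior K := by
    simp only [add_zero, pt_lv_tg]
    exact hw
  have h1 := hc.continuousAt.preimage_mem_nhds (isOpen_interior.mem_nhds h0)
  obtain ⟨ε, hε, hb⟩ := Metric.mem_nhds_iff.1 h1
  have h2 : (ε / 2) ∈ Metric.ball (0 : ℝ) ε := by
    rw [Metric.mem_ball, Real.dist_eq, sub_zero, abs_of_pos (by linarith)]
    linarith
  have h3 : pt θ (lv θ w + ε / 2) (tg θ w) ∈ K := interior_subset (hb h2)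
  have h4 := lv_le_hs hK θ h3
  rw [lv_pt] at h4
  linarith

/-- `lv_lt_hs` at `θ + π` together with `lv_add_pi`. -/
theorem neg_hs_lt_lv {K : Set (ℝ × ℝ)} (hK : IsCompact K) (θ : ℝ) {w : ℝ × ℝ}
    (hw : w ∈ interior K) : -hs K (θ + Real.pi) < lv θ w := by
  have h := lv_lt_hs hK (θ + Real.pi) hw
  rw [lv_add_pi] at h
  linarith

/-- Also for points of `K` (not strict): `lv_le_hs` at `θ + π` with `lv_add_pi`. -/
theorem neg_hs_le_lv {K : Set (ℝ × ℝ)} (hK : IsCompact K) (θ : ℝ) {w : ℝ × ℝ}
    (hw : w ∈ K) : -hs K (θ + Real.pi) ≤ lv θ w := by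
  have h := lv_le_hs hK (θ + Real.pi) hw
  rw [lv_add_pi] at h
  linarith

/-- The width is positive: take a point of the interior and use the two previous inequalities. -/
theorem width_pos {K : Set (ℝ × ℝ)} (hK : IsBody K) (θ : ℝ) :
    0 < hs K θ + hs K (θ + Real.pi) := by
  obtain ⟨w, hw⟩ := hK.nonempty
  have h1 := lv_lt_hs hK.compact θ hw
  have h2 := neg_hs_lt_lv hK.compact θ hw
  linarith

/-- `K` is the closure of its interior (Mathlib: `Convex.closure_interior_eq_closure_of_nonempty_interior`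
or similar, and `K` is closed).  Form used below: every nonempty relatively open part of `K` contains
an interior point of `K`. -/
theorem exists_mem_interior_of_open {K : Set (ℝ × ℝ)} (hK : IsBody K) {O : Set (ℝ × ℝ)}
    (hO : IsOpen O) (h : (K ∩ O).Nonempty) : (interior K ∩ O).Nonempty := by
  obtain ⟨x, hxK, hxO⟩ := h
  have h1 : x ∈ closure (interior K) := by
    rw [hK.convex.closure_interior_eq_closure_of_nonempty_interior hK.nonempty]
    exact subset_closure hxK
  obtain ⟨y, hy1, hy2⟩ := mem_closure_iff.1 h1 O hO hxO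
  exact ⟨y, hy2, hy1⟩

end Pool.Agent.XA
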