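import Pool.Agent.XA.C1

set_option autoImplicit false
open MeasureTheory Set

namespace Pool.Agent.XA

theorem e4_aux {K L QK QL : Set (ℝ × ℝ)} (hK : IsBody K) (hL : IsBody L) {ρ θ : ℝ}
    (hρ : 0 < ρ) (hQK : ∀ y ∈ QK, lv θ y + ρ ≤ hs K θ)
    (hQL : ∀ y ∈ QL, lv θ y + ρ ≤ hs L θ)
    (hX : ∀ c, (∀ y ∈ QK ∪ QL, lv θ y < c) → volume {t : ℝ | pt θ c t ∈ K} =
      volume {t : ℝ | pt θ c t ∈ L}) : ¬ hs L θ < hs K θ := by
  intro hlt
  have hw := width_pos hK θ
  have hmax : max (hs L θ) (max (hs K θ - ρ) (-hs K (θ + Real.pi))) < hs K θ :=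
    max_lt hlt (max_lt (by linarith) (by linarith))
  obtain ⟨c, hc1, hc2⟩ := exists_between hmax
  have g1 : hs L θ < c := lt_of_le_of_lt (le_max_left _ _) hc1
  have g2 : hs K θ - ρ < c := lt_of_le_of_lt (le_trans (le_max_left _ _) (le_max_right _ _)) hc1
  have g3 : -hs K (θ + Real.pi) < c :=
    lt_of_le_of_lt (le_trans (le_max_right _ _) (le_max_right _ _)) hc1
  have hy : ∀ y ∈ QK ∪ QL, lv θ y < c := by
    rintro y (hy | hy)
    · have := hQK y hy
      linarith
    · have := hQL y hy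
      linarith
  obtain ⟨a, b, hab, e1, _⟩ := chord_single hK g3 hc2
  have h1 := hX c hy
  have h2 : {t : ℝ | pt θ c t ∈ L} = ∅ := by
    ext t
    simp only [mem_ofPred_eq, mem_empty_iff_false, iff_false]
    intro ht
    have := lv_le_hs hL.compact θ ht
    rw [lv_pt] at this
    linarith
  rw [e1, h2, Real.volume_Icc, measure_empty, ENNReal.ofReal_eq_zero] at h1
  linarith

/-- **Equal support values from closed chords.**  As `hs_eq_of_xray` (file `E1`) with closed slices: by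
symmetry suppose `hs L θ < hs K θ`; choose `c` with
`max (hs L θ) (max (hs K θ - ρ) (- hs K (θ + π))) < c < hs K θ`.  Then `lv θ y < c` for all `y ∈ QK ∪ QL`, the
slice of `K` is `Icc a b`, `a < b` (`chord_single`), of positive volume, and the slice of `L` is empty. -/
theorem hs_eq_of_closed {K L QK QL : Set (ℝ × ℝ)} (hK : IsBody K) (hL : IsBody L) {ρ θ : ℝ}
    (hρ : 0 < ρ) (hQK : ∀ y ∈ QK, lv θ y + ρ ≤ hs K θ)
    (hQL : ∀ y ∈ QL, lv θ y + ρ ≤ hs L θ)
    (hX : ∀ c, (∀ y ∈ QK ∪ QL, lv θ y < c) → volume {t : ℝ | pt θ c t ∈ K} =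
      volume {t : ℝ | pt θ c t ∈ L}) : hs K θ = hs L θ := by
  rcases lt_trichotomy (hs K θ) (hs L θ) with h1 | h1 | h1
  · refine absurd h1 (e4_aux hL hK hρ hQL hQK fun c hc => (hX c fun y hy => hc y ?_).symm)
    exact hy.symm
  · exact h1
  · exact absurd h1 (e4_aux hK hL hρ hQK hQL hX)

/-- If `-hs K (θ + π) < c < hs K θ` then (`chord_single` for `K` and `L`) closed and interior slices have the
same volume.  Otherwise both interior slices are empty (`lv_lt_hs`, `neg_hs_lt_lv`, `top`, `bot`). -/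
theorem interior_of_closed {K L : Set (ℝ × ℝ)} (hK : IsBody K) (hL : IsBody L) {θ : ℝ}
    (top : hs K θ = hs L θ) (bot : hs K (θ + Real.pi) = hs L (θ + Real.pi)) {c : ℝ}
    (h : volume {t : ℝ | pt θ c t ∈ K} = volume {t : ℝ | pt θ c t ∈ L}) :
    volume {t : ℝ | pt θ c t ∈ interior K} = volume {t : ℝ | pt θ c t ∈ interior L} := by
  by_cases hc : -hs K (θ + Real.pi) < c ∧ c < hs K θ
  · obtain ⟨a, b, hab, e1, e2⟩ := chord_single hK hc.1 hc.2
    have hc1 : -hs L (θ + Real.pi) < c := by rw [← bot]; exact hc.1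
    have hc2 : c < hs L θ := by rw [← top]; exact hc.2
    obtain ⟨a', b', hab', e1', e2'⟩ := chord_single hL hc1 hc2
    rw [e1, e1', Real.volume_Icc, Real.volume_Icc] at h
    rw [e2, e2', Real.volume_Ioo, Real.volume_Ioo, h]
  · have h1 : {t : ℝ | pt θ c t ∈ interior K} = ∅ := by
      ext t
      simp only [mem_ofPred_eq, mem_empty_iff_false, iff_false]
      intro ht
      have g1 := lv_lt_hs hK.compact θ ht
      have g2 := neg_hs_lt_lv hK.compact θ ht
      rw [lv_pt] at g1 g2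
      exact hc ⟨g2, g1⟩
    have h2 : {t : ℝ | pt θ c t ∈ interior L} = ∅ := by
      ext t
      simp only [mem_ofPred_eq, mem_empty_iff_false, iff_false]
      intro ht
      have g1 := lv_lt_hs hL.compact θ ht
      have g2 := neg_hs_lt_lv hL.compact θ ht
      rw [lv_pt, ← top] at g1
      rw [lv_pt, ← bot] at g2
      exact hc ⟨g2, g1⟩
    rw [h1, h2]

end Pool.Agent.XA
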