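import Pool.Agent.XA.Defs

set_option autoImplicit false
open MeasureTheory Set

namespace Pool.Agent.XA

/-- **Holes below the level do not matter.**  At a level above `P` the slices of `K \ P` and `K` coincide
(`lv_pt`). -/
theorem outer_slice {K L P Q : Set (ℝ × ℝ)} {θ c : ℝ} (hP : ∀ y ∈ P, lv θ y < c)
    (hQ : ∀ y ∈ Q, lv θ y < c)
    (h : volume {t : ℝ | pt θ c t ∈ K \ P} = volume {t : ℝ | pt θ c t ∈ L \ Q}) :
    volume {t : ℝ | pt θ c t ∈ K} = volume {t : ℝ | pt θ c t ∈ L} := by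
  have hK : {t : ℝ | pt θ c t ∈ K \ P} = {t : ℝ | pt θ c t ∈ K} := by
    ext t
    simp only [mem_ofPred_eq, mem_sdiff]
    refine ⟨fun h => h.1, fun h => ⟨h, fun hp => ?_⟩⟩
    have := hP _ hp
    rw [lv_pt] at this
    exact lt_irrefl _ this
  have hL : {t : ℝ | pt θ c t ∈ L \ Q} = {t : ℝ | pt θ c t ∈ L} := by
    ext t
    simp only [mem_ofPred_eq, mem_sdiff]
    refine ⟨fun h => h.1, fun h => ⟨h, fun hp => ?_⟩⟩
    have := hQ _ hp
    rw [lv_pt] at this
    exact lt_irrefl _ this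
  rwa [hK, hL] at h

/-- a line meets a compact set in a set of finite volume -/
theorem t4_fin {K : Set (EuclideanSpace ℝ (Fin 2))} (hK : IsCompact K)
    {x u : EuclideanSpace ℝ (Fin 2)} (hu : u ≠ 0) :
    volume {t : ℝ | x + t • u ∈ K} < ⊤ := by
  obtain ⟨C, hC⟩ := hK.isBounded.exists_norm_le
  have hu' : 0 < ‖u‖ := norm_pos_iff.mpr hu
  have hsub : {t : ℝ | x + t • u ∈ K} ⊆ Icc (-((C + ‖x‖) / ‖u‖)) ((C + ‖x‖) / ‖u‖) := by
    intro t ht
    have h1 := hC _ ht
    have h2 : ‖t • u‖ ≤ C + ‖x‖ := by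
      calc ‖t • u‖ = ‖(x + t • u) - x‖ := by rw [add_sub_cancel_left]
        _ ≤ ‖x + t • u‖ + ‖x‖ := norm_sub_le _ _
        _ ≤ C + ‖x‖ := by linarith
    rw [norm_smul, Real.norm_eq_abs] at h2
    rw [← le_div_iff₀ hu'] at h2
    exact abs_le.mp h2
  refine lt_of_le_of_lt (measure_mono hsub) ?_
  rw [Real.volume_Icc]
  exact ENNReal.ofReal_lt_top

/-- **Removing the outer body.**  On each line `{t | x + t • u ∈ K}` has finite volume (`u ≠ 0`, `K` bounded:
contained in a bounded interval) and is the disjoint union of the slices of `K \ I` and of `I ⊆ K`, both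
measurable (`K` closed, `I` open); subtract (`measure_diff` or `measure_inter_add_diff` and cancellation
in `ENNReal`). -/
theorem inner_slice {K I J : Set (EuclideanSpace ℝ (Fin 2))} (hK : IsCompact K)
    (hI : IsOpen I) (hJ : IsOpen J) (hIK : I ⊆ K) (hJK : J ⊆ K)
    {x u : EuclideanSpace ℝ (Fin 2)} (hu : u ≠ 0)
    (h : volume {t : ℝ | x + t • u ∈ K \ I} = volume {t : ℝ | x + t • u ∈ K \ J}) :
    volume {t : ℝ | x + t • u ∈ I} = volume {t : ℝ | x + t • u ∈ J} := by
  have hcont : Continuous (fun t : ℝ => x + t • u) := by fun_prop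
  have hfin := t4_fin hK (x := x) hu
  have key : ∀ I : Set (EuclideanSpace ℝ (Fin 2)), IsOpen I → I ⊆ K →
      volume {t : ℝ | x + t • u ∈ I} + volume {t : ℝ | x + t • u ∈ K \ I} =
        volume {t : ℝ | x + t • u ∈ K} := by
    intro I hI hIK
    have hmI : MeasurableSet {t : ℝ | x + t • u ∈ I} := (hI.preimage hcont).measurableSet
    have h1 := measure_inter_add_sdiff (μ := volume) {t : ℝ | x + t • u ∈ K} hmI
    have h2 : {t : ℝ | x + t • u ∈ K} ∩ {t : ℝ | x + t • u ∈ I} = {t : ℝ | x + t • u ∈ I} :=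
      inter_eq_right.mpr fun t ht => hIK ht
    rw [h2] at h1
    exact h1
  have h1 := key I hI hIK
  have h2 := key J hJ hJK
  have hne : volume {t : ℝ | x + t • u ∈ K \ J} ≠ ⊤ :=
    (lt_of_le_of_lt (measure_mono (fun t ht => ht.1)) hfin).ne
  rw [h] at h1
  exact (ENNReal.add_left_inj hne).mp (h1.trans h2.symm)

end Pool.Agent.XA
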