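import Pool.Agent.XA.T0

set_option autoImplicit false
open MeasureTheory Set

namespace Pool.Agent.XA

theorem t1_toE_zero (p : ℝ × ℝ) : toE p 0 = p.1 := by
  simp [toE]

theorem t1_toE_one (p : ℝ × ℝ) : toE p 1 = p.2 := by
  simp [toE]

theorem t1_continuous_toE : Continuous toE := by
  unfold toE
  refine (PiLp.continuous_toLp 2 (fun _ : Fin 2 => ℝ)).comp ?_
  refine continuous_pi fun i => ?_
  fin_cases i
  · exact continuous_fst
  · exact continuous_snd

/-- `toE` as a homeomorphism -/
noncomputable def t1_hom : (ℝ × ℝ) ≃ₜ EuclideanSpace ℝ (Fin 2) where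
  toFun := toE
  invFun := fun x => (x 0, x 1)
  left_inv := fun p => by
    show (toE p 0, toE p 1) = p
    rw [t1_toE_zero, t1_toE_one]
  right_inv := fun x => by
    ext i
    fin_cases i
    · exact t1_toE_zero (x 0, x 1)
    · exact t1_toE_one (x 0, x 1)
  continuous_toFun := t1_continuous_toE
  continuous_invFun := by
    show Continuous fun x : EuclideanSpace ℝ (Fin 2) => (x 0, x 1)
    fun_prop

theorem t1_linear : IsLinearMap ℝ toE where
  map_add := fun x y => by
    ext i
    fin_cases i
    · show toE (x + y) 0 = (toE x + toE y) 0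
      rw [PiLp.add_apply, t1_toE_zero, t1_toE_zero, t1_toE_zero]
      rfl
    · show toE (x + y) 1 = (toE x + toE y) 1
      rw [PiLp.add_apply, t1_toE_one, t1_toE_one, t1_toE_one]
      rfl
  map_smul := fun c x => by
    ext i
    fin_cases i
    · show toE (c • x) 0 = (c • toE x) 0
      rw [PiLp.smul_apply, t1_toE_zero, t1_toE_zero]
      rfl
    · show toE (c • x) 1 = (c • toE x) 1
      rw [PiLp.smul_apply, t1_toE_one, t1_toE_one]
      rfl

/-- `toE` is a homeomorphism (linear bijection, both directions continuous), e.g. with inverse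
`x ↦ (x 0, x 1)`. -/
theorem toE_surjective : Function.Surjective toE := t1_hom.surjective

theorem interior_toE (K : Set (EuclideanSpace ℝ (Fin 2))) :
    interior (toE ⁻¹' K) = toE ⁻¹' interior K :=
  (t1_hom.preimage_interior K).symm

theorem IsBody_toE {K : Set (EuclideanSpace ℝ (Fin 2))} (h1 : IsCompact K) (h2 : Convex ℝ K)
    (h3 : (interior K).Nonempty) : IsBody (toE ⁻¹' K) := by
  refine ⟨t1_hom.isCompact_preimage.2 h1, h2.is_linear_preimage t1_linear, ?_⟩
  rw [interior_toE]
  exact h3.preimage toE_surjective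

/-- from surjectivity -/
theorem eq_of_toE {A B : Set (EuclideanSpace ℝ (Fin 2))} (h : toE ⁻¹' A = toE ⁻¹' B) : A = B :=
  toE_surjective.preimage_injective h

end Pool.Agent.XA
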