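import Pool.Agent.XA.T0

set_option autoImplicit false
open MeasureTheory Set

namespace Pool.Agent.XA

theorem t2_line {s θ : ℝ} (hc : Real.cos θ = -s * Real.sin θ) (c t : ℝ) :
    toE (pt θ c t) = (!₂[c * Real.cos θ, c * Real.sin θ] : EuclideanSpace ℝ (Fin 2)) +
      ((-Real.sin θ) * t) • (!₂[1, s] : EuclideanSpace ℝ (Fin 2)) := by
  ext i
  fin_cases i
  · simp [toE, pt]
    ring
  · simp [toE, pt]
    rw [hc]
    ring

theorem t2_vol {A : Set (EuclideanSpace ℝ (Fin 2))} {s θ : ℝ} (h0 : Real.sin θ ≠ 0)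
    (hc : Real.cos θ = -s * Real.sin θ) (c : ℝ) :
    volume {t : ℝ | pt θ c t ∈ toE ⁻¹' A} = ENNReal.ofReal |(-Real.sin θ)⁻¹| *
      volume {t : ℝ | (!₂[c * Real.cos θ, c * Real.sin θ] : EuclideanSpace ℝ (Fin 2)) +
        t • (!₂[1, s] : EuclideanSpace ℝ (Fin 2)) ∈ A} := by
  rw [← Real.volume_preimage_mul_left (neg_ne_zero.2 h0)]
  congr 1
  ext t
  simp only [Set.mem_ofPred_eq, Set.mem_preimage]
  rw [t2_line hc]

/-- **Change of parameters on the lines.**  `toE (pt θ c t) = x + (-(t sin θ)) • u` with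
`x = toE (c cos θ, c sin θ)`, `u = !₂[1, s]` (use `cos θ = - s sin θ`), so
`{t | pt θ c t ∈ toE ⁻¹' A}` is the preimage of `{τ | x + τ • u ∈ A}` under `t ↦ (- sin θ) * t`; its volume is
`ENNReal.ofReal |(- sin θ)⁻¹| * volume {τ | …}` (`Real.volume_preimage_mul_left`). -/
theorem xray_toE {A B : Set (EuclideanSpace ℝ (Fin 2))} {s θ : ℝ} (h0 : Real.sin θ ≠ 0)
    (hc : Real.cos θ = -s * Real.sin θ)
    (h : ∀ x : EuclideanSpace ℝ (Fin 2), volume {t : ℝ | x + t • !₂[1, s] ∈ A} =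
      volume {t : ℝ | x + t • !₂[1, s] ∈ B}) (c : ℝ) :
    volume {t : ℝ | pt θ c t ∈ toE ⁻¹' A} = volume {t : ℝ | pt θ c t ∈ toE ⁻¹' B} := by
  rw [t2_vol h0 hc, t2_vol h0 hc, h]

end Pool.Agent.XA
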