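import Pool.Agent.XA.V1

set_option autoImplicit false
open MeasureTheory Set

namespace Pool.Agent.XA

/-- **Scaling lemma.**  `w = pt θ c t ∈ L` gives `x₀ + (1 + μ)⁻¹ • (w - x₀) = pt θ c' (t₀ + (1 + μ)⁻¹ (t - t₀)) ∈ K`
with `t₀ = tg θ x₀`; so the slice of `L` at `c` is contained in the preimage of the slice of `K` at `c'` under an
affine map of slope `(1 + μ)⁻¹`, of measure `(1 + μ) * volume (slice)`. -/
theorem scale_len {K L : Set (ℝ × ℝ)} (hK : IsCompact K) {x₀ : ℝ × ℝ} {μ : ℝ} (hμ : 0 ≤ μ)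
    (h : ∀ w ∈ L, x₀ + (1 + μ)⁻¹ • (w - x₀) ∈ K) (θ c : ℝ) :
    len L θ c ≤ (1 + μ) * len K θ (lv θ x₀ + (1 + μ)⁻¹ * (c - lv θ x₀)) := by
  have hs : (0 : ℝ) < 1 + μ := by linarith
  have hs0 : (1 + μ)⁻¹ ≠ 0 := inv_ne_zero hs.ne'
  have hsub : {t : ℝ | pt θ c t ∈ L} ⊆ (fun t => (1 + μ)⁻¹ * t) ⁻¹' ((fun x => x + (tg θ x₀ - (1 + μ)⁻¹ * tg θ x₀)) ⁻¹'
      {t : ℝ | pt θ (lv θ x₀ + (1 + μ)⁻¹ * (c - lv θ x₀)) t ∈ K}) := by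
    intro t ht
    have h1 := h _ ht
    have h2 : x₀ + (1 + μ)⁻¹ • (pt θ c t - x₀) = pt θ (lv θ x₀ + (1 + μ)⁻¹ * (c - lv θ x₀))
        ((1 + μ)⁻¹ * t + (tg θ x₀ - (1 + μ)⁻¹ * tg θ x₀)) := by
      rw [← pt_lv_tg θ (x₀ + (1 + μ)⁻¹ • (pt θ c t - x₀)), lv_add, lv_smul, lv_sub, lv_pt, tg_add, tg_smul, tg_sub, tg_pt]
      congr 1
      ring
    rw [h2] at h1
    exact h1
  have hvol : volume ((fun t => (1 + μ)⁻¹ * t) ⁻¹' ((fun x => x + (tg θ x₀ - (1 + μ)⁻¹ * tg θ x₀)) ⁻¹'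
      {t : ℝ | pt θ (lv θ x₀ + (1 + μ)⁻¹ * (c - lv θ x₀)) t ∈ K})) =
      ENNReal.ofReal (1 + μ) * volume {t : ℝ | pt θ (lv θ x₀ + (1 + μ)⁻¹ * (c - lv θ x₀)) t ∈ K} := by
    rw [Real.volume_preimage_mul_left hs0, measure_preimage_add_right, inv_inv, abs_of_pos hs]
  have hfin := slice_lt_top hK θ (lv θ x₀ + (1 + μ)⁻¹ * (c - lv θ x₀))
  unfold len
  calc (volume {t : ℝ | pt θ c t ∈ L}).toReal ≤
        (ENNReal.ofReal (1 + μ) * volume {t : ℝ | pt θ (lv θ x₀ + (1 + μ)⁻¹ * (c - lv θ x₀)) t ∈ K}).toReal := by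
        apply ENNReal.toReal_mono (ENNReal.mul_ne_top ENNReal.ofReal_ne_top hfin.ne)
        rw [← hvol]
        exact measure_mono hsub
    _ = _ := by rw [ENNReal.toReal_mul, ENNReal.toReal_ofReal hs.le]

end Pool.Agent.XA
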