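import Pool.Agent.XA.B1

set_option autoImplicit false
open MeasureTheory Set

namespace Pool.Agent.XA

/-- **Slow variation.**  The function `f θ = lv θ v` has the derivative `f' θ = lv (θ + π/2) v`
(`cos (θ + π/2) = - sin θ`, `sin (θ + π/2) = cos θ`), and `|f' θ| ≤ d` (apply `h` to `θ + π/2` and to
`θ + π/2 + π` with `lv_add_pi`).  Hence `|f θ - f ψ| ≤ d |θ - ψ|`
(`Convex.norm_image_sub_le_of_norm_hasDerivWithin_le` or `norm_image_sub_le_of_norm_deriv_le_segment`
or a Lipschitz lemma). -/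
theorem lv_var {v : ℝ × ℝ} {d : ℝ} (h : ∀ ψ, lv ψ v ≤ d) (θ ψ : ℝ) :
    lv ψ v - d * |θ - ψ| ≤ lv θ v := by
  have hd : ∀ x : ℝ, HasDerivAt (fun θ => lv θ v) (lv (x + Real.pi / 2) v) x := by
    intro x
    have h1 : HasDerivAt (fun θ => v.1 * Real.cos θ + v.2 * Real.sin θ)
        (v.1 * (-Real.sin x) + v.2 * Real.cos x) x :=
      ((Real.hasDerivAt_cos x).const_mul v.1).add ((Real.hasDerivAt_sin x).const_mul v.2)
    have h2 : lv (x + Real.pi / 2) v = v.1 * (-Real.sin x) + v.2 * Real.cos x := by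
      simp only [lv, Real.cos_add_pi_div_two, Real.sin_add_pi_div_two]
    rw [h2]
    exact h1
  have hb : ∀ x : ℝ, |lv (x + Real.pi / 2) v| ≤ d := by
    intro x
    rw [abs_le]
    constructor
    · have := h (x + Real.pi / 2 + Real.pi)
      rw [lv_add_pi] at this
      linarith
    · exact h _
  have hm := Convex.norm_image_sub_le_of_norm_hasDerivWithin_le (𝕜 := ℝ) (f := fun θ => lv θ v)
    (f' := fun x => lv (x + Real.pi / 2) v) (s := Set.univ) (C := d)
    (fun x _ => (hd x).hasDerivWithinAt) (fun x _ => hb x) convex_univ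
    (Set.mem_univ ψ) (Set.mem_univ θ)
  simp only [Real.norm_eq_abs] at hm
  have := (abs_le.1 hm).1
  linarith

/-- The direction of `v`: for `v ≠ 0` let `ψ` be the argument of `v.1 + v.2 i`; then
`v = (r cos ψ, r sin ψ)` with `r = √(v.1² + v.2²)` and `lv θ v = r cos (θ - ψ) ≤ r = lv ψ v`
(for `v = 0` everything is `0`).  Alternatively: the continuous periodic function `θ ↦ lv θ v` has a
maximum on `[0, 2 π]`. -/
theorem exists_lv_max (v : ℝ × ℝ) : ∃ ψ, ∀ θ, lv θ v ≤ lv ψ v := by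
  by_cases hv : v.1 = 0 ∧ v.2 = 0
  · refine ⟨0, fun θ => ?_⟩
    simp [lv, hv.1, hv.2]
  set r := Real.sqrt (v.1 ^ 2 + v.2 ^ 2) with hr
  have hpos : 0 < v.1 ^ 2 + v.2 ^ 2 := by
    rcases not_and_or.1 hv with h | h
    · have : 0 < v.1 ^ 2 := by positivity
      nlinarith [sq_nonneg v.2]
    · have : 0 < v.2 ^ 2 := by positivity
      nlinarith [sq_nonneg v.1]
  have hrpos : 0 < r := Real.sqrt_pos.2 hpos
  have hr2 : r ^ 2 = v.1 ^ 2 + v.2 ^ 2 := Real.sq_sqrt hpos.le
  set z : ℂ := ⟨v.1, v.2⟩ with hz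
  have hznorm : ‖z‖ = r := by
    rw [hz, Complex.norm_eq_sqrt_sq_add_sq]
  have hz0 : z ≠ 0 := by
    intro h0
    rw [h0, norm_zero] at hznorm
    linarith
  have hc : r * Real.cos (Complex.arg z) = v.1 := by
    rw [Complex.cos_arg hz0, hznorm]
    field_simp
    rfl
  have hs' : r * Real.sin (Complex.arg z) = v.2 := by
    rw [Complex.sin_arg, hznorm]
    field_simp
    rfl
  have key : ∀ θ, lv θ v = r * Real.cos (θ - Complex.arg z) := by
    intro θ
    rw [Real.cos_sub]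
    simp only [lv]
    rw [← hc, ← hs']
    ring
  refine ⟨Complex.arg z, fun θ => ?_⟩
  rw [key, key, sub_self, Real.cos_zero]
  exact mul_le_mul_of_nonneg_left (Real.cos_le_one _) hrpos.le

end Pool.Agent.XA
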