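import Pool.Agent.XA.B3
import Pool.Agent.XA.B5
import Pool.Agent.XA.B2

set_option autoImplicit false
open MeasureTheory Set

namespace Pool.Agent.XA

/-- **Inclusion from support functions.**  Suppose `v = x₀ + (1 + e/r)⁻¹ • (w - x₀) ∉ K`.  `exists_sep`: `ψ` with
`hs K ψ < lv ψ v = lv ψ x₀ + (1 + e/r)⁻¹ (lv ψ w - lv ψ x₀)`.  With `g = hs K ψ - lv ψ x₀ ≥ r > 0`:
`(1 + e/r) g < lv ψ w - lv ψ x₀ ≤ g + e`, so `(e/r) g < e`; but `g ≥ r` and `e ≥ 0`. -/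
theorem incl_of_hs {K : Set (ℝ × ℝ)} (hK : IsBody K) {x₀ w : ℝ × ℝ} {r e : ℝ} (hr : 0 < r)
    (he : 0 ≤ e) (hx : ∀ ψ, lv ψ x₀ + r ≤ hs K ψ) (hw : ∀ ψ, lv ψ w ≤ hs K ψ + e) :
    x₀ + (1 + e / r)⁻¹ • (w - x₀) ∈ K := by
  by_contra hcon
  obtain ⟨ψ, hψ⟩ := exists_sep hK hcon
  rw [lv_add, lv_smul, lv_sub] at hψ
  have hq : 0 < 1 + e / r := by positivity
  have h1 := hx ψ
  have h2 := hw ψ
  have h3 : (1 + e / r) * (hs K ψ - lv ψ x₀) < lv ψ w - lv ψ x₀ := by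
    have h4 : hs K ψ - lv ψ x₀ < (1 + e / r)⁻¹ * (lv ψ w - lv ψ x₀) := by linarith
    have h5 := mul_lt_mul_of_pos_left h4 hq
    rwa [← mul_assoc, mul_inv_cancel₀ hq.ne', one_mul] at h5
  have h6 : e ≤ e / r * (hs K ψ - lv ψ x₀) := by
    have h7 : e / r * r ≤ e / r * (hs K ψ - lv ψ x₀) :=
      mul_le_mul_of_nonneg_left (by linarith) (by positivity)
    rwa [div_mul_cancel₀ _ hr.ne'] at h7
  nlinarith

theorem v4_aux {K L : Set (ℝ × ℝ)} (hK : IsBody K) (hL : IsBody L) {d ε : ℝ}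
    (hd : ∀ x ∈ K ∪ L, ∀ y ∈ K ∪ L, ∀ ψ, lv ψ (x - y) ≤ d)
    (hφ : ∀ ψ, ∃ φ, |φ - ψ| ≤ ε ∧ hs K φ = hs L φ) (ψ : ℝ) : hs L ψ ≤ hs K ψ + d * ε := by
  have hKne : K.Nonempty := hK.nonempty.mono interior_subset
  have hLne : L.Nonempty := hL.nonempty.mono interior_subset
  obtain ⟨x, hx, ex⟩ := exists_lv_eq_hs hL.compact hLne ψ
  obtain ⟨φ, hφ1, hφ2⟩ := hφ ψ
  obtain ⟨y, hy, ey⟩ := exists_lv_eq_hs hK.compact hKne φ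
  have h1 : lv φ x ≤ hs L φ := lv_le_hs hL.compact φ hx
  have h2 : lv φ (x - y) ≤ 0 := by
    rw [lv_sub, ey, hφ2]
    linarith
  have h3 := lv_var (v := x - y) (d := d) (fun χ => hd x (Or.inr hx) y (Or.inl hy) χ) φ ψ
  have hd0 : 0 ≤ d := by
    have := hd x (Or.inr hx) x (Or.inr hx) 0
    rw [lv_sub, sub_self] at this
    exact this
  have h4 : d * |φ - ψ| ≤ d * ε := mul_le_mul_of_nonneg_left hφ1 hd0
  have h5 : lv ψ y ≤ hs K ψ := lv_le_hs hK.compact ψ hy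
  rw [lv_sub, ex] at h3
  linarith

/-- **The support functions are close.**  By symmetry it suffices to show `hs L ψ ≤ hs K ψ + d ε`.  Let
`x ∈ L` with `lv ψ x = hs L ψ`, `φ` from `hφ`, `y ∈ K` with `lv φ y = hs K φ = hs L φ ≥ lv φ x`.  So
`lv φ (x - y) ≤ 0` and by `lv_var` (`v = x - y`) `lv ψ (x - y) - d |φ - ψ| ≤ lv φ (x - y) ≤ 0`, i.e.
`hs L ψ = lv ψ x ≤ lv ψ y + d ε ≤ hs K ψ + d ε` (`0 ≤ d`). -/
theorem hs_close {K L : Set (ℝ × ℝ)} (hK : IsBody K) (hL : IsBody L) {d ε : ℝ}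
    (hd : ∀ x ∈ K ∪ L, ∀ y ∈ K ∪ L, ∀ ψ, lv ψ (x - y) ≤ d)
    (hφ : ∀ ψ, ∃ φ, |φ - ψ| ≤ ε ∧ hs K φ = hs L φ) (ψ : ℝ) : |hs K ψ - hs L ψ| ≤ d * ε := by
  rw [abs_le]
  have h1 := v4_aux hK hL hd hφ ψ
  have h2 := v4_aux hL hK (d := d) (ε := ε) (fun x hx y hy χ => hd x hx.symm y hy.symm χ)
    (fun χ => by
      obtain ⟨φ, h1, h2⟩ := hφ χ
      exact ⟨φ, h1, h2.symm⟩) ψ
  constructor <;> linarith

end Pool.Agent.XA
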