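import Pool.Agent.XA.B2
import Pool.Agent.XA.C1

set_option autoImplicit false
open MeasureTheory Set

namespace Pool.Agent.XA

theorem v5_aux {K1 K2 L1 L2 : Set (ℝ × ℝ)} (hK1 : IsBody K1) (hK2 : IsBody K2)
    (hL1 : IsBody L1) (hK : K2 ⊆ interior K1) {θ : ℝ}
    (hX : ∀ c, volume {t : ℝ | pt θ c t ∈ K1 \ interior K2} =
      volume {t : ℝ | pt θ c t ∈ L1 \ interior L2}) : hs K1 θ ≤ hs L1 θ := by
  by_contra hlt
  rw [not_le] at hlt
  obtain ⟨w, hwK, hw⟩ := exists_lv_eq_hs hK2.compact (hK2.nonempty.mono interior_subset) θ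
  have h1 : hs K2 θ < hs K1 θ := hw ▸ lv_lt_hs hK1.compact θ (hK hwK)
  have h2 : -hs K1 (θ + Real.pi) < hs K1 θ := by
    have := width_pos hK1 θ
    linarith
  obtain ⟨c, hc1, hc2⟩ := exists_between (max_lt hlt (max_lt h1 h2))
  have e1 : hs L1 θ < c := lt_of_le_of_lt (le_max_left _ _) hc1
  have e2 : hs K2 θ < c := lt_of_le_of_lt (le_trans (le_max_left _ _) (le_max_right _ _)) hc1
  have e3 : -hs K1 (θ + Real.pi) < c := lt_of_le_of_lt (le_trans (le_max_right _ _) (le_max_right _ _)) hc1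
  obtain ⟨a, b, hab, hs1, -⟩ := chord_single hK1 e3 hc2
  have h3 : {t : ℝ | pt θ c t ∈ K1 \ interior K2} = Icc a b := by
    rw [← hs1]
    ext t
    refine ⟨fun h => h.1, fun h => ⟨h, fun h4 => ?_⟩⟩
    have h5 := lv_le_hs hK2.compact θ (interior_subset h4)
    rw [lv_pt] at h5
    linarith
  have h4 : {t : ℝ | pt θ c t ∈ L1 \ interior L2} = ∅ := by
    rw [Set.eq_empty_iff_forall_notMem]
    intro t ht
    have h5 := lv_le_hs hL1.compact θ ht.1
    rw [lv_pt] at h5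
    linarith
  have h5 := hX c
  rw [h3, h4, measure_empty, Real.volume_Icc, ENNReal.ofReal_eq_zero] at h5
  linarith

/-- **Equal support values for annuli.**  By symmetry suppose `hs L1 θ < hs K1 θ`.  `K2` is compact and in
the interior of `K1`, so `hs K2 θ < hs K1 θ` (`exists_lv_eq_hs`, `lv_lt_hs`).  Choose `c` with
`max (hs L1 θ) (max (hs K2 θ) (- hs K1 (θ + π))) < c < hs K1 θ`.  The slice of `K1 \ interior K2` at `c` is the slice
`Icc a b` of `K1`, `a < b` (`chord_single`), of positive volume; the slice of `L1 \ interior L2` is empty. -/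
theorem hs_eq_annuli {K1 K2 L1 L2 : Set (ℝ × ℝ)} (hK1 : IsBody K1) (hK2 : IsBody K2)
    (hL1 : IsBody L1) (hL2 : IsBody L2) (hK : K2 ⊆ interior K1) (hL : L2 ⊆ interior L1) {θ : ℝ}
    (hX : ∀ c, volume {t : ℝ | pt θ c t ∈ K1 \ interior K2} =
      volume {t : ℝ | pt θ c t ∈ L1 \ interior L2}) : hs K1 θ = hs L1 θ := by
  exact le_antisymm (v5_aux hK1 hK2 hL1 hK hX) (v5_aux hL1 hL2 hK1 hL fun c => (hX c).symm)

end Pool.Agent.XA
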