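import Pool.Agent.XA.V2
import Pool.Agent.XA.V3
import Pool.Agent.XA.V4
import Pool.Agent.XA.V5

set_option autoImplicit false
open MeasureTheory Set

namespace Pool.Agent.XA

/-- **Depth transfer: the second hole is deep at the S-angle `θ`.**  Put `δ = ρ / D`; `4 ρ ≤ D` (`hdisc` at `θ` and
`θ + π`, `hw`), so `δ ≤ 1/4`; `e = 2 D ε`, `H = hs K1 θ = hs L1 θ`, `c₀ = lv θ x₀`, `cs = H - 3 ρ / 4`; `H - c₀ ≥ 2 ρ`,
`H - c₀ ≤ D` (`- c₀ = lv (θ + π) x₀ ≤ hs K1 (θ + π)`).  `F_K = len K1 θ`, `F_L = len L1 θ`, `g = len (interior L2) θ`.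
(1) `incl_of_hs` (`r = 2 ρ`, `hclose`): for `w ∈ L1`, `x₀ + (1 + μ)⁻¹ • (w - x₀) ∈ K1`, `μ = e / (2 ρ) = ε / δ < δ³/12`.
`scale_len`: `F_L cs ≤ (1 + μ) F_K c'`, `c' = c₀ + (1 + μ)⁻¹ (cs - c₀) ≤ cs`.  `cone_len` for `K1` and a point of level
`H`: `(H - cs)/(H - c') F_K c' ≤ F_K cs`, with `H - cs = 3 ρ / 4`, `H - c' ≤ 3 ρ / 4 + μ D`.  So
`F_L cs ≤ (1 + μ)(1 + 4 μ / (3 δ)) F_K cs` and, as `F_K cs ≤ D` (`len_le_width`) and `δ ≤ 1/4`,
`F_L cs - F_K cs ≤ 2 (μ / δ) D = 2 ε D / δ² < δ² D / 6`.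
(2) `hX cs` and `len_diff`: `len (interior K2) θ cs = 0` (`cs > hs K2 θ`), so `g cs = F_L cs - F_K cs < δ² D / 6`.
(3) `hs L1 ψ ≥ lv ψ x₀ + 2 ρ - e ≥ lv ψ x₀ + ρ`; `incl_of_hs` for `L1` (`r = ρ`) and `scale_len` at `c = c₀` (then
`c' = c₀`): `F_K c₀ ≤ (1 + μ') F_L c₀`, `μ' = e / ρ = 2 ε / δ`; so `F_K c₀ - F_L c₀ ≤ μ' F_K c₀ ≤ μ' D`.
`hX c₀`, `len_diff`, `len (interior K2) θ c₀ ≥ 2 ρ` (`hK2`: the slice contains `Ioo (tg θ x₀ - ρ) (tg θ x₀ + ρ)`):
`g c₀ ≥ 2 ρ - μ' D = D (2 δ - 2 ε / δ) ≥ ρ`.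
(4) Suppose `y ∈ L2` with `lv θ y > H - ρ / 2`; `lv θ y ≤ H`.  `cone_len` for `L2` from `c₀` to `cs`:
`len L2 θ cs ≥ (lv θ y - cs)/(lv θ y - c₀) * len L2 θ c₀ ≥ ((ρ/4)/D) ρ = δ² D / 4`, where
`len L2 θ c₀ ≥ g c₀ ≥ ρ` (`len_mono`).  `len_interior` for `L2` at `cs` (`cs < lv θ y ≤ hs L2 θ`, and `L2` has a point of level
`c₀ < cs`, since `g c₀ > 0`): `g cs = len L2 θ cs ≥ δ² D / 4 > δ² D / 6`, a contradiction. -/
theorem depth_transfer {K1 K2 L1 L2 : Set (ℝ × ℝ)} (hK1 : IsBody K1) (hK2 : IsBody K2)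
    (hL1 : IsBody L1) (hL2 : IsBody L2) (hKs : K2 ⊆ K1) (hLs : L2 ⊆ L1) {x₀ : ℝ × ℝ}
    {ρ D ε θ : ℝ} (hρ : 0 < ρ) (hε0 : 0 < ε) (hε : ε < (ρ / D) ^ 4 / 12)
    (hdisc : ∀ ψ, lv ψ x₀ + 2 * ρ ≤ hs K1 ψ) (hclose : ∀ ψ, |hs K1 ψ - hs L1 ψ| ≤ 2 * D * ε)
    (hw : ∀ ψ, hs K1 ψ + hs K1 (ψ + Real.pi) ≤ D) (htop : hs K1 θ = hs L1 θ)
    (hK2d : hs K2 θ + ρ ≤ hs K1 θ)
    (hK2i : ∀ t, |t| < ρ → pt θ (lv θ x₀) (tg θ x₀ + t) ∈ interior K2)
    (hX : ∀ c, volume {t : ℝ | pt θ c t ∈ K1 \ interior K2} =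
      volume {t : ℝ | pt θ c t ∈ L1 \ interior L2}) :
    ∀ y ∈ L2, lv θ y + ρ / 2 ≤ hs L1 θ := by
  -- basic inequalities
  have hlp : lv (θ + Real.pi) x₀ = - lv θ x₀ := lv_add_pi θ x₀
  have hd1 := hdisc θ
  have hd2 := hdisc (θ + Real.pi)
  have hwθ := hw θ
  rw [hlp] at hd2
  have hDρ : 4 * ρ ≤ D := by linarith
  have hD : 0 < D := by linarith
  set H := hs K1 θ with hH
  set c0 := lv θ x₀ with hc0
  set cs := H - 3 * ρ / 4 with hcs
  set δ := ρ / D with hδ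
  have hρD : ρ = δ * D := by rw [hδ]; field_simp
  have hδ0 : 0 < δ := by rw [hδ]; positivity
  have hδ1 : δ ≤ 1 / 4 := by
    rw [hδ, div_le_iff₀ hD]; linarith
  have hHc1 : 2 * ρ ≤ H - c0 := by linarith
  have hHc2 : H - c0 ≤ D := by linarith
  have he0 : 0 ≤ 2 * D * ε := by positivity
  -- `μ`
  set μ := 2 * D * ε / (2 * ρ) with hμ
  have hμ0 : 0 ≤ μ := by rw [hμ]; positivity
  have hμδ : μ * δ = ε := by
    rw [hμ, hδ]; field_simp
  have hμ3 : μ < δ ^ 3 / 12 := by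
    by_contra hcon
    push Not at hcon
    have h1 : δ ^ 3 / 12 * δ ≤ μ * δ := mul_le_mul_of_nonneg_right hcon hδ0.le
    rw [hμδ] at h1
    have h2 : δ ^ 3 / 12 * δ = δ ^ 4 / 12 := by ring
    linarith
  -- nonnegativity of lengths
  have hlen0 : ∀ (K : Set (ℝ × ℝ)) (c : ℝ), 0 ≤ len K θ c := fun K c => ENNReal.toReal_nonneg
  -- step (1)
  have hincl1 : ∀ w ∈ L1, x₀ + (1 + 2 * D * ε / (2 * ρ))⁻¹ • (w - x₀) ∈ K1 := by
    intro w hwL
    refine incl_of_hs hK1 (by linarith) he0 hdisc (fun ψ => ?_)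
    have h1 := lv_le_hs hL1.compact ψ hwL
    have h2 := abs_le.1 (hclose ψ)
    linarith [h2.1]
  have hs1 := scale_len hK1.compact hμ0 hincl1 θ cs
  rw [← hc0] at hs1
  set c' := c0 + (1 + μ)⁻¹ * (cs - c0) with hc'
  have hinv1 : (1 + μ)⁻¹ ≤ 1 := inv_le_one_of_one_le₀ (by linarith)
  have hinv0 : 0 < (1 + μ)⁻¹ := by positivity
  have hinv2 : 1 - μ ≤ (1 + μ)⁻¹ := by
    rw [← one_div, le_div_iff₀ (by linarith only [hμ0])]
    have h1 : (1 - μ) * (1 + μ) = 1 - μ ^ 2 := by ring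
    have h2 := sq_nonneg μ
    linarith only [h1, h2]
  have hcc0 : 0 ≤ cs - c0 := by rw [hcs]; linarith
  have hccD : cs - c0 ≤ D := by rw [hcs]; linarith
  have hc'1 : c' ≤ cs := by
    have h1 : (1 + μ)⁻¹ * (cs - c0) ≤ 1 * (cs - c0) := mul_le_mul_of_nonneg_right hinv1 hcc0
    rw [hc']
    linarith only [h1]
  have hc'2 : cs - c' ≤ μ * D := by
    have h1 : cs - c' = (1 - (1 + μ)⁻¹) * (cs - c0) := by rw [hc']; ring
    rw [h1]
    have h2 : 1 - (1 + μ)⁻¹ ≤ μ := by linarith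
    have h3 : 0 ≤ 1 - (1 + μ)⁻¹ := by linarith
    exact mul_le_mul h2 hccD hcc0 hμ0
  obtain ⟨yt, hytK, hyt⟩ := exists_lv_eq_hs hK1.compact (hK1.nonempty.mono interior_subset) θ
  have hcone1 := cone_len hK1.compact hK1.convex (θ := θ) (c1 := c') (c2 := cs) hytK hc'1
    (by rw [hyt, ← hH, hcs]; linarith)
  rw [hyt, ← hH] at hcone1
  set a := len K1 θ cs with ha
  set B := len K1 θ c' with hB
  have ha0 : 0 ≤ a := hlen0 _ _
  have hB0 : 0 ≤ B := hlen0 _ _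
  have haD : a ≤ D := len_le_width hK1 hw θ cs
  have hHcs : H - cs = 3 * ρ / 4 := by rw [hcs]; ring
  have hHc' : 0 < H - c' := by linarith
  have hstep : 3 * δ * B ≤ a * (3 * δ + 4 * μ) := by
    have h1 : (H - cs) * B ≤ a * (H - c') := by
      have h2 := mul_le_mul_of_nonneg_right hcone1 hHc'.le
      have h3 : (H - cs) / (H - c') * B * (H - c') = (H - cs) * B := by
        field_simp
      rw [h3] at h2
      exact h2
    have h4 : a * (H - c') ≤ a * (3 * ρ / 4 + μ * D) := by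
      apply mul_le_mul_of_nonneg_left _ ha0
      linarith
    rw [hHcs] at h1
    have h5 : D * (3 * δ * B) ≤ D * (a * (3 * δ + 4 * μ)) := by
      have e1 : D * (3 * δ * B) = 4 * (3 * ρ / 4 * B) := by rw [hρD]; ring
      have e2 : D * (a * (3 * δ + 4 * μ)) = 4 * (a * (3 * ρ / 4 + μ * D)) := by rw [hρD]; ring
      rw [e1, e2]
      linarith
    exact le_of_mul_le_mul_left h5 hD
  set FL := len L1 θ cs with hFL
  have hdiff1 : FL - a < δ ^ 2 * D / 6 := by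
    have h1 : 3 * δ * FL ≤ (1 + μ) * (a * (3 * δ + 4 * μ)) := by
      calc 3 * δ * FL ≤ 3 * δ * ((1 + μ) * B) := mul_le_mul_of_nonneg_left hs1 (by positivity)
        _ = (1 + μ) * (3 * δ * B) := by ring
        _ ≤ _ := mul_le_mul_of_nonneg_left hstep (by linarith)
    have h2 : 3 * δ * (FL - a) ≤ a * (4 * μ + 3 * δ * μ + 4 * μ ^ 2) := by
      calc 3 * δ * (FL - a) = 3 * δ * FL - 3 * δ * a := by ring
        _ ≤ (1 + μ) * (a * (3 * δ + 4 * μ)) - 3 * δ * a := by linarith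
        _ = _ := by ring
    have h3 : a * (4 * μ + 3 * δ * μ + 4 * μ ^ 2) ≤ D * (4 * μ + 3 * δ * μ + 4 * μ ^ 2) :=
      mul_le_mul_of_nonneg_right haD (by positivity)
    have h4 : 4 * μ + 3 * δ * μ + 4 * μ ^ 2 < δ ^ 3 / 2 := by
      have h5 : 3 * δ * μ ≤ 3 / 4 * μ := by
        have : 3 * δ ≤ 3 / 4 := by linarith only [hδ1]
        exact mul_le_mul_of_nonneg_right this hμ0
      have h6 : δ ^ 3 ≤ 1 / 64 := by
        calc δ ^ 3 ≤ (1 / 4) ^ 3 := pow_le_pow_left₀ hδ0.le hδ1 3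
          _ = 1 / 64 := by norm_num
      have h7 : μ ≤ 1 / 100 := by linarith
      have h8 : 4 * μ ^ 2 ≤ 4 / 100 * μ := by
        have h9 : μ * μ ≤ 1 / 100 * μ := mul_le_mul_of_nonneg_right h7 hμ0
        have h10 : μ ^ 2 = μ * μ := by ring
        linarith only [h9, h10]
      linarith
    have h5 : D * (4 * μ + 3 * δ * μ + 4 * μ ^ 2) < D * (δ ^ 3 / 2) :=
      mul_lt_mul_of_pos_left h4 hD
    have h6 : 3 * δ * (FL - a) < 3 * δ * (δ ^ 2 * D / 6) := by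
      have e : 3 * δ * (δ ^ 2 * D / 6) = D * (δ ^ 3 / 2) := by ring
      rw [e]
      linarith
    exact lt_of_mul_lt_mul_left h6 (by positivity)
  -- step (2)
  have hdf : ∀ c, len K1 θ c - len (interior K2) θ c = len L1 θ c - len (interior L2) θ c :=
    fun c => len_diff hK1.compact hL1.compact isOpen_interior isOpen_interior
      (interior_subset.trans hKs) (interior_subset.trans hLs) (hX c)
  have hzero : len (interior K2) θ cs = 0 := by
    have h1 : {t : ℝ | pt θ cs t ∈ interior K2} = ∅ := by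
      ext t
      simp only [Set.mem_ofPred_eq, Set.mem_empty_iff_false, iff_false]
      intro h2
      have h3 := lv_le_hs hK2.compact θ (interior_subset h2)
      rw [lv_pt] at h3
      linarith
    unfold len
    rw [h1]
    simp
  have hg1 : len (interior L2) θ cs < δ ^ 2 * D / 6 := by
    have h1 := hdf cs
    rw [hzero] at h1
    linarith
  -- step (3)
  have heρ : 2 * D * ε < ρ * δ ^ 3 / 6 := by
    have h1 : 2 * D * ε < 2 * D * (δ ^ 4 / 12) := by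
      apply mul_lt_mul_of_pos_left hε
      positivity
    have h2 : 2 * D * (δ ^ 4 / 12) = ρ * δ ^ 3 / 6 := by
      rw [hρD]; ring
    linarith
  have hδ3 : δ ^ 3 ≤ 1 := pow_le_one₀ hδ0.le (by linarith)
  have heρ2 : 2 * D * ε ≤ ρ := by
    have h1 : ρ * δ ^ 3 ≤ ρ * 1 := mul_le_mul_of_nonneg_left hδ3 hρ.le
    linarith only [h1, heρ, hρ]
  have hincl2 : ∀ w ∈ K1, x₀ + (1 + 2 * D * ε / ρ)⁻¹ • (w - x₀) ∈ L1 := by
    intro w hwK
    refine incl_of_hs hL1 hρ he0 (fun ψ => ?_) (fun ψ => ?_)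
    · have h1 := hdisc ψ
      have h2 := abs_le.1 (hclose ψ)
      linarith [h2.2]
    · have h1 := lv_le_hs hK1.compact ψ hwK
      have h2 := abs_le.1 (hclose ψ)
      linarith [h2.2]
  set μ' := 2 * D * ε / ρ with hμ'
  have hμ'0 : 0 ≤ μ' := by rw [hμ']; positivity
  have hμ'D : μ' * D < ρ := by
    have h1 : μ' * ρ = 2 * D * ε := by rw [hμ']; field_simp
    have h2 : μ' * D * δ = 2 * D * ε := by rw [← h1, hρD]; ring
    have h3 : μ' * D * δ < ρ * δ := by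
      rw [h2]
      have h4 : ρ * δ ^ 3 / 6 ≤ ρ * δ := by
        have h5 : δ ^ 3 ≤ δ := by
          have h8 : δ ^ 2 ≤ 1 := pow_le_one₀ hδ0.le (by linarith only [hδ1])
          have h9 : δ ^ 2 * δ ≤ 1 * δ := mul_le_mul_of_nonneg_right h8 hδ0.le
          have h10 : δ ^ 3 = δ ^ 2 * δ := by ring
          linarith only [h9, h10]
        have h6 : ρ * δ ^ 3 ≤ ρ * δ := mul_le_mul_of_nonneg_left h5 hρ.le
        have h7 : 0 ≤ ρ * δ ^ 3 := by positivity
        linarith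
      linarith
    exact lt_of_mul_lt_mul_right h3 hδ0.le
  have hs2 := scale_len hL1.compact hμ'0 hincl2 θ c0
  rw [← hc0, sub_self, mul_zero, add_zero] at hs2
  have hFK0 : len K1 θ c0 ≤ D := len_le_width hK1 hw θ c0
  have hdiff2 : len K1 θ c0 - len L1 θ c0 ≤ μ' * D := by
    by_cases h1 : len L1 θ c0 ≤ D
    · have h2 : μ' * len L1 θ c0 ≤ μ' * D := mul_le_mul_of_nonneg_left h1 hμ'0
      linarith
    · push Not at h1
      have h2 : 0 ≤ μ' * D := by positivity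
      linarith
  have hlenK2 : 2 * ρ ≤ len (interior K2) θ c0 := by
    have h1 : Ioo (tg θ x₀ - ρ) (tg θ x₀ + ρ) ⊆ {t : ℝ | pt θ c0 t ∈ interior K2} := by
      intro t ht
      have h2 := hK2i (t - tg θ x₀) (by rw [abs_lt]; constructor <;> linarith [ht.1, ht.2])
      rw [add_sub_cancel] at h2
      exact h2
    have h3 : volume {t : ℝ | pt θ c0 t ∈ interior K2} < ⊤ := by
      refine lt_of_le_of_lt (measure_mono ?_) (slice_lt_top hK2.compact θ c0)
      intro t ht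
      have ht' : pt θ c0 t ∈ interior K2 := ht
      have ht2 : pt θ c0 t ∈ K2 := interior_subset ht'
      exact ht2
    have h4 := ENNReal.toReal_mono h3.ne (measure_mono h1)
    rw [Real.volume_Ioo, ENNReal.toReal_ofReal (by linarith)] at h4
    unfold len
    linarith
  have hg0 : ρ ≤ len (interior L2) θ c0 := by
    have h1 := hdf c0
    linarith
  -- step (4)
  intro y hy
  by_contra hcon
  push Not at hcon
  rw [← htop] at hcon
  have hyH : lv θ y ≤ H := by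
    rw [htop]
    exact lv_le_hs hL1.compact θ (hLs hy)
  have hcsy : cs < lv θ y := by rw [hcs]; linarith
  have hcone2 := cone_len hL2.compact hL2.convex (θ := θ) (c1 := c0) (c2 := cs) hy
    (by linarith) hcsy
  have hL20 : ρ ≤ len L2 θ c0 := hg0.trans (len_mono hL2.compact interior_subset θ c0)
  have hlow : δ ^ 2 * D / 4 ≤ len L2 θ cs := by
    refine le_trans ?_ hcone2
    have h1 : 0 < lv θ y - c0 := by linarith
    have h2 : ρ / 4 / D ≤ (lv θ y - cs) / (lv θ y - c0) := by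
      rw [div_le_div_iff₀ hD h1]
      have h3 : ρ / 4 ≤ lv θ y - cs := by rw [hcs]; linarith
      have h4 : lv θ y - c0 ≤ D := by linarith
      calc ρ / 4 * (lv θ y - c0) ≤ ρ / 4 * D := mul_le_mul_of_nonneg_left h4 (by positivity)
        _ ≤ (lv θ y - cs) * D := mul_le_mul_of_nonneg_right h3 hD.le
    calc δ ^ 2 * D / 4 = ρ / 4 / D * ρ := by rw [hρD]; field_simp
      _ ≤ (lv θ y - cs) / (lv θ y - c0) * len L2 θ c0 :=
        mul_le_mul h2 hL20 hρ.le (le_trans (by positivity) h2)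
  -- a point of `L2` of level `c0`
  have hex : ∃ t : ℝ, pt θ c0 t ∈ interior L2 := by
    by_contra h1
    push Not at h1
    have h2 : {t : ℝ | pt θ c0 t ∈ interior L2} = ∅ := by
      ext t
      simp only [Set.mem_ofPred_eq, Set.mem_empty_iff_false, iff_false]
      exact h1 t
    have h3 : len (interior L2) θ c0 = 0 := by
      unfold len
      rw [h2]
      simp
    linarith
  obtain ⟨t0, ht0⟩ := hex
  have hbot : -hs L2 (θ + Real.pi) < cs := by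
    have h1 := neg_hs_le_lv hL2.compact θ (interior_subset ht0)
    rw [lv_pt] at h1
    linarith
  have htop2 : cs < hs L2 θ := lt_of_lt_of_le hcsy (lv_le_hs hL2.compact θ hy)
  have heq := len_interior hL2 hbot htop2
  have hpos : 0 < δ ^ 2 * D := by positivity
  rw [heq] at hg1
  linarith

end Pool.Agent.XA
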