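import Pool.Agent.XA.T0
import Pool.Agent.XA.B2

set_option autoImplicit false
open MeasureTheory Set

namespace Pool.Agent.XA

theorem t3_dist (a b : ℝ × ℝ) :
    dist (toE a) (toE b) = √((a.1 - b.1) ^ 2 + (a.2 - b.2) ^ 2) := by
  rw [EuclideanSpace.dist_eq, Fin.sum_univ_two]
  simp [toE, Real.dist_eq, sq_abs]

/-- The point `p + r • (cos ψ, sin ψ)` has (in `EuclideanSpace`) distance `r` from `toE p`, so it is in
`toE ⁻¹' K`, and its level is `lv ψ p + r`; `lv_le_hs` (`toE ⁻¹' K` is compact, `hK'`). -/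
theorem deep_toE {K : Set (EuclideanSpace ℝ (Fin 2))} (hK' : IsCompact (toE ⁻¹' K)) {r : ℝ}
    (hr : 0 ≤ r) {p : ℝ × ℝ} (hp : Metric.closedBall (toE p) r ⊆ K) (ψ : ℝ) :
    lv ψ p + r ≤ hs (toE ⁻¹' K) ψ := by
  have h1 := Real.sin_sq_add_cos_sq ψ
  have hq : (p.1 + r * Real.cos ψ, p.2 + r * Real.sin ψ) ∈ toE ⁻¹' K := by
    apply hp
    rw [Metric.mem_closedBall, t3_dist]
    apply le_of_eq
    have : (p.1 + r * Real.cos ψ - p.1) ^ 2 + (p.2 + r * Real.sin ψ - p.2) ^ 2 = r ^ 2 := by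
      linear_combination r ^ 2 * h1
    simp only [this]
    exact Real.sqrt_sq hr
  have h2 := lv_le_hs hK' ψ hq
  have h3 : lv ψ (p.1 + r * Real.cos ψ, p.2 + r * Real.sin ψ) = lv ψ p + r := by
    simp only [lv]
    linear_combination r * h1
  rw [h3] at h2
  exact h2

/-- Let `a, b ∈ toE ⁻¹' K` with `lv θ a = hs θ`, `lv (θ + π) b = hs (θ + π)` (`exists_lv_eq_hs`); the sum is
`lv θ a - lv θ b = lv θ (a - b) ≤ √((a-b).1² + (a-b).2²)` (Cauchy-Schwarz) `= dist (toE a) (toE b) ≤ diam K`. -/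
theorem width_le_diam {K : Set (EuclideanSpace ℝ (Fin 2))} (hK : IsCompact K)
    (hK' : IsBody (toE ⁻¹' K)) (θ : ℝ) :
    hs (toE ⁻¹' K) θ + hs (toE ⁻¹' K) (θ + Real.pi) ≤ Metric.diam K := by
  have hne : (toE ⁻¹' K).Nonempty := hK'.nonempty.mono interior_subset
  obtain ⟨a, ha, ea⟩ := exists_lv_eq_hs hK'.compact hne θ
  obtain ⟨b, hb, eb⟩ := exists_lv_eq_hs hK'.compact hne (θ + Real.pi)
  rw [← ea, ← eb, lv_add_pi]
  have h1 : dist (toE a) (toE b) ≤ Metric.diam K := Metric.dist_le_diam_of_mem hK.isBounded ha hb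
  rw [t3_dist] at h1
  refine le_trans ?_ h1
  apply Real.le_sqrt_of_sq_le
  simp only [lv]
  have h2 := Real.sin_sq_add_cos_sq θ
  have h3 : (a.1 - b.1) ^ 2 + (a.2 - b.2) ^ 2 -
      (a.1 * Real.cos θ + a.2 * Real.sin θ + -(b.1 * Real.cos θ + b.2 * Real.sin θ)) ^ 2 =
      ((a.1 - b.1) * Real.sin θ - (a.2 - b.2) * Real.cos θ) ^ 2 := by
    linear_combination (-((a.1 - b.1) ^ 2 + (a.2 - b.2) ^ 2)) * h2
  nlinarith [sq_nonneg ((a.1 - b.1) * Real.sin θ - (a.2 - b.2) * Real.cos θ)]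

/-- a body has positive diameter (e.g. `width_le_diam` and `width_pos`) -/
theorem diam_pos {K : Set (EuclideanSpace ℝ (Fin 2))} (hK : IsCompact K)
    (hK' : IsBody (toE ⁻¹' K)) : 0 < Metric.diam K :=
  lt_of_lt_of_le (width_pos hK' 0) (width_le_diam hK hK' 0)

end Pool.Agent.XA
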