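import Pool.Agent.XA.T3
import Pool.Agent.XA.T1

set_option autoImplicit false
open MeasureTheory Set

namespace Pool.Agent.XA

theorem v7_dist (p q : ℝ × ℝ) :
    dist (toE p) (toE q) = Real.sqrt ((p.1 - q.1) ^ 2 + (p.2 - q.2) ^ 2) := by
  rw [EuclideanSpace.dist_eq, Fin.sum_univ_two]
  simp only [toE, Real.dist_eq, sq_abs, Matrix.cons_val_zero, Matrix.cons_val_one]

/-- The point `pt θ (lv θ x₀) (tg θ x₀ + t)` has distance `|t| < ρ` from `x₀` (in `EuclideanSpace`, after `toE`), so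
it is in the open ball, which is contained in `interior K` (`interior_maximal`; `interior_toE`). -/
theorem disc_slice {K : Set (EuclideanSpace ℝ (Fin 2))} {x₀ : ℝ × ℝ} {ρ : ℝ}
    (h : Metric.closedBall (toE x₀) ρ ⊆ K) (θ : ℝ) {t : ℝ} (ht : |t| < ρ) :
    pt θ (lv θ x₀) (tg θ x₀ + t) ∈ interior (toE ⁻¹' K) := by
  rw [interior_toE, Set.mem_preimage]
  have hsub : Metric.ball (toE x₀) ρ ⊆ interior K :=
    interior_maximal (Metric.ball_subset_closedBall.trans h) Metric.isOpen_ball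
  apply hsub
  rw [Metric.mem_ball, v7_dist]
  have hx := pt_lv_tg θ x₀
  have hx1 : x₀.1 = lv θ x₀ * Real.cos θ - tg θ x₀ * Real.sin θ := by
    conv_lhs => rw [← hx]
    rfl
  have hx2 : x₀.2 = lv θ x₀ * Real.sin θ + tg θ x₀ * Real.cos θ := by
    conv_lhs => rw [← hx]
    rfl
  have e1 : (pt θ (lv θ x₀) (tg θ x₀ + t)).1 - x₀.1 = -(t * Real.sin θ) := by
    simp only [pt]
    linear_combination -hx1
  have e2 : (pt θ (lv θ x₀) (tg θ x₀ + t)).2 - x₀.2 = t * Real.cos θ := by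
    simp only [pt]
    linear_combination -hx2
  have e3 : (-(t * Real.sin θ)) ^ 2 + (t * Real.cos θ) ^ 2 = t ^ 2 := by
    linear_combination t ^ 2 * Real.sin_sq_add_cos_sq θ
  rw [e1, e2, e3, Real.sqrt_sq_eq_abs]
  exact ht

/-- For the direction `ψ` let `p = x₀ + ρ • (cos ψ, sin ψ)`; `toE p ∈ closedBall (toE x₀) ρ ⊆ K₂`, so
`closedBall (toE p) ρ ⊆ K₁` and `deep_toE` gives `lv ψ p + ρ ≤ hs (toE ⁻¹' K₁) ψ`, where `lv ψ p = lv ψ x₀ + ρ`. -/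
theorem disc_deep {K₁ K₂ : Set (EuclideanSpace ℝ (Fin 2))} (hK' : IsCompact (toE ⁻¹' K₁))
    {x₀ : ℝ × ℝ} {ρ : ℝ} (hρ : 0 ≤ ρ) (h : Metric.closedBall (toE x₀) ρ ⊆ K₂)
    (hd : ∀ x ∈ K₂, Metric.closedBall x ρ ⊆ K₁) (ψ : ℝ) :
    lv ψ x₀ + 2 * ρ ≤ hs (toE ⁻¹' K₁) ψ := by
  set p : ℝ × ℝ := (x₀.1 + ρ * Real.cos ψ, x₀.2 + ρ * Real.sin ψ) with hp
  have h1 : toE p ∈ Metric.closedBall (toE x₀) ρ := by
    rw [Metric.mem_closedBall, v7_dist]
    have e1 : p.1 - x₀.1 = ρ * Real.cos ψ := by simp [hp]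
    have e2 : p.2 - x₀.2 = ρ * Real.sin ψ := by simp [hp]
    have e3 : (ρ * Real.cos ψ) ^ 2 + (ρ * Real.sin ψ) ^ 2 = ρ ^ 2 := by
      linear_combination ρ ^ 2 * Real.sin_sq_add_cos_sq ψ
    rw [e1, e2, e3, Real.sqrt_sq hρ]
  have h2 := deep_toE hK' hρ (hd _ (h h1)) ψ
  have h3 : lv ψ p = lv ψ x₀ + ρ := by
    simp only [lv, hp]
    linear_combination ρ * Real.sin_sq_add_cos_sq ψ
  linarith

end Pool.Agent.XA
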