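import Pool.Agent.XA.Z1
import Pool.Agent.XA.E4
import Pool.Agent.XA.T1
import Pool.Agent.XA.T2
import Pool.Agent.XA.T3
import Pool.Agent.XA.T4
import Pool.Agent.XA.V6
import Pool.Agent.XA.V7

set_option autoImplicit false
open MeasureTheory Set

namespace Pool.Agent.XA

theorem v8_near {N : ℕ} (hN : 0 < N) {s : ℕ → ℝ} (h : Slopes N s) (ψ : ℝ) :
    ∃ i, |ang N s i - ψ| ≤ 2 * Real.pi / N := by
  obtain ⟨i₁, hi₁⟩ := ang_above hN h ψ
  obtain ⟨i₀, hi₀⟩ := ang_below hN h ψ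
  have hmono := ang_strictMono hN h
  obtain ⟨i, hi, hmax⟩ := Int.exists_greatest_of_bdd (P := fun i => ang N s i ≤ ψ)
    ⟨i₁, fun z hz => by
      by_contra hc
      rw [not_le] at hc
      have := hmono hc
      linarith⟩ ⟨i₀, hi₀.le⟩
  refine ⟨i, ?_⟩
  have h1 : ψ < ang N s (i + 1) := by
    by_contra hc
    rw [not_lt] at hc
    have := hmax (i + 1) hc
    omega
  have h2 := ang_gap hN h i
  rw [abs_sub_comm, abs_of_nonneg (by linarith)]
  linarith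

/-- **The outer bodies of a deep, fat annulus and of an arbitrary annulus with the same X-rays coincide.**
Primes denote preimages under `toE`; all are bodies (`IsBody_toE`).  `D = diam K₁`, `ρ = δ D > 0` (`diam_pos`),
`ε = 2 π / N`, `x₀` with `toE x₀` the centre of the disc (`toE_surjective`).  `xray_toE` (`ang_trig`): the slices of
`K₁' \ interior K₂'` and `L₁' \ interior L₂'` (`interior_toE`) at all levels of all S-angles `ang N s i` have equal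
volumes.  `hs_eq_annuli`: `hs K₁' = hs L₁'` at all S-angles, also at `ang i + π = ang (i + N)` (`ang_add_N`).
`spread` (`w0 = D`, `width_le_diam`; for every `ψ` an S-angle at distance `≤ ε`, as in `lemmaG`): all
`lv ψ (x - y) ≤ 2 D` on `K₁' ∪ L₁'`; `hs_close`: `|hs K₁' - hs L₁'| ≤ 2 D ε`.  `disc_deep`, `disc_slice`,
`hs K₂' θ + ρ ≤ hs K₁' θ` (`deep_toE` for the extreme point of `K₂'`); `depth_transfer` (`ρ / D = δ`):
`lv (ang i) y + ρ / 2 ≤ hs L₁' (ang i)` for `y ∈ L₂'`.  For a level `c` above `QK = K₂'` and `QL = L₂'`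
the slices of the annuli are the closed slices of `K₁'`, `L₁'` (`outer_slice` with `P = interior K₂'` etc.);
`interior_of_closed`; `lemmaG` with `ρ / 2` in place of `ρ` (`2 D * (85 ε) < δ D / 2`).  `eq_of_toE`. -/
theorem outer_fat {N : ℕ} (hN : 5 ≤ N) {s : ℕ → ℝ} (hs' : Slopes N s) {δ : ℝ} (hδ : 0 < δ)
    (hε : 2 * Real.pi / N ≤ 1 / 100) (hNδ : 340 * (2 * Real.pi / N) < δ)
    (hNδ' : 2 * Real.pi / N < δ ^ 4 / 12)
    {K₁ K₂ L₁ L₂ : Set (EuclideanSpace ℝ (Fin 2))}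
    (a1 : IsCompact K₁) (a2 : Convex ℝ K₁) (a3 : (interior K₁).Nonempty)
    (b1 : IsCompact K₂) (b2 : Convex ℝ K₂) (b3 : (interior K₂).Nonempty)
    (c1 : IsCompact L₁) (c2 : Convex ℝ L₁) (c3 : (interior L₁).Nonempty)
    (d1 : IsCompact L₂) (d2 : Convex ℝ L₂) (d3 : (interior L₂).Nonempty)
    (hdeep : ∀ x ∈ K₂, Metric.closedBall x (δ * Metric.diam K₁) ⊆ K₁)
    (hfat : ∃ x, Metric.closedBall x (δ * Metric.diam K₁) ⊆ K₂)
    (hL : L₂ ⊆ interior L₁)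
    (hX : ∀ r, r < N → ∀ x : EuclideanSpace ℝ (Fin 2),
      volume {t : ℝ | x + t • !₂[1, s r] ∈ K₁ \ interior K₂} =
        volume {t : ℝ | x + t • !₂[1, s r] ∈ L₁ \ interior L₂}) :
    K₁ = L₁ := by
  have hN0 : 0 < N := by omega
  have hNR : (0 : ℝ) < N := by exact_mod_cast hN0
  have hK1 : IsBody (toE ⁻¹' K₁) := IsBody_toE a1 a2 a3
  have hK2 : IsBody (toE ⁻¹' K₂) := IsBody_toE b1 b2 b3
  have hL1 : IsBody (toE ⁻¹' L₁) := IsBody_toE c1 c2 c3
  have hL2 : IsBody (toE ⁻¹' L₂) := IsBody_toE d1 d2 d3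
  have hD : 0 < Metric.diam K₁ := diam_pos a1 hK1
  have hρ : 0 < δ * Metric.diam K₁ := mul_pos hδ hD
  have hε0 : 0 < 2 * Real.pi / N := by positivity
  obtain ⟨x, hx⟩ := hfat
  obtain ⟨x₀, rfl⟩ := toE_surjective x
  have hKi : toE ⁻¹' K₂ ⊆ interior (toE ⁻¹' K₁) := by
    rw [interior_toE]
    intro y hy
    have h1 : Metric.ball (toE y) (δ * Metric.diam K₁) ⊆ K₁ := Metric.ball_subset_closedBall.trans (hdeep _ hy)
    exact interior_maximal h1 Metric.isOpen_ball (Metric.mem_ball_self hρ)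
  have hLi : toE ⁻¹' L₂ ⊆ interior (toE ⁻¹' L₁) := by
    rw [interior_toE]
    exact Set.preimage_mono hL
  have hKs : toE ⁻¹' K₂ ⊆ toE ⁻¹' K₁ := hKi.trans interior_subset
  have hLs : toE ⁻¹' L₂ ⊆ toE ⁻¹' L₁ := hLi.trans interior_subset
  have hXi : ∀ (i : ℤ) (c : ℝ), volume {t : ℝ | pt (ang N s i) c t ∈ toE ⁻¹' K₁ \ interior (toE ⁻¹' K₂)} =
      volume {t : ℝ | pt (ang N s i) c t ∈ toE ⁻¹' L₁ \ interior (toE ⁻¹' L₂)} := by
    intro i c
    obtain ⟨h0, hc⟩ := ang_trig N s i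
    have hr : (i % (N : ℤ)).toNat < N := by
      have h1 := Int.emod_nonneg i (show (N : ℤ) ≠ 0 by omega)
      have h2 := Int.emod_lt_of_pos i (show (0 : ℤ) < N by omega)
      omega
    have h3 := xray_toE h0 hc (hX _ hr) c
    rw [interior_toE, interior_toE, ← Set.preimage_sdiff, ← Set.preimage_sdiff]
    exact h3
  have htop : ∀ i : ℤ, hs (toE ⁻¹' K₁) (ang N s i) = hs (toE ⁻¹' L₁) (ang N s i) := fun i =>
    hs_eq_annuli hK1 hK2 hL1 hL2 hKi hLi (hXi i)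
  have hbot : ∀ i : ℤ, hs (toE ⁻¹' K₁) (ang N s i + Real.pi) = hs (toE ⁻¹' L₁) (ang N s i + Real.pi) := by
    intro i
    have h1 := htop (i + N)
    rw [ang_add_N hN0] at h1
    exact h1
  have hw : ∀ θ, hs (toE ⁻¹' K₁) θ + hs (toE ⁻¹' K₁) (θ + Real.pi) ≤ Metric.diam K₁ := width_le_diam a1 hK1
  have hsp := spread hK1 hL1 (w0 := Metric.diam K₁) (ε := 2 * Real.pi / N) (by linarith) hw (fun ψ => by
    obtain ⟨i, hi⟩ := v8_near hN0 hs' ψ
    exact ⟨ang N s i, hi, htop i, hbot i⟩)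
  have hcl : ∀ ψ, |hs (toE ⁻¹' K₁) ψ - hs (toE ⁻¹' L₁) ψ| ≤ 2 * Metric.diam K₁ * (2 * Real.pi / N) := fun ψ =>
    hs_close hK1 hL1 hsp (fun ψ => by
      obtain ⟨i, hi⟩ := v8_near hN0 hs' ψ
      exact ⟨ang N s i, hi, htop i⟩) ψ
  have hdisc : ∀ ψ, lv ψ x₀ + 2 * (δ * Metric.diam K₁) ≤ hs (toE ⁻¹' K₁) ψ := fun ψ =>
    disc_deep hK1.compact hρ.le hx hdeep ψ
  have hdp : ∀ θ, ∀ y ∈ toE ⁻¹' K₂, lv θ y + δ * Metric.diam K₁ ≤ hs (toE ⁻¹' K₁) θ := fun θ y hy =>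
    deep_toE hK1.compact hρ.le (hdeep _ hy) θ
  have hdep : ∀ i : ℤ, ∀ y ∈ toE ⁻¹' L₂, lv (ang N s i) y + δ * Metric.diam K₁ / 2 ≤ hs (toE ⁻¹' L₁) (ang N s i) := by
    intro i
    refine depth_transfer hK1 hK2 hL1 hL2 hKs hLs hρ hε0 ?_ hdisc hcl hw (htop i) ?_ (fun t ht => disc_slice hx _ ht) (hXi i)
    · rw [mul_div_cancel_right₀ _ hD.ne']
      exact hNδ'
    · obtain ⟨w, hwK, hw1⟩ := exists_lv_eq_hs hK2.compact (hK2.nonempty.mono interior_subset) (ang N s i)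
      rw [← hw1]
      exact hdp _ w hwK
  apply eq_of_toE
  refine lemmaG hN hs' hK1 hL1 (ρ := δ * Metric.diam K₁ / 2) (w0 := Metric.diam K₁) hw hε ?_ hKs hLs ?_ hdep ?_
  · have h1 := mul_lt_mul_of_pos_right hNδ hD
    linarith
  · intro i y hy
    have h1 := hdp (ang N s i) y hy
    linarith
  · intro i c hc
    exact interior_of_closed hK1 hL1 (htop i) (hbot i) (outer_slice (P := interior (toE ⁻¹' K₂)) (Q := interior (toE ⁻¹' L₂))
      (fun y hy => hc y (Or.inl (interior_subset hy))) (fun y hy => hc y (Or.inr (interior_subset hy))) (hXi i c))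

end Pool.Agent.XA
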