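import Pool.Agent.XA.T1

set_option autoImplicit false
open MeasureTheory Set

namespace Pool.Agent.XA

/-- **Every convex annulus is deep and fat for some `δ`.**  `K₂` is compact and contained in the open set
`interior K₁`, so some closed `r`-thickening of `K₂` is contained in it (`IsCompact.exists_cthickening_subset_open`);
`interior K₂` contains a closed ball of some radius `r' > 0` (`Metric.nhds_basis_closedBall`).
`δ = min r r' / (diam K₁ + 1)`, so `δ * diam K₁ ≤ min r r'`. -/
theorem exists_delta {K₁ K₂ : Set (EuclideanSpace ℝ (Fin 2))} (hK1 : IsCompact K₁)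
    (hK2 : IsCompact K₂) (h3 : (interior K₂).Nonempty) (h : K₂ ⊆ interior K₁) :
    ∃ δ : ℝ, 0 < δ ∧ (∀ x ∈ K₂, Metric.closedBall x (δ * Metric.diam K₁) ⊆ K₁) ∧
      ∃ x, Metric.closedBall x (δ * Metric.diam K₁) ⊆ K₂ := by
  obtain ⟨r, hr, h1⟩ := hK2.exists_cthickening_subset_open isOpen_interior h
  obtain ⟨x0, hx0⟩ := h3
  obtain ⟨r', hr', h2⟩ := Metric.nhds_basis_closedBall.mem_iff.1 (mem_interior_iff_mem_nhds.1 hx0)
  have hd : 0 ≤ Metric.diam K₁ := Metric.diam_nonneg
  have hm : 0 < min r r' := lt_min hr hr'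
  have hle : min r r' / (Metric.diam K₁ + 1) * Metric.diam K₁ ≤ min r r' := by
    rw [div_mul_eq_mul_div, div_le_iff₀ (by linarith)]
    nlinarith
  refine ⟨min r r' / (Metric.diam K₁ + 1), div_pos hm (by linarith), ?_, x0, ?_⟩
  · intro x hx
    refine (Metric.closedBall_subset_closedBall (hle.trans (min_le_left _ _))).trans ?_
    exact ((Metric.closedBall_subset_cthickening hx r).trans h1).trans interior_subset
  · exact (Metric.closedBall_subset_closedBall (hle.trans (min_le_right _ _))).trans h2

end Pool.Agent.XA
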