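import Pool.Agent.XA.Z1
import Pool.Agent.XA.T1
import Pool.Agent.XA.T2
import Pool.Agent.XA.T3

set_option autoImplicit false
open MeasureTheory Set

namespace Pool.Agent.XA

/-- **Bodies are determined by the X-rays of their interiors** in the directions `(1, s r)`: `lemmaG` with
`QK = QL = ∅`, `w0 = diam K`, `ρ = 2 w0 * (85 * (2 π / N)) + 1`; `interior_toE`, `xray_toE` (`ang_trig`, with
`r = (i % N).toNat < N`). -/
theorem inner_thm {N : ℕ} (hN : 5 ≤ N) {s : ℕ → ℝ} (hs' : Slopes N s)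
    (hε : 2 * Real.pi / N ≤ 1 / 100) {K L : Set (EuclideanSpace ℝ (Fin 2))}
    (hK1 : IsCompact K) (hK2 : Convex ℝ K) (hK3 : (interior K).Nonempty)
    (hL1 : IsCompact L) (hL2 : Convex ℝ L) (hL3 : (interior L).Nonempty)
    (hX : ∀ r, r < N → ∀ x : EuclideanSpace ℝ (Fin 2),
      volume {t : ℝ | x + t • !₂[1, s r] ∈ interior K} =
        volume {t : ℝ | x + t • !₂[1, s r] ∈ interior L}) :
    K = L := by
  have hK := IsBody_toE hK1 hK2 hK3
  have hL := IsBody_toE hL1 hL2 hL3
  refine eq_of_toE (lemmaG hN hs' (QK := ∅) (QL := ∅) hK hL (w0 := Metric.diam K)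
    (ρ := 2 * Metric.diam K * (85 * (2 * Real.pi / N)) + 1) (width_le_diam hK1 hK) hε
    (by linarith) (empty_subset _) (empty_subset _) (fun i y hy => absurd hy (notMem_empty y))
    (fun i y hy => absurd hy (notMem_empty y)) fun i c _ => ?_)
  rw [interior_toE, interior_toE]
  obtain ⟨h0, hc⟩ := ang_trig N s i
  have hN0 : (0 : ℤ) < N := by
    have : 0 < N := by omega
    exact_mod_cast this
  have h1 := Int.emod_nonneg i hN0.ne'
  have h2 := Int.emod_lt_of_pos i hN0
  exact xray_toE h0 hc (hX (i % (N : ℤ)).toNat (by omega)) c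

end Pool.Agent.XA
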