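import Pool.Agent.XA.Z2
import Pool.Agent.XA.Z3
import Pool.Agent.XA.V8
import Pool.Agent.XA.V9

set_option autoImplicit false
open MeasureTheory Set

namespace Pool.Agent.XA

theorem z5_ne (a : ℝ) : (!₂[1, a] : EuclideanSpace ℝ (Fin 2)) ≠ 0 := by
  intro h
  have h1 := congrFun (congrArg (fun v : EuclideanSpace ℝ (Fin 2) => v.ofLp) h) 0
  simp at h1

/-- **Main theorem, uniform part.**  Choose `N ≥ 5` with `2 π / N ≤ 1/100`, `340 * (2 π / N) < δ` and
`2 π / N < δ ^ 4 / 12` (Archimedes), `s` from `exists_slopes N`, `U` the image of `Finset.range N` under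
`r ↦ !₂[1, s r]` (nonzero: first coordinate `1`).
First part: `outer_thm`.  Second part: `K₂ ⊆ K₁`, and `interior K₂` plays the role of `P`: `outer_thm` gives
`K₁ = L₁`; then `inner_slice` (with `I = interior K₂`, `J = interior L₂`) and `inner_thm` give `K₂ = L₂`.
Third part: `outer_fat` gives `K₁ = L₁`, and again `inner_slice`, `inner_thm`. -/
theorem mainU (δ : ℝ) (hδ : 0 < δ) :
    ∃ U : Finset (EuclideanSpace ℝ (Fin 2)), (∀ u ∈ U, u ≠ 0) ∧
      (∀ K L P Q : Set (EuclideanSpace ℝ (Fin 2)),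
        IsCompact K → Convex ℝ K → (interior K).Nonempty →
        IsCompact L → Convex ℝ L → (interior L).Nonempty →
        (∀ x ∈ P, Metric.closedBall x (δ * Metric.diam K) ⊆ K) →
        (∀ x ∈ Q, Metric.closedBall x (δ * Metric.diam L) ⊆ L) →
        (∀ u ∈ U, ∀ x : EuclideanSpace ℝ (Fin 2),
          volume {t : ℝ | x + t • u ∈ K \ P} = volume {t : ℝ | x + t • u ∈ L \ Q}) →
        K = L) ∧
      (∀ K₁ K₂ L₁ L₂ : Set (EuclideanSpace ℝ (Fin 2)),
        IsCompact K₁ → Convex ℝ K₁ → (interior K₁).Nonempty →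
        IsCompact K₂ → Convex ℝ K₂ → (interior K₂).Nonempty →
        IsCompact L₁ → Convex ℝ L₁ → (interior L₁).Nonempty →
        IsCompact L₂ → Convex ℝ L₂ → (interior L₂).Nonempty →
        (∀ x ∈ K₂, Metric.closedBall x (δ * Metric.diam K₁) ⊆ K₁) →
        L₂ ⊆ interior L₁ →
        ((∀ x ∈ L₂, Metric.closedBall x (δ * Metric.diam L₁) ⊆ L₁) ∨
          (∃ x, Metric.closedBall x (δ * Metric.diam K₁) ⊆ K₂)) →
        (∀ u ∈ U, ∀ x : EuclideanSpace ℝ (Fin 2),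
          volume {t : ℝ | x + t • u ∈ K₁ \ interior K₂} =
            volume {t : ℝ | x + t • u ∈ L₁ \ interior L₂}) →
        K₁ = L₁ ∧ K₂ = L₂) := by
  have hpi := Real.pi_pos
  have hpi4 : Real.pi ≤ 4 := Real.pi_le_four
  obtain ⟨N, hN⟩ := exists_nat_gt (max 800 (max (2800 / δ) (100 / δ ^ 4)))
  have hN1 : (800 : ℝ) < N := (le_max_left _ _).trans_lt hN
  have hN2 : 2800 / δ < (N : ℝ) := ((le_max_left _ _).trans (le_max_right _ _)).trans_lt hN
  have hN3 : 100 / δ ^ 4 < (N : ℝ) := ((le_max_right _ _).trans (le_max_right _ _)).trans_lt hN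
  have hN0 : (0 : ℝ) < N := by linarith
  have hN5 : 5 ≤ N := by
    have : (5 : ℝ) ≤ N := by linarith
    exact_mod_cast this
  have hε : 2 * Real.pi / N ≤ 1 / 100 := by
    rw [div_le_iff₀ hN0]
    linarith
  have hNδ2 : 340 * (2 * Real.pi / N) < δ := by
    rw [← mul_div_assoc, div_lt_iff₀ hN0]
    rw [div_lt_iff₀ hδ] at hN2
    linarith
  have hNδ : 170 * (2 * Real.pi / N) < δ := by
    have : 0 < 2 * Real.pi / N := div_pos (by linarith) hN0
    linarith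
  have hNδ4 : 2 * Real.pi / N < δ ^ 4 / 12 := by
    have h4 : 0 < δ ^ 4 := pow_pos hδ 4
    rw [div_lt_div_iff₀ hN0 (by norm_num)]
    rw [div_lt_iff₀ h4] at hN3
    linarith
  obtain ⟨s, hs⟩ := exists_slopes N
  refine ⟨(Finset.range N).image (fun r => (!₂[1, s r] : EuclideanSpace ℝ (Fin 2))), ?_, ?_, ?_⟩
  · intro u hu
    rw [Finset.mem_image] at hu
    obtain ⟨r, -, rfl⟩ := hu
    exact z5_ne (s r)
  · intro K L P Q hK1 hK2 hK3 hL1 hL2 hL3 hP hQ hX
    exact outer_thm hN5 hs hδ hε hNδ hK1 hK2 hK3 hL1 hL2 hL3 hP hQ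
      (fun r hr x => hX _ (Finset.mem_image.2 ⟨r, Finset.mem_range.2 hr, rfl⟩) x)
  · intro K₁ K₂ L₁ L₂ hK11 hK12 hK13 hK21 hK22 hK23 hL11 hL12 hL13 hL21 hL22 hL23 hP hL hc hX
    have hX' : ∀ r, r < N → ∀ x : EuclideanSpace ℝ (Fin 2),
        volume {t : ℝ | x + t • !₂[1, s r] ∈ K₁ \ interior K₂} =
          volume {t : ℝ | x + t • !₂[1, s r] ∈ L₁ \ interior L₂} :=
      fun r hr x => hX _ (Finset.mem_image.2 ⟨r, Finset.mem_range.2 hr, rfl⟩) x
    have h1 : K₁ = L₁ := by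
      rcases hc with hQ | hF
      · exact outer_thm hN5 hs hδ hε hNδ hK11 hK12 hK13 hL11 hL12 hL13
          (fun x hx => hP x (interior_subset hx)) (fun x hx => hQ x (interior_subset hx)) hX'
      · exact outer_fat hN5 hs hδ hε hNδ2 hNδ4 hK11 hK12 hK13 hK21 hK22 hK23 hL11 hL12 hL13
          hL21 hL22 hL23 hP hF hL hX'
    refine ⟨h1, ?_⟩
    subst h1
    have hr0 : 0 ≤ δ * Metric.diam K₁ := mul_nonneg hδ.le Metric.diam_nonneg
    have hIK : interior K₂ ⊆ K₁ := fun x hx =>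
      hP x (interior_subset hx) (Metric.mem_closedBall_self hr0)
    have hJK : interior L₂ ⊆ K₁ := fun x hx => interior_subset (hL (interior_subset hx))
    exact inner_thm hN5 hs hε hK21 hK22 hK23 hL21 hL22 hL23 (fun r hr x =>
      inner_slice hK11 isOpen_interior isOpen_interior hIK hJK (z5_ne (s r)) (hX' r hr x))

/-- **Main theorem, individual annuli.**  `exists_delta` and the second part of `mainU`. -/
theorem main_each (K₁ K₂ : Set (EuclideanSpace ℝ (Fin 2)))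
    (h1 : IsCompact K₁) (h2 : Convex ℝ K₁) (h3 : (interior K₁).Nonempty)
    (h4 : IsCompact K₂) (h5 : Convex ℝ K₂) (h6 : (interior K₂).Nonempty)
    (h7 : K₂ ⊆ interior K₁) :
    ∃ U : Finset (EuclideanSpace ℝ (Fin 2)), (∀ u ∈ U, u ≠ 0) ∧
      ∀ L₁ L₂ : Set (EuclideanSpace ℝ (Fin 2)),
        IsCompact L₁ → Convex ℝ L₁ → (interior L₁).Nonempty →
        IsCompact L₂ → Convex ℝ L₂ → (interior L₂).Nonempty →
        L₂ ⊆ interior L₁ →
        (∀ u ∈ U, ∀ x : EuclideanSpace ℝ (Fin 2),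
          volume {t : ℝ | x + t • u ∈ K₁ \ interior K₂} =
            volume {t : ℝ | x + t • u ∈ L₁ \ interior L₂}) →
        K₁ = L₁ ∧ K₂ = L₂ := by
  obtain ⟨δ, hδ, hdeep, hfat⟩ := exists_delta h1 h4 h6 h7
  obtain ⟨U, hU0, -, hU2⟩ := mainU δ hδ
  refine ⟨U, hU0, fun L₁ L₂ c1 c2 c3 d1 d2 d3 hL hX => ?_⟩
  exact hU2 K₁ K₂ L₁ L₂ h1 h2 h3 h4 h5 h6 c1 c2 c3 d1 d2 d3 hdeep hL (Or.inr hfat) hX

end Pool.Agent.XA
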