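import Pool.Agent.XA.F1

set_option autoImplicit false
open MeasureTheory Set

namespace Pool.Agent.XA

/-- Fubini in the rotated coordinates: `volume D = volume ((fun p => pt θ p.1 p.2) ⁻¹' D)`
(`measurePreserving_pt`) `= ∫⁻ c, volume {t | pt θ c t ∈ D}` (`Measure.prod_apply`,
`Measure.volume_eq_prod`). -/
theorem volume_slices (θ : ℝ) {D : Set (ℝ × ℝ)} (hD : MeasurableSet D) :
    volume D = ∫⁻ c, volume {t : ℝ | pt θ c t ∈ D} := by
  have h := measurePreserving_pt θ
  rw [← h.measure_preimage hD.nullMeasurableSet, Measure.volume_eq_prod,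
    Measure.prod_apply (h.measurable hD)]
  rfl

end Pool.Agent.XA
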