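import Pool.Agent.XA.B2

set_option autoImplicit false
open MeasureTheory Set

namespace Pool.Agent.XA

/-- **Separation.**  Geometric Hahn-Banach for the compact convex set `L` and the point `w ∉ L`
(`geometric_hahn_banach_compact_point` or `geometric_hahn_banach_closed_point`): a continuous linear
functional `f` and `u : ℝ` with `f x < u` on `L` and `u < f w`.  Write `f (x, y) = A x + B y`
(`A = f (1, 0)`, `B = f (0, 1)`), `r = √(A² + B²)`.  `r ≠ 0`, because otherwise `f = 0` and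
`0 < u < 0` (`L` is nonempty).  Choose `ψ` with `A = r cos ψ`, `B = r sin ψ` (argument of the complex
number `A + B i`; Mathlib: `Complex.norm_mul_cos_arg`, `Complex.norm_mul_sin_arg`).  Then
`f x = r * lv ψ x`; the maximum `hs L ψ` is attained (`exists_lv_eq_hs`), hence
`r * hs L ψ < u < r * lv ψ w`. -/
theorem exists_sep {L : Set (ℝ × ℝ)} (hL : IsBody L) {w : ℝ × ℝ} (hw : w ∉ L) :
    ∃ ψ, hs L ψ < lv ψ w := by
  obtain ⟨f, u, hf1, hf2⟩ := geometric_hahn_banach_closed_point hL.convex hL.compact.isClosed hw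
  have hlin : ∀ x : ℝ × ℝ, f x = x.1 * f (1, 0) + x.2 * f (0, 1) := by
    intro x
    have h1 : x = x.1 • ((1 : ℝ), (0 : ℝ)) + x.2 • ((0 : ℝ), (1 : ℝ)) := by
      ext <;> simp
    conv_lhs => rw [h1]
    rw [map_add, map_smul, map_smul, smul_eq_mul, smul_eq_mul]
  set z : ℂ := ⟨f (1, 0), f (0, 1)⟩ with hz
  have hA : ‖z‖ * Real.cos z.arg = f (1, 0) := Complex.norm_mul_cos_arg z
  have hB : ‖z‖ * Real.sin z.arg = f (0, 1) := Complex.norm_mul_sin_arg z
  have hlv : ∀ x : ℝ × ℝ, f x = ‖z‖ * lv z.arg x := by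
    intro x
    rw [hlin x, ← hA, ← hB]
    unfold lv
    ring
  have hne : L.Nonempty := hL.nonempty.mono interior_subset
  obtain ⟨x0, hx0, hx0'⟩ := exists_lv_eq_hs hL.compact hne z.arg
  refine ⟨z.arg, ?_⟩
  have h1 := (hf1 x0 hx0).trans hf2
  rw [hlv, hlv, hx0'] at h1
  exact lt_of_mul_lt_mul_left h1 (norm_nonneg z)

/-- Separation with a normalised angle: shift the angle of `exists_sep` by a multiple of `2 π` into
`[θ - π, θ + π)` (`toIcoMod` or floor; `hs_add_int_two_pi`, `lv_add_int_two_pi`).  It is neither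
`θ` (by `h0`) nor `θ - π` (by `h1`, `hs_sub_pi` and `lv_sub_pi`, `lv_add_pi`). -/
theorem exists_sep_side {L : Set (ℝ × ℝ)} (hL : IsBody L) {w : ℝ × ℝ} (hw : w ∉ L) (θ : ℝ)
    (h0 : lv θ w ≤ hs L θ) (h1 : -hs L (θ + Real.pi) ≤ lv θ w) :
    ∃ ψ, hs L ψ < lv ψ w ∧ (ψ ∈ Ioo (θ - Real.pi) θ ∨ ψ ∈ Ioo θ (θ + Real.pi)) := by
  obtain ⟨ψ0, hψ0⟩ := exists_sep hL hw
  have hpi := Real.two_pi_pos
  set ψ := toIcoMod hpi (θ - Real.pi) ψ0 with hψ
  have hmem := toIcoMod_mem_Ico hpi (θ - Real.pi) ψ0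
  have hk : ψ + (toIcoDiv hpi (θ - Real.pi) ψ0 : ℤ) * (2 * Real.pi) = ψ0 := by
    have := toIcoMod_add_toIcoDiv_zsmul hpi (θ - Real.pi) ψ0
    rw [zsmul_eq_mul] at this
    exact this
  have h2 : hs L ψ < lv ψ w := by
    rw [← hs_add_int_two_pi L ψ (toIcoDiv hpi (θ - Real.pi) ψ0),
      ← lv_add_int_two_pi ψ (toIcoDiv hpi (θ - Real.pi) ψ0) w, hk]
    exact hψ0
  refine ⟨ψ, h2, ?_⟩
  rw [← hψ] at hmem
  have hup : ψ < θ + Real.pi := by
    have := hmem.2
    linarith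
  have hlo : θ - Real.pi ≤ ψ := hmem.1
  have hne1 : ψ ≠ θ := by
    intro h
    rw [h] at h2
    linarith
  have hne2 : ψ ≠ θ - Real.pi := by
    intro h
    rw [h, hs_sub_pi, lv_sub_pi] at h2
    linarith
  rcases lt_or_gt_of_ne hne1 with h | h
  · left
    exact ⟨lt_of_le_of_ne hlo (Ne.symm hne2), h⟩
  · right
    exact ⟨h, hup⟩

end Pool.Agent.XA
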