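import Pool.Agent.XA.B2
import Pool.Agent.XA.B5
import Pool.Agent.XA.A1

set_option autoImplicit false
open MeasureTheory Set

namespace Pool.Agent.XA

/-- **The two bodies together are not much wider than one of them.**  Let `v = x - y` and `ψ₀` with
`lv θ v ≤ R := lv ψ₀ v` for all `θ` (`exists_lv_max`; `R ≥ 0` since `lv (ψ₀ + π) v = - R ≤ R`).
`hφ` gives `φ` with `|φ - ψ₀| ≤ ε`; `lv_var` (with `d = R`): `lv φ v ≥ R - R ε`.  On the other hand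
`lv φ v = lv φ x - lv φ y`, `lv φ x ≤ hs K φ` (also for `x ∈ L`, since `hs K φ = hs L φ`),
`- lv φ y = lv (φ + π) y ≤ hs K (φ + π)` likewise, so `lv φ v ≤ w0`.  Hence `R (1 - ε) ≤ w0`, and with
`ε ≤ 1/8` and `R ≥ 0`: `R ≤ 2 w0`. -/
theorem spread {K L : Set (ℝ × ℝ)} (hK : IsBody K) (hL : IsBody L) {w0 ε : ℝ} (hε : ε ≤ 1 / 8)
    (hw : ∀ θ, hs K θ + hs K (θ + Real.pi) ≤ w0)
    (hφ : ∀ ψ, ∃ φ, |φ - ψ| ≤ ε ∧ hs K φ = hs L φ ∧ hs K (φ + Real.pi) = hs L (φ + Real.pi)) :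
    ∀ x ∈ K ∪ L, ∀ y ∈ K ∪ L, ∀ ψ, lv ψ (x - y) ≤ 2 * w0 := by
  intro x hx y hy ψ
  obtain ⟨ψ₀, hmax⟩ := exists_lv_max (x - y)
  have hR : 0 ≤ lv ψ₀ (x - y) := by
    have h1 := hmax (ψ₀ + Real.pi)
    rw [lv_add_pi] at h1
    linarith
  obtain ⟨φ, hφε, htop, hbot⟩ := hφ ψ₀
  have hε0 : |φ - ψ₀| ≤ 1 / 8 := hφε.trans hε
  have hvar := lv_var hmax φ ψ₀
  have hprod : lv ψ₀ (x - y) * |φ - ψ₀| ≤ lv ψ₀ (x - y) * (1 / 8) :=
    mul_le_mul_of_nonneg_left hε0 hR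
  have hx1 : lv φ x ≤ hs K φ := by
    rcases hx with hx | hx
    · exact lv_le_hs hK.compact φ hx
    · rw [htop]
      exact lv_le_hs hL.compact φ hx
  have hy1 : -lv φ y ≤ hs K (φ + Real.pi) := by
    rw [← lv_add_pi]
    rcases hy with hy | hy
    · exact lv_le_hs hK.compact _ hy
    · rw [hbot]
      exact lv_le_hs hL.compact _ hy
  have hw1 := hw φ
  have hsub := lv_sub φ x y
  have hfin := hmax ψ
  linarith

end Pool.Agent.XA
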