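import Pool.Agent.XA.C1

set_option autoImplicit false
open MeasureTheory Set

namespace Pool.Agent.XA

/-- For `c` in the open range the slices of `K` and of `interior K` are `Icc a b` and `Ioo a b`
(`chord_single`), of the same volume; the same for `L` (the range is the same by `top`, `bot`). -/
theorem dir_of_xray {K L : Set (ℝ × ℝ)} (hK : IsBody K) (hL : IsBody L) {θ c1 : ℝ}
    (top : hs K θ = hs L θ) (bot : hs K (θ + Real.pi) = hs L (θ + Real.pi))
    (hX : ∀ c, c1 ≤ c → volume {t : ℝ | pt θ c t ∈ interior K} =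
      volume {t : ℝ | pt θ c t ∈ interior L}) : Dir K L θ c1 := by
  refine ⟨hK, hL, top, bot, fun c hc h1 h2 => ?_⟩
  obtain ⟨a, b, -, e1, e2⟩ := chord_single hK h1 h2
  obtain ⟨a', b', -, e3, e4⟩ := chord_single hL (by rwa [← bot]) (by rwa [← top])
  have h3 := hX c hc
  rw [e2, e4, Real.volume_Ioo, Real.volume_Ioo] at h3
  rw [e1, e3, Real.volume_Icc, Real.volume_Icc]
  exact h3

theorem e1_aux {K L QK QL : Set (ℝ × ℝ)} (hK : IsBody K) (hL : IsBody L) {ρ θ : ℝ}
    (hρ : 0 < ρ) (hQK : ∀ y ∈ QK, lv θ y + ρ ≤ hs K θ)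
    (hQL : ∀ y ∈ QL, lv θ y + ρ ≤ hs L θ)
    (hX : ∀ c, (∀ y ∈ QK ∪ QL, lv θ y < c) → volume {t : ℝ | pt θ c t ∈ interior K} =
      volume {t : ℝ | pt θ c t ∈ interior L}) (h : hs L θ < hs K θ) : False := by
  have hw := width_pos hK θ
  have h0 : max (hs L θ) (max (hs K θ - ρ) (-hs K (θ + Real.pi))) < hs K θ :=
    max_lt h (max_lt (by linarith) (by linarith))
  obtain ⟨c, hc1, hc2⟩ := exists_between h0
  rw [max_lt_iff, max_lt_iff] at hc1
  obtain ⟨h1, h2, h3⟩ := hc1
  have h4 := hX c (by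
    rintro y (hy | hy)
    · have := hQK y hy
      linarith
    · have := hQL y hy
      linarith)
  obtain ⟨a, b, hab, -, e2⟩ := chord_single hK h3 hc2
  have h5 : {t : ℝ | pt θ c t ∈ interior L} = ∅ := by
    rw [Set.eq_empty_iff_forall_notMem]
    intro t ht
    have h6 := lv_le_hs hL.compact θ (interior_subset ht)
    rw [lv_pt] at h6
    linarith
  rw [e2, h5, Real.volume_Ioo, measure_empty, ENNReal.ofReal_eq_zero] at h4
  linarith

/-- **Equal support values at an S-angle.**  By symmetry (the hypotheses are symmetric) suppose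
`hs L θ < hs K θ`.  Choose `c` with `max (hs L θ) (max (hs K θ - ρ) (- hs K (θ + π))) < c < hs K θ`
(`width_pos`).  For `y ∈ QK`: `lv θ y ≤ hs K θ - ρ < c`; for `y ∈ QL`: `lv θ y ≤ hs L θ - ρ < c`.  By
`chord_single` the slice of `interior K` is `Ioo a b` with `a < b`, of positive volume; the slice of
`interior L` is empty because its points have level `≤ hs L θ < c` (`lv_le_hs`, `lv_pt`). -/
theorem hs_eq_of_xray {K L QK QL : Set (ℝ × ℝ)} (hK : IsBody K) (hL : IsBody L) {ρ θ : ℝ}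
    (hρ : 0 < ρ) (hQK : ∀ y ∈ QK, lv θ y + ρ ≤ hs K θ)
    (hQL : ∀ y ∈ QL, lv θ y + ρ ≤ hs L θ)
    (hX : ∀ c, (∀ y ∈ QK ∪ QL, lv θ y < c) → volume {t : ℝ | pt θ c t ∈ interior K} =
      volume {t : ℝ | pt θ c t ∈ interior L}) : hs K θ = hs L θ := by
  rcases lt_trichotomy (hs K θ) (hs L θ) with h | h | h
  · exfalso
    refine e1_aux hL hK hρ hQL hQK (fun c hc => (hX c fun y hy => hc y ?_).symm) h
    exact hy.symm
  · exact h
  · exact (e1_aux hK hL hρ hQK hQL hX h).elim

end Pool.Agent.XA
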