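import Pool.Agent.XA.K3

set_option autoImplicit false
open MeasureTheory Set

namespace Pool.Agent.XA

/-- **Minimal gap.**  The nonempty set of positive integers `{g (i + 4) - g i}` has a least element. -/
theorem exists_min_gap {g : ℤ → ℤ} (hg : StrictMono g) :
    ∃ i b : ℤ, 0 < b ∧ g (i + 4) - g i = b ∧ ∀ j, b ≤ g (j + 4) - g j := by
  classical
  have hpos : ∀ i, 0 < g (i + 4) - g i := fun i => by
    have := hg (show i < i + 4 by omega)
    omega
  have hex : ∃ n : ℕ, ∃ i : ℤ, g (i + 4) - g i = n :=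
    ⟨(g (0 + 4) - g 0).toNat, 0, by have := hpos 0; omega⟩
  obtain ⟨i, hi⟩ := Nat.find_spec hex
  refine ⟨i, (Nat.find hex : ℤ), ?_, hi, ?_⟩
  · have := hpos i
    omega
  · intro j
    have h1 : Nat.find hex ≤ (g (j + 4) - g j).toNat :=
      Nat.find_min' hex ⟨j, by have := hpos j; omega⟩
    have := hpos j
    omega

/-- **The window.**  `comb_gap` (function `g`), `comb_strict`, `exists_min_gap` (`i`, `b`).  Put
`m j = 2 g (i + j) + 1` for `j = 0, …, 4`; odd, strictly increasing, `m 4 - m 0 = 2 b`.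
By induction on `k`: `g (i' + 4 k) ≥ g i' + k b`.  Let `m j < 2 l < m j + 2 q b`, i.e. `l = g (i + j) + 1 + x` with
`0 ≤ x < q b`.  Then `φ (i + j) ≤ f (g (i + j) + 1) ≤ f l`, and `l ≤ g (i + j) + q b ≤ g (i + 4) + q b ≤
g (i + 4 + 4 q)`, so `e l ≤ e (g (i + 4 + 4 q)) ≤ φ (i + 4 + 4 q) ≤ φ (i + j) + (4 q + 4) ε` (`φgap`, induction)
`≤ φ (i + j) + η`.  So `AL (i + j) l` (`nearR`), `comb_reflect` gives `Mi (i + j) (g (i + j) - x) l`, where
`g (i + j) - x = m j - l`, and `cent` gives the claim. -/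
theorem comb_window {φ f e : ℤ → ℝ} {AL : ℤ → ℤ → Prop} {Mi : ℤ → ℤ → ℤ → Prop}
    {z : ℤ → ℝ × ℝ} {ε η : ℝ} (h : Comb φ f e AL Mi z ε η) (q : ℕ)
    (hq : (4 * q + 4) * ε ≤ η) :
    ∃ (i b : ℤ) (m : Fin 5 → ℤ), 0 < b ∧ StrictMono m ∧ (∀ j, Odd (m j)) ∧ m 4 - m 0 = 2 * b ∧
      ∀ (j : Fin 5) (l : ℤ), m j < 2 * l → 2 * l < m j + 2 * (q * b) →
        ∃ x : ℝ, 0 < x ∧ z l - z (m j - l) = pt (φ (i + (j : ℕ))) 0 x := by
  have hε : 0 < ε := by
    have h1 := h.φmono (show (0 : ℤ) < 0 + 1 by omega)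
    have h2 := h.φgap 0
    linarith
  obtain ⟨g, hm, hg⟩ := comb_gap h
  have hs := comb_strict h hm hg
  obtain ⟨i, b, hb, hib, hmin⟩ := exists_min_gap hs
  have hem := k1_emono h
  have key : ∀ (i' : ℤ) (k : ℕ), g i' + k * b ≤ g (i' + 4 * k) := by
    intro i' k
    induction k with
    | zero => simp
    | succ k ih =>
      have h1 := hmin (i' + 4 * k)
      push_cast
      rw [show i' + 4 * ((k : ℤ) + 1) = i' + 4 * k + 4 by ring]
      linarith
  have hφ : ∀ (i' : ℤ) (n : ℕ), φ (i' + n) ≤ φ i' + n * ε := by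
    intro i' n
    induction n with
    | zero => simp
    | succ n ih =>
      have h1 := h.φgap (i' + n)
      push_cast
      rw [show i' + ((n : ℤ) + 1) = i' + n + 1 by ring]
      linarith
  refine ⟨i, b, fun j => 2 * g (i + (j : ℕ)) + 1, hb, ?_, ?_, ?_, ?_⟩
  · intro j j' hjj
    have : g (i + (j : ℕ)) < g (i + (j' : ℕ)) := hs (by
      have : (j : ℕ) < (j' : ℕ) := hjj
      omega)
    show 2 * g (i + (j : ℕ)) + 1 < 2 * g (i + (j' : ℕ)) + 1
    omega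
  · intro j
    exact ⟨g (i + (j : ℕ)), rfl⟩
  · show 2 * g (i + ((4 : Fin 5) : ℕ)) + 1 - (2 * g (i + ((0 : Fin 5) : ℕ)) + 1) = 2 * b
    have e1 : i + (((4 : Fin 5) : ℕ) : ℤ) = i + 4 := rfl
    have e2 : i + (((0 : Fin 5) : ℕ) : ℤ) = i := by simp
    rw [e1, e2]
    linarith
  · intro j l h1 h2
    have h1' : 2 * g (i + (j : ℕ)) + 1 < 2 * l := h1
    have h2' : 2 * l < 2 * g (i + (j : ℕ)) + 1 + 2 * (q * b) := h2
    obtain ⟨x, hx⟩ : ∃ x : ℕ, l = g (i + (j : ℕ)) + 1 + x :=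
      ⟨(l - (g (i + (j : ℕ)) + 1)).toNat, by omega⟩
    have hlq : l ≤ g (i + (j : ℕ)) + q * b := by linarith
    have hl4 : l ≤ g (i + (j : ℕ) + 4 * q) := le_trans hlq (key _ q)
    have hf : φ (i + (j : ℕ)) ≤ f l :=
      le_trans (hg _).2 (h.fmono.monotone (by omega))
    have he : e l ≤ φ (i + (j : ℕ)) + η := by
      have a1 : e l ≤ φ (i + (j : ℕ) + 4 * q) := le_trans (hem.monotone hl4) (hg _).1
      have a2 := hφ (i + (j : ℕ)) (4 * q)
      push_cast at a2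
      have a3 : (4 * (q : ℝ)) * ε ≤ η := by
        have : 0 ≤ 4 * ε := by positivity
        linarith
      linarith
    have hA := h.nearR _ l hf he
    rw [hx] at hA
    have hM := comb_reflect h (hg (i + (j : ℕ))).1 (hg (i + (j : ℕ))).2 x (Or.inr hA)
    obtain ⟨y, hy, hz⟩ := h.cent _ _ _ hM
    refine ⟨y, hy, ?_⟩
    have e1 : 2 * g (i + (j : ℕ)) + 1 - l = g (i + (j : ℕ)) - x := by rw [hx]; ring
    show z l - z (2 * g (i + (j : ℕ)) + 1 - l) = _
    rw [e1, hx]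
    exact hz

end Pool.Agent.XA
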