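import Pool.Agent.XA.Q0

set_option autoImplicit false
open MeasureTheory Set

namespace Pool.Agent.XA

/-- **Oddness, periodicity and positivity are contradictory.**  Let `m0 = 2 t + 1` and `g = |m1 - m2| ≥ 1`.
`hodd` at `t + 1`: `G t = - G (t + 1)`, and `0 < σ G (t + 1)` by `hpos` (`m0 < 2 (t + 1) < m0 + 2 W`), so
`σ G t < 0`.  `hper` gives `G t = G (t + g)` (shift by `m1` or `m2`), and `m0 < 2 (t + g) < m0 + 2 W`, so
`0 < σ G (t + g)`. -/
theorem odd_contra {m0 m1 m2 : ℤ} (ho : Odd m0) (h12 : m1 ≠ m2) {G : ℤ → ℝ}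
    (hodd : ∀ l, G (m0 - l) = -G l) (hper : ∀ l, G (l + m1) = G (l + m2)) {W : ℤ}
    (hW : |m1 - m2| < W) {σ : ℝ} (hpos : ∀ l, m0 < 2 * l → 2 * l < m0 + 2 * W → 0 < σ * G l) :
    False := by
  obtain ⟨t, ht⟩ := ho
  have hg1 : 1 ≤ |m1 - m2| := Int.one_le_abs (sub_ne_zero.2 h12)
  have h1 : G t = -G (t + 1) := by
    have h := hodd (t + 1)
    rwa [show m0 - (t + 1) = t by omega] at h
  have h2 : 0 < σ * G (t + 1) := hpos (t + 1) (by omega) (by omega)
  have h3 : G (t + |m1 - m2|) = G t := by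
    rcases abs_choice (m1 - m2) with h | h
    · rw [h]
      have h4 := hper (t - m2)
      rwa [show t - m2 + m1 = t + (m1 - m2) by ring, show t - m2 + m2 = t by ring] at h4
    · rw [h]
      have h4 := hper (t - m1)
      rw [show t - m1 + m1 = t by ring, show t - m1 + m2 = t + -(m1 - m2) by ring] at h4
      exact h4.symm
  have h5 : 0 < σ * G (t + |m1 - m2|) := hpos _ (by omega) (by omega)
  rw [h3, h1] at h5
  linarith

end Pool.Agent.XA
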