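import Pool.Agent.XA.R0

set_option autoImplicit false
open MeasureTheory Set

namespace Pool.Agent.XA

open Polynomial in
/-- **Local uniqueness.**  `d = x - y` satisfies the recurrence for `A ≤ l ≤ B` and vanishes on a block of
`n = D.natDegree` consecutive places inside `[A, B + n]`.  Upwards: if `d` vanishes on `[l, l + n)`,
`A ≤ l ≤ B`, then `Rec D d l` and `D.coeff n ≠ 0` give `d (l + n) = 0`.  Downwards: if `d` vanishes on
`(l, l + n]`, `A ≤ l ≤ B`, then `D.coeff 0 ≠ 0` gives `d l = 0`.  (Induction over the distance from the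
block.) -/
theorem rec_unique {D : ℝ[X]} (hD0 : D.coeff 0 ≠ 0) {x y : ℤ → ℝ} {A B c : ℤ}
    (hx : ∀ l, A ≤ l → l ≤ B → Rec D x l) (hy : ∀ l, A ≤ l → l ≤ B → Rec D y l)
    (hAc : A ≤ c) (hcB : c ≤ B + 1) (hblock : ∀ l, c ≤ l → l < c + D.natDegree → x l = y l)
    (l : ℤ) (hl : A ≤ l) (hl' : l ≤ B + D.natDegree) : x l = y l := by
  have hDn : D.coeff D.natDegree ≠ 0 := by
    have hD : D ≠ 0 := by
      rintro rfl
      simp at hD0
    exact leadingCoeff_ne_zero.2 hD
  -- upwards
  have up : ∀ (j : ℕ) (l : ℤ), (l - c).toNat = j → c ≤ l → l ≤ B + D.natDegree → x l = y l := by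
    intro j
    induction j using Nat.strong_induction_on with
    | _ j ih =>
      intro l hj hcl hlB
      by_cases h : l < c + D.natDegree
      · exact hblock l hcl h
      · push Not at h
        have h1 := hx (l - D.natDegree) (by omega) (by omega)
        have h2 := hy (l - D.natDegree) (by omega) (by omega)
        unfold Rec at h1 h2
        rw [Finset.sum_range_succ] at h1 h2
        have h3 : ∑ k ∈ Finset.range D.natDegree, D.coeff k * x (l - D.natDegree + k) =
            ∑ k ∈ Finset.range D.natDegree, D.coeff k * y (l - D.natDegree + k) := by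
          refine Finset.sum_congr rfl fun k hk => ?_
          have hk' := Finset.mem_range.1 hk
          rw [ih (l - D.natDegree + k - c).toNat (by omega) (l - D.natDegree + k) rfl (by omega)
            (by omega)]
        rw [show l - (D.natDegree : ℤ) + (D.natDegree : ℤ) = l by ring] at h1 h2
        have h4 : D.coeff D.natDegree * x l = D.coeff D.natDegree * y l := by linarith
        exact mul_left_cancel₀ hDn h4
  have down : ∀ (j : ℕ) (l : ℤ), (c + D.natDegree - l).toNat = j → A ≤ l →
      l < c + D.natDegree → x l = y l := by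
    intro j
    induction j using Nat.strong_induction_on with
    | _ j ih =>
      intro l hj hAl hlc
      by_cases h : c ≤ l
      · exact hblock l h hlc
      · push Not at h
        have h1 := hx l (by omega) (by omega)
        have h2 := hy l (by omega) (by omega)
        unfold Rec at h1 h2
        rw [Finset.sum_range_succ'] at h1 h2
        have h3 : ∑ k ∈ Finset.range D.natDegree, D.coeff (k + 1) * x (l + (k + 1 : ℕ)) =
            ∑ k ∈ Finset.range D.natDegree, D.coeff (k + 1) * y (l + (k + 1 : ℕ)) := by
          refine Finset.sum_congr rfl fun k hk => ?_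
          have hk' := Finset.mem_range.1 hk
          rw [ih (c + D.natDegree - (l + (k + 1 : ℕ))).toNat (by omega) (l + (k + 1 : ℕ)) rfl
            (by omega) (by omega)]
        simp only [Nat.cast_zero, add_zero] at h1 h2
        have h4 : D.coeff 0 * x l = D.coeff 0 * y l := by linarith
        exact mul_left_cancel₀ hD0 h4
  by_cases h : c ≤ l
  · exact up _ l rfl h hl'
  · exact down _ l rfl hl (by omega)

open Polynomial in
/-- **Reversal** for a self-reciprocal `D`: substitute `k ↦ n - k` in the sum
(`Finset.sum_range_reflect`). -/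
theorem rec_reverse {D : ℝ[X]} (hrev : ∀ k ≤ D.natDegree, D.coeff (D.natDegree - k) = D.coeff k)
    {x : ℤ → ℝ} (hx : ∀ l, Rec D x l) (m : ℤ) (l : ℤ) : Rec D (fun l => x (m - l)) l := by
  have h := hx (m - l - D.natDegree)
  unfold Rec at h ⊢
  rw [← Finset.sum_range_reflect] at h
  rw [← h]
  refine Finset.sum_congr rfl fun k hk => ?_
  have hk' : k ≤ D.natDegree := Nat.lt_succ_iff.1 (Finset.mem_range.1 hk)
  rw [show D.natDegree + 1 - 1 - k = D.natDegree - k by omega, hrev k hk']
  congr 2
  rw [Nat.cast_sub hk']
  ring_nf

end Pool.Agent.XA
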