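import Pool.Agent.XA.R0

set_option autoImplicit false
open MeasureTheory Set

namespace Pool.Agent.XA

open Polynomial in
/-- **The recurrence polynomial.**  `D = C A * (1 - X ^ a) * (1 - X ^ b) - C B * (1 - X ^ c) * (1 - X ^ e)
= C (A - B) - C A * X ^ a - C A * X ^ b + C B * X ^ c + C B * X ^ e + C (A - B) * X ^ n`
(`a + b = c + e = n`).  Since `0 < a, b, c, e < n`, `D.coeff 0 = A - B`, `D.coeff n = A - B ≠ 0`,
`D.natDegree = n`; the coefficients are symmetric because `n - a = b`, `n - c = e`; the sum over
`range (n + 1)` splits into the six monomials (`Finset.sum_ite_eq`, `coeff_C_mul_X_pow`, …). -/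
theorem exists_recpoly {A B : ℝ} (hAB : A ≠ B) {a b c e n : ℕ} (ha : 0 < a) (hb : 0 < b)
    (hc : 0 < c) (he : 0 < e) (hab : a + b = n) (hce : c + e = n) :
    ∃ D : ℝ[X], D.natDegree = n ∧ D.coeff 0 ≠ 0 ∧ (∀ k ≤ n, D.coeff (n - k) = D.coeff k) ∧
      ∀ (x : ℤ → ℝ) (l : ℤ), ∑ k ∈ Finset.range (n + 1), D.coeff k * x (l + k) =
        A * (x l - x (l + a) - x (l + b) + x (l + n)) -
          B * (x l - x (l + c) - x (l + e) + x (l + n)) := by
  classical
  have hn : 0 < n := by omega
  set D : ℝ[X] := C A * ((1 - X ^ a) * (1 - X ^ b)) - C B * ((1 - X ^ c) * (1 - X ^ e)) with hD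
  have hcoef : ∀ k, D.coeff k =
      A * ((if k = 0 then 1 else 0) - (if k = a then 1 else 0) - (if k = b then 1 else 0) +
        (if k = n then 1 else 0)) -
      B * ((if k = 0 then 1 else 0) - (if k = c then 1 else 0) - (if k = e then 1 else 0) +
        (if k = n then 1 else 0)) := by
    intro k
    have e1 : ((1 - X ^ a) * (1 - X ^ b) : ℝ[X]) = 1 - X ^ a - X ^ b + X ^ n := by
      rw [← hab]; ring
    have e2 : ((1 - X ^ c) * (1 - X ^ e) : ℝ[X]) = 1 - X ^ c - X ^ e + X ^ n := by
      rw [← hce]; ring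
    rw [hD, e1, e2]
    simp only [coeff_sub, coeff_C_mul, coeff_add, coeff_one, coeff_X_pow]
  have hn0 : D.coeff n = A - B := by
    rw [hcoef]
    rw [if_neg (by omega), if_neg (by omega), if_neg (by omega), if_pos rfl, if_neg (by omega),
      if_neg (by omega)]
    ring
  have h00 : D.coeff 0 = A - B := by
    rw [hcoef]
    rw [if_pos rfl, if_neg (by omega), if_neg (by omega), if_neg (by omega), if_neg (by omega),
      if_neg (by omega)]
    ring
  have hABs : A - B ≠ 0 := sub_ne_zero.2 hAB
  have hdeg : D.natDegree = n := by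
    refine natDegree_eq_of_le_of_coeff_ne_zero ?_ (by rw [hn0]; exact hABs)
    rw [natDegree_le_iff_coeff_eq_zero]
    intro N hN
    rw [hcoef]
    rw [if_neg (by omega), if_neg (by omega), if_neg (by omega), if_neg (by omega),
      if_neg (by omega), if_neg (by omega)]
    ring
  refine ⟨D, hdeg, by rw [h00]; exact hABs, ?_, ?_⟩
  · intro k hk
    rw [hcoef, hcoef]
    have q1 : (n - k = 0) ↔ (k = n) := by omega
    have q2 : (n - k = a) ↔ (k = b) := by omega
    have q3 : (n - k = b) ↔ (k = a) := by omega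
    have q4 : (n - k = n) ↔ (k = 0) := by omega
    have q5 : (n - k = c) ↔ (k = e) := by omega
    have q6 : (n - k = e) ↔ (k = c) := by omega
    simp only [q1, q2, q3, q4, q5, q6]
    ring
  · intro x l
    have key : ∀ m ≤ n, ∑ k ∈ Finset.range (n + 1), (if k = m then (1 : ℝ) else 0) * x (l + k) =
        x (l + m) := by
      intro m hm
      simp only [ite_mul, one_mul, zero_mul]
      rw [Finset.sum_ite_eq' (Finset.range (n + 1)) m (fun k => x (l + (k : ℤ))),
        if_pos (Finset.mem_range.2 (by omega))]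
    have h0 := key 0 (by omega)
    have h1 := key a (by omega)
    have h2 := key b (by omega)
    have h3 := key c (by omega)
    have h4 := key e (by omega)
    have h5 := key n le_rfl
    simp only [Nat.cast_zero, add_zero] at h0
    rw [← h0, ← h1, ← h2, ← h3, ← h4, ← h5]
    simp only [hcoef, ← Finset.sum_sub_distrib, ← Finset.sum_add_distrib, Finset.mul_sum]
    refine Finset.sum_congr rfl fun k _ => ?_
    ring

end Pool.Agent.XA
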