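import Pool.Agent.XA.R0

set_option autoImplicit false
open MeasureTheory Set

namespace Pool.Agent.XA

/-- **Four reflections give a recurrence.**  Let `a = m2 - m0`, `b = m3 - m1`, `c = m3 - m0`, `e = m2 - m1`; all in
`(0, S]`; `a + b = c + e`.
`E2 l`: for `|2 l - m0| < 2 W - 2 S`: `α (x l - x (l - a)) + β (y l - y (l - e)) = 0`.  Indeed `|2 l - m2| < 2 W`, so
`α x l + β y l = α x (m2 - l) + β y (m2 - l)`; `|2 (m2 - l) - m0| ≤ |2 l - m0| + 2 (m2 - m0) < 2 W` gives
`x (m2 - l) = x (m0 - m2 + l) = x (l - a)`, and `|2 (m2 - l) - m1| ≤ |2 l - m0| + 2 S < 2 W` gives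
`y (m2 - l) = y (l - e)`.
`E3 l`: in the same way `γ (x l - x (l - c)) + δ (y l - y (l - b)) = 0`.
Let `|2 l - m0| < 2 W - 4 S`.  Then `E2`, `E3` hold at `l, l - a, l - b, l - c, l - e`.
`δ (E2 l - E2 (l - b)) - β (E3 l - E3 (l - e))` is the claim for `x` (the `y` terms cancel),
`α (E3 l - E3 (l - a)) - γ (E2 l - E2 (l - c))` is the claim for `y`. -/
theorem four_reflections {m0 m1 m2 m3 S W : ℤ} (h01 : m0 < m1) (h12 : m1 < m2) (h23 : m2 < m3)
    (hS : m3 - m0 ≤ S) {x y : ℤ → ℝ} {α β γ δ : ℝ}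
    (hx : ∀ l, |2 * l - m0| < 2 * W → x l = x (m0 - l))
    (hy : ∀ l, |2 * l - m1| < 2 * W → y l = y (m1 - l))
    (h2 : ∀ l, |2 * l - m2| < 2 * W → α * x l + β * y l = α * x (m2 - l) + β * y (m2 - l))
    (h3 : ∀ l, |2 * l - m3| < 2 * W → γ * x l + δ * y l = γ * x (m3 - l) + δ * y (m3 - l))
    (l : ℤ) (hl : |2 * l - m0| < 2 * W - 4 * S) :
    (α * δ * (x l - x (l - (m2 - m0)) - x (l - (m3 - m1)) + x (l - (m2 - m0) - (m3 - m1))) -
      β * γ * (x l - x (l - (m3 - m0)) - x (l - (m2 - m1)) + x (l - (m2 - m0) - (m3 - m1))) = 0) ∧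
    (α * δ * (y l - y (l - (m2 - m0)) - y (l - (m3 - m1)) + y (l - (m2 - m0) - (m3 - m1))) -
      β * γ * (y l - y (l - (m3 - m0)) - y (l - (m2 - m1)) + y (l - (m2 - m0) - (m3 - m1))) = 0) := by
  have E2 : ∀ l : ℤ, |2 * l - m0| < 2 * W - 2 * S →
      α * (x l - x (l - (m2 - m0))) + β * (y l - y (l - (m2 - m1))) = 0 := by
    intro l hl
    rw [abs_lt] at hl
    have a1 : |2 * l - m2| < 2 * W := by rw [abs_lt]; constructor <;> linarith
    have a2 : |2 * (m2 - l) - m0| < 2 * W := by rw [abs_lt]; constructor <;> linarith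
    have a3 : |2 * (m2 - l) - m1| < 2 * W := by rw [abs_lt]; constructor <;> linarith
    have b1 := h2 l a1
    have b2 := hx (m2 - l) a2
    have b3 := hy (m2 - l) a3
    rw [show m0 - (m2 - l) = l - (m2 - m0) by ring] at b2
    rw [show m1 - (m2 - l) = l - (m2 - m1) by ring] at b3
    rw [b2, b3] at b1
    linear_combination b1
  have E3 : ∀ l : ℤ, |2 * l - m0| < 2 * W - 2 * S →
      γ * (x l - x (l - (m3 - m0))) + δ * (y l - y (l - (m3 - m1))) = 0 := by
    intro l hl
    rw [abs_lt] at hl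
    have a1 : |2 * l - m3| < 2 * W := by rw [abs_lt]; constructor <;> linarith
    have a2 : |2 * (m3 - l) - m0| < 2 * W := by rw [abs_lt]; constructor <;> linarith
    have a3 : |2 * (m3 - l) - m1| < 2 * W := by rw [abs_lt]; constructor <;> linarith
    have b1 := h3 l a1
    have b2 := hx (m3 - l) a2
    have b3 := hy (m3 - l) a3
    rw [show m0 - (m3 - l) = l - (m3 - m0) by ring] at b2
    rw [show m1 - (m3 - l) = l - (m3 - m1) by ring] at b3
    rw [b2, b3] at b1
    linear_combination b1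
  rw [abs_lt] at hl
  have e2l := E2 l (by rw [abs_lt]; constructor <;> linarith)
  have e3l := E3 l (by rw [abs_lt]; constructor <;> linarith)
  have e2b := E2 (l - (m3 - m1)) (by rw [abs_lt]; constructor <;> linarith)
  have e3e := E3 (l - (m2 - m1)) (by rw [abs_lt]; constructor <;> linarith)
  have e3a := E3 (l - (m2 - m0)) (by rw [abs_lt]; constructor <;> linarith)
  have e2c := E2 (l - (m3 - m0)) (by rw [abs_lt]; constructor <;> linarith)
  rw [show l - (m3 - m1) - (m2 - m0) = l - (m2 - m0) - (m3 - m1) by ring,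
    show l - (m3 - m1) - (m2 - m1) = l - (m2 - m1) - (m3 - m1) by ring] at e2b
  rw [show l - (m2 - m1) - (m3 - m0) = l - (m2 - m0) - (m3 - m1) by ring] at e3e
  rw [show l - (m2 - m0) - (m3 - m0) = l - (m3 - m0) - (m2 - m0) by ring] at e3a
  rw [show l - (m3 - m0) - (m2 - m1) = l - (m2 - m0) - (m3 - m1) by ring] at e2c
  constructor
  · linear_combination δ * e2l - δ * e2b - β * e3l + β * e3e
  · linear_combination α * e3l - α * e3a - γ * e2l + γ * e2c

end Pool.Agent.XA
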