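import Pool.Agent.XA.R1
import Pool.Agent.XA.R2
import Pool.Agent.XA.R3
import Pool.Agent.XA.R4

set_option autoImplicit false
open MeasureTheory Set

namespace Pool.Agent.XA

open Polynomial in
theorem r5_add {D : ℝ[X]} {x y : ℤ → ℝ} {l : ℤ} (a b : ℝ) (hx : Rec D x l) (hy : Rec D y l) :
    Rec D (fun l => a * x l + b * y l) l := by
  unfold Rec at *
  have e : ∑ k ∈ Finset.range (D.natDegree + 1), D.coeff k * (a * x (l + k) + b * y (l + k)) =
      a * ∑ k ∈ Finset.range (D.natDegree + 1), D.coeff k * x (l + k) +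
        b * ∑ k ∈ Finset.range (D.natDegree + 1), D.coeff k * y (l + k) := by
    rw [Finset.mul_sum, Finset.mul_sum, ← Finset.sum_add_distrib]
    exact Finset.sum_congr rfl fun k _ => by ring
  rw [e, hx, hy]
  ring

open Polynomial in
/-- **Extension of the chain.**  For `j : Fin 5` let `F_j l = (z l).2 - s j * (z l).1`; `hz` says
`F_j l = F_j (m j - l)` for `|2 l - m j| < 2 W`.  With `α = s 1 - s 2`, `β = s 2 - s 0`, `γ = s 1 - s 3`,
`δ = s 3 - s 0`: `(s 1 - s 0) F_2 = α F_0 + β F_1`, `(s 1 - s 0) F_3 = γ F_0 + δ F_1`.  `four_reflections`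
for `x = F_0`, `y = F_1`.  `a, b, c, e` as there, `n = a + b ≤ 2 S`; `A = α δ`, `B = β γ`,
`A - B = (s 1 - s 0) (s 3 - s 2) ≠ 0`; `D` from `exists_recpoly`.  Substituting `l = l' + n`:
`Rec D F_0 l'`, `Rec D F_1 l'` for `|2 (l' + n) - m 0| < 2 W - 4 S`.  Since `(s 1 - s 0) z₁ = F_0 - F_1` and
`z₂ = F_0 + s 0 z₁`, both components of `z` satisfy `Rec D` at these `l'`, i.e. for `A₀ ≤ l' ≤ B₀` with
suitable integers.  Let `y₁, y₂` be the extensions (`ext_exists`) of `z₁, z₂` from the block `[A₀, A₀ + n)`;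
by `rec_unique` they agree with `z₁, z₂` on `[A₀, B₀ + n]`, which contains all `l` with
`|2 l - m 0| < 2 W - 4 S`.  For each `j` the sequences `u l = y₂ l - s j * y₁ l` and `l ↦ u (m j - l)` satisfy
`Rec D` everywhere (`rec_reverse`), and agree for `|2 l - m 0| < 2 W - 6 S` (there
`|2 (m j - l) - m 0| < 2 W - 4 S` and `|2 l - m j| < 2 W`), in particular on a block of `n ≤ 2 S` consecutive
integers (`2 n ≤ 4 S < 2 W - 6 S`; start at `l` with `m 0 ≤ 2 l ≤ m 0 + 1`); so they agree everywhere (`rec_unique` for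
large intervals), and a vector `v` with `v₂ = s j * v₁` is `v₁ • (1, s j)`. -/
theorem ext_thm {s : Fin 5 → ℝ} (hs : Function.Injective s) {m : Fin 5 → ℤ} (hm : StrictMono m)
    {S W : ℤ} (hS : m 4 - m 0 ≤ S) (hW : 10 * S ≤ W) {z : ℤ → ℝ × ℝ}
    (hz : ∀ (j : Fin 5) (l : ℤ), |2 * l - m j| < 2 * W →
      ∃ x : ℝ, z l - z (m j - l) = x • ((1 : ℝ), s j)) :
    ∃ (y : ℤ → ℝ × ℝ) (D : ℝ[X]), D.coeff 0 ≠ 0 ∧
      (∀ l : ℤ, ∑ k ∈ Finset.range (D.natDegree + 1), D.coeff k • y (l + k) = 0) ∧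
      (∀ (j : Fin 5) (l : ℤ), ∃ x : ℝ, y l - y (m j - l) = x • ((1 : ℝ), s j)) ∧
      ∀ l : ℤ, |2 * l - m 0| < 2 * W - 4 * S → y l = z l := by
  have m01 : m 0 < m 1 := hm (by decide)
  have m12 : m 1 < m 2 := hm (by decide)
  have m23 : m 2 < m 3 := hm (by decide)
  have m34 : m 3 < m 4 := hm (by decide)
  have hF : ∀ (j : Fin 5) (l : ℤ), |2 * l - m j| < 2 * W →
      (z l).2 - s j * (z l).1 = (z (m j - l)).2 - s j * (z (m j - l)).1 := by
    intro j l hl
    obtain ⟨x, hx⟩ := hz j l hl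
    have h1 := congrArg Prod.fst hx
    have h2 := congrArg Prod.snd hx
    simp only [Prod.fst_sub, Prod.snd_sub, Prod.smul_fst, Prod.smul_snd, smul_eq_mul] at h1 h2
    linear_combination h2 - s j * h1
  have hfour := four_reflections (S := S) (W := W) m01 m12 m23 (by linarith)
    (x := fun l => (z l).2 - s 0 * (z l).1) (y := fun l => (z l).2 - s 1 * (z l).1)
    (α := s 1 - s 2) (β := s 2 - s 0) (γ := s 1 - s 3) (δ := s 3 - s 0)
    (fun l hl => hF 0 l hl) (fun l hl => hF 1 l hl)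
    (fun l hl => by
      have h := hF 2 l hl
      linear_combination (s 1 - s 0) * h)
    (fun l hl => by
      have h := hF 3 l hl
      linear_combination (s 1 - s 0) * h)
  have n10 : s 1 - s 0 ≠ 0 := sub_ne_zero.2 fun h => absurd (hs h) (by decide)
  have n32 : s 3 - s 2 ≠ 0 := sub_ne_zero.2 fun h => absurd (hs h) (by decide)
  have hAB : (s 1 - s 2) * (s 3 - s 0) ≠ (s 2 - s 0) * (s 1 - s 3) := by
    intro h
    have : (s 1 - s 0) * (s 3 - s 2) = 0 := by linear_combination h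
    rcases mul_eq_zero.1 this with h | h
    · exact n10 h
    · exact n32 h
  obtain ⟨a, ha⟩ := Int.eq_ofNat_of_zero_le (show 0 ≤ m 2 - m 0 by linarith)
  obtain ⟨b, hb⟩ := Int.eq_ofNat_of_zero_le (show 0 ≤ m 3 - m 1 by linarith)
  obtain ⟨c, hc⟩ := Int.eq_ofNat_of_zero_le (show 0 ≤ m 3 - m 0 by linarith)
  obtain ⟨e, he⟩ := Int.eq_ofNat_of_zero_le (show 0 ≤ m 2 - m 1 by linarith)
  obtain ⟨D, hDn, hD0, hDsym, hDrec⟩ := exists_recpoly hAB (a := a) (b := b) (c := c) (e := e)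
    (n := a + b) (by omega) (by omega) (by omega) (by omega) rfl (by omega)
  have hn : ((a + b : ℕ) : ℤ) ≤ 2 * S := by
    push_cast
    omega
  have hS0 : 0 < S := by omega
  -- recurrences
  have hR0 : ∀ l : ℤ, |2 * (l + (a + b : ℕ)) - m 0| < 2 * W - 4 * S →
      Rec D (fun l => (z l).2 - s 0 * (z l).1) l ∧ Rec D (fun l => (z l).2 - s 1 * (z l).1) l := by
    intro l hl
    have h := hfour (l + (a + b : ℕ)) hl
    have e1 : l + ((a + b : ℕ) : ℤ) - (m 2 - m 0) = l + b := by rw [ha]; push_cast; ring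
    have e2 : l + ((a + b : ℕ) : ℤ) - (m 3 - m 1) = l + a := by rw [hb]; push_cast; ring
    have e3 : l + ((a + b : ℕ) : ℤ) - (m 2 - m 0) - (m 3 - m 1) = l := by
      rw [ha, hb]; push_cast; ring
    have e4 : l + ((a + b : ℕ) : ℤ) - (m 3 - m 0) = l + e := by
      push_cast; omega
    have e5 : l + ((a + b : ℕ) : ℤ) - (m 2 - m 1) = l + c := by
      push_cast; omega
    rw [e3, e1, e2, e4, e5] at h
    unfold Rec
    rw [hDn]
    refine ⟨?_, ?_⟩
    · rw [hDrec (fun l => (z l).2 - s 0 * (z l).1) l]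
      linear_combination h.1
    · rw [hDrec (fun l => (z l).2 - s 1 * (z l).1) l]
      linear_combination h.2
  have hR1 : ∀ l : ℤ, |2 * (l + (a + b : ℕ)) - m 0| < 2 * W - 4 * S →
      Rec D (fun l => (z l).1) l ∧ Rec D (fun l => (z l).2) l := by
    intro l hl
    obtain ⟨h1, h2⟩ := hR0 l hl
    have h3 := r5_add ((s 1 - s 0)⁻¹) (-(s 1 - s 0)⁻¹) h1 h2
    have h4 : (fun l => (s 1 - s 0)⁻¹ * ((fun l => (z l).2 - s 0 * (z l).1) l) +
        -(s 1 - s 0)⁻¹ * ((fun l => (z l).2 - s 1 * (z l).1) l)) = fun l => (z l).1 := by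
      funext l
      field_simp
      ring
    rw [h4] at h3
    refine ⟨h3, ?_⟩
    have h5 := r5_add 1 (s 0) h1 h3
    have h6 : (fun l => 1 * ((fun l => (z l).2 - s 0 * (z l).1) l) +
        s 0 * ((fun l => (z l).1) l)) = fun l => (z l).2 := by
      funext l
      ring
    rwa [h6] at h5
  -- window
  obtain ⟨A0, hA0⟩ : ∃ A0 : ℤ, A0 = (m 0 - (2 * W - 4 * S)) / 2 + 1 - (a + b : ℕ) := ⟨_, rfl⟩
  obtain ⟨B0, hB0⟩ : ∃ B0 : ℤ, B0 = (m 0 + (2 * W - 4 * S) - 1) / 2 - (a + b : ℕ) := ⟨_, rfl⟩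
  have hwin : ∀ l : ℤ, A0 ≤ l → l ≤ B0 → |2 * (l + (a + b : ℕ)) - m 0| < 2 * W - 4 * S := by
    intro l h1 h2
    rw [abs_lt]
    constructor <;> omega
  obtain ⟨y1, hy1, hy1'⟩ := ext_exists hD0 (fun l => (z l).1) A0
  obtain ⟨y2, hy2, hy2'⟩ := ext_exists hD0 (fun l => (z l).2) A0
  have hag : ∀ l : ℤ, A0 ≤ l → l ≤ B0 + (a + b : ℕ) → y1 l = (z l).1 ∧ y2 l = (z l).2 := by
    intro l h1 h2
    have h3 : A0 ≤ B0 + 1 := by omega
    constructor
    · exact rec_unique hD0 (x := y1) (y := fun l => (z l).1) (A := A0) (B := B0) (c := A0)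
        (fun l _ _ => hy1 l) (fun l h1 h2 => (hR1 l (hwin l h1 h2)).1) le_rfl h3
        hy1' l h1 (by rw [hDn]; exact h2)
    · exact rec_unique hD0 (x := y2) (y := fun l => (z l).2) (A := A0) (B := B0) (c := A0)
        (fun l _ _ => hy2 l) (fun l h1 h2 => (hR1 l (hwin l h1 h2)).2) le_rfl h3
        hy2' l h1 (by rw [hDn]; exact h2)
  have hag' : ∀ l : ℤ, |2 * l - m 0| < 2 * W - 4 * S → y1 l = (z l).1 ∧ y2 l = (z l).2 := by
    intro l hl
    rw [abs_lt] at hl
    apply hag l <;> omega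
  refine ⟨fun l => (y1 l, y2 l), D, hD0, fun l => ?_, fun j l => ?_, fun l hl => ?_⟩
  · apply Prod.ext
    · rw [Prod.fst_sum]
      simp only [Prod.smul_fst, smul_eq_mul, Prod.fst_zero]
      exact hy1 l
    · rw [Prod.snd_sum]
      simp only [Prod.smul_snd, smul_eq_mul, Prod.snd_zero]
      exact hy2 l
  · have hmj : m 0 ≤ m j ∧ m j ≤ m 4 := by
      constructor
      · exact hm.monotone (Fin.zero_le j)
      · exact hm.monotone (Fin.le_last j)
    have hu : ∀ l, Rec D (fun l => y2 l - s j * y1 l) l := by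
      intro l
      have h := r5_add 1 (-s j) (hy2 l) (hy1 l)
      have h6 : (fun l => 1 * y2 l + -s j * y1 l) = fun l => y2 l - s j * y1 l := by
        funext l
        ring
      rwa [h6] at h
    have hu' : ∀ l, Rec D (fun l => y2 (m j - l) - s j * y1 (m j - l)) l := by
      intro l
      exact rec_reverse (by rw [hDn]; exact hDsym) hu (m j) l
    obtain ⟨l0, hl0⟩ : ∃ l0 : ℤ, l0 = (m 0 + 1) / 2 := ⟨_, rfl⟩
    have hblock : ∀ l, l0 ≤ l → l < l0 + D.natDegree →
        y2 l - s j * y1 l = y2 (m j - l) - s j * y1 (m j - l) := by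
      intro l h1 h2
      rw [hDn] at h2
      have w1 : |2 * l - m 0| < 2 * W - 4 * S := by
        rw [abs_lt]
        constructor <;> omega
      have w2 : |2 * (m j - l) - m 0| < 2 * W - 4 * S := by
        rw [abs_lt]
        constructor <;> omega
      have w3 : |2 * l - m j| < 2 * W := by
        rw [abs_lt]
        constructor <;> omega
      rw [(hag' l w1).1, (hag' l w1).2, (hag' _ w2).1, (hag' _ w2).2]
      exact hF j l w3
    have key : y2 l - s j * y1 l = y2 (m j - l) - s j * y1 (m j - l) := by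
      have h0 := rec_unique hD0 (x := fun l => y2 l - s j * y1 l)
        (y := fun l => y2 (m j - l) - s j * y1 (m j - l)) (A := min l l0) (B := max l l0) (c := l0)
        (fun l _ _ => hu l) (fun l _ _ => hu' l) (min_le_right _ _)
        (by have := le_max_right l l0; omega) hblock l (min_le_left _ _)
        (by have := le_max_left l l0; omega)
      exact h0
    refine ⟨y1 l - y1 (m j - l), ?_⟩
    apply Prod.ext
    · simp
    · simp only [Prod.snd_sub, Prod.smul_snd, smul_eq_mul]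
      linear_combination key
  · obtain ⟨h1, h2⟩ := hag' l hl
    apply Prod.ext
    · exact h1
    · exact h2

end Pool.Agent.XA
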