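import Pool.Agent.XA.Q10
import Pool.Agent.XA.Q11
import Pool.Agent.XA.R5

set_option autoImplicit false
open MeasureTheory Set

namespace Pool.Agent.XA

/-- **Proposition A.**  Two-sided form of `hz`: for `|2 l - m j| < 2 (20 b)` there is `x` with
`z l - z (m j - l) = x • (1, s j)` (if `m j < 2 l` from `hz`; if `2 l < m j` apply `hz` to `m j - l`; `2 l = m j` is
impossible by `hodd`).  `ext_thm` with `S = 2 b`, `W = 20 b` gives `y`, `D`.  `seq_thm` for the slopes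
`s ∘ σ`, the labels `m ∘ σ` (`H1` is invariant under permutations, `σ` is injective) and `y`: the sequence
`G l = (y l - y (m (σ 0) - l)).1` satisfies `G (l + m (σ 1)) = G (l + m (σ 2))`.  Put `W' = 2 b + 1`.  If
`m (σ 0) < 2 l < m (σ 0) + 2 W'`, then `|2 l - m 0| ≤ 6 b + 1 < 32 b = 2 W - 4 S` and the same for
`m (σ 0) - l` in place of `l` (`m 0 ≤ m (σ 0) ≤ m 4 = m 0 + 2 b`), so `G l = (z l - z (m (σ 0) - l)).1 = x * c (σ 0)` with
`x > 0` (`hz`), hence `c (σ 0) * G l > 0`.  `|m (σ 1) - m (σ 2)| ≤ 2 b < W'`.  `odd_contra`. -/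
theorem propA {s : Fin 5 → ℝ} (hs : Function.Injective s) (h1 : H1 s)
    (σ : Equiv.Perm (Fin 5))
    (h2 : MB (s (σ 0)) (s (σ 1)) (s (σ 2)) (s (σ 3)) (s (σ 4))) {m : Fin 5 → ℤ}
    (hm : StrictMono m) (hodd : ∀ j, Odd (m j)) {b : ℤ} (hb : 0 < b) (hmb : m 4 - m 0 = 2 * b)
    {z : ℤ → ℝ × ℝ} {c : Fin 5 → ℝ} (hc : ∀ j, c j ≠ 0)
    (hz : ∀ (j : Fin 5) (l : ℤ), m j < 2 * l → 2 * l < m j + 2 * (20 * b) →
      ∃ x : ℝ, 0 < x ∧ z l - z (m j - l) = (x * c j) • ((1 : ℝ), s j)) : False := by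
  have hz2 : ∀ (j : Fin 5) (l : ℤ), |2 * l - m j| < 2 * (20 * b) →
      ∃ x : ℝ, z l - z (m j - l) = x • ((1 : ℝ), s j) := by
    intro j l hl
    rw [abs_lt] at hl
    obtain ⟨l1, l2⟩ := hl
    rcases lt_trichotomy (m j) (2 * l) with h | h | h
    · obtain ⟨x, _, hx⟩ := hz j l h (by linarith)
      exact ⟨_, hx⟩
    · exfalso
      obtain ⟨t, ht⟩ := hodd j
      omega
    · obtain ⟨x, _, hx⟩ := hz j (m j - l) (by linarith) (by linarith)
      refine ⟨-(x * c j), ?_⟩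
      have e : m j - (m j - l) = l := by ring
      rw [e] at hx
      rw [neg_smul, ← hx]
      abel
  obtain ⟨y, D, hD0, hD, hy, hagr⟩ := ext_thm hs hm (S := 2 * b) (W := 20 * b) (by linarith)
    (by linarith) hz2
  have hs' : Function.Injective (s ∘ σ) := hs.comp σ.injective
  have hm' : Function.Injective (m ∘ σ) := hm.injective.comp σ.injective
  have h1' : H1 (s ∘ σ) := by
    intro i j k l a1 a2 a3 a4 a5 a6
    exact h1 (σ i) (σ j) (σ k) (σ l) (fun h => a1 (σ.injective h)) (fun h => a2 (σ.injective h))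
      (fun h => a3 (σ.injective h)) (fun h => a4 (σ.injective h)) (fun h => a5 (σ.injective h))
      (fun h => a6 (σ.injective h))
  have hseq : ∀ l : ℤ, (y (l + m (σ 1)) - y (m (σ 0) - (l + m (σ 1)))).1 =
      (y (l + m (σ 2)) - y (m (σ 0) - (l + m (σ 2)))).1 :=
    fun l => seq_thm (s := s ∘ σ) (m := m ∘ σ) (z := y) hs' h1' h2 hm'
      (fun j l => hy (σ j) l) hD0 hD l
  have lo : ∀ i, m 0 ≤ m i := fun i => hm.monotone (Fin.zero_le i)
  have hi : ∀ i, m i ≤ m 4 := fun i => hm.monotone (Fin.le_last i)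
  refine odd_contra (m0 := m (σ 0)) (m1 := m (σ 1)) (m2 := m (σ 2))
    (G := fun l => (y l - y (m (σ 0) - l)).1) (W := 2 * b + 1) (σ := c (σ 0)) (hodd _) ?_ ?_ ?_ ?_ ?_
  · intro h
    have := hm' (a₁ := 1) (a₂ := 2) h
    exact absurd this (by decide)
  · intro l
    have e : m (σ 0) - (m (σ 0) - l) = l := by ring
    show (y (m (σ 0) - l) - y (m (σ 0) - (m (σ 0) - l))).1 = -(y l - y (m (σ 0) - l)).1
    rw [e]
    simp only [Prod.fst_sub]
    ring
  · intro l
    exact hseq l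
  · rw [abs_lt]
    have a1 := lo (σ 1)
    have a2 := lo (σ 2)
    have a3 := hi (σ 1)
    have a4 := hi (σ 2)
    constructor <;> linarith
  · intro l l1 l2
    have a1 := lo (σ 0)
    have a2 := hi (σ 0)
    have b1 : (1 : ℤ) ≤ b := hb
    have y1 : y l = z l := hagr l (by rw [abs_lt]; constructor <;> linarith)
    have y2 : y (m (σ 0) - l) = z (m (σ 0) - l) :=
      hagr _ (by rw [abs_lt]; constructor <;> linarith)
    obtain ⟨x, hx0, hx⟩ := hz (σ 0) l l1 (by linarith)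
    show 0 < c (σ 0) * (y l - y (m (σ 0) - l)).1
    rw [y1, y2, hx]
    simp only [Prod.smul_fst, smul_eq_mul, mul_one]
    have hcc : 0 < c (σ 0) * c (σ 0) := mul_self_pos.2 (hc _)
    have : c (σ 0) * (x * c (σ 0)) = x * (c (σ 0) * c (σ 0)) := by ring
    rw [this]
    exact mul_pos hx0 hcc

end Pool.Agent.XA
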