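import Mathlib

/-!
# [XA] X-rays of convex annuli: definitions

Everything happens in the plane `ℝ × ℝ`.  For an angle `θ` put `e(θ) = (cos θ, sin θ)` and
`u(θ) = e(θ + π/2) = (- sin θ, cos θ)`.

* `lv θ w = ⟨w, e(θ)⟩` : the *level* of `w` in the direction `θ`;
* `tg θ w = ⟨w, u(θ)⟩` : the coordinate of `w` along the line of level `lv θ w`;
* `pt θ c t = c • e(θ) + t • u(θ)` : the point with level `c` and coordinate `t`;
* `hs K θ` : the support function;
* `IsArc K L α β` : `(α, β)` is a component of `{ψ | hs K ψ ≠ hs L ψ}`;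
* `DS K L α β` : the piece of the symmetric difference that is seen from the arc `(α, β)`;
* `mom D` : the vector `∫_D w dw`.
-/

set_option autoImplicit false
open MeasureTheory Set

namespace Pool.Agent.XA

/-- level of `w` in the direction `θ` -/
noncomputable def lv (θ : ℝ) (w : ℝ × ℝ) : ℝ := w.1 * Real.cos θ + w.2 * Real.sin θ

/-- coordinate of `w` along the line orthogonal to the direction `θ` -/
noncomputable def tg (θ : ℝ) (w : ℝ × ℝ) : ℝ := w.2 * Real.cos θ - w.1 * Real.sin θ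

/-- the point with level `c` and coordinate `t` (with respect to the direction `θ`) -/
noncomputable def pt (θ c t : ℝ) : ℝ × ℝ :=
  (c * Real.cos θ - t * Real.sin θ, c * Real.sin θ + t * Real.cos θ)

/-- planar convex bodies: compact convex sets with nonempty interior -/
structure IsBody (K : Set (ℝ × ℝ)) : Prop where
  compact : IsCompact K
  convex : Convex ℝ K
  nonempty : (interior K).Nonempty

/-- the support function -/
noncomputable def hs (K : Set (ℝ × ℝ)) (θ : ℝ) : ℝ := sSup (lv θ '' K)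

/-- `(α, β)` is a complementary arc of the set of angles where the support functions agree -/
structure IsArc (K L : Set (ℝ × ℝ)) (α β : ℝ) : Prop where
  lt : α < β
  left : hs K α = hs L α
  right : hs K β = hs L β
  ne : ∀ ψ ∈ Ioo α β, hs K ψ ≠ hs L ψ

/-- the (open) piece of the symmetric difference of `K` and `L` that is seen from the arc
`(α, β)` -/
def DS (K L : Set (ℝ × ℝ)) (α β : ℝ) : Set (ℝ × ℝ) :=
  {w | (w ∈ interior K ∧ ∃ ψ ∈ Ioo α β, hs L ψ < lv ψ w) ∨
    (w ∈ interior L ∧ ∃ ψ ∈ Ioo α β, hs K ψ < lv ψ w)}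

/-- the first moments of a planar set -/
noncomputable def mom (D : Set (ℝ × ℝ)) : ℝ × ℝ := (∫ w in D, w.1, ∫ w in D, w.2)

/-- the hypotheses at one direction `θ`: equal extreme levels, and chords of equal lengths at all
levels above `c1` -/
structure Dir (K L : Set (ℝ × ℝ)) (θ c1 : ℝ) : Prop where
  bK : IsBody K
  bL : IsBody L
  top : hs K θ = hs L θ
  bot : hs K (θ + Real.pi) = hs L (θ + Real.pi)
  len : ∀ c, c1 ≤ c → -hs K (θ + Real.pi) < c → c < hs K θ →
    volume {t : ℝ | pt θ c t ∈ K} = volume {t : ℝ | pt θ c t ∈ L}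

/-- the chords of `K` and `L` at the level `c`: `[a, b]` and `[a', b']`, of the same length -/
structure Chords (K L : Set (ℝ × ℝ)) (θ c a b a' b' : ℝ) : Prop where
  lt : a < b
  eq : b - a = b' - a'
  sK : {t : ℝ | pt θ c t ∈ K} = Icc a b
  iK : {t : ℝ | pt θ c t ∈ interior K} = Ioo a b
  sL : {t : ℝ | pt θ c t ∈ L} = Icc a' b'
  iL : {t : ℝ | pt θ c t ∈ interior L} = Ioo a' b'

section algebra

theorem lv_pt (θ c t : ℝ) : lv θ (pt θ c t) = c := by
  have h := Real.sin_sq_add_cos_sq θ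
  simp only [lv, pt]
  linear_combination c * h

theorem tg_pt (θ c t : ℝ) : tg θ (pt θ c t) = t := by
  have h := Real.sin_sq_add_cos_sq θ
  simp only [tg, pt]
  linear_combination t * h

theorem pt_lv_tg (θ : ℝ) (w : ℝ × ℝ) : pt θ (lv θ w) (tg θ w) = w := by
  have h := Real.sin_sq_add_cos_sq θ
  ext
  · simp only [lv, tg, pt]
    linear_combination w.1 * h
  · simp only [lv, tg, pt]
    linear_combination w.2 * h

/-- the level of `pt θ c t` in another direction -/
theorem lv_pt' (ψ θ c t : ℝ) :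
    lv ψ (pt θ c t) = c * Real.cos (ψ - θ) + t * Real.sin (ψ - θ) := by
  simp only [lv, pt, Real.cos_sub, Real.sin_sub]
  ring

theorem lv_eq (ψ θ : ℝ) (w : ℝ × ℝ) :
    lv ψ w = lv θ w * Real.cos (ψ - θ) + tg θ w * Real.sin (ψ - θ) := by
  conv_lhs => rw [← pt_lv_tg θ w]
  exact lv_pt' ψ θ _ _

theorem lv_add_pi (θ : ℝ) (w : ℝ × ℝ) : lv (θ + Real.pi) w = -lv θ w := by
  simp only [lv, Real.cos_add_pi, Real.sin_add_pi]
  ring

theorem lv_sub_pi (θ : ℝ) (w : ℝ × ℝ) : lv (θ - Real.pi) w = -lv θ w := by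
  simp only [lv, Real.cos_sub_pi, Real.sin_sub_pi]
  ring

theorem lv_add_two_pi (θ : ℝ) (w : ℝ × ℝ) : lv (θ + 2 * Real.pi) w = lv θ w := by
  simp only [lv, Real.cos_add_two_pi, Real.sin_add_two_pi]

theorem lv_add_int_two_pi (θ : ℝ) (k : ℤ) (w : ℝ × ℝ) :
    lv (θ + k * (2 * Real.pi)) w = lv θ w := by
  simp only [lv, Real.cos_add_int_mul_two_pi, Real.sin_add_int_mul_two_pi]

theorem lv_sub (θ : ℝ) (v w : ℝ × ℝ) : lv θ (v - w) = lv θ v - lv θ w := by
  simp only [lv, Prod.fst_sub, Prod.snd_sub]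
  ring

theorem lv_add (θ : ℝ) (v w : ℝ × ℝ) : lv θ (v + w) = lv θ v + lv θ w := by
  simp only [lv, Prod.fst_add, Prod.snd_add]
  ring

theorem lv_smul (θ a : ℝ) (w : ℝ × ℝ) : lv θ (a • w) = a * lv θ w := by
  simp only [lv, Prod.smul_fst, Prod.smul_snd, smul_eq_mul]
  ring

theorem tg_sub (θ : ℝ) (v w : ℝ × ℝ) : tg θ (v - w) = tg θ v - tg θ w := by
  simp only [tg, Prod.fst_sub, Prod.snd_sub]
  ring

theorem tg_add (θ : ℝ) (v w : ℝ × ℝ) : tg θ (v + w) = tg θ v + tg θ w := by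
  simp only [tg, Prod.fst_add, Prod.snd_add]
  ring

theorem tg_smul (θ a : ℝ) (w : ℝ × ℝ) : tg θ (a • w) = a * tg θ w := by
  simp only [tg, Prod.smul_fst, Prod.smul_snd, smul_eq_mul]
  ring

/-- `e(ψ)` is a combination of `e(ψ₁)` and `e(ψ₂)` -/
theorem lv_comb (ψ₁ ψ ψ₂ : ℝ) (w : ℝ × ℝ) :
    Real.sin (ψ₂ - ψ₁) * lv ψ w =
      Real.sin (ψ₂ - ψ) * lv ψ₁ w + Real.sin (ψ - ψ₁) * lv ψ₂ w := by
  simp only [lv, Real.sin_sub]
  have h1 := Real.sin_sq_add_cos_sq ψ
  have h2 := Real.sin_sq_add_cos_sq ψ₁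
  have h3 := Real.sin_sq_add_cos_sq ψ₂
  ring

end algebra

section continuity

theorem continuous_lv : Continuous (fun p : ℝ × (ℝ × ℝ) => lv p.1 p.2) := by
  unfold lv
  fun_prop

theorem continuous_lv_right (θ : ℝ) : Continuous (lv θ) := by
  unfold lv
  fun_prop

theorem continuous_lv_left (w : ℝ × ℝ) : Continuous (fun θ => lv θ w) := by
  unfold lv
  fun_prop

theorem continuous_tg_right (θ : ℝ) : Continuous (tg θ) := by
  unfold tg
  fun_prop

theorem continuous_pt (θ : ℝ) : Continuous (fun p : ℝ × ℝ => pt θ p.1 p.2) := by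
  unfold pt
  fun_prop

theorem continuous_pt_right (θ c : ℝ) : Continuous (fun t : ℝ => pt θ c t) := by
  unfold pt
  fun_prop

end continuity

end Pool.Agent.XA
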