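import Pool.Agent.XA.S4
import Pool.Agent.XA.Defs

set_option autoImplicit false
open MeasureTheory Set

namespace Pool.Agent.XA

/-- the S-angles -/
noncomputable def ang (N : ℕ) (s : ℕ → ℝ) (i : ℤ) : ℝ :=
  Real.arctan (s (i % (N : ℤ)).toNat) + Real.pi / 2 + ((i / (N : ℤ) : ℤ) : ℝ) * Real.pi

/-- `i = (i % N) + N * (i / N)` (`Int.emod_add_mul_ediv` or similar) and `Slopes.ang`. -/
theorem ang_mem {N : ℕ} (hN : 0 < N) {s : ℕ → ℝ} (h : Slopes N s) (i : ℤ) :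
    ang N s i ∈ Ioo (Real.pi * i / N) (Real.pi * (i + 1) / N) := by
  have hN0 : (0 : ℤ) < N := by exact_mod_cast hN
  have hNR : (0 : ℝ) < N := by exact_mod_cast hN
  have h1 := Int.emod_nonneg i hN0.ne'
  have h2 := Int.emod_lt_of_pos i hN0
  have h3 : ((i % (N : ℤ)).toNat : ℤ) = i % (N : ℤ) := Int.toNat_of_nonneg h1
  obtain ⟨r, hr⟩ : ∃ r, r = (i % (N : ℤ)).toNat := ⟨_, rfl⟩
  have h4 : (i : ℝ) = (r : ℝ) + (N : ℝ) * ((i / (N : ℤ) : ℤ) : ℝ) := by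
    have h5 := Int.emod_add_mul_ediv i (N : ℤ)
    rw [← h3, ← hr] at h5
    exact_mod_cast h5.symm
  obtain ⟨h5, h6⟩ := h.ang r (by omega)
  unfold ang
  rw [← hr, h4]
  have h7 : Real.pi * ((r : ℝ) + (N : ℝ) * ((i / (N : ℤ) : ℤ) : ℝ)) / N =
      Real.pi * r / N + ((i / (N : ℤ) : ℤ) : ℝ) * Real.pi := by
    field_simp
  have h8 : Real.pi * ((r : ℝ) + (N : ℝ) * ((i / (N : ℤ) : ℤ) : ℝ) + 1) / N =
      Real.pi * (r + 1) / N + ((i / (N : ℤ) : ℤ) : ℝ) * Real.pi := by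
    field_simp
    ring
  rw [h7, h8]
  exact ⟨by linarith, by linarith⟩

/-- from `ang_mem`: `ang i < π (i + 1) / N < ang (i + 1)` (`strictMono_int_of_lt_succ`) -/
theorem ang_strictMono {N : ℕ} (hN : 0 < N) {s : ℕ → ℝ} (h : Slopes N s) :
    StrictMono (ang N s) := by
  refine strictMono_int_of_lt_succ fun i => ?_
  have h1 := (ang_mem hN h i).2
  have h2 := (ang_mem hN h (i + 1)).1
  push_cast at h2
  exact h1.trans h2

theorem ang_above {N : ℕ} (hN : 0 < N) {s : ℕ → ℝ} (h : Slopes N s) (x : ℝ) :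
    ∃ i, x < ang N s i := by
  have hNR : (0 : ℝ) < N := by exact_mod_cast hN
  refine ⟨⌈x * N / Real.pi⌉, lt_of_le_of_lt ?_ (ang_mem hN h _).1⟩
  have h1 := Int.le_ceil (x * N / Real.pi)
  rw [div_le_iff₀ Real.pi_pos] at h1
  rw [le_div_iff₀ hNR]
  linarith

theorem ang_below {N : ℕ} (hN : 0 < N) {s : ℕ → ℝ} (h : Slopes N s) (x : ℝ) :
    ∃ i, ang N s i < x := by
  have hNR : (0 : ℝ) < N := by exact_mod_cast hN
  refine ⟨⌊x * N / Real.pi⌋ - 1, lt_of_lt_of_le (ang_mem hN h _).2 ?_⟩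
  have h1 := Int.floor_le (x * N / Real.pi)
  rw [le_div_iff₀ Real.pi_pos] at h1
  rw [div_le_iff₀ hNR]
  push_cast
  linarith

/-- from `ang_mem` -/
theorem ang_gap {N : ℕ} (hN : 0 < N) {s : ℕ → ℝ} (h : Slopes N s) (i : ℤ) :
    ang N s (i + 1) ≤ ang N s i + 2 * Real.pi / N := by
  have h1 := (ang_mem hN h i).1
  have h2 := (ang_mem hN h (i + 1)).2
  push_cast at h2
  have h3 : Real.pi * ((i : ℝ) + 1 + 1) / N = Real.pi * i / N + 2 * Real.pi / N := by ring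
  rw [h3] at h2
  linarith

/-- `(i + N) % N = i % N`, `(i + N) / N = i / N + 1` -/
theorem ang_add_N {N : ℕ} (hN : 0 < N) (s : ℕ → ℝ) (i : ℤ) :
    ang N s (i + N) = ang N s i + Real.pi := by
  have hN0 : (N : ℤ) ≠ 0 := by
    have : (0 : ℤ) < N := by exact_mod_cast hN
    exact this.ne'
  have h1 : (i + (N : ℤ)) % (N : ℤ) = i % (N : ℤ) := Int.add_emod_right i N
  have h2 : (i + (N : ℤ)) / (N : ℤ) = i / (N : ℤ) + 1 := by
    have h3 := Int.add_mul_ediv_right i 1 hN0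
    rwa [one_mul] at h3
  unfold ang
  rw [h1, h2]
  push_cast
  ring

/-- `sin (arctan x + π/2 + k π) = ± cos (arctan x) ≠ 0`, and
`cos (arctan x + π/2 + k π) = ∓ sin (arctan x)`, `sin (arctan x) = x cos (arctan x)` (`Real.tan_arctan`). -/
theorem ang_trig (N : ℕ) (s : ℕ → ℝ) (i : ℤ) :
    Real.sin (ang N s i) ≠ 0 ∧
      Real.cos (ang N s i) = -(s (i % (N : ℤ)).toNat) * Real.sin (ang N s i) := by
  obtain ⟨x, hx⟩ : ∃ x, x = s (i % (N : ℤ)).toNat := ⟨_, rfl⟩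
  obtain ⟨k, hk⟩ : ∃ k : ℤ, k = i / (N : ℤ) := ⟨_, rfl⟩
  have hc := Real.cos_arctan_pos x
  have h1 : Real.sin (Real.arctan x) = x * Real.cos (Real.arctan x) := by
    have h2 := Real.tan_arctan x
    rw [Real.tan_eq_sin_div_cos, div_eq_iff hc.ne'] at h2
    exact h2
  have h3 : ((-1 : ℝ)) ^ k ≠ 0 := zpow_ne_zero k (neg_ne_zero.2 one_ne_zero)
  unfold ang
  rw [← hx, ← hk, Real.sin_add_int_mul_pi, Real.cos_add_int_mul_pi, Real.sin_add_pi_div_two,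
    Real.cos_add_pi_div_two, h1]
  exact ⟨mul_ne_zero h3 hc.ne', by ring⟩

/-- `ang_trig`: `pt θ 0 x = (- x sin θ, x cos θ)`. -/
theorem pt_ang (N : ℕ) (s : ℕ → ℝ) (i : ℤ) (x : ℝ) :
    pt (ang N s i) 0 x = (x * (-Real.sin (ang N s i))) • ((1 : ℝ), s (i % (N : ℤ)).toNat) := by
  obtain ⟨-, h1⟩ := ang_trig N s i
  unfold pt
  rw [h1]
  ext
  · simp only [Prod.smul_fst, smul_eq_mul]
    ring
  · simp only [Prod.smul_snd, smul_eq_mul]
    ring

end Pool.Agent.XA
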