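import Pool.Agent.XA.S4

set_option autoImplicit false
open MeasureTheory Set

namespace Pool.Agent.XA

/-- the residues of five consecutive integers modulo `N ≥ 5` -/
def res (N : ℕ) (i : ℤ) (j : Fin 5) : ℕ := ((i + (j : ℕ)) % (N : ℤ)).toNat

theorem s6_cast {N : ℕ} (hN : 5 ≤ N) (i : ℤ) (j : Fin 5) :
    ((res N i j : ℕ) : ℤ) = (i + (j : ℕ)) % (N : ℤ) := by
  unfold res
  exact Int.toNat_of_nonneg (Int.emod_nonneg _ (by omega))

theorem res_lt {N : ℕ} (hN : 5 ≤ N) (i : ℤ) (j : Fin 5) : res N i j < N := by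
  have h1 := s6_cast hN i j
  have h2 : (i + (j : ℕ)) % (N : ℤ) < N := Int.emod_lt_of_pos _ (by omega)
  omega

/-- equal residues of `i + j`, `i + j'` mean `N ∣ j - j'`, `|j - j'| ≤ 4 < N` -/
theorem res_inj {N : ℕ} (hN : 5 ≤ N) (i : ℤ) : Function.Injective (res N i) := by
  intro j j' h
  have h1 := s6_cast hN i j
  have h2 := s6_cast hN i j'
  have h3 : (i + (j : ℕ)) % (N : ℤ) = (i + (j' : ℕ)) % (N : ℤ) := by rw [← h1, ← h2, h]
  have h4 : (N : ℤ) ∣ (i + (j' : ℕ)) - (i + (j : ℕ)) := Int.ModEq.dvd h3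
  have h5 : (i + (j' : ℕ)) - (i + (j : ℕ)) = ((j' : ℕ) : ℤ) - ((j : ℕ) : ℤ) := by ring
  rw [h5] at h4
  have l1 := j.isLt
  have l2 := j'.isLt
  have h6 : ((j' : ℕ) : ℤ) - ((j : ℕ) : ℤ) = 0 := by
    apply Int.eq_zero_of_abs_lt_dvd h4
    rw [abs_lt]
    constructor <;> omega
  apply Fin.ext
  omega

/-- Let `t` be an index where the injective function `res N i` is maximal, `σ = Equiv.swap 4 t`. -/
theorem exists_perm {N : ℕ} (hN : 5 ≤ N) (i : ℤ) :
    ∃ σ : Equiv.Perm (Fin 5), ∀ j, j ≠ 4 → res N i (σ j) < res N i (σ 4) := by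
  obtain ⟨t, _, ht⟩ := Finset.exists_max_image (Finset.univ : Finset (Fin 5)) (res N i)
    ⟨0, Finset.mem_univ _⟩
  refine ⟨Equiv.swap 4 t, fun j hj => ?_⟩
  rw [Equiv.swap_apply_left]
  apply lt_of_le_of_ne (ht _ (Finset.mem_univ _))
  intro he
  have h1 : Equiv.swap 4 t j = t := res_inj hN i he
  have h2 : Equiv.swap 4 t j = Equiv.swap 4 t 4 := by rw [h1, Equiv.swap_apply_left]
  exact hj ((Equiv.swap 4 t).injective h2)

theorem s6_inj {N : ℕ} {s : ℕ → ℝ} (h : Slopes N s) {a b : ℕ} (ha : a < N) (hb : b < N)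
    (he : s a = s b) : a = b := by
  have h1 := h.ang a ha
  have h2 := h.ang b hb
  rw [he] at h1
  have hN : (0 : ℝ) < N := by
    have : 0 < N := by omega
    exact_mod_cast this
  have hpi := Real.pi_pos
  by_contra hne
  have key : ∀ x y : ℕ, x < y → Real.arctan (s b) + Real.pi / 2 < Real.pi * (x + 1) / N →
      Real.pi * y / N < Real.arctan (s b) + Real.pi / 2 → False := by
    intro x y hxy l1 l2
    have h3 : (x : ℝ) + 1 ≤ y := by exact_mod_cast hxy
    have h4 : Real.pi * ((x : ℝ) + 1) / N ≤ Real.pi * y / N := by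
      apply div_le_div_of_nonneg_right _ hN.le
      exact mul_le_mul_of_nonneg_left h3 hpi.le
    linarith
  rcases lt_or_gt_of_ne hne with hl | hl
  · exact key a b hl h1.2 h2.1
  · exact key b a hl h2.2 h1.1

/-- **The conditions of Proposition A for a block.** -/
theorem block_conditions {N : ℕ} (hN : 5 ≤ N) {s : ℕ → ℝ} (h : Slopes N s) (i : ℤ) :
    Function.Injective (fun j => s (res N i j)) ∧ H1 (fun j => s (res N i j)) ∧
      ∃ σ : Equiv.Perm (Fin 5), MB (s (res N i (σ 0))) (s (res N i (σ 1))) (s (res N i (σ 2)))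
        (s (res N i (σ 3))) (s (res N i (σ 4))) := by
  refine ⟨?_, ?_, ?_⟩
  · intro j j' he
    exact res_inj hN i (s6_inj h (res_lt hN i j) (res_lt hN i j') he)
  · intro a b c d h1 h2 h3 h4 h5 h6
    exact h.cr _ _ _ _ (res_lt hN i a) (res_lt hN i b) (res_lt hN i c) (res_lt hN i d)
      (fun he => h1 (res_inj hN i he)) (fun he => h2 (res_inj hN i he))
      (fun he => h3 (res_inj hN i he)) (fun he => h4 (res_inj hN i he))
      (fun he => h5 (res_inj hN i he)) (fun he => h6 (res_inj hN i he))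
  · obtain ⟨σ, hσ⟩ := exists_perm hN i
    refine ⟨σ, h.mb _ _ _ _ _ (hσ 0 (by decide)) (hσ 1 (by decide)) (hσ 2 (by decide))
      (hσ 3 (by decide)) (res_lt hN i (σ 4)) ?_ ?_ ?_ ?_ ?_ ?_⟩
    all_goals
      intro he
      have := σ.injective (res_inj hN i he)
      exact absurd this (by decide)

end Pool.Agent.XA
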