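import Pool.Agent.XA.E3
import Pool.Agent.XA.K4
import Pool.Agent.XA.Q12
import Pool.Agent.XA.S5
import Pool.Agent.XA.S6
import Pool.Agent.XA.D2

set_option autoImplicit false
open MeasureTheory Set

namespace Pool.Agent.XA

/-- for every angle there is an S-angle at distance at most `2 π / N` -/
theorem z1_near {N : ℕ} (hN : 0 < N) {s : ℕ → ℝ} (hs' : Slopes N s) (ψ : ℝ) :
    ∃ i : ℤ, |ang N s i - ψ| ≤ 2 * Real.pi / N := by
  obtain ⟨b, hb⟩ := ang_above hN hs' ψ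
  obtain ⟨a, ha⟩ := ang_below hN hs' ψ
  have hm := ang_strictMono hN hs'
  obtain ⟨i, h1, h2⟩ := Int.exists_greatest_of_bdd (P := fun i => ang N s i ≤ ψ)
    ⟨b, fun z hz => (hm.lt_iff_lt.1 (lt_of_le_of_lt hz hb)).le⟩ ⟨a, ha.le⟩
  have h3 : ψ < ang N s (i + 1) := by
    by_contra hc
    push Not at hc
    have := h2 (i + 1) hc
    omega
  have h4 := ang_gap hN hs' i
  have h1' : ang N s i ≤ ψ := h1
  refine ⟨i, ?_⟩
  rw [abs_sub_comm, abs_of_nonneg (by linarith)]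
  linarith

/-- **Lemma G.**  Let `φ i = ang N s i`, `ε = 2 π / N ≤ 1/100`, `η = 84 ε < π`, `d = 2 w0`; `w0 > 0` (`width_pos`),
so `ρ > 0`.  `hs_eq_of_xray`: `top` for all `i`; `bot` since `φ i + π = φ (i + N)` (`ang_add_N`).  For every `ψ`
there is `i` with `φ i ≤ ψ < φ (i + 1)` (`ang_strictMono`, `ang_above`, `ang_below`: the largest `i` with
`φ i ≤ ψ`), so `|φ i - ψ| ≤ ε` (`ang_gap`); `spread`: `hd` with `d = 2 w0`.  Suppose `K ≠ L`.  `exists_comb`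
(`d ε + d η = 2 w0 * 85 ε < ρ`) and `comb_window` with `q = 20` (`(4 * 20 + 4) ε = η`): `i`, `b`, `m`.
`block_conditions` for this `i`, and `propA` with the slopes `s (res N i j)` and `c j = - sin (ang N s (i + j)) ≠ 0`
(`ang_trig`, `pt_ang`; `res N i j = ((i + j) % N).toNat`) gives `False`. -/
theorem lemmaG {N : ℕ} (hN : 5 ≤ N) {s : ℕ → ℝ} (hs' : Slopes N s) {K L QK QL : Set (ℝ × ℝ)}
    (hK : IsBody K) (hL : IsBody L) {ρ w0 : ℝ}
    (hw : ∀ θ, hs K θ + hs K (θ + Real.pi) ≤ w0) (hε : 2 * Real.pi / N ≤ 1 / 100)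
    (hρ : 2 * w0 * (85 * (2 * Real.pi / N)) < ρ) (hQKs : QK ⊆ K) (hQLs : QL ⊆ L)
    (hQK : ∀ i, ∀ y ∈ QK, lv (ang N s i) y + ρ ≤ hs K (ang N s i))
    (hQL : ∀ i, ∀ y ∈ QL, lv (ang N s i) y + ρ ≤ hs L (ang N s i))
    (hX : ∀ (i : ℤ) (c : ℝ), (∀ y ∈ QK ∪ QL, lv (ang N s i) y < c) →
      volume {t : ℝ | pt (ang N s i) c t ∈ interior K} =
        volume {t : ℝ | pt (ang N s i) c t ∈ interior L}) : K = L := by
  have hN0 : 0 < N := by omega
  have hNr : (0 : ℝ) < N := by exact_mod_cast hN0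
  have hpi := Real.pi_pos
  have hε0 : 0 < 2 * Real.pi / N := by positivity
  have hw0 : 0 < w0 := lt_of_lt_of_le (width_pos hK 0) (hw 0)
  have hρ0 : 0 < ρ := lt_trans (by positivity) hρ
  have top : ∀ i, hs K (ang N s i) = hs L (ang N s i) :=
    fun i => hs_eq_of_xray hK hL hρ0 (hQK i) (hQL i) (hX i)
  have bot : ∀ i, hs K (ang N s i + Real.pi) = hs L (ang N s i + Real.pi) := by
    intro i
    rw [← ang_add_N hN0 s i]
    exact top _
  have hφ : ∀ ψ, ∃ φ, |φ - ψ| ≤ 2 * Real.pi / N ∧ hs K φ = hs L φ ∧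
      hs K (φ + Real.pi) = hs L (φ + Real.pi) := by
    intro ψ
    obtain ⟨i, hi⟩ := z1_near hN0 hs' ψ
    exact ⟨ang N s i, hi, top i, bot i⟩
  have hd := spread hK hL (ε := 2 * Real.pi / N) (by linarith) hw hφ
  by_contra hne
  obtain ⟨f, e, AL, Mi, z, hcomb⟩ := exists_comb hK hL (φ := ang N s)
    (ε := 2 * Real.pi / N) (η := 84 * (2 * Real.pi / N)) (d := 2 * w0) (ρ := ρ)
    (ang_strictMono hN0 hs') (fun x => ang_above hN0 hs' x) (fun x => ang_below hN0 hs' x)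
    (fun i => ang_gap hN0 hs' i) (by linarith) (by linarith [Real.pi_gt_three]) hd hQKs hQLs
    hQK hQL (by linarith) top bot hX hne
  obtain ⟨i, b, m, hb, hm, hodd, hm4, hwin⟩ := comb_window hcomb 20 (by push_cast; linarith)
  obtain ⟨hinj, hH1, σ, hMB⟩ := block_conditions hN hs' i
  refine propA hinj hH1 σ hMB hm hodd hb hm4 (z := z)
    (c := fun j => -Real.sin (ang N s (i + ((j : ℕ) : ℤ)))) ?_ ?_
  · intro j
    exact neg_ne_zero.2 (ang_trig N s _).1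
  · intro j l h1 h2
    obtain ⟨x, hx0, hx⟩ := hwin j l h1 (by push_cast; exact h2)
    refine ⟨x, hx0, ?_⟩
    rw [hx, pt_ang]
    rfl

end Pool.Agent.XA
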