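import Pool.Agent.XA.B1

set_option autoImplicit false
open MeasureTheory Set

namespace Pool.Agent.XA

/-- **Existence of arcs.**  `α := sSup {χ ∈ Icc ψ₁ ψ | hs K χ = hs L χ}` and
`β := sInf {χ ∈ Icc ψ ψ₂ | hs K χ = hs L χ}`; these sets are closed (`continuous_hs`) and bounded and
nonempty, so `α`, `β` belong to them (`IsCompact.sSup_mem`, `IsCompact.sInf_mem`); `α ≠ ψ ≠ β` by `hne`;
between `α` and `ψ` and between `ψ` and `β` there is no angle of equality. -/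
theorem exists_arc {K L : Set (ℝ × ℝ)} (hK : IsBody K) (hL : IsBody L) {ψ₁ ψ ψ₂ : ℝ}
    (h1 : ψ₁ ≤ ψ) (h2 : ψ ≤ ψ₂) (e1 : hs K ψ₁ = hs L ψ₁) (e2 : hs K ψ₂ = hs L ψ₂)
    (hne : hs K ψ ≠ hs L ψ) :
    ∃ α β, IsArc K L α β ∧ ψ ∈ Ioo α β ∧ ψ₁ ≤ α ∧ β ≤ ψ₂ := by
  have hcl : IsClosed {χ : ℝ | hs K χ = hs L χ} :=
    isClosed_eq (continuous_hs hK.compact) (continuous_hs hL.compact)
  have cA : IsCompact (Icc ψ₁ ψ ∩ {χ : ℝ | hs K χ = hs L χ}) := isCompact_Icc.inter_right hcl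
  have cB : IsCompact (Icc ψ ψ₂ ∩ {χ : ℝ | hs K χ = hs L χ}) := isCompact_Icc.inter_right hcl
  have nA : (Icc ψ₁ ψ ∩ {χ : ℝ | hs K χ = hs L χ}).Nonempty := ⟨ψ₁, ⟨le_refl _, h1⟩, e1⟩
  have nB : (Icc ψ ψ₂ ∩ {χ : ℝ | hs K χ = hs L χ}).Nonempty := ⟨ψ₂, ⟨h2, le_refl _⟩, e2⟩
  have mA := cA.sSup_mem nA
  have mB := cB.sInf_mem nB
  have uA := cA.bddAbove
  have lB := cB.bddBelow
  set α := sSup (Icc ψ₁ ψ ∩ {χ : ℝ | hs K χ = hs L χ}) with hα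
  set β := sInf (Icc ψ ψ₂ ∩ {χ : ℝ | hs K χ = hs L χ}) with hβ
  have eα : hs K α = hs L α := mA.2
  have eβ : hs K β = hs L β := mB.2
  have lα : α < ψ := lt_of_le_of_ne mA.1.2 (fun h => hne (h ▸ eα))
  have lβ : ψ < β := lt_of_le_of_ne mB.1.1 (fun h => hne (h ▸ eβ))
  refine ⟨α, β, ⟨by linarith, eα, eβ, ?_⟩, ⟨lα, lβ⟩, mA.1.1, mB.1.2⟩
  intro χ hχ he
  rcases le_total χ ψ with hc | hc
  · have : χ ≤ α := le_csSup uA ⟨⟨by linarith [mA.1.1, hχ.1], hc⟩, he⟩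
    linarith [hχ.1]
  · have : β ≤ χ := csInf_le lB ⟨⟨hc, by linarith [mB.1.2, hχ.2]⟩, he⟩
    linarith [hχ.2]

end Pool.Agent.XA
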