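import Pool.Agent.XA.Defs

set_option autoImplicit false
open MeasureTheory Set

namespace Pool.Agent.XA

/-- **Enumeration of a periodic locally finite set.**  The subtype `F` is a nonempty linear order
without maximum and minimum (shift by `± p`) in which all intervals `Icc` are finite, hence
`LocallyFiniteOrder` (`LocallyFiniteOrder.ofFiniteIcc`), and Mathlib's
`orderIsoIntOfLinearSuccPredArch : ι ≃o ℤ` (instances from `LinearLocallyFiniteOrder`) gives an order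
isomorphism with `ℤ`.  `f l := ((iso.symm l : F) : ℝ)`.  Unboundedness: `F` contains `x₀ + k p` for all
integers `k`. -/
theorem enum_periodic {F : Set ℝ} (hne : F.Nonempty) {p : ℝ} (hp : 0 < p)
    (hper : ∀ x ∈ F, ∀ k : ℤ, x + k * p ∈ F) (hfin : ∀ x y : ℝ, (F ∩ Icc x y).Finite) :
    ∃ f : ℤ → ℝ, StrictMono f ∧ range f = F ∧ (∀ x, ∃ l, x < f l) ∧ (∀ x, ∃ l, f l < x) := by
  classical
  obtain ⟨x₀, hx₀⟩ := hne
  have hup : ∀ x : ℝ, ∃ y ∈ F, x < y := by
    intro x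
    obtain ⟨k, hk⟩ := exists_int_gt ((x - x₀) / p)
    refine ⟨x₀ + k * p, hper x₀ hx₀ k, ?_⟩
    rw [div_lt_iff₀ hp] at hk
    linarith
  have hdn : ∀ x : ℝ, ∃ y ∈ F, y < x := by
    intro x
    obtain ⟨k, hk⟩ := exists_int_lt ((x - x₀) / p)
    refine ⟨x₀ + k * p, hper x₀ hx₀ k, ?_⟩
    rw [lt_div_iff₀ hp] at hk
    linarith
  haveI : Nonempty F := ⟨⟨x₀, hx₀⟩⟩
  haveI : NoMaxOrder F := ⟨fun a => by
    obtain ⟨y, hy, h⟩ := hup (a : ℝ)
    exact ⟨⟨y, hy⟩, h⟩⟩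
  haveI : NoMinOrder F := ⟨fun a => by
    obtain ⟨y, hy, h⟩ := hdn (a : ℝ)
    exact ⟨⟨y, hy⟩, h⟩⟩
  have hIcc : ∀ a b : F, (Set.Icc a b).Finite := by
    intro a b
    have h1 := (hfin a b).preimage (f := ((↑) : F → ℝ)) Subtype.val_injective.injOn
    refine h1.subset ?_
    intro c hc
    exact ⟨c.2, hc.1, hc.2⟩
  letI : LocallyFiniteOrder F := LocallyFiniteOrder.ofFiniteIcc hIcc
  letI : SuccOrder F := LinearLocallyFiniteOrder.succOrder F
  letI : PredOrder F := LinearLocallyFiniteOrder.predOrder F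
  let iso : F ≃o ℤ := orderIsoIntOfLinearSuccPredArch
  refine ⟨fun l => ((iso.symm l : F) : ℝ), ?_, ?_, ?_, ?_⟩
  · intro a b hab
    exact iso.symm.strictMono hab
  · ext y
    constructor
    · rintro ⟨l, rfl⟩
      exact (iso.symm l).2
    · intro hy
      exact ⟨iso ⟨y, hy⟩, by simp⟩
  · intro x
    obtain ⟨y, hy, h⟩ := hup x
    exact ⟨iso ⟨y, hy⟩, by simpa using h⟩
  · intro x
    obtain ⟨y, hy, h⟩ := hdn x
    exact ⟨iso ⟨y, hy⟩, by simpa using h⟩

end Pool.Agent.XA
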