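import Pool.Agent.XA.G1
import Pool.Agent.XA.G2

set_option autoImplicit false
open MeasureTheory Set

namespace Pool.Agent.XA

/-- **The chain of arcs of area `a`.**  `enum_periodic` for `F = Cls K L a`, `p = 2 π` (`Cls_shift`,
`Cls_finite`); `e l` is a right end point belonging to the left end point `f l` (choice).  The last
statement by `arc_left_inj`. -/
theorem exists_chain {K L : Set (ℝ × ℝ)} (hK : IsBody K) (hL : IsBody L) {a : ENNReal}
    (ha : 0 < a) (hne : (Cls K L a).Nonempty) :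
    ∃ f e : ℤ → ℝ, StrictMono f ∧ (∀ x, ∃ l, x < f l) ∧ (∀ x, ∃ l, f l < x) ∧
      (∀ l, IsArc K L (f l) (e l) ∧ volume (DS K L (f l) (e l)) = a) ∧
      (∀ α β, IsArc K L α β → volume (DS K L α β) = a → ∃ l, f l = α ∧ e l = β) := by
  obtain ⟨f, hf, hr, h1, h2⟩ := enum_periodic (F := Cls K L a) hne Real.two_pi_pos
    (fun x hx k => Cls_shift hx k) (fun x y => Cls_finite hK hL ha x y)
  have hmem : ∀ l, ∃ β, IsArc K L (f l) β ∧ volume (DS K L (f l) β) = a := by
    intro l
    have h3 : f l ∈ Cls K L a := by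
      rw [← hr]
      exact ⟨l, rfl⟩
    exact h3
  choose e he using hmem
  refine ⟨f, e, hf, h1, h2, he, fun α β hαβ hv => ?_⟩
  have h4 : α ∈ range f := by
    rw [hr]
    exact ⟨β, hαβ, hv⟩
  obtain ⟨l, rfl⟩ := h4
  exact ⟨l, rfl, arc_left_inj (he l).1 hαβ⟩

end Pool.Agent.XA
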