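import Pool.Agent.XA.Defs

set_option autoImplicit false
open MeasureTheory Set

namespace Pool.Agent.XA

/-- **The combinatorial structure of the mirrors.**  `φ i` are the S-angles, `(f l, e l)` the chain of
arcs, `AL i l` says that the arc `l` is good for `φ i`, `Mir i l r` that `l` and `r` are mirror arcs for
`φ i`, `z l` is the first moment of the piece of the arc `l`. -/
structure Comb (φ f e : ℤ → ℝ) (AL : ℤ → ℤ → Prop) (Mi : ℤ → ℤ → ℤ → Prop)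
    (z : ℤ → ℝ × ℝ) (ε η : ℝ) : Prop where
  φmono : StrictMono φ
  φabove : ∀ x, ∃ i, x < φ i
  φbelow : ∀ x, ∃ i, φ i < x
  φgap : ∀ i, φ (i + 1) ≤ φ i + ε
  εη : 2 * ε ≤ η
  ηπ : η < Real.pi
  fmono : StrictMono f
  fabove : ∀ x, ∃ l, x < f l
  fbelow : ∀ x, ∃ l, f l < x
  fe : ∀ l, f l < e l
  ef : ∀ l, e l ≤ f (l + 1)
  sep : ∀ i l, φ i ≤ f l ∨ e l ≤ φ i
  nearL : ∀ i l, φ i - η ≤ f l → e l ≤ φ i → AL i l
  nearR : ∀ i r, φ i ≤ f r → e r ≤ φ i + η → AL i r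
  mirL : ∀ i l, AL i l → e l ≤ φ i → ∃ r, Mi i l r
  mirR : ∀ i r, AL i r → φ i ≤ f r → ∃ l, Mi i l r
  side : ∀ i l r, Mi i l r → e l ≤ φ i ∧ φ i ≤ f r
  good : ∀ i l r, Mi i l r → AL i l ∧ AL i r
  ord : ∀ i l r l' r', Mi i l r → Mi i l' r' → (l < l' ↔ r' < r)
  clL : ∀ i l l', AL i l → l < l' → e l' ≤ φ i → AL i l'
  clR : ∀ i r r', AL i r → r' < r → φ i ≤ f r' → AL i r'
  cent : ∀ i l r, Mi i l r → ∃ x : ℝ, 0 < x ∧ z r - z l = pt (φ i) 0 x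

end Pool.Agent.XA
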