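import Pool.Agent.XA.N0

set_option autoImplicit false
open MeasureTheory Set

namespace Pool.Agent.XA

/-- the good condition only depends on the levels -/
theorem Mir.good' {K L : Set (ℝ × ℝ)} {θ α β γ δ : ℝ} (h : Mir K L θ α β γ δ) :
    Good K L θ γ δ := by
  obtain ⟨c1, hD, hc⟩ := h.good
  refine ⟨c1, hD, fun w hw => ?_⟩
  have h1 : lv θ w ∈ lv θ '' DS K L α β := by
    rw [← h.lev]
    exact ⟨w, hw, rfl⟩
  obtain ⟨w', hw', h2⟩ := h1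
  rw [← h2]
  exact hc w' hw'

/-- `mirror_left` -/
theorem exists_mir_left {K L : Set (ℝ × ℝ)} {θ α β : ℝ} (hA : IsArc K L α β)
    (h1 : θ - Real.pi ≤ α) (h2 : β ≤ θ) (hg : Good K L θ α β) : ∃ γ δ, Mir K L θ α β γ δ := by
  obtain ⟨c1, hD, hc⟩ := hg
  obtain ⟨γ, δ, hB, h3, h4, hlev⟩ := mirror_left hD hA h1 h2 hc
  exact ⟨γ, δ, hA, h1, h2, hB, h3, h4, hlev, c1, hD, hc⟩

/-- `mirror_right`; the left arc is good because it has the same levels. -/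
theorem exists_mir_right {K L : Set (ℝ × ℝ)} {θ γ δ : ℝ} (hB : IsArc K L γ δ)
    (h1 : θ ≤ γ) (h2 : δ ≤ θ + Real.pi) (hg : Good K L θ γ δ) : ∃ α β, Mir K L θ α β γ δ := by
  obtain ⟨c1, hD, hc⟩ := hg
  obtain ⟨α, β, hA, h3, h4, hlev⟩ := mirror_right hD hB h1 h2 hc
  refine ⟨α, β, hA, h3, h4, hB, h1, h2, hlev.symm, c1, hD, fun w hw => ?_⟩
  have h5 : lv θ w ∈ lv θ '' DS K L γ δ := by
    rw [← hlev]
    exact ⟨w, hw, rfl⟩
  obtain ⟨w', hw', h6⟩ := h5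
  rw [← h6]
  exact hc w' hw'

/-- `mirror_area` -/
theorem Mir.area {K L : Set (ℝ × ℝ)} {θ α β γ δ : ℝ} (h : Mir K L θ α β γ δ) :
    volume (DS K L α β) = volume (DS K L γ δ) ∧
      ∃ x : ℝ, 0 < x ∧ mom (DS K L γ δ) - mom (DS K L α β) = pt θ 0 x := by
  obtain ⟨c1, hD, hc⟩ := h.good
  exact mirror_area hD h.arcL h.l1 h.l2 h.arcR h.r1 h.r2 hc h.lev

end Pool.Agent.XA
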