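import Pool.Agent.XA.A4

set_option autoImplicit false
open MeasureTheory Set

namespace Pool.Agent.XA

theorem a5_one {K L : Set (ℝ × ℝ)} (hK : IsBody K) (hL : IsBody L) {α β : ℝ}
    {w w' : ℝ × ℝ} (hw : w ∈ DS K L α β) (hn : w' ∉ DS K L α β)
    (hw' : w' ∈ interior K ∨ w' ∈ interior L) : ∃ ψ ∈ Ioo α β, lv ψ w' < lv ψ w := by
  rcases hw with ⟨_, ψ, hψ, l1⟩ | ⟨_, ψ, hψ, l1⟩
  · refine ⟨ψ, hψ, lt_of_le_of_lt ?_ l1⟩
    rcases hw' with h | h
    · by_contra hc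
      push Not at hc
      exact hn (Or.inl ⟨h, ψ, hψ, hc⟩)
    · exact lv_le_hs hL.compact ψ (interior_subset h)
  · refine ⟨ψ, hψ, lt_of_le_of_lt ?_ l1⟩
    rcases hw' with h | h
    · exact lv_le_hs hK.compact ψ (interior_subset h)
    · by_contra hc
      push Not at hc
      exact hn (Or.inr ⟨h, ψ, hψ, hc⟩)

/-- Auxiliary step for the ordering of levels.  Say `w ∈ interior K`, `hs L ψ < lv ψ w`
(the other case by `DS_symm`).  `w' ∉ DS K L α β` by `DS_inter`: otherwise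
`α' = α + k 2π`; `k = 0` contradicts `β ≤ α'`, `α < β`; `k ≥ 1` contradicts `α' < β' ≤ α + π`; `k ≤ -1`
contradicts `α < β ≤ α'`.  If `w' ∈ interior K` then `lv ψ w' ≤ hs L ψ` because `w' ∉ DS K L α β`;
if `w' ∈ interior L` then `lv ψ w' ≤ hs L ψ` by `lv_le_hs`.  So `lv ψ w' ≤ hs L ψ < lv ψ w`.  In the
same way `lv ψ' w < lv ψ' w'` for the angle `ψ'` of `w'`. -/
theorem level_aux {K L : Set (ℝ × ℝ)} (hK : IsBody K) (hL : IsBody L) {α β α' β' : ℝ}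
    (h : IsArc K L α β) (h' : IsArc K L α' β') (hle : β ≤ α') (hpi : β' ≤ α + Real.pi)
    {w w' : ℝ × ℝ} (hw : w ∈ DS K L α β) (hw' : w' ∈ DS K L α' β') :
    ∃ ψ ∈ Ioo α β, ∃ ψ' ∈ Ioo α' β', lv ψ w' < lv ψ w ∧ lv ψ' w < lv ψ' w' := by
  have hp := Real.pi_pos
  have no : ∀ x, x ∈ DS K L α β → x ∈ DS K L α' β' → False := by
    intro x hx hx'
    obtain ⟨k, k1, k2⟩ := DS_inter hK hL h h' hx hx'
    have hlt := h.lt
    have hlt' := h'.lt
    have kpos : (0 : ℝ) < k := by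
      by_contra hc
      push Not at hc
      have : (k : ℝ) * (2 * Real.pi) ≤ 0 := mul_nonpos_of_nonpos_of_nonneg hc (by linarith)
      linarith
    have kpos' : (0 : ℤ) < k := by exact_mod_cast kpos
    have k1' : (1 : ℝ) ≤ k := by exact_mod_cast kpos'
    have : (2 * Real.pi) ≤ (k : ℝ) * (2 * Real.pi) := by nlinarith
    linarith
  have mem : ∀ x γ δ, x ∈ DS K L γ δ → x ∈ interior K ∨ x ∈ interior L := by
    intro x γ δ hx
    rcases hx with ⟨a, _⟩ | ⟨a, _⟩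
    · exact Or.inl a
    · exact Or.inr a
  obtain ⟨ψ, hψ, l1⟩ := a5_one hK hL hw (fun hx => no w' hx hw') (mem w' _ _ hw')
  obtain ⟨ψ', hψ', l2⟩ := a5_one hK hL hw' (fun hx => no w hw hx) (mem w _ _ hw)
  exact ⟨ψ, hψ, ψ', hψ', l1, l2⟩

/-- **D2: ordering of the levels.**  With `v = w' - w` and the angles `ψ`, `ψ'` of `level_aux`:
`lv ψ v < 0 < lv ψ' v`.  Here `ψ < ψ' < β' ≤ θ ≤ α + π < ψ + π`.  `lv_comb` for the angles
`ψ' ≤ θ ≤ ψ + π` (with `lv (ψ + π) v = - lv ψ v > 0`):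
`sin (ψ + π - ψ') * lv θ v = sin (ψ + π - θ) * lv ψ' v + sin (θ - ψ') * lv (ψ + π) v`, all three sines
are `> 0` (their arguments are in `(0, π)`). -/
theorem level_lt {K L : Set (ℝ × ℝ)} (hK : IsBody K) (hL : IsBody L) {α β α' β' θ : ℝ}
    (h : IsArc K L α β) (h' : IsArc K L α' β') (hle : β ≤ α') (hθ : β' ≤ θ)
    (hθ' : θ ≤ α + Real.pi) {w w' : ℝ × ℝ} (hw : w ∈ DS K L α β) (hw' : w' ∈ DS K L α' β') :
    lv θ w < lv θ w' := by
  obtain ⟨ψ, hψ, ψ', hψ', l1, l2⟩ := level_aux hK hL h h' hle (hθ.trans hθ') hw hw'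
  have hlt := h.lt
  have hlt' := h'.lt
  obtain ⟨a1, a2⟩ := hψ
  obtain ⟨b1, b2⟩ := hψ'
  have hc := lv_comb ψ' θ (ψ + Real.pi) (w' - w)
  rw [lv_add_pi, lv_sub, lv_sub, lv_sub] at hc
  have s1 : 0 < Real.sin (ψ + Real.pi - ψ') :=
    Real.sin_pos_of_pos_of_lt_pi (by linarith) (by linarith)
  have s2 : 0 < Real.sin (ψ + Real.pi - θ) :=
    Real.sin_pos_of_pos_of_lt_pi (by linarith) (by linarith)
  have s3 : 0 < Real.sin (θ - ψ') :=
    Real.sin_pos_of_pos_of_lt_pi (by linarith) (by linarith)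
  have p1 : 0 < Real.sin (ψ + Real.pi - θ) * (lv ψ' w' - lv ψ' w) :=
    mul_pos s2 (by linarith)
  have p2 : 0 < Real.sin (θ - ψ') * -(lv ψ w' - lv ψ w) := mul_pos s3 (by linarith)
  have p3 : 0 < Real.sin (ψ + Real.pi - ψ') * (lv θ w' - lv θ w) := by
    rw [hc]; linarith
  have := (mul_pos_iff_of_pos_left s1).1 p3
  linarith

/-- **D3.**  `lv (θ + π) = - lv θ`, and `θ + π` satisfies the hypotheses of `level_lt`. -/
theorem level_gt {K L : Set (ℝ × ℝ)} (hK : IsBody K) (hL : IsBody L) {α β α' β' θ : ℝ}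
    (h : IsArc K L α β) (h' : IsArc K L α' β') (hle : β ≤ α') (hθ : θ ≤ α)
    (hθ' : β' ≤ θ + Real.pi) {w w' : ℝ × ℝ} (hw : w ∈ DS K L α β) (hw' : w' ∈ DS K L α' β') :
    lv θ w' < lv θ w := by
  have := level_lt hK hL h h' hle hθ' (by linarith) hw hw'
  rw [lv_add_pi, lv_add_pi] at this
  linarith

end Pool.Agent.XA
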