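import Pool.Agent.XA.A1

set_option autoImplicit false
open MeasureTheory Set

namespace Pool.Agent.XA

/-- Two arcs with a common point coincide: by `IsArc.not_mem` the end points of the one are not inside
the other.  E.g. `α' ≤ α`: `α'` is an angle of equality, so `α' ≤ α` or `β ≤ α'`; the second is
impossible since `α' < ψ < β`.  In the same way `α ≤ α'`, `β ≤ β'`, `β' ≤ β`. -/
theorem arc_unique {K L : Set (ℝ × ℝ)} {α β α' β' ψ : ℝ} (h : IsArc K L α β)
    (h' : IsArc K L α' β') (hψ : ψ ∈ Ioo α β) (hψ' : ψ ∈ Ioo α' β') : α = α' ∧ β = β' := by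
  obtain ⟨p1, p2⟩ := hψ
  obtain ⟨q1, q2⟩ := hψ'
  constructor
  · apply le_antisymm
    · rcases h'.not_mem h.left with h1 | h1
      · exact h1
      · linarith
    · rcases h.not_mem h'.left with h1 | h1
      · exact h1
      · linarith
  · apply le_antisymm
    · rcases h.not_mem h'.right with h1 | h1
      · linarith
      · exact h1
    · rcases h'.not_mem h.right with h1 | h1
      · linarith
      · exact h1

/-- `α'` is an angle of equality, so `α' ≤ α` or `β ≤ α'`. -/
theorem arc_le {K L : Set (ℝ × ℝ)} {α β α' β' : ℝ} (h : IsArc K L α β)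
    (h' : IsArc K L α' β') (hlt : α < α') : β ≤ α' := by
  rcases h.not_mem h'.left with h1 | h1
  · linarith
  · exact h1

/-- Arcs with the same left end point coincide (both contain `(α, min β β')`). -/
theorem arc_left_inj {K L : Set (ℝ × ℝ)} {α β β' : ℝ} (h : IsArc K L α β)
    (h' : IsArc K L α β') : β = β' := by
  have hm : α < min β β' := lt_min h.lt h'.lt
  have h1 : min β β' ≤ β := min_le_left _ _
  have h2 : min β β' ≤ β' := min_le_right _ _
  exact (arc_unique (ψ := (α + min β β') / 2) h h' ⟨by linarith, by linarith⟩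
    ⟨by linarith, by linarith⟩).2

/-- Two arcs are equal, or one is to the left of the other. -/
theorem arc_trichotomy {K L : Set (ℝ × ℝ)} {α β α' β' : ℝ} (h : IsArc K L α β)
    (h' : IsArc K L α' β') : (α = α' ∧ β = β') ∨ β ≤ α' ∨ β' ≤ α := by
  rcases lt_trichotomy α α' with h1 | h1 | h1
  · exact Or.inr (Or.inl (arc_le h h' h1))
  · subst h1
    exact Or.inl ⟨rfl, arc_left_inj h h'⟩
  · exact Or.inr (Or.inr (arc_le h' h h1))

/-- On an arc the difference of the support functions has a constant sign: it is continuous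
(`continuous_hs`) and has no zero on the interval `Ioo α β` (intermediate value theorem on the
preconnected set `Ioo α β`). -/
theorem arc_sign {K L : Set (ℝ × ℝ)} (hK : IsBody K) (hL : IsBody L) {α β : ℝ}
    (h : IsArc K L α β) :
    (∀ ψ ∈ Ioo α β, hs L ψ < hs K ψ) ∨ (∀ ψ ∈ Ioo α β, hs K ψ < hs L ψ) := by
  by_contra hc
  push Not at hc
  obtain ⟨⟨ψ₁, m1, l1⟩, ⟨ψ₂, m2, l2⟩⟩ := hc
  obtain ⟨x, hx, he⟩ := isPreconnected_Ioo.intermediate_value₂ m1 m2
    (continuous_hs hK.compact).continuousOn (continuous_hs hL.compact).continuousOn l1 l2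
  exact h.ne x hx he

end Pool.Agent.XA
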