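import Pool.Agent.XA.A6
import Pool.Agent.XA.A3
import Pool.Agent.XA.B2
import Pool.Agent.XA.B3

set_option autoImplicit false
open MeasureTheory Set

namespace Pool.Agent.XA

theorem a7_aux {K L : Set (ℝ × ℝ)} (hK : IsBody K) {α β : ℝ} (hlt : α < β)
    (h : ∀ ψ ∈ Ioo α β, hs L ψ < hs K ψ) : (DS K L α β).Nonempty := by
  obtain ⟨ψ, hψ⟩ := nonempty_Ioo.2 hlt
  have hne : K.Nonempty := hK.nonempty.mono interior_subset
  obtain ⟨x, hx, hx2⟩ := exists_lv_eq_hs hK.compact hne ψ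
  have hO : IsOpen {w : ℝ × ℝ | hs L ψ < lv ψ w} := isOpen_lt continuous_const (continuous_lv_right ψ)
  obtain ⟨w, hw1, hw2⟩ := exists_mem_interior_of_open hK hO ⟨x, hx, by
    show hs L ψ < lv ψ x
    rw [hx2]
    exact h ψ hψ⟩
  exact ⟨w, Or.inl ⟨hw1, ψ, hψ, hw2⟩⟩

theorem a7_sub {K L : Set (ℝ × ℝ)} (hK : IsBody K) (hL : IsBody L)
    (h : ∀ ψ, hs K ψ = hs L ψ) : K ⊆ L := by
  intro w hw
  by_contra hcon
  obtain ⟨ψ, hψ⟩ := exists_sep hL hcon
  have h1 := lv_le_hs hK.compact ψ hw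
  rw [h ψ] at h1
  exact absurd hψ (not_lt.2 h1)

/-- **The pieces are not empty.**  By symmetry (`DS_symm`, `IsArc.symm`) and `arc_sign` assume
`hs L ψ < hs K ψ` on the arc.  Take `ψ` in the arc and `x ∈ K` with `lv ψ x = hs K ψ`
(`exists_lv_eq_hs`).  The set `O = {w | hs L ψ < lv ψ w}` is open and meets `K` in `x`; by
`exists_mem_interior_of_open` it meets `interior K`. -/
theorem DS_nonempty {K L : Set (ℝ × ℝ)} (hK : IsBody K) (hL : IsBody L) {α β : ℝ}
    (h : IsArc K L α β) : (DS K L α β).Nonempty := by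
  rcases arc_sign hK hL h with h1 | h1
  · exact a7_aux hK h.lt h1
  · rw [DS_symm]
    exact a7_aux hL h.lt h1

/-- open and nonempty (`DS_isOpen`, `IsOpen.measure_pos`) -/
theorem volume_DS_pos {K L : Set (ℝ × ℝ)} (hK : IsBody K) (hL : IsBody L) {α β : ℝ}
    (h : IsArc K L α β) : 0 < volume (DS K L α β) := by
  exact (DS_isOpen K L α β).measure_pos volume (DS_nonempty hK hL h)

/-- If the interiors differ there is an angle at which the support functions differ: if
`w ∈ K \ L`, then `exists_sep` gives `hs L ψ < lv ψ w ≤ hs K ψ`.  So if all support values agree then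
`K ⊆ L` and `L ⊆ K`. -/
theorem eq_of_hs_eq {K L : Set (ℝ × ℝ)} (hK : IsBody K) (hL : IsBody L)
    (h : ∀ ψ, hs K ψ = hs L ψ) : K = L := by
  exact Subset.antisymm (a7_sub hK hL h) (a7_sub hL hK fun ψ => (h ψ).symm)

end Pool.Agent.XA
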