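import Pool.Agent.XA.N0
import Pool.Agent.XA.A5
import Pool.Agent.XA.A7

set_option autoImplicit false
open MeasureTheory Set

namespace Pool.Agent.XA

theorem n2_forward {K L : Set (ℝ × ℝ)} {θ α β γ δ α' β' γ' δ' : ℝ} (h : Mir K L θ α β γ δ)
    (h' : Mir K L θ α' β' γ' δ') (hK : IsBody K) (hL : IsBody L) (hlt : α < α') : γ' < γ := by
  have hle := arc_le h.arcL h'.arcL hlt
  have hpi : θ ≤ α + Real.pi := by linarith [h.l1]
  obtain ⟨w', hw'⟩ := DS_nonempty hK hL h'.arcL
  by_contra hc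
  rcases lt_or_eq_of_le (not_lt.1 hc) with hg | hg
  · obtain ⟨w, hw⟩ := DS_nonempty hK hL h.arcL
    have h1 := level_lt hK hL h.arcL h'.arcL hle h'.l2 hpi hw hw'
    obtain ⟨u, hu, hu2⟩ : lv θ w ∈ lv θ '' DS K L γ δ := by
      rw [h.lev]
      exact mem_image_of_mem _ hw
    obtain ⟨u', hu', hu2'⟩ : lv θ w' ∈ lv θ '' DS K L γ' δ' := by
      rw [h'.lev]
      exact mem_image_of_mem _ hw'
    have h2 := level_gt hK hL h.arcR h'.arcR (arc_le h.arcR h'.arcR hg) h.r1 h'.r2 hu hu'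
    rw [hu2, hu2'] at h2
    exact lt_asymm h1 h2
  · subst hg
    have hd := arc_left_inj h.arcR h'.arcR
    subst hd
    obtain ⟨w, hw, hw2⟩ : lv θ w' ∈ lv θ '' DS K L α β := by
      rw [← h.lev, h'.lev]
      exact mem_image_of_mem _ hw'
    have h1 := level_lt hK hL h.arcL h'.arcL hle h'.l2 hpi hw hw'
    rw [hw2] at h1
    exact lt_irrefl _ h1

/-- **The mirror reverses the order.**  Let `α < α'`.  Then `β ≤ α'` (`arc_le`), and by `level_lt` every
level of the piece of `(α, β)` is smaller than every level of the piece of `(α', β')`.  If `γ < γ'` then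
`δ ≤ γ'` and by `level_gt` every level of the piece of `(γ', δ')` is smaller than every level of the piece
of `(γ, δ)`; since the levels of mirror arcs coincide and are nonempty (`DS_nonempty`) this is a
contradiction.  If `γ = γ'` then `δ = δ'` (`arc_left_inj`) and the level sets of `(α, β)` and `(α', β')`
coincide, again a contradiction.  So `γ' < γ`.  The converse in the same way. -/
theorem Mir.order {K L : Set (ℝ × ℝ)} {θ α β γ δ α' β' γ' δ' : ℝ} (h : Mir K L θ α β γ δ)
    (h' : Mir K L θ α' β' γ' δ') (hK : IsBody K) (hL : IsBody L) : α < α' ↔ γ' < γ := by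
  refine ⟨n2_forward h h' hK hL, fun hlt => ?_⟩
  by_contra hc
  rcases lt_or_eq_of_le (not_lt.1 hc) with hg | hg
  · exact lt_asymm hlt (n2_forward h' h hK hL hg)
  · subst hg
    have hd := arc_left_inj h.arcL h'.arcL
    subst hd
    obtain ⟨u', hu'⟩ := DS_nonempty hK hL h'.arcR
    obtain ⟨u, hu, hu2⟩ : lv θ u' ∈ lv θ '' DS K L γ δ := by
      rw [h.lev, ← h'.lev]
      exact mem_image_of_mem _ hu'
    have h1 := level_gt hK hL h'.arcR h.arcR (arc_le h'.arcR h.arcR hlt) h'.r1 h.r2 hu' hu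
    rw [hu2] at h1
    exact lt_irrefl _ h1

/-- **Arcs closer to `θ` are good.**  `level_lt`: the levels of `(α', β')` are larger than those of
`(α, β)` (which has at least one, `DS_nonempty`), so the same `c1` works. -/
theorem good_closer_left {K L : Set (ℝ × ℝ)} (hK : IsBody K) (hL : IsBody L)
    {θ α β α' β' : ℝ} (hA : IsArc K L α β) (hA' : IsArc K L α' β') (h1 : θ - Real.pi ≤ α)
    (hlt : α < α') (h2 : β' ≤ θ) (hg : Good K L θ α β) : Good K L θ α' β' := by
  obtain ⟨c1, hd, hc⟩ := hg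
  obtain ⟨w, hw⟩ := DS_nonempty hK hL hA
  refine ⟨c1, hd, fun w' hw' => (hc w hw).trans ?_⟩
  exact level_lt hK hL hA hA' (arc_le hA hA' hlt) h2 (by linarith) hw hw'

/-- the same on the right: `(γ', δ')` is to the left of `(γ, δ)`, i.e. closer to `θ`; `level_gt`. -/
theorem good_closer_right {K L : Set (ℝ × ℝ)} (hK : IsBody K) (hL : IsBody L)
    {θ γ δ γ' δ' : ℝ} (hB : IsArc K L γ δ) (hB' : IsArc K L γ' δ') (h1 : θ ≤ γ')
    (hlt : γ' < γ) (h2 : δ ≤ θ + Real.pi) (hg : Good K L θ γ δ) : Good K L θ γ' δ' := by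
  obtain ⟨c1, hd, hc⟩ := hg
  obtain ⟨w, hw⟩ := DS_nonempty hK hL hB
  refine ⟨c1, hd, fun w' hw' => (hc w hw).trans ?_⟩
  exact level_gt hK hL hB' hB (arc_le hB' hB hlt) h1 h2 hw' hw

end Pool.Agent.XA
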