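import Pool.Agent.XA.E2
import Pool.Agent.XA.N1
import Pool.Agent.XA.N2
import Pool.Agent.XA.G3
import Pool.Agent.XA.K0
import Pool.Agent.XA.A2

set_option autoImplicit false
open MeasureTheory Set

namespace Pool.Agent.XA

/-- **The chain of a hypothetical counterexample.**  `K ≠ L`, so `hs K ψ ≠ hs L ψ` for some `ψ`
(`eq_of_hs_eq`), and there is an arc (`exists_arc` between two S-angles on both sides of `ψ`, `φbelow`,
`φabove`).  Let `a` be the volume of its piece; `0 < a` (`volume_DS_pos`).  `exists_chain` gives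
`f, e`.  Put `AL i l := φ i - π ≤ f l ∧ e l ≤ φ i + π ∧ Good K L (φ i) (f l) (e l)`,
`Mi i l r := Mir K L (φ i) (f l) (e l) (f r) (e r)`, `z l := mom (DS K L (f l) (e l))`.  The fields of `Comb`:
`fe`: `IsArc.lt`; `ef`: `arc_le`; `sep`: `IsArc.not_mem`; `nearL`, `nearR`: `good_of_near` (`hφ`: for every
`ψ` an S-angle `φ i` at distance `≤ ε`: take the largest `i` with `φ i ≤ ψ`; `φgap`) and `η < π`;
`mirL`: `exists_mir_left`, the mirror arc has the same area `a` (`Mir.area`), so it is `(f r, e r)`; `mirR` in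
the same way; `side`, `good` (`Mir.good'`, `Mir.l1`, `Mir.r2` and `f l < e l`); `ord`: `Mir.order` and
`StrictMono f` (`StrictMono.lt_iff_lt`); `clL`, `clR`: `good_closer_left/right`, `cent`: `Mir.area`. -/
theorem exists_comb {K L QK QL : Set (ℝ × ℝ)} (hK : IsBody K) (hL : IsBody L) {ρ d ε η : ℝ}
    {φ : ℤ → ℝ} (φmono : StrictMono φ) (φabove : ∀ x, ∃ i, x < φ i) (φbelow : ∀ x, ∃ i, φ i < x)
    (φgap : ∀ i, φ (i + 1) ≤ φ i + ε) (εη : 2 * ε ≤ η) (ηπ : η < Real.pi)
    (hd : ∀ x ∈ K ∪ L, ∀ y ∈ K ∪ L, ∀ ψ, lv ψ (x - y) ≤ d)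
    (hQKs : QK ⊆ K) (hQLs : QL ⊆ L)
    (hQK : ∀ i, ∀ y ∈ QK, lv (φ i) y + ρ ≤ hs K (φ i))
    (hQL : ∀ i, ∀ y ∈ QL, lv (φ i) y + ρ ≤ hs L (φ i))
    (hρ : d * ε + d * η < ρ)
    (top : ∀ i, hs K (φ i) = hs L (φ i))
    (bot : ∀ i, hs K (φ i + Real.pi) = hs L (φ i + Real.pi))
    (hX : ∀ i c, (∀ y ∈ QK ∪ QL, lv (φ i) y < c) →
      volume {t : ℝ | pt (φ i) c t ∈ interior K} = volume {t : ℝ | pt (φ i) c t ∈ interior L})
    (hne : K ≠ L) :
    ∃ (f e : ℤ → ℝ) (AL : ℤ → ℤ → Prop) (Mi : ℤ → ℤ → ℤ → Prop) (z : ℤ → ℝ × ℝ),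
      Comb φ f e AL Mi z ε η := by
  have hexψ : ∃ ψ, hs K ψ ≠ hs L ψ := by
    by_contra hcon
    push Not at hcon
    exact hne (eq_of_hs_eq hK hL hcon)
  obtain ⟨ψ, hψ⟩ := hexψ
  obtain ⟨i1, hi1⟩ := φbelow ψ
  obtain ⟨i2, hi2⟩ := φabove ψ
  obtain ⟨α, β, hArc, _, _, _⟩ := exists_arc hK hL hi1.le hi2.le (top i1) (top i2) hψ
  have ha : 0 < volume (DS K L α β) := volume_DS_pos hK hL hArc
  obtain ⟨f, e, fmono, fabove, fbelow, harc, hall⟩ := exists_chain hK hL ha ⟨α, β, hArc, rfl⟩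
  have hπ := Real.pi_pos
  have hε : 0 < ε := by
    have h1 := φgap 0
    have h2 := φmono (show (0 : ℤ) < 0 + 1 by norm_num)
    linarith
  have hη : 0 < η := by linarith
  have hφ : ∀ ψ, ∃ φ', |φ' - ψ| ≤ ε ∧ hs K φ' = hs L φ' ∧ (∀ y ∈ QK, lv φ' y + ρ ≤ hs K φ') ∧
      (∀ y ∈ QL, lv φ' y + ρ ≤ hs L φ') := by
    intro χ
    obtain ⟨j1, hj1⟩ := φbelow χ
    obtain ⟨j2, hj2⟩ := φabove χ
    obtain ⟨i, hi, hmax⟩ := Int.exists_greatest_of_bdd (P := fun i => φ i ≤ χ)
      ⟨j2, fun z hz => (φmono.lt_iff_lt.1 (lt_of_le_of_lt hz hj2)).le⟩ ⟨j1, hj1.le⟩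
    have hnext : χ < φ (i + 1) := by
      by_contra hcon
      have := hmax (i + 1) (not_lt.1 hcon)
      omega
    refine ⟨φ i, ?_, top i, hQK i, hQL i⟩
    have h3 := φgap i
    rw [abs_le]
    constructor <;> linarith
  have hnear : ∀ i l, φ i - η ≤ f l → e l ≤ φ i + η → Good K L (φ i) (f l) (e l) := fun i l h1 h2 =>
    good_of_near hK hL hd hQKs hQLs hφ hρ (top i) (bot i) (hX i) (harc l).1 h1 h2
  refine ⟨f, e, fun i l => φ i - Real.pi ≤ f l ∧ e l ≤ φ i + Real.pi ∧ Good K L (φ i) (f l) (e l),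
    fun i l r => Mir K L (φ i) (f l) (e l) (f r) (e r), fun l => mom (DS K L (f l) (e l)), ?_⟩
  exact
    { φmono := φmono
      φabove := φabove
      φbelow := φbelow
      φgap := φgap
      εη := εη
      ηπ := ηπ
      fmono := fmono
      fabove := fabove
      fbelow := fbelow
      fe := fun l => (harc l).1.lt
      ef := fun l => arc_le (harc l).1 (harc (l + 1)).1 (fmono (lt_add_one l))
      sep := fun i l => (harc l).1.not_mem (top i)
      nearL := by
        intro i l h1 h2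
        exact ⟨by linarith, by linarith, hnear i l h1 (by linarith)⟩
      nearR := by
        intro i r h1 h2
        exact ⟨by linarith, by linarith, hnear i r (by linarith) h2⟩
      mirL := by
        intro i l h1 h2
        obtain ⟨γ, δ, hm⟩ := exists_mir_left (harc l).1 h1.1 h2 h1.2.2
        obtain ⟨r, hr1, hr2⟩ := hall γ δ hm.arcR (hm.area.1.symm.trans (harc l).2)
        refine ⟨r, ?_⟩
        rw [hr1, hr2]
        exact hm
      mirR := by
        intro i r h1 h2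
        obtain ⟨γ, δ, hm⟩ := exists_mir_right (harc r).1 h2 h1.2.1 h1.2.2
        obtain ⟨l, hr1, hr2⟩ := hall γ δ hm.arcL (hm.area.1.trans (harc r).2)
        refine ⟨l, ?_⟩
        rw [hr1, hr2]
        exact hm
      side := fun i l r h => ⟨h.l2, h.r1⟩
      good := by
        intro i l r h
        have h1 := h.l2
        have h2 := h.r1
        exact ⟨⟨h.l1, by linarith, h.good⟩, ⟨by linarith, h.r2, h.good'⟩⟩
      ord := by
        intro i l r l' r' h h'
        rw [← fmono.lt_iff_lt, ← fmono.lt_iff_lt (a := r')]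
        exact Mir.order h h' hK hL
      clL := by
        intro i l l' h1 h2 h3
        have h4 := fmono h2
        exact ⟨by linarith [h1.1], by linarith,
          good_closer_left hK hL (harc l).1 (harc l').1 h1.1 h4 h3 h1.2.2⟩
      clR := by
        intro i r r' h1 h2 h3
        have h4 := fmono h2
        have h5 := arc_le (harc r').1 (harc r).1 h4
        have h6 := (harc r).1.lt
        exact ⟨by linarith, by linarith [h1.2.1],
          good_closer_right hK hL (harc r).1 (harc r').1 h3 h4 h1.2.1 h1.2.2⟩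
      cent := fun i l r h => h.area.2 }

end Pool.Agent.XA
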