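import Pool.Agent.XA.B1

set_option autoImplicit false
open MeasureTheory Set

namespace Pool.Agent.XA

/-- **Type lemma, left.**  `lv_eq ψ θ` for `v` and `w` with equal levels gives
`lv ψ v - lv ψ w = (tg θ v - tg θ w) * sin (ψ - θ)`.  The left side is `< 0` (`lv_le_hs`), and
`sin (ψ - θ) < 0` since `ψ - θ ∈ (-π, 0)`. -/
theorem type_left {L : Set (ℝ × ℝ)} (hL : IsCompact L) {θ ψ : ℝ}
    (hψ : ψ ∈ Ioo (θ - Real.pi) θ) {w v : ℝ × ℝ} (h : hs L ψ < lv ψ w) (hv : v ∈ L)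
    (hlev : lv θ v = lv θ w) : tg θ w < tg θ v := by
  have e1 := lv_eq ψ θ v
  have e2 := lv_eq ψ θ w
  have l := lv_le_hs hL ψ hv
  have hs : Real.sin (ψ - θ) < 0 :=
    Real.sin_neg_of_neg_of_neg_pi_lt (by linarith [hψ.2]) (by linarith [hψ.1])
  rw [hlev] at e1
  have hd : (tg θ v - tg θ w) * Real.sin (ψ - θ) < 0 := by linarith
  by_contra hc
  push Not at hc
  have : 0 ≤ (tg θ v - tg θ w) * Real.sin (ψ - θ) :=
    mul_nonneg_of_nonpos_of_nonpos (by linarith) hs.le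
  linarith

/-- **Type lemma, right.**  The same with `sin (ψ - θ) > 0`. -/
theorem type_right {L : Set (ℝ × ℝ)} (hL : IsCompact L) {θ ψ : ℝ}
    (hψ : ψ ∈ Ioo θ (θ + Real.pi)) {w v : ℝ × ℝ} (h : hs L ψ < lv ψ w) (hv : v ∈ L)
    (hlev : lv θ v = lv θ w) : tg θ v < tg θ w := by
  have e1 := lv_eq ψ θ v
  have e2 := lv_eq ψ θ w
  have l := lv_le_hs hL ψ hv
  have hs : 0 < Real.sin (ψ - θ) :=
    Real.sin_pos_of_pos_of_lt_pi (by linarith [hψ.1]) (by linarith [hψ.2])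
  rw [hlev] at e1
  have hd : (tg θ v - tg θ w) * Real.sin (ψ - θ) < 0 := by linarith
  by_contra hc
  push Not at hc
  have : 0 ≤ (tg θ v - tg θ w) * Real.sin (ψ - θ) := mul_nonneg (by linarith) hs.le
  linarith

end Pool.Agent.XA
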