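import Pool.Agent.XA.B2

set_option autoImplicit false
open MeasureTheory Set

namespace Pool.Agent.XA

/-- Sublinearity of the support function.  If `ψ₁ = ψ₂` (or `ψ = ψ₁`, `ψ = ψ₂`) it is trivial; otherwise
`S := sin (ψ₂ - ψ₁) > 0`, `P := sin (ψ₂ - ψ) > 0`, `Q := sin (ψ - ψ₁) > 0` (all three angles lie in
`(0, π)`) and by `lv_comb`, for every point `x`, `S * lv ψ x = P * lv ψ₁ x + Q * lv ψ₂ x`.
Take `x ∈ L` with `lv ψ x = hs L ψ` (`exists_lv_eq_hs`):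
`S * hs L ψ = P * lv ψ₁ x + Q * lv ψ₂ x ≤ P * hs L ψ₁ + Q * hs L ψ₂ < P * lv ψ₁ w + Q * lv ψ₂ w
= S * lv ψ w`. -/
theorem seg {L : Set (ℝ × ℝ)} (hL : IsBody L) {w : ℝ × ℝ} {ψ₁ ψ ψ₂ : ℝ}
    (h1 : hs L ψ₁ < lv ψ₁ w) (h2 : hs L ψ₂ < lv ψ₂ w) (h : ψ₁ ≤ ψ) (h' : ψ ≤ ψ₂)
    (hπ : ψ₂ < ψ₁ + Real.pi) : hs L ψ < lv ψ w := by
  rcases eq_or_lt_of_le h with e1 | e1
  · rw [← e1]
    exact h1
  rcases eq_or_lt_of_le h' with e2 | e2
  · rw [e2]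
    exact h2
  have hS : 0 < Real.sin (ψ₂ - ψ₁) := Real.sin_pos_of_pos_of_lt_pi (by linarith) (by linarith)
  have hP : 0 < Real.sin (ψ₂ - ψ) := Real.sin_pos_of_pos_of_lt_pi (by linarith) (by linarith)
  have hQ : 0 < Real.sin (ψ - ψ₁) := Real.sin_pos_of_pos_of_lt_pi (by linarith) (by linarith)
  obtain ⟨x, hx, hxe⟩ := exists_lv_eq_hs hL.compact (hL.nonempty.mono interior_subset) ψ
  have c1 := lv_comb ψ₁ ψ ψ₂ x
  have c2 := lv_comb ψ₁ ψ ψ₂ w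
  have l1 := lv_le_hs hL.compact ψ₁ hx
  have l2 := lv_le_hs hL.compact ψ₂ hx
  have k1 := mul_lt_mul_of_pos_left (lt_of_le_of_lt l1 h1) hP
  have k2 := mul_lt_mul_of_pos_left (lt_of_le_of_lt l2 h2) hQ
  rw [← hxe]
  exact lt_of_mul_lt_mul_left (by linarith) hS.le

/-- Antipodal directions do not separate simultaneously: the sum would be
`hs L ψ + hs L (ψ + π) < lv ψ w + lv (ψ + π) w = 0` (`lv_add_pi`) against `width_pos`. -/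
theorem antipode {L : Set (ℝ × ℝ)} (hL : IsBody L) {w : ℝ × ℝ} {ψ : ℝ}
    (h : hs L ψ < lv ψ w) : lv (ψ + Real.pi) w ≤ hs L (ψ + Real.pi) := by
  have h1 := width_pos hL ψ
  rw [lv_add_pi]
  linarith

end Pool.Agent.XA
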