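import Pool.Agent.XA.A3
import Pool.Agent.XA.B4

set_option autoImplicit false
open MeasureTheory Set

namespace Pool.Agent.XA

theorem a4_core {K L : Set (ℝ × ℝ)} (hK : IsBody K) (hL : IsBody L) {α β α' β' : ℝ}
    (h : IsArc K L α β) (h' : IsArc K L α' β') {w : ℝ × ℝ} (hw : w ∈ interior K)
    {ψ ψ' : ℝ} (hψ : ψ ∈ Ioo α β) (hψ' : ψ' ∈ Ioo α' β') (l1 : hs L ψ < lv ψ w)
    (l2 : hs L ψ' < lv ψ' w) :
    ∃ k : ℤ, α' = α + k * (2 * Real.pi) ∧ β' = β + k * (2 * Real.pi) := by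
  have hpi := Real.pi_pos
  have h2pi : 0 < 2 * Real.pi := by linarith
  set k : ℤ := ⌊(ψ' - ψ + Real.pi) / (2 * Real.pi)⌋ with hk
  have k1 : (k : ℝ) * (2 * Real.pi) ≤ ψ' - ψ + Real.pi := by
    have := Int.floor_le ((ψ' - ψ + Real.pi) / (2 * Real.pi))
    rwa [← hk, le_div_iff₀ h2pi] at this
  have k2 : ψ' - ψ + Real.pi < ((k : ℝ) + 1) * (2 * Real.pi) := by
    have := Int.lt_floor_add_one ((ψ' - ψ + Real.pi) / (2 * Real.pi))
    rwa [← hk, div_lt_iff₀ h2pi] at this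
  obtain ⟨φ, hφ⟩ : ∃ φ, φ = ψ' - k * (2 * Real.pi) := ⟨_, rfl⟩
  have e1 : φ + k * (2 * Real.pi) = ψ' := by rw [hφ]; ring
  have l3 : hs L φ < lv φ w := by
    have a1 := hs_add_int_two_pi L φ k
    have a2 := lv_add_int_two_pi φ k w
    rw [e1] at a1 a2
    rw [← a1, ← a2]
    exact l2
  have b1 : ψ - Real.pi < φ := by
    rcases lt_or_eq_of_le (show ψ - Real.pi ≤ φ by rw [hφ]; linarith) with h1 | h1
    · exact h1
    · exfalso
      have := antipode hL l3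
      rw [← h1, sub_add_cancel] at this
      linarith
  have b2 : φ < ψ + Real.pi := by rw [hφ]; linarith
  have seg' : ∀ χ, ((φ ≤ χ ∧ χ ≤ ψ) ∨ (ψ ≤ χ ∧ χ ≤ φ)) → hs K χ ≠ hs L χ := by
    intro χ hχ he
    have s1 : hs L χ < lv χ w := by
      rcases hχ with ⟨c1, c2⟩ | ⟨c1, c2⟩
      · exact seg hL l3 l1 c1 c2 (by linarith)
      · exact seg hL l1 l3 c1 c2 (by linarith)
    have s2 : lv χ w ≤ hs K χ := lv_le_hs hK.compact χ (interior_subset hw)
    linarith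
  have m : φ ∈ Ioo α β := by
    constructor
    · by_contra hc
      push Not at hc
      exact seg' α (Or.inl ⟨hc, hψ.1.le⟩) h.left
    · by_contra hc
      push Not at hc
      exact seg' β (Or.inr ⟨hψ.2.le, hc⟩) h.right
  have hs' := h'.shift (-k)
  have m' : φ ∈ Ioo (α' + ((-k : ℤ) : ℝ) * (2 * Real.pi)) (β' + ((-k : ℤ) : ℝ) * (2 * Real.pi)) := by
    push_cast
    constructor
    · linarith [hψ'.1]
    · linarith [hψ'.2]
  obtain ⟨u1, u2⟩ := arc_unique h hs' m m'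
  push_cast at u1 u2
  exact ⟨k, by linarith, by linarith⟩

/-- **D1: a point is seen from one arc only.**  Let `w ∈ DS K L α β`, say `w ∈ interior K` and
`hs L ψ < lv ψ w` with `ψ ∈ Ioo α β` (the other case is symmetric: `DS_symm`, `IsArc.symm`).  The second
membership cannot be of the kind `w ∈ interior L`, because `w ∈ L` gives `lv ψ w ≤ hs L ψ`
(`lv_le_hs`).  So there is `ψ' ∈ Ioo α' β'` with `hs L ψ' < lv ψ' w`.  Choose the integer `k` with
`ψ'' := ψ' - k * (2 π) ∈ [ψ - π, ψ + π)`; still `hs L ψ'' < lv ψ'' w` and `ψ''` is inside the arc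
`(α' - k 2π, β' - k 2π)` (`IsArc.shift`).  `ψ'' ≠ ψ - π` by `antipode`.  So `|ψ'' - ψ| < π` and by
`seg` the whole segment `J` between `ψ` and `ψ''` satisfies `hs L χ < lv χ w ≤ hs K χ`; so `J`
contains no angle of equality.  Hence `ψ'' ∈ Ioo α β` (otherwise `α` or `β`, which are angles of equality,
would be in `J`).  By `arc_unique` the arcs `(α, β)` and `(α' - k 2π, β' - k 2π)` coincide. -/
theorem DS_inter {K L : Set (ℝ × ℝ)} (hK : IsBody K) (hL : IsBody L) {α β α' β' : ℝ}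
    (h : IsArc K L α β) (h' : IsArc K L α' β') {w : ℝ × ℝ} (hw : w ∈ DS K L α β)
    (hw' : w ∈ DS K L α' β') :
    ∃ k : ℤ, α' = α + k * (2 * Real.pi) ∧ β' = β + k * (2 * Real.pi) := by
  rcases hw with ⟨wK, ψ, hψ, l1⟩ | ⟨wL, ψ, hψ, l1⟩
  · rcases hw' with ⟨_, ψ', hψ', l2⟩ | ⟨wL', ψ', hψ', l2⟩
    · exact a4_core hK hL h h' wK hψ hψ' l1 l2
    · exfalso
      have := lv_le_hs hL.compact ψ (interior_subset wL')
      linarith
  · rcases hw' with ⟨wK', ψ', hψ', l2⟩ | ⟨_, ψ', hψ', l2⟩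
    · exfalso
      have := lv_le_hs hK.compact ψ (interior_subset wK')
      linarith
    · exact a4_core hL hK h.symm h'.symm wL hψ hψ' l1 l2

end Pool.Agent.XA
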