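import Pool.Agent.XA.A7

set_option autoImplicit false
open MeasureTheory Set

namespace Pool.Agent.XA

theorem a8_isOpen {L : Set (ℝ × ℝ)} (hL : IsBody L) (A : Set (ℝ × ℝ)) :
    IsOpen {ψ : ℝ | ∃ w ∈ A, hs L ψ < lv ψ w} := by
  have : {ψ : ℝ | ∃ w ∈ A, hs L ψ < lv ψ w} = ⋃ w ∈ A, {ψ : ℝ | hs L ψ < lv ψ w} := by
    ext ψ
    simp only [mem_setOf_eq, mem_iUnion, exists_prop]
  rw [this]
  exact isOpen_biUnion (fun w _ => isOpen_lt (continuous_hs hL.compact) (continuous_lv_left w))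

theorem a8_main {K L : Set (ℝ × ℝ)} (hK : IsBody K) (hL : IsBody L) {α β : ℝ}
    (hpos : ∀ ψ ∈ Ioo α β, hs L ψ < hs K ψ) (θ : ℝ) : OrdConnected (lv θ '' DS K L α β) := by
  have mem : ∀ w, w ∈ DS K L α β → w ∈ interior K ∧ ∃ ψ ∈ Ioo α β, hs L ψ < lv ψ w := by
    intro w hw
    rcases hw with h | ⟨wL, ψ, hψ, l⟩
    · exact h
    · exfalso
      have h1 := lv_le_hs hL.compact ψ (interior_subset wL)
      have h2 := hpos ψ hψ
      linarith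
  constructor
  intro c₁ h₁ c₂ h₂ c hc
  by_contra hno
  obtain ⟨w₁, m₁, rfl⟩ := h₁
  obtain ⟨w₂, m₂, rfl⟩ := h₂
  have l1 : lv θ w₁ < c := lt_of_le_of_ne hc.1 (fun h => hno ⟨w₁, m₁, h⟩)
  have l2 : c < lv θ w₂ := lt_of_le_of_ne hc.2 (fun h => hno ⟨w₂, m₂, h.symm⟩)
  obtain ⟨i₁, ψ₁, hψ₁, s₁⟩ := mem w₁ m₁
  obtain ⟨i₂, ψ₂, hψ₂, s₂⟩ := mem w₂ m₂
  set A₁ : Set (ℝ × ℝ) := {w | w ∈ interior K ∧ lv θ w < c} with hA₁
  set A₂ : Set (ℝ × ℝ) := {w | w ∈ interior K ∧ c < lv θ w} with hA₂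
  have o₁ := a8_isOpen hL A₁
  have o₂ := a8_isOpen hL A₂
  have cover : Ioo α β ⊆ {ψ : ℝ | ∃ w ∈ A₁, hs L ψ < lv ψ w} ∪
      {ψ : ℝ | ∃ w ∈ A₂, hs L ψ < lv ψ w} := by
    intro ψ hψ
    obtain ⟨x, hx, he⟩ := exists_lv_eq_hs hK.compact (hK.nonempty.mono interior_subset) ψ
    have hO : IsOpen {w : ℝ × ℝ | hs L ψ < lv ψ w} :=
      isOpen_lt continuous_const (continuous_lv_right ψ)
    obtain ⟨w, wK, wl⟩ := exists_mem_interior_of_open hK hO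
      ⟨x, hx, by rw [mem_setOf_eq, he]; exact hpos ψ hψ⟩
    have wl' : hs L ψ < lv ψ w := wl
    rcases lt_trichotomy (lv θ w) c with h | h | h
    · exact Or.inl ⟨w, ⟨wK, h⟩, wl'⟩
    · exact absurd ⟨w, Or.inl ⟨wK, ψ, hψ, wl'⟩, h⟩ hno
    · exact Or.inr ⟨w, ⟨wK, h⟩, wl'⟩
  obtain ⟨ψ, hψ, ⟨v₁, ⟨k₁, t₁⟩, r₁⟩, ⟨v₂, ⟨k₂, t₂⟩, r₂⟩⟩ :=
    isPreconnected_Ioo _ _ o₁ o₂ cover ⟨ψ₁, hψ₁, w₁, ⟨i₁, l1⟩, s₁⟩ ⟨ψ₂, hψ₂, w₂, ⟨i₂, l2⟩, s₂⟩
  -- the point of level c on the segment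
  set d := lv θ v₂ - lv θ v₁ with hd
  have hd0 : 0 < d := by rw [hd]; linarith
  set t := (c - lv θ v₁) / d with ht
  have t0 : 0 < t := div_pos (by linarith) hd0
  have t1 : t < 1 := by
    rw [ht, div_lt_one hd0, hd]
    linarith
  have htd : t * d = c - lv θ v₁ := by
    rw [ht]
    field_simp
  have hmem : (1 - t) • v₁ + t • v₂ ∈ interior K :=
    hK.convex.interior k₁ k₂ (by linarith) t0.le (by ring)
  apply hno
  refine ⟨(1 - t) • v₁ + t • v₂, Or.inl ⟨hmem, ψ, hψ, ?_⟩, ?_⟩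
  · rw [lv_add, lv_smul, lv_smul]
    nlinarith
  · rw [lv_add, lv_smul, lv_smul]
    rw [hd] at htd
    linarith

/-- **D4: the levels of a piece form an interval.**  By symmetry (`DS_symm`, `IsArc.symm`, `arc_sign`)
assume `hs L ψ < hs K ψ` on the arc `J = Ioo α β`; then `DS K L α β = ⋃_{ψ ∈ J} Cap ψ` with
`Cap ψ = {w ∈ interior K | hs L ψ < lv ψ w}` (the second alternative in `DS` is void: `w ∈ interior L`
gives `lv ψ w ≤ hs L ψ < hs K ψ`).  Each `Cap ψ` is convex and, by the argument of `DS_nonempty`,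
nonempty.  Let `c₁ < c < c₂`, `c₁, c₂` levels of `DS` and suppose `c` is not a level.  For `ψ ∈ J` the
convex set `Cap ψ` has no point of level `c`, so all its points have level `< c` or all have level `> c`
(otherwise take the point of level `c` on a segment; `lv θ` is affine).  Let
`U₁ = {ψ ∈ J | ∃ w ∈ Cap ψ, lv θ w < c}`, `U₂ = {ψ ∈ J | ∃ w ∈ Cap ψ, c < lv θ w}`: both are open
(`w ∈ Cap ψ` implies `w ∈ Cap ψ'` for `ψ'` near `ψ`, by continuity of `hs L` and of `ψ ↦ lv ψ w`), cover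
`J`, are disjoint and both nonempty.  This contradicts `isPreconnected_Ioo`. -/
theorem levels_ordConnected {K L : Set (ℝ × ℝ)} (hK : IsBody K) (hL : IsBody L) {α β : ℝ}
    (h : IsArc K L α β) (θ : ℝ) : OrdConnected (lv θ '' DS K L α β) := by
  rcases arc_sign hK hL h with hp | hp
  · exact a8_main hK hL hp θ
  · rw [DS_symm]
    exact a8_main hL hK hp θ

end Pool.Agent.XA
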