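import Pool.Agent.XA.Defs

set_option autoImplicit false
open MeasureTheory Set

namespace Pool.Agent.XA

/-- Immediate from compactness: `lv θ` is continuous (`continuous_lv_right`), so `lv θ '' K` is
bounded above; `le_csSup`. -/
theorem lv_le_hs {K : Set (ℝ × ℝ)} (hK : IsCompact K) (θ : ℝ) {w : ℝ × ℝ} (hw : w ∈ K) :
    lv θ w ≤ hs K θ := by
  exact le_csSup (hK.bddAbove_image (continuous_lv_right θ).continuousOn) (mem_image_of_mem _ hw)

/-- `IsCompact.exists_sSup_image_eq`. -/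
theorem exists_lv_eq_hs {K : Set (ℝ × ℝ)} (hK : IsCompact K) (hne : K.Nonempty) (θ : ℝ) :
    ∃ w ∈ K, lv θ w = hs K θ := by
  obtain ⟨w, hw, h⟩ := hK.exists_sSup_image_eq hne (continuous_lv_right θ).continuousOn
  exact ⟨w, hw, h.symm⟩

/-- `csSup_le`. -/
theorem hs_le {K : Set (ℝ × ℝ)} (hne : K.Nonempty) {θ M : ℝ} (h : ∀ w ∈ K, lv θ w ≤ M) :
    hs K θ ≤ M := by
  refine csSup_le (hne.image _) ?_
  rintro _ ⟨w, hw, rfl⟩
  exact h w hw

/-- from `lv_add_int_two_pi`. -/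
theorem hs_add_int_two_pi (K : Set (ℝ × ℝ)) (θ : ℝ) (k : ℤ) :
    hs K (θ + k * (2 * Real.pi)) = hs K θ := by
  have h : lv (θ + k * (2 * Real.pi)) = lv θ := funext (fun w => lv_add_int_two_pi θ k w)
  rw [hs, hs, h]

/-- special case `k = 1`. -/
theorem hs_add_two_pi (K : Set (ℝ × ℝ)) (θ : ℝ) : hs K (θ + 2 * Real.pi) = hs K θ := by
  have h := hs_add_int_two_pi K θ 1
  rwa [Int.cast_one, one_mul] at h

/-- `θ - π` and `θ + π` differ by `2 π`. -/
theorem hs_sub_pi (K : Set (ℝ × ℝ)) (θ : ℝ) : hs K (θ - Real.pi) = hs K (θ + Real.pi) := by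
  rw [← hs_add_two_pi K (θ - Real.pi)]
  congr 1
  ring

/-- Mathlib: `IsCompact.continuous_sSup` with `continuous_lv`. -/
theorem continuous_hs {K : Set (ℝ × ℝ)} (hK : IsCompact K) : Continuous (hs K) := by
  exact hK.continuous_sSup (f := lv) continuous_lv

end Pool.Agent.XA
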