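import Pool.Agent.XA.B2

set_option autoImplicit false
open MeasureTheory Set

namespace Pool.Agent.XA

/-- the reflection at the first axis -/
def rf (w : ℝ × ℝ) : ℝ × ℝ := (w.1, -w.2)

theorem rf_rf (w : ℝ × ℝ) : rf (rf w) = w := by
  simp [rf]

theorem lv_neg (θ : ℝ) (w : ℝ × ℝ) : lv (-θ) w = lv θ (rf w) := by
  simp [lv, rf]

theorem tg_neg (θ : ℝ) (w : ℝ × ℝ) : tg (-θ) w = -tg θ (rf w) := by
  simp [tg, rf]
  ring

theorem rf_pt_neg (θ c t : ℝ) : rf (pt (-θ) c t) = pt θ c (-t) := by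
  simp [pt, rf]
  ring

theorem b6_continuous : Continuous rf := by
  unfold rf
  fun_prop

/-- `rf` as a homeomorphism -/
def b6_homeo : (ℝ × ℝ) ≃ₜ (ℝ × ℝ) where
  toFun := rf
  invFun := rf
  left_inv := rf_rf
  right_inv := rf_rf
  continuous_toFun := b6_continuous
  continuous_invFun := b6_continuous

/-- `rf` is a homeomorphism (continuous involution), e.g. `Homeomorph.preimage_interior` or both
inclusions by hand. -/
theorem interior_rf (K : Set (ℝ × ℝ)) : interior (rf ⁻¹' K) = rf ⁻¹' interior K :=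
  (b6_homeo.preimage_interior K).symm

theorem b6_linear : IsLinearMap ℝ rf where
  map_add x y := by
    simp only [rf, Prod.fst_add, Prod.snd_add, Prod.mk_add_mk, neg_add]
  map_smul c x := by
    simp only [rf, Prod.smul_fst, Prod.smul_snd, Prod.smul_mk, smul_neg]

/-- compact: `rf ⁻¹' K = rf '' K`; convex: `rf` is linear; interior by `interior_rf`. -/
theorem IsBody.rf {K : Set (ℝ × ℝ)} (hK : IsBody K) : IsBody (XA.rf ⁻¹' K) := by
  refine ⟨(b6_homeo.isCompact_preimage (s := K)).2 hK.compact,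
    hK.convex.is_linear_preimage b6_linear, ?_⟩
  obtain ⟨w, hw⟩ := hK.nonempty
  refine ⟨XA.rf w, ?_⟩
  rw [interior_rf]
  show XA.rf (XA.rf w) ∈ interior K
  rw [rf_rf]
  exact hw

/-- `lv (-θ) '' (rf ⁻¹' D) = lv θ '' D` since `rf` is a bijection. -/
theorem levels_rf (D : Set (ℝ × ℝ)) (θ : ℝ) : lv (-θ) '' (rf ⁻¹' D) = lv θ '' D := by
  ext y
  constructor
  · rintro ⟨w, hw, rfl⟩
    exact ⟨rf w, hw, (lv_neg θ w).symm⟩
  · rintro ⟨w, hw, rfl⟩
    refine ⟨rf w, ?_, ?_⟩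
    · show rf (rf w) ∈ D
      rw [rf_rf]
      exact hw
    · rw [lv_neg, rf_rf]

theorem hs_rf (K : Set (ℝ × ℝ)) (θ : ℝ) : hs (rf ⁻¹' K) (-θ) = hs K θ := by
  unfold hs
  rw [levels_rf]

end Pool.Agent.XA
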