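import Pool.Agent.XA.B6
import Pool.Agent.XA.A1

set_option autoImplicit false
open MeasureTheory Set

namespace Pool.Agent.XA

theorem b7_hs (K : Set (ℝ × ℝ)) (θ : ℝ) : hs (rf ⁻¹' K) θ = hs K (-θ) := by
  have h := hs_rf K (-θ)
  rwa [neg_neg] at h

/-- `hs_rf` at the angle `-ψ` -/
theorem IsArc.rf {K L : Set (ℝ × ℝ)} {α β : ℝ} (h : IsArc K L α β) :
    IsArc (XA.rf ⁻¹' K) (XA.rf ⁻¹' L) (-β) (-α) := by
  refine ⟨neg_lt_neg h.lt, ?_, ?_, fun ψ hψ => ?_⟩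
  · rw [hs_rf, hs_rf]; exact h.right
  · rw [hs_rf, hs_rf]; exact h.left
  · rw [b7_hs, b7_hs]
    exact h.ne (-ψ) ⟨by linarith [hψ.2], by linarith [hψ.1]⟩

/-- unfold; the angle `ψ ∈ Ioo α β` corresponds to `-ψ ∈ Ioo (-β) (-α)`; `interior_rf`, `hs_rf`,
`lv_neg`. -/
theorem DS_rf (K L : Set (ℝ × ℝ)) (α β : ℝ) :
    DS (rf ⁻¹' K) (rf ⁻¹' L) (-β) (-α) = rf ⁻¹' DS K L α β := by
  have key : ∀ (M : Set (ℝ × ℝ)) (w : ℝ × ℝ),
      (∃ ψ ∈ Ioo (-β) (-α), hs (rf ⁻¹' M) ψ < lv ψ w) ↔ ∃ ψ ∈ Ioo α β, hs M ψ < lv ψ (rf w) := by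
    intro M w
    constructor
    · rintro ⟨ψ, hψ, h⟩
      refine ⟨-ψ, ⟨by linarith [hψ.2], by linarith [hψ.1]⟩, ?_⟩
      rw [b7_hs] at h
      rw [lv_neg, rf_rf]
      exact h
    · rintro ⟨ψ, hψ, h⟩
      refine ⟨-ψ, ⟨by linarith [hψ.2], by linarith [hψ.1]⟩, ?_⟩
      rw [hs_rf, lv_neg]
      exact h
  ext w
  simp only [DS, mem_setOf_eq, interior_rf, mem_preimage, key]

/-- `hs (rf ⁻¹' K) (-θ + π) = hs K (θ - π) = hs K (θ + π)` (`hs_rf`, `hs_sub_pi`);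
`{t | pt (-θ) c t ∈ rf ⁻¹' K} = {t | pt θ c (-t) ∈ K}` (`rf_pt_neg`) has the same volume as
`{t | pt θ c t ∈ K}` (`Measure.IsNegInvariant`, `measure_preimage_neg`). -/
theorem Dir.rf {K L : Set (ℝ × ℝ)} {θ c1 : ℝ} (h : Dir K L θ c1) :
    Dir (XA.rf ⁻¹' K) (XA.rf ⁻¹' L) (-θ) c1 := by
  have hb : ∀ M : Set (ℝ × ℝ), hs (XA.rf ⁻¹' M) (-θ + Real.pi) = hs M (θ + Real.pi) := by
    intro M
    rw [b7_hs]
    have e : -(-θ + Real.pi) = θ - Real.pi := by ring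
    rw [e]
    have e2 : ∀ w : ℝ × ℝ, lv (θ - Real.pi) w = lv (θ + Real.pi) w := fun w => by
      rw [lv_sub_pi, lv_add_pi]
    have e3 : lv (θ - Real.pi) = lv (θ + Real.pi) := funext e2
    simp only [hs, e3]
  have hv : ∀ (M : Set (ℝ × ℝ)) (c : ℝ), volume {t : ℝ | pt (-θ) c t ∈ XA.rf ⁻¹' M} =
      volume {t : ℝ | pt θ c t ∈ M} := by
    intro M c
    have e : {t : ℝ | pt (-θ) c t ∈ XA.rf ⁻¹' M} = (fun t => -t) ⁻¹' {t : ℝ | pt θ c t ∈ M} := by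
      ext t
      simp only [mem_setOf_eq, mem_preimage, rf_pt_neg]
    rw [e]
    exact Measure.measure_preimage_neg volume _
  refine ⟨h.bK.rf, h.bL.rf, ?_, ?_, fun c h1 h2 h3 => ?_⟩
  · rw [hs_rf, hs_rf]; exact h.top
  · rw [hb, hb]; exact h.bot
  · rw [hb] at h2
    rw [hs_rf] at h3
    rw [hv, hv]
    exact h.len c h1 h2 h3

theorem Chords.rf {K L : Set (ℝ × ℝ)} {θ c a b a' b' : ℝ} (h : Chords K L θ c a b a' b') :
    Chords (XA.rf ⁻¹' K) (XA.rf ⁻¹' L) (-θ) c (-b) (-a) (-b') (-a') := by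
  have hc : ∀ (M : Set (ℝ × ℝ)) (p q : ℝ), {t : ℝ | pt θ c t ∈ M} = Icc p q →
      {t : ℝ | pt (-θ) c t ∈ XA.rf ⁻¹' M} = Icc (-q) (-p) := by
    intro M p q hM
    ext t
    have h1 := Set.ext_iff.1 hM (-t)
    simp only [mem_setOf_eq, mem_preimage, rf_pt_neg, mem_Icc] at h1 ⊢
    rw [h1]
    constructor <;> rintro ⟨h2, h3⟩ <;> constructor <;> linarith
  have ho : ∀ (M : Set (ℝ × ℝ)) (p q : ℝ), {t : ℝ | pt θ c t ∈ M} = Ioo p q →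
      {t : ℝ | pt (-θ) c t ∈ XA.rf ⁻¹' M} = Ioo (-q) (-p) := by
    intro M p q hM
    ext t
    have h1 := Set.ext_iff.1 hM (-t)
    simp only [mem_setOf_eq, mem_preimage, rf_pt_neg, mem_Ioo] at h1 ⊢
    rw [h1]
    constructor <;> rintro ⟨h2, h3⟩ <;> constructor <;> linarith
  refine ⟨neg_lt_neg h.lt, by linarith [h.eq], hc K a b h.sK, ?_, hc L a' b' h.sL, ?_⟩
  · rw [interior_rf]; exact ho _ a b h.iK
  · rw [interior_rf]; exact ho _ a' b' h.iL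

/-- the set of `t` with `pt (-θ) c t` in the reflected piece -/
theorem slice_rf (K L : Set (ℝ × ℝ)) (α β θ c : ℝ) :
    {t : ℝ | pt (-θ) c t ∈ DS (rf ⁻¹' K) (rf ⁻¹' L) (-β) (-α)} =
      {t : ℝ | pt θ c (-t) ∈ DS K L α β} := by
  rw [DS_rf]
  ext t
  simp only [mem_setOf_eq, mem_preimage, rf_pt_neg]

end Pool.Agent.XA
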