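import Pool.Agent.XA.C1
import Pool.Agent.XA.C2
import Pool.Agent.XA.A2
import Pool.Agent.XA.A5
import Pool.Agent.XA.B3

set_option autoImplicit false
open MeasureTheory Set

namespace Pool.Agent.XA

/-- A point `pt θ c t` of the interior of `K` to the left of the chord of `L` is seen from a left arc.
Let `v = pt θ c t`.  `v ∉ L` (its slice is `Icc a' b'`, `t < a'`).  `exists_sep_side` for `L`
(hypotheses: `c ≤ hs L θ`, `-hs L (θ + π) ≤ c`, from `lv_lt_hs`, `neg_hs_lt_lv` for `v ∈ interior K` and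
`Dir.top`, `Dir.bot`): an angle `ψ` with `hs L ψ < lv ψ v`.  If `ψ ∈ Ioo θ (θ + π)` then `type_right`
with the point `pt θ c a' ∈ L` gives `a' < t`, a contradiction.  So `ψ ∈ Ioo (θ - π) θ`.
`hs L ψ < lv ψ v ≤ hs K ψ`, and `exists_arc` on `[θ - π, θ]` (equality at `θ - π` by `hs_sub_pi` and
`Dir.bot`, at `θ` by `Dir.top`). -/
theorem exists_left_at {K L : Set (ℝ × ℝ)} {θ c1 c : ℝ} (h : Dir K L θ c1)
    {a b a' b' : ℝ} (hc : Chords K L θ c a b a' b') {t : ℝ} (ht : t ∈ Ioo a b) (ht' : t < a') :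
    ∃ α β, IsArc K L α β ∧ θ - Real.pi ≤ α ∧ β ≤ θ ∧ pt θ c t ∈ DS K L α β := by
  have vK : pt θ c t ∈ interior K := by
    have : t ∈ {t : ℝ | pt θ c t ∈ interior K} := by rw [hc.iK]; exact ht
    exact this
  have vL : pt θ c t ∉ L := by
    intro hv
    have : t ∈ {t : ℝ | pt θ c t ∈ L} := hv
    rw [hc.sL] at this
    linarith [this.1]
  have aL : pt θ c a' ∈ L := by
    have : a' ∈ {t : ℝ | pt θ c t ∈ L} := by
      rw [hc.sL]
      exact ⟨le_refl _, by linarith [hc.eq, hc.lt]⟩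
    exact this
  have r1 := lv_lt_hs h.bK.compact θ vK
  have r2 := neg_hs_lt_lv h.bK.compact θ vK
  rw [h.top] at r1
  rw [h.bot] at r2
  obtain ⟨ψ, l, side⟩ := exists_sep_side h.bL vL θ r1.le r2.le
  rcases side with side | side
  · have l' := lv_le_hs h.bK.compact ψ (interior_subset vK)
    obtain ⟨α, β, hA, hψ, h1, h2⟩ := exists_arc h.bK h.bL (ψ₁ := θ - Real.pi) (ψ := ψ) (ψ₂ := θ)
      side.1.le side.2.le (by rw [hs_sub_pi, hs_sub_pi, h.bot]) h.top (by intro he; linarith)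
    exact ⟨α, β, hA, h1, h2, Or.inl ⟨vK, ψ, hψ, l⟩⟩
  · exfalso
    have := type_right h.bL.compact side l aL (by rw [lv_pt, lv_pt])
    rw [tg_pt, tg_pt] at this
    linarith

/-- **The slice of a left piece.**  Let `pt θ c t ∈ DS K L α β`.  If `pt θ c t ∈ interior K` with
`hs L ψ < lv ψ _`, `ψ ∈ Ioo α β ⊆ Ioo (θ - π) θ`, then `t ∈ Ioo a b` and `type_left` with the point
`pt θ c a' ∈ L` gives `t < a'`.  If `pt θ c t ∈ interior L` with `hs K ψ < lv ψ _`, then
`type_left` (with `K` in the role of `L`, point `pt θ c a ∈ K`) gives `t < a`, but `a < a' < t`: impossible.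
Conversely let `t ∈ Ioo a b`, `t < a'`.  `exists_left_at`: `pt θ c t ∈ DS K L α' β'` for a left
arc `(α', β')`.  By `arc_trichotomy` the arcs `(α, β)`, `(α', β')` are equal (done) or one is to the left
of the other; then `level_lt` (with `θ - π ≤ α`, `β' ≤ θ`, resp. with the roles exchanged), applied to
`pt θ c t ∈ DS K L α' β'` and a point of `DS K L α β` of level `c` (`hne`), gives `c < c`. -/
theorem slice_left {K L : Set (ℝ × ℝ)} {θ c1 c : ℝ} (h : Dir K L θ c1)
    {a b a' b' : ℝ} (hc : Chords K L θ c a b a' b') (haa : a < a') {α β : ℝ}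
    (hA : IsArc K L α β) (h1 : θ - Real.pi ≤ α) (h2 : β ≤ θ) (hne : c ∈ lv θ '' DS K L α β) :
    {t : ℝ | pt θ c t ∈ DS K L α β} = Ioo a b ∩ Iio a' := by
  have aL : pt θ c a' ∈ L := by
    have : a' ∈ {t : ℝ | pt θ c t ∈ L} := by
      rw [hc.sL]
      exact ⟨le_refl _, by linarith [hc.eq, hc.lt]⟩
    exact this
  have aK : pt θ c a ∈ K := by
    have : a ∈ {t : ℝ | pt θ c t ∈ K} := by
      rw [hc.sK]
      exact ⟨le_refl _, by linarith [hc.lt]⟩
    exact this
  ext t
  constructor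
  · intro ht
    rcases ht with ⟨vK, ψ, hψ, l⟩ | ⟨vL, ψ, hψ, l⟩
    · have m : t ∈ {t : ℝ | pt θ c t ∈ interior K} := vK
      rw [hc.iK] at m
      have := type_left h.bL.compact (θ := θ) ⟨by linarith [hψ.1], by linarith [hψ.2]⟩ l aL
        (by rw [lv_pt, lv_pt])
      rw [tg_pt, tg_pt] at this
      exact ⟨m, this⟩
    · exfalso
      have m : t ∈ {t : ℝ | pt θ c t ∈ interior L} := vL
      rw [hc.iL] at m
      have := type_left h.bK.compact (θ := θ) ⟨by linarith [hψ.1], by linarith [hψ.2]⟩ l aK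
        (by rw [lv_pt, lv_pt])
      rw [tg_pt, tg_pt] at this
      linarith [m.1]
  · rintro ⟨ht, ht'⟩
    obtain ⟨α', β', hA', h1', h2', hm⟩ := exists_left_at h hc ht ht'
    obtain ⟨w, hw, hwc⟩ := hne
    rcases arc_trichotomy hA hA' with ⟨ea, eb⟩ | hle | hle
    · subst ea
      subst eb
      exact hm
    · exfalso
      have := level_lt h.bK h.bL hA hA' hle h2' (by linarith) hw hm
      rw [lv_pt, hwc] at this
      exact lt_irrefl _ this
    · exfalso
      have := level_lt h.bK h.bL hA' hA hle h2 (by linarith) hm hw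
      rw [lv_pt, hwc] at this
      exact lt_irrefl _ this

end Pool.Agent.XA
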