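import Pool.Agent.XA.C3
import Pool.Agent.XA.B7

set_option autoImplicit false
open MeasureTheory Set

namespace Pool.Agent.XA

/-- **The slice of a right piece.**  Reflection of `slice_left`: apply `slice_left` to `rf ⁻¹' L`,
`rf ⁻¹' K` (in this order), the direction `-θ`, the chords `(-b', -a')`, `(-b, -a)` (`Dir.rf`, `Dir.symm`,
`Chords.rf`, `Chords.symm`; `-b' < -b` because `b - a = b' - a'`), the arc `(-β, -α)` (`IsArc.rf`,
`IsArc.symm`), using `slice_rf`, `DS_symm`, `levels_rf`, `DS_rf`.  (Or prove it directly, as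
`slice_left`, with `type_right` and `level_gt`.) -/
theorem slice_right {K L : Set (ℝ × ℝ)} {θ c1 c : ℝ} (h : Dir K L θ c1)
    {a b a' b' : ℝ} (hc : Chords K L θ c a b a' b') (haa : a < a') {α β : ℝ}
    (hA : IsArc K L α β) (h1 : θ ≤ α) (h2 : β ≤ θ + Real.pi) (hne : c ∈ lv θ '' DS K L α β) :
    {t : ℝ | pt θ c t ∈ DS K L α β} = Ioo a' b' ∩ Ioi b := by
  have hbb : -b' < -b := by linarith [hc.eq]
  have hne' : c ∈ lv (-θ) '' DS (rf ⁻¹' L) (rf ⁻¹' K) (-β) (-α) := by
    rw [DS_symm, DS_rf, levels_rf]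
    exact hne
  have key := slice_left h.rf.symm hc.rf.symm hbb hA.rf.symm (by linarith) (by linarith) hne'
  rw [DS_symm, slice_rf] at key
  ext t
  have hk := Set.ext_iff.1 key (-t)
  simp only [mem_setOf_eq, neg_neg] at hk
  constructor
  · intro ht
    obtain ⟨⟨p1, p2⟩, p3⟩ := hk.1 ht
    have p3' : -t < -b := p3
    exact ⟨⟨by linarith, by linarith⟩, show b < t by linarith⟩
  · rintro ⟨⟨p1, p2⟩, p3⟩
    have p3' : b < t := p3
    exact hk.2 ⟨⟨by linarith, by linarith⟩, show -t < -b by linarith⟩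

end Pool.Agent.XA
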