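import Pool.Agent.XA.C3
import Pool.Agent.XA.B7

set_option autoImplicit false
open MeasureTheory Set

namespace Pool.Agent.XA

/-- `Ioo a b ∩ Iio a'` is nonempty; `exists_left_at` for one of its points (`lv_pt`). -/
theorem exists_left {K L : Set (ℝ × ℝ)} {θ c1 c : ℝ} (h : Dir K L θ c1)
    {a b a' b' : ℝ} (hc : Chords K L θ c a b a' b') (haa : a < a') :
    ∃ α β, IsArc K L α β ∧ θ - Real.pi ≤ α ∧ β ≤ θ ∧ c ∈ lv θ '' DS K L α β := by
  have hm : a < min b a' := lt_min hc.lt haa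
  have m1 : min b a' ≤ b := min_le_left _ _
  have m2 : min b a' ≤ a' := min_le_right _ _
  obtain ⟨α, β, hA, h1, h2, hmem⟩ := exists_left_at h hc (t := (a + min b a') / 2)
    ⟨by linarith, by linarith⟩ (by linarith)
  exact ⟨α, β, hA, h1, h2, _, hmem, lv_pt _ _ _⟩

/-- the mirrored version of `exists_left_at` -/
theorem c5_right_at {K L : Set (ℝ × ℝ)} {θ c1 c : ℝ} (h : Dir K L θ c1)
    {a b a' b' : ℝ} (hc : Chords K L θ c a b a' b') {t : ℝ} (ht : t ∈ Ioo a' b') (ht' : b < t) :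
    ∃ α β, IsArc K L α β ∧ θ ≤ α ∧ β ≤ θ + Real.pi ∧ pt θ c t ∈ DS K L α β := by
  have vL : pt θ c t ∈ interior L := by
    have : t ∈ {t : ℝ | pt θ c t ∈ interior L} := by rw [hc.iL]; exact ht
    exact this
  have vK : pt θ c t ∉ K := by
    intro hv
    have : t ∈ {t : ℝ | pt θ c t ∈ K} := hv
    rw [hc.sK] at this
    linarith [this.2]
  have bK : pt θ c b ∈ K := by
    have : b ∈ {t : ℝ | pt θ c t ∈ K} := by
      rw [hc.sK]
      exact ⟨by linarith [hc.lt], le_refl _⟩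
    exact this
  have r1 := lv_lt_hs h.bL.compact θ vL
  have r2 := neg_hs_lt_lv h.bL.compact θ vL
  rw [← h.top] at r1
  rw [← h.bot] at r2
  obtain ⟨ψ, l, side⟩ := exists_sep_side h.bK vK θ r1.le r2.le
  rcases side with side | side
  · exfalso
    have := type_left h.bK.compact side l bK (by rw [lv_pt, lv_pt])
    rw [tg_pt, tg_pt] at this
    linarith
  · have l' := lv_le_hs h.bL.compact ψ (interior_subset vL)
    obtain ⟨α, β, hA, hψ, h1, h2⟩ := exists_arc h.bK h.bL (ψ₁ := θ) (ψ := ψ)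
      (ψ₂ := θ + Real.pi) side.1.le side.2.le h.top h.bot (by intro he; linarith)
    exact ⟨α, β, hA, h1, h2, Or.inr ⟨vL, ψ, hψ, l⟩⟩

/-- Reflection of `exists_left` (applied to `rf ⁻¹' L`, `rf ⁻¹' K`, `-θ`, see `slice_right`), or
directly as in `exists_left_at`. -/
theorem exists_right {K L : Set (ℝ × ℝ)} {θ c1 c : ℝ} (h : Dir K L θ c1)
    {a b a' b' : ℝ} (hc : Chords K L θ c a b a' b') (haa : a < a') :
    ∃ α β, IsArc K L α β ∧ θ ≤ α ∧ β ≤ θ + Real.pi ∧ c ∈ lv θ '' DS K L α β := by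
  have hm : max a' b < b' := max_lt (by linarith [hc.lt, hc.eq]) (by linarith [hc.eq])
  have m1 : a' ≤ max a' b := le_max_left _ _
  have m2 : b ≤ max a' b := le_max_right _ _
  obtain ⟨α, β, hA, h1, h2, hmem⟩ := c5_right_at h hc (t := (max a' b + b') / 2)
    ⟨by linarith, by linarith⟩ (by linarith)
  exact ⟨α, β, hA, h1, h2, _, hmem, lv_pt _ _ _⟩

end Pool.Agent.XA
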