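import Pool.Agent.XA.C1
import Pool.Agent.XA.C2
import Pool.Agent.XA.A1

set_option autoImplicit false
open MeasureTheory Set

namespace Pool.Agent.XA

/-- If `a = a'` then no left piece has a point of level `c`: for `w ∈ interior K` of level `c`,
`w = pt θ c t` with `a < t`, and `type_left` with the point `pt θ c a' ∈ L` gives `t < a' = a`; for
`w ∈ interior L` in the same way. -/
theorem chords_ne_left {K L : Set (ℝ × ℝ)} {θ c1 c : ℝ} (h : Dir K L θ c1)
    {a b a' b' : ℝ} (hc : Chords K L θ c a b a' b') {α β : ℝ} (h1 : θ - Real.pi ≤ α)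
    (h2 : β ≤ θ) (hne : c ∈ lv θ '' DS K L α β) : a ≠ a' := by
  intro heq
  have aL : pt θ c a' ∈ L := by
    have : a' ∈ {t : ℝ | pt θ c t ∈ L} := by
      rw [hc.sL]
      exact ⟨le_refl _, by linarith [hc.eq, hc.lt]⟩
    exact this
  have aK : pt θ c a ∈ K := by
    have : a ∈ {t : ℝ | pt θ c t ∈ K} := by
      rw [hc.sK]
      exact ⟨le_refl _, by linarith [hc.lt]⟩
    exact this
  obtain ⟨w, hw, hwc⟩ := hne
  have ew : w = pt θ c (tg θ w) := by
    conv_lhs => rw [← pt_lv_tg θ w]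
    rw [hwc]
  rcases hw with ⟨vK, ψ, hψ, l⟩ | ⟨vL, ψ, hψ, l⟩
  · have m : tg θ w ∈ {t : ℝ | pt θ c t ∈ interior K} := by
      rw [mem_setOf_eq, ← ew]; exact vK
    rw [hc.iK] at m
    have := type_left h.bL.compact (θ := θ) ⟨by linarith [hψ.1], by linarith [hψ.2]⟩ l aL
      (by rw [lv_pt, hwc])
    rw [tg_pt] at this
    linarith [m.1]
  · have m : tg θ w ∈ {t : ℝ | pt θ c t ∈ interior L} := by
      rw [mem_setOf_eq, ← ew]; exact vL
    rw [hc.iL] at m
    have := type_left h.bK.compact (θ := θ) ⟨by linarith [hψ.1], by linarith [hψ.2]⟩ l aK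
      (by rw [lv_pt, hwc])
    rw [tg_pt] at this
    linarith [m.1]

/-- the same on the right (if `a = a'` then `b = b'`; `type_right`) -/
theorem chords_ne_right {K L : Set (ℝ × ℝ)} {θ c1 c : ℝ} (h : Dir K L θ c1)
    {a b a' b' : ℝ} (hc : Chords K L θ c a b a' b') {α β : ℝ} (h1 : θ ≤ α)
    (h2 : β ≤ θ + Real.pi) (hne : c ∈ lv θ '' DS K L α β) : a ≠ a' := by
  intro heq
  have bL : pt θ c b' ∈ L := by
    have : b' ∈ {t : ℝ | pt θ c t ∈ L} := by
      rw [hc.sL]
      exact ⟨by linarith [hc.eq, hc.lt], le_refl _⟩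
    exact this
  have bK : pt θ c b ∈ K := by
    have : b ∈ {t : ℝ | pt θ c t ∈ K} := by
      rw [hc.sK]
      exact ⟨by linarith [hc.lt], le_refl _⟩
    exact this
  have hbb := hc.eq
  obtain ⟨w, hw, hwc⟩ := hne
  have ew : w = pt θ c (tg θ w) := by
    conv_lhs => rw [← pt_lv_tg θ w]
    rw [hwc]
  rcases hw with ⟨vK, ψ, hψ, l⟩ | ⟨vL, ψ, hψ, l⟩
  · have m : tg θ w ∈ {t : ℝ | pt θ c t ∈ interior K} := by
      rw [mem_setOf_eq, ← ew]; exact vK
    rw [hc.iK] at m
    have := type_right h.bL.compact (θ := θ) ⟨by linarith [hψ.1], by linarith [hψ.2]⟩ l bL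
      (by rw [lv_pt, hwc])
    rw [tg_pt] at this
    linarith [m.2]
  · have m : tg θ w ∈ {t : ℝ | pt θ c t ∈ interior L} := by
      rw [mem_setOf_eq, ← ew]; exact vL
    rw [hc.iL] at m
    have := type_right h.bK.compact (θ := θ) ⟨by linarith [hψ.1], by linarith [hψ.2]⟩ l bK
      (by rw [lv_pt, hwc])
    rw [tg_pt] at this
    linarith [m.2]

end Pool.Agent.XA
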