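import Pool.Agent.XA.C5
import Pool.Agent.XA.C6

set_option autoImplicit false
open MeasureTheory Set

namespace Pool.Agent.XA

/-- **Exchange of sides at one level.**  `level_range` and `exists_chords` give the chords at the
level `c`; `chords_ne_left`; if `a < a'` use `exists_right`, if `a' < a` use it for `L`, `K`
(`Dir.symm`, `Chords.symm`, `IsArc.symm`, `DS_symm`). -/
theorem level_left_right {K L : Set (ℝ × ℝ)} {θ c1 c : ℝ} (h : Dir K L θ c1) (hc : c1 ≤ c)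
    {α β : ℝ} (h1 : θ - Real.pi ≤ α) (h2 : β ≤ θ) (hne : c ∈ lv θ '' DS K L α β) :
    ∃ γ δ, IsArc K L γ δ ∧ θ ≤ γ ∧ δ ≤ θ + Real.pi ∧ c ∈ lv θ '' DS K L γ δ := by
  obtain ⟨w, hw, hwc⟩ := hne
  obtain ⟨r1, r2⟩ := level_range h hw
  rw [hwc] at r1 r2
  obtain ⟨a, b, a', b', hch⟩ := exists_chords h hc r1 r2
  rcases lt_or_gt_of_ne (chords_ne_left h hch h1 h2 ⟨w, hw, hwc⟩) with hl | hl
  · exact exists_right h hch hl
  · obtain ⟨γ, δ, hB, h3, h4, hm⟩ := exists_right h.symm hch.symm hl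
    rw [DS_symm] at hm
    exact ⟨γ, δ, hB.symm, h3, h4, hm⟩

theorem level_right_left {K L : Set (ℝ × ℝ)} {θ c1 c : ℝ} (h : Dir K L θ c1) (hc : c1 ≤ c)
    {γ δ : ℝ} (h1 : θ ≤ γ) (h2 : δ ≤ θ + Real.pi) (hne : c ∈ lv θ '' DS K L γ δ) :
    ∃ α β, IsArc K L α β ∧ θ - Real.pi ≤ α ∧ β ≤ θ ∧ c ∈ lv θ '' DS K L α β := by
  obtain ⟨w, hw, hwc⟩ := hne
  obtain ⟨r1, r2⟩ := level_range h hw
  rw [hwc] at r1 r2
  obtain ⟨a, b, a', b', hch⟩ := exists_chords h hc r1 r2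
  rcases lt_or_gt_of_ne (chords_ne_right h hch h1 h2 ⟨w, hw, hwc⟩) with hl | hl
  · exact exists_left h hch hl
  · obtain ⟨γ, δ, hB, h3, h4, hm⟩ := exists_left h.symm hch.symm hl
    rw [DS_symm] at hm
    exact ⟨γ, δ, hB.symm, h3, h4, hm⟩

end Pool.Agent.XA
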