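import Pool.Agent.XA.Defs

set_option autoImplicit false
open MeasureTheory Set

namespace Pool.Agent.XA

theorem c8_int {x y : ℝ} (h : x ≤ y) : ∫ t in Ioo x y, t = (y ^ 2 - x ^ 2) / 2 := by
  rw [← integral_Ioc_eq_integral_Ioo, ← intervalIntegral.integral_of_le h, integral_id]

/-- **One-dimensional lemma.**  `Ioo a b ∩ Iio a' = Ioo a (min b a')` and
`Ioo a' b' ∩ Ioi b = Ioo (max a' b) b'`.  If `a' ≤ b`: these are `Ioo a a'` and `Ioo b b'`, of the same
length `a' - a = b' - b`, and the moment difference is `(b'² - b²)/2 - (a'² - a²)/2 =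
(a' - a) (b + b' - a - a')/2 = (a' - a) (b - a) > 0`.  If `b < a'`: these are `Ioo a b` and `Ioo a' b'`, the
moment difference is `(b - a) (a' - a) > 0`.  (`Real.volume_Ioo`, `integral_Ioc_eq_integral_Ioo`,
`intervalIntegral.integral_of_le`, `integral_id`.) -/
theorem one_dim {a b a' b' : ℝ} (hab : a < b) (haa : a < a') (heq : b - a = b' - a') :
    volume (Ioo a b ∩ Iio a') = volume (Ioo a' b' ∩ Ioi b) ∧
      ∫ t in Ioo a b ∩ Iio a', t < ∫ t in Ioo a' b' ∩ Ioi b, t := by
  have hb' : b' = b + a' - a := by linarith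
  subst hb'
  rcases le_or_gt a' b with h | h
  · have e1 : Ioo a b ∩ Iio a' = Ioo a a' := by
      ext t
      simp only [mem_inter_iff, mem_Ioo, mem_Iio]
      constructor
      · rintro ⟨⟨p, q⟩, r⟩
        exact ⟨p, r⟩
      · rintro ⟨p, r⟩
        exact ⟨⟨p, by linarith⟩, r⟩
    have e2 : Ioo a' (b + a' - a) ∩ Ioi b = Ioo b (b + a' - a) := by
      ext t
      simp only [mem_inter_iff, mem_Ioo, mem_Ioi]
      constructor
      · rintro ⟨⟨p, q⟩, r⟩
        exact ⟨r, q⟩
      · rintro ⟨p, r⟩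
        exact ⟨⟨by linarith, r⟩, p⟩
    rw [e1, e2]
    constructor
    · rw [Real.volume_Ioo, Real.volume_Ioo]
      congr 1
      ring
    · rw [c8_int haa.le, c8_int (by linarith)]
      nlinarith [mul_pos (sub_pos.2 haa) (sub_pos.2 hab)]
  · have e1 : Ioo a b ∩ Iio a' = Ioo a b := by
      ext t
      simp only [mem_inter_iff, mem_Ioo, mem_Iio]
      constructor
      · rintro ⟨⟨p, q⟩, r⟩
        exact ⟨p, q⟩
      · rintro ⟨p, r⟩
        exact ⟨⟨p, r⟩, by linarith⟩
    have e2 : Ioo a' (b + a' - a) ∩ Ioi b = Ioo a' (b + a' - a) := by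
      ext t
      simp only [mem_inter_iff, mem_Ioo, mem_Ioi]
      constructor
      · rintro ⟨⟨p, q⟩, r⟩
        exact ⟨p, q⟩
      · rintro ⟨p, r⟩
        exact ⟨⟨p, r⟩, by linarith⟩
    rw [e1, e2]
    constructor
    · rw [Real.volume_Ioo, Real.volume_Ioo]
      congr 1
    · rw [c8_int hab.le, c8_int (by linarith)]
      nlinarith [mul_pos (sub_pos.2 haa) (sub_pos.2 hab)]

end Pool.Agent.XA
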