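import Pool.Agent.XA.C4
import Pool.Agent.XA.C6
import Pool.Agent.XA.C8

set_option autoImplicit false
open MeasureTheory Set

namespace Pool.Agent.XA

/-- **Exchange of volumes and moments at one level.**  `level_range` (for the point of the left piece),
`exists_chords`, `chords_ne_left`; if `a < a'`: `slice_left`, `slice_right`, `one_dim`.  If
`a' < a` the same for `L`, `K` (`Dir.symm`, `Chords.symm`, `IsArc.symm`, `DS_symm`). -/
theorem exch {K L : Set (ℝ × ℝ)} {θ c1 c : ℝ} (h : Dir K L θ c1) (hc : c1 ≤ c)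
    {α β γ δ : ℝ} (hA : IsArc K L α β) (h1 : θ - Real.pi ≤ α) (h2 : β ≤ θ)
    (hB : IsArc K L γ δ) (h3 : θ ≤ γ) (h4 : δ ≤ θ + Real.pi)
    (hlA : c ∈ lv θ '' DS K L α β) (hlB : c ∈ lv θ '' DS K L γ δ) :
    volume {t : ℝ | pt θ c t ∈ DS K L α β} = volume {t : ℝ | pt θ c t ∈ DS K L γ δ} ∧
      ∫ t in {t : ℝ | pt θ c t ∈ DS K L α β}, t <
        ∫ t in {t : ℝ | pt θ c t ∈ DS K L γ δ}, t := by
  obtain ⟨w, hw, hwc⟩ := id hlA
  obtain ⟨r1, r2⟩ := level_range h hw
  rw [hwc] at r1 r2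
  obtain ⟨a, b, a', b', hch⟩ := exists_chords h hc r1 r2
  rcases lt_or_gt_of_ne (chords_ne_left h hch h1 h2 hlA) with hl | hl
  · rw [slice_left h hch hl hA h1 h2 hlA, slice_right h hch hl hB h3 h4 hlB]
    exact one_dim hch.lt hl hch.eq
  · rw [DS_symm] at hlA hlB
    rw [DS_symm K L α β, DS_symm K L γ δ,
      slice_left h.symm hch.symm hl hA.symm h1 h2 hlA,
      slice_right h.symm hch.symm hl hB.symm h3 h4 hlB]
    exact one_dim hch.symm.lt hl hch.symm.eq

end Pool.Agent.XA
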