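import Pool.Agent.XA.B5
import Pool.Agent.XA.A1

set_option autoImplicit false
open MeasureTheory Set

namespace Pool.Agent.XA

/-- one half of the estimate: `w` is above the support line of `L` in the direction `ψ` -/
theorem d1_half {K L QK QL : Set (ℝ × ℝ)} (hL : IsBody L) {ρ d ε η θ ψ φ : ℝ}
    (hd : ∀ x ∈ K ∪ L, ∀ y ∈ K ∪ L, ∀ ψ, lv ψ (x - y) ≤ d)
    (hQKs : QK ⊆ K) (hQLs : QL ⊆ L)
    (h1 : |φ - ψ| ≤ ε) (h2 : hs K φ = hs L φ) (h3 : ∀ y ∈ QK, lv φ y + ρ ≤ hs K φ)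
    (h4 : ∀ y ∈ QL, lv φ y + ρ ≤ hs L φ) (hθ : |θ - ψ| ≤ η) {w : ℝ × ℝ} (hw : w ∈ K)
    (hwψ : hs L ψ < lv ψ w) {y : ℝ × ℝ} (hy : y ∈ QK ∪ QL) :
    ρ - d * ε - d * η ≤ lv θ w - lv θ y := by
  have hyKL : y ∈ K ∪ L := by
    rcases hy with h | h
    · exact Or.inl (hQKs h)
    · exact Or.inr (hQLs h)
  have hd0 : 0 ≤ d := by
    have h := hd y hyKL y hyKL 0
    rw [sub_self] at h
    have h0 : lv 0 (0 : ℝ × ℝ) = 0 := by simp [lv]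
    rwa [h0] at h
  have hyφ : lv φ y + ρ ≤ hs L φ := by
    rcases hy with h | h
    · rw [← h2]
      exact h3 y h
    · exact h4 y h
  have hLne : L.Nonempty := hL.nonempty.mono interior_subset
  obtain ⟨x, hxL, hx⟩ := exists_lv_eq_hs hL.compact hLne φ
  have hxKL : x ∈ K ∪ L := Or.inr hxL
  have hA : ρ ≤ lv φ (x - y) := by
    rw [lv_sub]
    linarith
  have hB := lv_var (v := x - y) (hd x hxKL y hyKL) ψ φ
  have hB' : ρ - d * ε ≤ lv ψ (x - y) := by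
    have h5 : d * |ψ - φ| ≤ d * ε := by
      rw [abs_sub_comm]
      exact mul_le_mul_of_nonneg_left h1 hd0
    linarith
  have hC : lv ψ (x - y) ≤ lv ψ (w - y) := by
    rw [lv_sub, lv_sub]
    have h6 : lv ψ x ≤ hs L ψ := lv_le_hs hL.compact ψ hxL
    linarith
  have hD := lv_var (v := w - y) (hd w (Or.inl hw) y hyKL) θ ψ
  have h7 : d * |θ - ψ| ≤ d * η := mul_le_mul_of_nonneg_left hθ hd0
  rw [← lv_sub]
  linarith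

/-- **Pieces seen from near `θ` are above the hole.**  By symmetry (`DS_symm`; the hypotheses are
symmetric in `(K, QK)`, `(L, QL)`) let `w ∈ interior K` and `hs L ψ < lv ψ w` with `ψ ∈ Ioo α β`, so
`|θ - ψ| ≤ η`.  `hφ` gives `φ` with `|φ - ψ| ≤ ε`, `hs K φ = hs L φ` and depth `ρ` at `φ`.  Then
`lv φ y + ρ ≤ hs L φ = lv φ x` for some `x ∈ L` (`exists_lv_eq_hs`; for `y ∈ QK` use `hs K φ = hs L φ`).  So
`lv φ (x - y) ≥ ρ` (`lv_sub`), `lv_var` (with `v = x - y`, `hd`): `lv ψ (x - y) ≥ ρ - d ε` (`0 ≤ d` by `hd`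
with `x = y`).  `lv ψ (w - y) = lv ψ w - lv ψ y > hs L ψ - lv ψ y ≥ lv ψ (x - y) ≥ ρ - d ε` and `lv_var`
again (with `v = w - y`): `lv θ (w - y) ≥ ρ - d ε - d η`. -/
theorem allowed_est {K L QK QL : Set (ℝ × ℝ)} (hK : IsBody K) (hL : IsBody L) {ρ d ε η θ : ℝ}
    (hd : ∀ x ∈ K ∪ L, ∀ y ∈ K ∪ L, ∀ ψ, lv ψ (x - y) ≤ d)
    (hQKs : QK ⊆ K) (hQLs : QL ⊆ L)
    (hφ : ∀ ψ, ∃ φ, |φ - ψ| ≤ ε ∧ hs K φ = hs L φ ∧ (∀ y ∈ QK, lv φ y + ρ ≤ hs K φ) ∧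
      (∀ y ∈ QL, lv φ y + ρ ≤ hs L φ)) {α β : ℝ} (h1 : θ - η ≤ α)
    (h2 : β ≤ θ + η) {w : ℝ × ℝ} (hw : w ∈ DS K L α β) {y : ℝ × ℝ} (hy : y ∈ QK ∪ QL) :
    ρ - d * ε - d * η ≤ lv θ w - lv θ y := by
  rcases hw with ⟨hwK, ψ, hψ, hwψ⟩ | ⟨hwL, ψ, hψ, hwψ⟩
  · obtain ⟨φ, p1, p2, p3, p4⟩ := hφ ψ
    have hθ : |θ - ψ| ≤ η := by
      rw [abs_le]
      constructor <;> linarith [hψ.1, hψ.2]
    exact d1_half hL hd hQKs hQLs p1 p2 p3 p4 hθ (interior_subset hwK) hwψ hy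
  · obtain ⟨φ, p1, p2, p3, p4⟩ := hφ ψ
    have hθ : |θ - ψ| ≤ η := by
      rw [abs_le]
      constructor <;> linarith [hψ.1, hψ.2]
    have hd' : ∀ x ∈ L ∪ K, ∀ y ∈ L ∪ K, ∀ ψ, lv ψ (x - y) ≤ d := by
      rw [union_comm]
      exact hd
    rw [union_comm] at hy
    exact d1_half hK hd' hQLs hQKs p1 p2.symm p4 p3 hθ (interior_subset hwL) hwψ hy

end Pool.Agent.XA
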