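import Pool.Agent.XA.F1

set_option autoImplicit false
open MeasureTheory Set

namespace Pool.Agent.XA

/-- the homeomorphism `(c, t) ↦ pt θ c t` -/
noncomputable def f3_homeo (θ : ℝ) : (ℝ × ℝ) ≃ₜ (ℝ × ℝ) where
  toFun p := pt θ p.1 p.2
  invFun w := (lv θ w, tg θ w)
  left_inv p := by
    ext
    · exact lv_pt θ p.1 p.2
    · exact tg_pt θ p.1 p.2
  right_inv w := pt_lv_tg θ w
  continuous_toFun := continuous_pt θ
  continuous_invFun := (continuous_lv_right θ).prodMk (continuous_tg_right θ)

theorem f3_emb (θ : ℝ) : MeasurableEmbedding (fun p : ℝ × ℝ => pt θ p.1 p.2) :=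
  (f3_homeo θ).measurableEmbedding

/-- For a bounded measurable `D` and a continuous function `g` on the plane: the function
`(c, t) ↦ indicator D g (pt θ c t)` is integrable on `ℝ × ℝ` (bounded, support in a bounded set), so by
`integral_prod` and `measurePreserving_pt` (`MeasurePreserving.integral_comp` needs a measurable
embedding; `p ↦ pt θ p.1 p.2` is a homeomorphism with inverse `w ↦ (lv θ w, tg θ w)`, or use
`integral_map`): `∫_D g = ∫ c, ∫ t in {t | pt θ c t ∈ D}, g (pt θ c t)`, and the inner integral is an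
integrable function of `c` (`Integrable.integral_prod_left`). -/
theorem integral_slices (θ : ℝ) {D : Set (ℝ × ℝ)} (hD : MeasurableSet D)
    (hb : Bornology.IsBounded D) {g : ℝ × ℝ → ℝ} (hg : Continuous g) :
    Integrable (fun c => ∫ t in {t : ℝ | pt θ c t ∈ D}, g (pt θ c t)) ∧
      ∫ w in D, g w = ∫ c, ∫ t in {t : ℝ | pt θ c t ∈ D}, g (pt θ c t) := by
  have hi0 : IntegrableOn g D volume :=
    (hg.continuousOn.integrableOn_compact hb.isCompact_closure).mono_set subset_closure
  have hi1 : Integrable (D.indicator g) volume := (integrable_indicator_iff hD).2 hi0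
  have hi2 : Integrable (fun p : ℝ × ℝ => D.indicator g (pt θ p.1 p.2)) (volume.prod volume) :=
    ((measurePreserving_pt θ).integrable_comp_emb (f3_emb θ)).2 hi1
  have hin : ∀ c : ℝ, ∫ t, D.indicator g (pt θ c t) =
      ∫ t in {t : ℝ | pt θ c t ∈ D}, g (pt θ c t) := by
    intro c
    have hm : MeasurableSet {t : ℝ | pt θ c t ∈ D} := (continuous_pt_right θ c).measurable hD
    rw [← integral_indicator hm]
    rfl
  have h1 := hi2.integral_prod_left
  have h2 := integral_prod (fun p : ℝ × ℝ => D.indicator g (pt θ p.1 p.2)) hi2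
  simp only [hin] at h1 h2
  refine ⟨h1, ?_⟩
  rw [← integral_indicator hD, ← h2]
  exact ((measurePreserving_pt θ).integral_comp (f3_emb θ) (D.indicator g)).symm

end Pool.Agent.XA
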