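import Pool.Agent.XA.F2
import Pool.Agent.XA.F3
import Pool.Agent.XA.A6

set_option autoImplicit false
open MeasureTheory Set

namespace Pool.Agent.XA

/-- slices outside of the levels are empty -/
theorem f4_empty {D : Set (ℝ × ℝ)} {θ c : ℝ} (hc : c ∉ lv θ '' D) : {t : ℝ | pt θ c t ∈ D} = ∅ := by
  refine Set.eq_empty_of_forall_notMem fun t ht => hc ?_
  exact ⟨pt θ c t, ht, lv_pt θ c t⟩

/-- a continuous function is integrable on a bounded set -/
theorem f4_integrableOn {D : Set (ℝ × ℝ)} (hb : Bornology.IsBounded D) {g : ℝ × ℝ → ℝ}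
    (hg : Continuous g) : IntegrableOn g D :=
  (hg.continuousOn.integrableOn_compact hb.isCompact_closure).mono_set subset_closure

/-- the level of the first moments -/
theorem f4_lv_mom {D : Set (ℝ × ℝ)} (hb : Bornology.IsBounded D) (θ : ℝ) :
    lv θ (mom D) = ∫ w in D, lv θ w := by
  have h1 : IntegrableOn (fun w : ℝ × ℝ => w.1) D := f4_integrableOn hb continuous_fst
  have h2 : IntegrableOn (fun w : ℝ × ℝ => w.2) D := f4_integrableOn hb continuous_snd
  change (∫ w in D, w.1) * Real.cos θ + (∫ w in D, w.2) * Real.sin θ =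
    ∫ w in D, (w.1 * Real.cos θ + w.2 * Real.sin θ)
  rw [integral_add (h1.mul_const _) (h2.mul_const _), integral_mul_const, integral_mul_const]

/-- the coordinate of the first moments -/
theorem f4_tg_mom {D : Set (ℝ × ℝ)} (hb : Bornology.IsBounded D) (θ : ℝ) :
    tg θ (mom D) = ∫ w in D, tg θ w := by
  have h1 : IntegrableOn (fun w : ℝ × ℝ => w.1) D := f4_integrableOn hb continuous_fst
  have h2 : IntegrableOn (fun w : ℝ × ℝ => w.2) D := f4_integrableOn hb continuous_snd
  change (∫ w in D, w.2) * Real.cos θ - (∫ w in D, w.1) * Real.sin θ =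
    ∫ w in D, (w.2 * Real.cos θ - w.1 * Real.sin θ)
  rw [integral_sub (h2.mul_const _) (h1.mul_const _), integral_mul_const, integral_mul_const]

/-- **Comparison of two open sets with exchanged slices.**
Volumes: `volume_slices` and equality of the slice volumes for every `c` (for `c` in the common
level set by `hvol`, otherwise both slices are empty).
Moments: `integral_slices` for `g = lv θ`: the inner integral is `c * (volume slice).toReal`
(`lv_pt`, `setIntegral_const`), equal for `D` and `D'`; so `∫_D lv θ w = ∫_D' lv θ w`.  For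
`g = tg θ`: the inner integral is `∫ t in slice, t` (`tg_pt`), so `∫_D' tg θ w - ∫_D tg θ w =
∫ c, (m' c - m c)` with `m' c - m c > 0` on the common level set `I` and `= 0` outside; `I` is open
(`isOpen_levels`) and nonempty, so it has positive measure and the integral `h` is `> 0`
(`integral_pos_iff_support_of_nonneg`).  Finally `lv θ (mom D) = ∫_D lv θ w`, `tg θ (mom D) = ∫_D tg θ w`
(linearity of the integral; `fst`, `snd` are integrable on a bounded set), so the vector
`v = mom D' - mom D` has `lv θ v = 0`, `tg θ v = h`, i.e. `v = pt θ 0 h` (`pt_lv_tg`). -/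
theorem compare {D D' : Set (ℝ × ℝ)} (hD : IsOpen D) (hD' : IsOpen D')
    (hb : Bornology.IsBounded D) (hb' : Bornology.IsBounded D') (hne : D.Nonempty) {θ : ℝ}
    (hlev : lv θ '' D = lv θ '' D')
    (hvol : ∀ c ∈ lv θ '' D, volume {t : ℝ | pt θ c t ∈ D} = volume {t : ℝ | pt θ c t ∈ D'})
    (hmom : ∀ c ∈ lv θ '' D, ∫ t in {t : ℝ | pt θ c t ∈ D}, t <
      ∫ t in {t : ℝ | pt θ c t ∈ D'}, t) :
    volume D = volume D' ∧ ∃ h : ℝ, 0 < h ∧ mom D' - mom D = pt θ 0 h := by
  have hsl : ∀ c ∉ lv θ '' D, {t : ℝ | pt θ c t ∈ D} = ∅ ∧ {t : ℝ | pt θ c t ∈ D'} = ∅ := by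
    intro c hc
    exact ⟨f4_empty hc, f4_empty (hlev ▸ hc)⟩
  have hv : ∀ c, volume {t : ℝ | pt θ c t ∈ D} = volume {t : ℝ | pt θ c t ∈ D'} := by
    intro c
    by_cases hc : c ∈ lv θ '' D
    · exact hvol c hc
    · rw [(hsl c hc).1, (hsl c hc).2]
  refine ⟨?_, ?_⟩
  · rw [volume_slices θ hD.measurableSet, volume_slices θ hD'.measurableSet]
    exact lintegral_congr hv
  · -- the levels
    have hl : ∫ w in D, lv θ w = ∫ w in D', lv θ w := by
      rw [(integral_slices θ hD.measurableSet hb (continuous_lv_right θ)).2,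
        (integral_slices θ hD'.measurableSet hb' (continuous_lv_right θ)).2]
      refine integral_congr_ae (Filter.Eventually.of_forall fun c => ?_)
      simp only [lv_pt]
      rw [setIntegral_const, setIntegral_const, measureReal_def, measureReal_def, hv c]
    -- the coordinates
    obtain ⟨i1, e1⟩ := integral_slices θ hD.measurableSet hb (continuous_tg_right θ)
    obtain ⟨i2, e2⟩ := integral_slices θ hD'.measurableSet hb' (continuous_tg_right θ)
    simp only [tg_pt] at i1 e1 i2 e2
    have ht : 0 < (∫ w in D', tg θ w) - ∫ w in D, tg θ w := by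
      rw [e1, e2, ← integral_sub i2 i1]
      refine (integral_pos_iff_support_of_nonneg ?_ (i2.sub i1)).2 ?_
      swap
      · have hopen : IsOpen (lv θ '' D) := isOpen_levels hD θ
        have hpos : 0 < volume (lv θ '' D) := hopen.measure_pos volume (hne.image _)
        refine lt_of_lt_of_le hpos (measure_mono ?_)
        intro c hc
        exact (sub_pos.2 (hmom c hc)).ne'
      · intro c
        by_cases hc : c ∈ lv θ '' D
        · exact (sub_pos.2 (hmom c hc)).le
        · change 0 ≤ (∫ t in {t : ℝ | pt θ c t ∈ D'}, t) - ∫ t in {t : ℝ | pt θ c t ∈ D}, t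
          rw [(hsl c hc).1, (hsl c hc).2, sub_self]
    refine ⟨(∫ w in D', tg θ w) - ∫ w in D, tg θ w, ht, ?_⟩
    rw [← pt_lv_tg θ (mom D' - mom D), lv_sub, tg_sub, f4_lv_mom hb, f4_lv_mom hb', f4_tg_mom hb,
      f4_tg_mom hb', hl, sub_self]

end Pool.Agent.XA
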