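import Pool.Agent.XA.C9
import Pool.Agent.XA.F4
import Pool.Agent.XA.A7

set_option autoImplicit false
open MeasureTheory Set

namespace Pool.Agent.XA

/-- **Mirror arcs have the same area, and centroids on an S-line.**  `compare` for
`D = DS K L α β`, `D' = DS K L γ δ` (`DS_isOpen`, `DS_bounded`, `DS_nonempty`) with `exch` at every level
`c` of the common level set (`c1 < c` by `hc`). -/
theorem mirror_area {K L : Set (ℝ × ℝ)} {θ c1 : ℝ} (h : Dir K L θ c1) {α β γ δ : ℝ}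
    (hA : IsArc K L α β) (h1 : θ - Real.pi ≤ α) (h2 : β ≤ θ)
    (hB : IsArc K L γ δ) (h3 : θ ≤ γ) (h4 : δ ≤ θ + Real.pi)
    (hc : ∀ w ∈ DS K L α β, c1 < lv θ w)
    (hlev : lv θ '' DS K L γ δ = lv θ '' DS K L α β) :
    volume (DS K L α β) = volume (DS K L γ δ) ∧
      ∃ x : ℝ, 0 < x ∧ mom (DS K L γ δ) - mom (DS K L α β) = pt θ 0 x := by
  have hne : (DS K L α β).Nonempty := DS_nonempty h.bK h.bL hA
  have hex : ∀ c ∈ lv θ '' DS K L α β,
      volume {t : ℝ | pt θ c t ∈ DS K L α β} = volume {t : ℝ | pt θ c t ∈ DS K L γ δ} ∧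
      ∫ t in {t : ℝ | pt θ c t ∈ DS K L α β}, t <
        ∫ t in {t : ℝ | pt θ c t ∈ DS K L γ δ}, t := by
    intro c hcA
    have hcB : c ∈ lv θ '' DS K L γ δ := by
      rw [hlev]
      exact hcA
    have hc1 : c1 ≤ c := by
      obtain ⟨w, hw, rfl⟩ := hcA
      exact (hc w hw).le
    exact exch h hc1 hA h1 h2 hB h3 h4 hcA hcB
  exact compare (DS_isOpen K L α β) (DS_isOpen K L γ δ) (DS_bounded h.bK.compact h.bL.compact α β)
    (DS_bounded h.bK.compact h.bL.compact γ δ) hne hlev.symm (fun c hcA => (hex c hcA).1) fun c hcA => (hex c hcA).2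

end Pool.Agent.XA
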