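import Pool.Agent.XA.M2
import Pool.Agent.XA.M3

set_option autoImplicit false
open MeasureTheory Set

namespace Pool.Agent.XA

/-- The chords at all levels above some `c1` have equal lengths, and the piece seen from `(α, β)` is
above the level `c1`. -/
def Good (K L : Set (ℝ × ℝ)) (θ α β : ℝ) : Prop :=
  ∃ c1, Dir K L θ c1 ∧ ∀ w ∈ DS K L α β, c1 < lv θ w

/-- `(α, β)` is a left arc, `(γ, δ)` a right arc, good and with the same levels -/
structure Mir (K L : Set (ℝ × ℝ)) (θ α β γ δ : ℝ) : Prop where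
  arcL : IsArc K L α β
  l1 : θ - Real.pi ≤ α
  l2 : β ≤ θ
  arcR : IsArc K L γ δ
  r1 : θ ≤ γ
  r2 : δ ≤ θ + Real.pi
  lev : lv θ '' DS K L γ δ = lv θ '' DS K L α β
  good : Good K L θ α β

end Pool.Agent.XA
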