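import Pool.Agent.XA.D1
import Pool.Agent.XA.E1
import Pool.Agent.XA.N0

set_option autoImplicit false
open MeasureTheory Set

namespace Pool.Agent.XA

/-- **Arcs near an S-angle are good.**  Let `κ = ρ - d ε - d η > 0` and `c1 = sInf (lv θ '' DS) - κ / 2`; the
set of levels is nonempty (`DS_nonempty`) and bounded below (`level` bounds: `DS_subset` and
compactness, or `neg_hs_le_lv` for `K` and `L`).  `c1 < lv θ w` for `w ∈ DS`.  For `y ∈ QK ∪ QL` and `w ∈ DS`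
`lv θ y ≤ lv θ w - κ` (`allowed_est`), so `lv θ y ≤ sInf - κ < c1`.  So `hX` applies to all `c ≥ c1` and
`dir_of_xray` gives `Dir K L θ c1`. -/
theorem good_of_near {K L QK QL : Set (ℝ × ℝ)} (hK : IsBody K) (hL : IsBody L) {ρ d ε η θ : ℝ}
    (hd : ∀ x ∈ K ∪ L, ∀ y ∈ K ∪ L, ∀ ψ, lv ψ (x - y) ≤ d)
    (hQKs : QK ⊆ K) (hQLs : QL ⊆ L)
    (hφ : ∀ ψ, ∃ φ, |φ - ψ| ≤ ε ∧ hs K φ = hs L φ ∧ (∀ y ∈ QK, lv φ y + ρ ≤ hs K φ) ∧
      (∀ y ∈ QL, lv φ y + ρ ≤ hs L φ)) (hρ : d * ε + d * η < ρ)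
    (top : hs K θ = hs L θ) (bot : hs K (θ + Real.pi) = hs L (θ + Real.pi))
    (hX : ∀ c, (∀ y ∈ QK ∪ QL, lv θ y < c) → volume {t : ℝ | pt θ c t ∈ interior K} =
      volume {t : ℝ | pt θ c t ∈ interior L})
    {α β : ℝ} (hA : IsArc K L α β) (h1 : θ - η ≤ α) (h2 : β ≤ θ + η) : Good K L θ α β := by
  obtain ⟨κ, hκ⟩ : ∃ κ, κ = ρ - d * ε - d * η := ⟨_, rfl⟩
  have hκ0 : 0 < κ := by rw [hκ]; linarith
  have hne : (lv θ '' DS K L α β).Nonempty := (DS_nonempty hK hL hA).image _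
  have hbdd : BddBelow (lv θ '' DS K L α β) := by
    refine ⟨min (-hs K (θ + Real.pi)) (-hs L (θ + Real.pi)), ?_⟩
    rintro c ⟨w, hw, rfl⟩
    rcases DS_subset K L α β hw with h | h
    · exact le_trans (min_le_left _ _) (neg_hs_le_lv hK.compact θ h)
    · exact le_trans (min_le_right _ _) (neg_hs_le_lv hL.compact θ h)
  obtain ⟨m, hm⟩ : ∃ m, m = sInf (lv θ '' DS K L α β) := ⟨_, rfl⟩
  have g1 : ∀ w ∈ DS K L α β, m ≤ lv θ w := by
    intro w hw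
    rw [hm]
    exact csInf_le hbdd ⟨w, hw, rfl⟩
  have g2 : ∀ y ∈ QK ∪ QL, lv θ y + κ ≤ m := by
    intro y hy
    rw [hm]
    refine le_csInf hne ?_
    rintro c ⟨w, hw, rfl⟩
    have := allowed_est hK hL hd hQKs hQLs hφ h1 h2 hw hy
    linarith
  refine ⟨m - κ / 2, ?_, fun w hw => ?_⟩
  · refine dir_of_xray hK hL top bot fun c hc => hX c fun y hy => ?_
    have := g2 y hy
    linarith
  · have := g1 w hw
    linarith

end Pool.Agent.XA
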