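import Pool.Agent.XA.Defs

set_option autoImplicit false
open MeasureTheory Set

namespace Pool.Agent.XA

/-- the rotation as a linear map -/
noncomputable def f1_rot (θ : ℝ) : ℝ × ℝ →ₗ[ℝ] ℝ × ℝ :=
  Matrix.toLin (Module.Basis.finTwoProd ℝ) (Module.Basis.finTwoProd ℝ)
    !![Real.cos θ, -Real.sin θ; Real.sin θ, Real.cos θ]

theorem f1_rot_apply (θ : ℝ) (p : ℝ × ℝ) : f1_rot θ p = pt θ p.1 p.2 := by
  simp only [f1_rot, Matrix.toLin_finTwoProd_apply, pt]
  ext
  · simp only
    ring
  · simp only
    ring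

theorem f1_det (θ : ℝ) : LinearMap.det (f1_rot θ) = 1 := by
  rw [f1_rot, LinearMap.det_toLin, Matrix.det_fin_two_of]
  have h := Real.sin_sq_add_cos_sq θ
  linear_combination h

/-- The rotation `(c, t) ↦ pt θ c t` of the plane preserves the Lebesgue measure: it is linear with
determinant `cos² θ + sin² θ = 1`.  (Mathlib: `MeasureTheory.Measure.addHaar_preimage_linearMap`,
`Measure.map_linearMap_addHaar_eq_smul_addHaar` with `LinearMap.det`; the determinant can be computed
with `LinearMap.det_toLin` for the basis `Basis.finTwoProd ℝ` and `Matrix.det_fin_two_of`.) -/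
theorem measurePreserving_pt (θ : ℝ) :
    MeasurePreserving (fun p : ℝ × ℝ => pt θ p.1 p.2) volume volume := by
  have h1 : (fun p : ℝ × ℝ => pt θ p.1 p.2) = f1_rot θ := by
    funext p
    rw [f1_rot_apply]
  rw [h1]
  refine ⟨(f1_rot θ).continuous_of_finiteDimensional.measurable, ?_⟩
  have hd := f1_det θ
  rw [Measure.map_linearMap_addHaar_eq_smul_addHaar volume (by rw [hd]; exact one_ne_zero), hd]
  simp

end Pool.Agent.XA
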