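import Pool.Agent.XA.A4
import Pool.Agent.XA.A6
import Pool.Agent.XA.A7

set_option autoImplicit false
open MeasureTheory Set

namespace Pool.Agent.XA

/-- the left end points of the arcs whose piece has area exactly `a` -/
def Cls (K L : Set (ℝ × ℝ)) (a : ENNReal) : Set ℝ :=
  {α | ∃ β, IsArc K L α β ∧ volume (DS K L α β) = a}

/-- `IsArc.shift`, `DS_shift` -/
theorem Cls_shift {K L : Set (ℝ × ℝ)} {a : ENNReal} {α : ℝ} (h : α ∈ Cls K L a) (k : ℤ) :
    α + k * (2 * Real.pi) ∈ Cls K L a := by
  obtain ⟨β, h1, h2⟩ := h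
  exact ⟨β + k * (2 * Real.pi), h1.shift k, by rw [DS_shift]; exact h2⟩

theorem Cls_finite_aux {K L : Set (ℝ × ℝ)} (hK : IsBody K) (hL : IsBody L) {a : ENNReal}
    (ha : 0 < a) (x : ℝ) : (Cls K L a ∩ Ico x (x + 2 * Real.pi)).Finite := by
  classical
  have hb : ∀ i : (Cls K L a ∩ Ico x (x + 2 * Real.pi) : Set ℝ),
      ∃ β, IsArc K L (i : ℝ) β ∧ volume (DS K L (i : ℝ) β) = a := fun i => i.2.1
  choose β hβ1 hβ2 using hb
  have hfin : volume (⋃ i, DS K L ((i : (Cls K L a ∩ Ico x (x + 2 * Real.pi) : Set ℝ)) : ℝ) (β i)) ≠ ⊤ := by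
    refine ne_of_lt (lt_of_le_of_lt (measure_mono (t := K ∪ L) ?_)
      (hK.compact.union hL.compact).measure_lt_top)
    exact iUnion_subset fun i => DS_subset K L _ _
  have h := Measure.finite_const_le_meas_of_disjoint_iUnion (volume : Measure (ℝ × ℝ)) ha
    (As := fun i : (Cls K L a ∩ Ico x (x + 2 * Real.pi) : Set ℝ) => DS K L (i : ℝ) (β i))
    (fun i => (DS_isOpen K L _ _).measurableSet) ?_ hfin
  · have h2 : {i : (Cls K L a ∩ Ico x (x + 2 * Real.pi) : Set ℝ) |
        a ≤ volume (DS K L (i : ℝ) (β i))} = univ := by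
      ext i
      simp only [mem_setOf_eq, mem_univ, iff_true]
      exact (hβ2 i).ge
    rw [h2] at h
    haveI : Finite (Cls K L a ∩ Ico x (x + 2 * Real.pi) : Set ℝ) := Set.finite_univ_iff.1 h
    exact Set.toFinite _
  · intro i j hij
    refine Set.disjoint_left.2 ?_
    intro w hw hw'
    obtain ⟨k, hk, -⟩ := DS_inter hK hL (hβ1 i) (hβ1 j) hw hw'
    apply hij
    have hi := i.2.2
    have hj := j.2.2
    have hpi := Real.pi_pos
    have hk1 : (k : ℝ) < 1 := by
      by_contra hcon
      push Not at hcon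
      have : (2 * Real.pi) * 1 ≤ (2 * Real.pi) * k := by
        apply mul_le_mul_of_nonneg_left hcon; positivity
      have h1 := hj.2
      have h2 := hi.1
      nlinarith
    have hk2 : (-1 : ℝ) < (k : ℝ) := by
      by_contra hcon
      push Not at hcon
      have : (2 * Real.pi) * k ≤ (2 * Real.pi) * (-1) := by
        apply mul_le_mul_of_nonneg_left hcon; positivity
      have h1 := hi.2
      have h2 := hj.1
      nlinarith
    have hk0 : k = 0 := by
      have h1 : k < 1 := by exact_mod_cast hk1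
      have h2 : -1 < k := by exact_mod_cast hk2
      omega
    rw [hk0] at hk
    apply Subtype.ext
    simpa using hk.symm

/-- **Local finiteness.**  For `α, α' ∈ Cls K L a ∩ Ico x (x + 2 π)`, `α ≠ α'`, the pieces are disjoint:
a common point gives `α' = α + k 2π` (`DS_inter`), so `|k| < 1`, `k = 0`.  They are measurable (open),
of measure `a > 0`, and contained in `K ∪ L`, which has finite measure
(`MeasureTheory.Measure.finite_const_le_meas_of_disjoint_iUnion`), so there are finitely many.  An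
interval `Icc x y` is covered by finitely many intervals of length `2 π` (or: shift by `Cls_shift`). -/
theorem Cls_finite {K L : Set (ℝ × ℝ)} (hK : IsBody K) (hL : IsBody L) {a : ENNReal}
    (ha : 0 < a) (x y : ℝ) : (Cls K L a ∩ Icc x y).Finite := by
  have hpi := Real.pi_pos
  have hsub : Cls K L a ∩ Icc x y ⊆ ⋃ k ∈ Finset.range (⌊(y - x) / (2 * Real.pi)⌋₊ + 1),
      (Cls K L a ∩ Ico (x + k * (2 * Real.pi)) (x + k * (2 * Real.pi) + 2 * Real.pi)) := by
    intro z hz
    have hz1 := hz.2.1
    have hz2 := hz.2.2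
    have h0 : 0 ≤ (z - x) / (2 * Real.pi) := div_nonneg (by linarith) (by positivity)
    have h1 := Nat.floor_le h0
    have h2 := Nat.lt_floor_add_one ((z - x) / (2 * Real.pi))
    rw [le_div_iff₀ (by positivity)] at h1
    rw [div_lt_iff₀ (by positivity)] at h2
    refine mem_iUnion₂.2 ⟨⌊(z - x) / (2 * Real.pi)⌋₊, ?_, hz.1, ?_, ?_⟩
    · rw [Finset.mem_range, Nat.lt_succ_iff]
      apply Nat.floor_mono
      apply div_le_div_of_nonneg_right _ (by positivity)
      linarith
    · linarith
    · linarith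
  refine Set.Finite.subset ?_ hsub
  exact Set.Finite.biUnion (Finset.finite_toSet _) fun k _ => Cls_finite_aux hK hL ha _

end Pool.Agent.XA
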