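import Pool.Agent.XA.K0

set_option autoImplicit false
open MeasureTheory Set

namespace Pool.Agent.XA

theorem k1_emono {φ f e : ℤ → ℝ} {AL : ℤ → ℤ → Prop} {Mi : ℤ → ℤ → ℤ → Prop}
    {z : ℤ → ℝ × ℝ} {ε η : ℝ} (h : Comb φ f e AL Mi z ε η) : StrictMono e :=
  strictMono_int_of_lt_succ (fun l => lt_of_le_of_lt (h.ef l) (h.fe (l + 1)))

theorem k1_left {φ f e : ℤ → ℝ} {AL : ℤ → ℤ → Prop} {Mi : ℤ → ℤ → ℤ → Prop}
    {z : ℤ → ℝ × ℝ} {ε η : ℝ} (h : Comb φ f e AL Mi z ε η) {i g l r : ℤ}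
    (hg' : φ i ≤ f (g + 1)) (hM : Mi i l r) : ∃ y : ℕ, l = g - y := by
  have hl : l ≤ g := by
    by_contra hcon
    have h1 : g + 1 ≤ l := by omega
    have h2 := h.fmono.monotone h1
    have h3 := (h.side i l r hM).1
    have h4 := h.fe l
    linarith
  exact ⟨(g - l).toNat, by omega⟩

theorem k1_right {φ f e : ℤ → ℝ} {AL : ℤ → ℤ → Prop} {Mi : ℤ → ℤ → ℤ → Prop}
    {z : ℤ → ℝ × ℝ} {ε η : ℝ} (h : Comb φ f e AL Mi z ε η) {i g l r : ℤ}
    (hg : e g ≤ φ i) (hM : Mi i l r) : ∃ y : ℕ, r = g + 1 + y := by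
  have hl : g + 1 ≤ r := by
    by_contra hcon
    have h1 : r ≤ g := by omega
    have h2 := h.fmono.monotone h1
    have h3 := (h.side i l r hM).2
    have h4 := h.fe g
    linarith
  exact ⟨(r - (g + 1)).toNat, by omega⟩

theorem k1_uniqR {φ f e : ℤ → ℝ} {AL : ℤ → ℤ → Prop} {Mi : ℤ → ℤ → ℤ → Prop}
    {z : ℤ → ℝ × ℝ} {ε η : ℝ} (h : Comb φ f e AL Mi z ε η) {i l r r' : ℤ}
    (h1 : Mi i l r) (h2 : Mi i l r') : r = r' := by
  have a1 := h.ord i l r l r' h1 h2
  have a2 := h.ord i l r' l r h2 h1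
  have a3 : ¬ r' < r := fun hh => lt_irrefl _ (a1.mpr hh)
  have a4 : ¬ r < r' := fun hh => lt_irrefl _ (a2.mpr hh)
  omega

theorem k1_uniqL {φ f e : ℤ → ℝ} {AL : ℤ → ℤ → Prop} {Mi : ℤ → ℤ → ℤ → Prop}
    {z : ℤ → ℝ × ℝ} {ε η : ℝ} (h : Comb φ f e AL Mi z ε η) {i l l' r : ℤ}
    (h1 : Mi i l r) (h2 : Mi i l' r) : l = l' := by
  have a1 := h.ord i l r l' r h1 h2
  have a2 := h.ord i l' r l r h2 h1
  have a3 : ¬ l < l' := fun hh => lt_irrefl _ (a1.mp hh)
  have a4 : ¬ l' < l := fun hh => lt_irrefl _ (a2.mp hh)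
  omega

/-- **The mirror is the reflection of the chain in the gap of `φ i`.**
First, `e` is increasing (`e l ≤ f (l + 1) < e (l + 1)`), so `e (g - x) ≤ φ i ≤ f (g + 1 + x)` for all
natural `x`.  Strong induction on `x`.
*Case `AL i (g - x)`.*  `mirL`: `Mi i (g - x) r`; `φ i ≤ f r` (`side`) forces `r ≥ g + 1` (if `r ≤ g` then
`f r ≤ f g < e g ≤ φ i`), so `r = g + 1 + y` with a natural number `y`.
If `y < x`: `AL i (g - y)` by `clL`, so by induction `Mi i (g - y) (g + 1 + y)`, and `ord` for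
`Mi i (g - x) (g + 1 + y)`, `Mi i (g - y) (g + 1 + y)` gives `g + 1 + y < g + 1 + y`, absurd.
If `x < y`: `AL i (g + 1 + y)` by `good`, `AL i (g + 1 + x)` by `clR`, so by `mirR` `Mi i l' (g + 1 + x)`
with `l' = g - z'`, `z'` natural (`side`: `l' ≤ g`, because `l' ≥ g + 1` would give `φ i ≤ f (g + 1) ≤ f l' <
e l' ≤ φ i`).  `ord` for `Mi i (g - x) (g + 1 + y)` and `Mi i (g - z') (g + 1 + x)`: since
`g + 1 + x < g + 1 + y` we get `g - x < g - z'`, i.e. `z' < x`.  By `good`, `AL i (g - z')`, so by induction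
`Mi i (g - z') (g + 1 + z')`; `ord` for it and `Mi i (g - z') (g + 1 + x)` (both ways) gives
`g + 1 + z' = g + 1 + x`, contradiction.  So `y = x`.
*Case `AL i (g + 1 + x)`*: mirror image of the same argument. -/
theorem comb_reflect {φ f e : ℤ → ℝ} {AL : ℤ → ℤ → Prop} {Mi : ℤ → ℤ → ℤ → Prop}
    {z : ℤ → ℝ × ℝ} {ε η : ℝ} (h : Comb φ f e AL Mi z ε η) {i g : ℤ} (hg : e g ≤ φ i)
    (hg' : φ i ≤ f (g + 1)) (x : ℕ) (hx : AL i (g - x) ∨ AL i (g + 1 + x)) :
    Mi i (g - x) (g + 1 + x) := by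
  have hem := k1_emono h
  have hL : ∀ y : ℕ, e (g - y) ≤ φ i := fun y =>
    le_trans (hem.monotone (by omega)) hg
  have hR : ∀ y : ℕ, φ i ≤ f (g + 1 + y) := fun y =>
    le_trans hg' (h.fmono.monotone (by omega))
  induction x using Nat.strong_induction_on with
  | _ x ih =>
    have claim1 : AL i (g - x) → Mi i (g - x) (g + 1 + x) := by
      intro hA
      obtain ⟨r, hr⟩ := h.mirL i _ hA (hL x)
      obtain ⟨y, rfl⟩ := k1_right h hg hr
      rcases lt_trichotomy y x with hyx | hyx | hyx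
      · exfalso
        have hAy : AL i (g - y) := h.clL i (g - x) (g - y) hA (by omega) (hL y)
        have hM := ih y hyx (Or.inl hAy)
        have := k1_uniqL h hr hM
        omega
      · rw [hyx] at hr
        exact hr
      · exfalso
        have hAy : AL i (g + 1 + y) := (h.good i _ _ hr).2
        have hAx : AL i (g + 1 + x) := h.clR i (g + 1 + y) (g + 1 + x) hAy (by omega) (hR x)
        obtain ⟨l', hl'⟩ := h.mirR i _ hAx (hR x)
        obtain ⟨w, rfl⟩ := k1_left h hg' hl'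
        have hord := (h.ord i _ _ _ _ hr hl').mpr (by omega)
        have hw : w < x := by omega
        have hM := ih w hw (Or.inl (h.good i _ _ hl').1)
        have := k1_uniqR h hM hl'
        omega
    rcases hx with hx | hx
    · exact claim1 hx
    · obtain ⟨l, hl⟩ := h.mirR i _ hx (hR x)
      obtain ⟨y, rfl⟩ := k1_left h hg' hl
      rcases lt_trichotomy y x with hyx | hyx | hyx
      · exfalso
        have hM := ih y hyx (Or.inl (h.good i _ _ hl).1)
        have := k1_uniqR h hM hl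
        omega
      · rw [hyx] at hl
        exact hl
      · exact claim1 (h.clL i (g - y) (g - x) (h.good i _ _ hl).1 (by omega) (hL x))

end Pool.Agent.XA
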