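import Pool.Agent.XA.K0

set_option autoImplicit false
open MeasureTheory Set

namespace Pool.Agent.XA

/-- **Gap function.**  `g i` := the largest `l` with `f l < φ i` (exists: `fbelow`; bounded above because
`f` is increasing and `fabove`; e.g. `Int.exists_greatest_of_bdd`).  `e (g i) ≤ φ i` by `sep` (the
alternative `φ i ≤ f (g i)` is false), and `φ i ≤ f (g i + 1)` by maximality.  Monotone since `φ` is
increasing. -/
theorem comb_gap {φ f e : ℤ → ℝ} {AL : ℤ → ℤ → Prop} {Mi : ℤ → ℤ → ℤ → Prop}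
    {z : ℤ → ℝ × ℝ} {ε η : ℝ} (h : Comb φ f e AL Mi z ε η) :
    ∃ g : ℤ → ℤ, Monotone g ∧ ∀ i, e (g i) ≤ φ i ∧ φ i ≤ f (g i + 1) := by
  have hex : ∀ i, ∃ g : ℤ, f g < φ i ∧ ∀ l, f l < φ i → l ≤ g := by
    intro i
    apply Int.exists_greatest_of_bdd (P := fun l => f l < φ i)
    · obtain ⟨b, hb⟩ := h.fabove (φ i)
      refine ⟨b, fun l hl => ?_⟩
      have : f l < f b := lt_trans hl hb
      exact (h.fmono.lt_iff_lt.mp this).le
    · exact h.fbelow (φ i)
  choose g hg1 hg2 using hex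
  refine ⟨g, ?_, ?_⟩
  · intro i j hij
    exact hg2 j (g i) (lt_of_lt_of_le (hg1 i) (h.φmono.monotone hij))
  · intro i
    refine ⟨?_, ?_⟩
    · rcases h.sep i (g i) with h1 | h1
      · exact absurd (hg1 i) (not_lt.mpr h1)
      · exact h1
    · by_contra hc
      have := hg2 i (g i + 1) (not_le.mp hc)
      omega

/-- `z (l+1) - z l` cannot be a positive multiple of two different directions `u(φ i)`, `u(φ (i+1))`:
`pt θ 0 x = (- x sin θ, x cos θ)`; if `pt (φ i) 0 x = pt (φ (i+1)) 0 y` with `x, y > 0` then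
`0 = x y sin (φ (i+1) - φ i)`, but `0 < φ (i+1) - φ i ≤ ε ≤ η < π`. -/
theorem comb_nonpar {φ f e : ℤ → ℝ} {AL : ℤ → ℤ → Prop} {Mi : ℤ → ℤ → ℤ → Prop}
    {z : ℤ → ℝ × ℝ} {ε η : ℝ} (h : Comb φ f e AL Mi z ε η) {i l r : ℤ}
    (h1 : Mi i l r) (h2 : Mi (i + 1) l r) : False := by
  obtain ⟨x, hx, hx1⟩ := h.cent i l r h1
  obtain ⟨y, hy, hy1⟩ := h.cent (i + 1) l r h2
  rw [hx1] at hy1
  simp only [pt, Prod.mk.injEq] at hy1
  obtain ⟨e1, e2⟩ := hy1
  have hlt : φ i < φ (i + 1) := h.φmono (by omega)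
  have hgap := h.φgap i
  have hε : 0 < ε := by linarith
  have hsin : 0 < Real.sin (φ (i + 1) - φ i) := by
    apply Real.sin_pos_of_pos_of_lt_pi (by linarith)
    have := h.εη
    have := h.ηπ
    linarith
  rw [Real.sin_sub] at hsin
  have : x * (Real.sin (φ (i + 1)) * Real.cos (φ i) - Real.cos (φ (i + 1)) * Real.sin (φ i)) = 0 := by
    linear_combination Real.sin (φ (i + 1)) * e2 + Real.cos (φ (i + 1)) * e1
  have h3 := mul_pos hx hsin
  linarith

end Pool.Agent.XA
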