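import Pool.Agent.XA.K1
import Pool.Agent.XA.K2

set_option autoImplicit false
open MeasureTheory Set

namespace Pool.Agent.XA

/-- **There is an arc of the chain between any two neighbouring S-angles.**
Let `P k := g k < g (k + 1)`.
(1) `P k` holds for some `k`: otherwise (monotone) `g` is constant (`Int` induction), `= g₀`, and
`φ i ≤ f (g₀ + 1)` for all `i`, contradicting `φabove`.
(2) `P k → P (k + 1)`: let `l = g (k + 1)`.  `g k + 1 ≤ l`, so `φ k ≤ f (g k + 1) ≤ f l`, and
`e l ≤ φ (k + 1)`.  Suppose `g (k + 2) = g (k + 1) = l`.  `AL (k + 1) l` by `nearL`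
(`φ (k + 1) - η ≤ φ k ≤ f l`, using `φgap` and `ε ≤ η`, which follows from `2 ε ≤ η` and `ε > 0`); `comb_reflect`
with `x = 0`: `Mi (k + 1) l (l + 1)`.  Also `AL (k + 2) l` by `nearL` (`φ (k + 2) - η ≤ φ k` because
`2 ε ≤ η`), and `e l ≤ φ (k + 2) ≤ f (l + 1)`, so `Mi (k + 2) l (l + 1)`.  `comb_nonpar`.
(3) `P k → P (k - 1)`: let `r = g k + 1`.  `φ k ≤ f r`, and `r ≤ g (k + 1)`, so `e r ≤ φ (k + 1)`.  Suppose
`g (k - 1) = g k = r - 1`.  `AL k r` and `AL (k - 1) r` by `nearR` (`e r ≤ φ (k + 1) ≤ φ (k - 1) + 2 ε`), so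
`Mi k (r - 1) r` and `Mi (k - 1) (r - 1) r` by `comb_reflect` with `x = 0`; `comb_nonpar`.
(4) Hence `P k` for all `k` (`Int.induction_on'` or `Int.le_induction` and `Int.le_induction_down`), and a
function with `g k < g (k + 1)` for all `k` is strictly increasing (`strictMono_int_of_lt_succ`). -/
theorem comb_strict {φ f e : ℤ → ℝ} {AL : ℤ → ℤ → Prop} {Mi : ℤ → ℤ → ℤ → Prop}
    {z : ℤ → ℝ × ℝ} {ε η : ℝ} (h : Comb φ f e AL Mi z ε η) {g : ℤ → ℤ} (hm : Monotone g)
    (hg : ∀ i, e (g i) ≤ φ i ∧ φ i ≤ f (g i + 1)) : StrictMono g := by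
  have hε : 0 < ε := by
    have h1 := h.φmono (show (0 : ℤ) < 0 + 1 by omega)
    have h2 := h.φgap 0
    linarith
  have hεη := h.εη
  have hem := k1_emono h
  have hfm := h.fmono.monotone
  have gap2 : ∀ i, φ (i + 2) ≤ φ i + 2 * ε := by
    intro i
    have h1 := h.φgap i
    have h2 := h.φgap (i + 1)
    rw [show i + 1 + 1 = i + 2 by ring] at h2
    linarith
  -- reflection of the gap itself
  have hrefl : ∀ i, (AL i (g i) ∨ AL i (g i + 1)) → Mi i (g i) (g i + 1) := by
    intro i hi
    have := comb_reflect h (hg i).1 (hg i).2 0 (by simpa using hi)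
    simpa using this
  have up : ∀ k, g k < g (k + 1) → g (k + 1) < g (k + 1 + 1) := by
    intro k hk
    by_contra hcon
    have heq : g (k + 1 + 1) = g (k + 1) :=
      le_antisymm (not_lt.mp hcon) (hm (by omega))
    have h1 : φ k ≤ f (g (k + 1)) := le_trans (hg k).2 (hfm (by omega))
    have h2 : e (g (k + 1)) ≤ φ (k + 1) := (hg (k + 1)).1
    have hA1 : AL (k + 1) (g (k + 1)) := by
      apply h.nearL _ _ _ h2
      have := h.φgap k
      linarith
    have hM1 := hrefl (k + 1) (Or.inl hA1)
    have hA2 : AL (k + 1 + 1) (g (k + 1 + 1)) := by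
      apply h.nearL _ _ _ (hg (k + 1 + 1)).1
      rw [heq]
      have := gap2 k
      rw [show k + 2 = k + 1 + 1 by ring] at this
      linarith
    have hM2 := hrefl (k + 1 + 1) (Or.inl hA2)
    rw [heq] at hM2
    exact comb_nonpar h hM1 hM2
  have down : ∀ k, g k < g (k + 1) → g (k - 1) < g (k - 1 + 1) := by
    intro k hk
    by_contra hcon
    have hk1 : k - 1 + 1 = k := by ring
    rw [hk1] at hcon
    have heq : g (k - 1) = g k :=
      le_antisymm (hm (by omega)) (not_lt.mp hcon)
    have h1 : φ k ≤ f (g k + 1) := (hg k).2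
    have h2 : e (g k + 1) ≤ φ (k + 1) := le_trans (hem.monotone (by omega)) (hg (k + 1)).1
    have hA1 : AL k (g k + 1) := by
      apply h.nearR _ _ h1
      have := h.φgap k
      linarith
    have hM1 := hrefl k (Or.inr hA1)
    have hA2 : AL (k - 1) (g (k - 1) + 1) := by
      apply h.nearR _ _ (hg (k - 1)).2
      rw [heq]
      have := gap2 (k - 1)
      rw [show k - 1 + 2 = k + 1 by ring] at this
      linarith
    have hM2 := hrefl (k - 1) (Or.inr hA2)
    rw [heq] at hM2
    have hM1' : Mi (k - 1 + 1) (g k) (g k + 1) := by rw [hk1]; exact hM1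
    exact comb_nonpar h hM2 hM1'
  have hex : ∃ k, g k < g (k + 1) := by
    by_contra hcon
    push Not at hcon
    have hconst : ∀ i : ℤ, g (i + 1) = g i := fun i => le_antisymm (hcon i) (hm (by omega))
    have hall : ∀ i : ℤ, g i = g 0 := by
      intro i
      induction i using Int.induction_on with
      | zero => rfl
      | succ n ih => rw [hconst, ih]
      | pred n ih =>
        have := hconst (-(n : ℤ) - 1)
        rw [show -(n : ℤ) - 1 + 1 = -(n : ℤ) by ring] at this
        rw [← this, ih]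
    obtain ⟨i, hi⟩ := h.φabove (f (g 0 + 1))
    have := (hg i).2
    rw [hall i] at this
    linarith
  obtain ⟨k0, hk0⟩ := hex
  apply strictMono_int_of_lt_succ
  intro k
  have hupn : ∀ n : ℕ, g (k0 + n) < g (k0 + n + 1) := by
    intro n
    induction n with
    | zero => simpa using hk0
    | succ n ih =>
      have := up _ ih
      push_cast
      rw [show k0 + ((n : ℤ) + 1) = k0 + n + 1 by ring]
      exact this
  have hdownn : ∀ n : ℕ, g (k0 - n) < g (k0 - n + 1) := by
    intro n
    induction n with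
    | zero => simpa using hk0
    | succ n ih =>
      have := down _ ih
      push_cast
      rw [show k0 - ((n : ℤ) + 1) = k0 - n - 1 by ring]
      exact this
  rcases le_total k0 k with hk | hk
  · have := hupn (k - k0).toNat
    rw [show k0 + ((k - k0).toNat : ℤ) = k by omega] at this
    exact this
  · have := hdownn (k0 - k).toNat
    rw [show k0 - ((k0 - k).toNat : ℤ) = k by omega] at this
    exact this

end Pool.Agent.XA
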