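import Pool.Agent.XA.C7
import Pool.Agent.XA.A8

set_option autoImplicit false
open MeasureTheory Set

namespace Pool.Agent.XA

/-- Two different right arcs have no common level (`arc_trichotomy`, `level_gt`). -/
theorem right_disjoint {K L : Set (ℝ × ℝ)} (hK : IsBody K) (hL : IsBody L) {θ α β γ δ : ℝ}
    (hA : IsArc K L α β) (h1 : θ ≤ α) (h2 : β ≤ θ + Real.pi)
    (hB : IsArc K L γ δ) (h3 : θ ≤ γ) (h4 : δ ≤ θ + Real.pi) {c : ℝ}
    (hcA : c ∈ lv θ '' DS K L α β) (hcB : c ∈ lv θ '' DS K L γ δ) : α = γ ∧ β = δ := by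
  obtain ⟨w, hw, ew⟩ := hcA
  obtain ⟨w', hw', ew'⟩ := hcB
  rcases arc_trichotomy hA hB with h | h | h
  · exact h
  · have := level_gt hK hL hA hB h h1 h4 hw hw'
    rw [ew, ew'] at this
    exact absurd this (lt_irrefl _)
  · have := level_gt hK hL hB hA h h3 h2 hw' hw
    rw [ew, ew'] at this
    exact absurd this (lt_irrefl _)

/-- Two different left arcs have no common level (`arc_trichotomy`, `level_lt`). -/
theorem left_disjoint {K L : Set (ℝ × ℝ)} (hK : IsBody K) (hL : IsBody L) {θ α β γ δ : ℝ}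
    (hA : IsArc K L α β) (h1 : θ - Real.pi ≤ α) (h2 : β ≤ θ)
    (hB : IsArc K L γ δ) (h3 : θ - Real.pi ≤ γ) (h4 : δ ≤ θ) {c : ℝ}
    (hcA : c ∈ lv θ '' DS K L α β) (hcB : c ∈ lv θ '' DS K L γ δ) : α = γ ∧ β = δ := by
  obtain ⟨w, hw, ew⟩ := hcA
  obtain ⟨w', hw', ew'⟩ := hcB
  rcases arc_trichotomy hA hB with h | h | h
  · exact h
  · have := level_lt hK hL hA hB h h4 (by linarith) hw hw'
    rw [ew, ew'] at this
    exact absurd this (lt_irrefl _)
  · have := level_lt hK hL hB hA h h2 (by linarith) hw' hw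
    rw [ew, ew'] at this
    exact absurd this (lt_irrefl _)

/-- **The mirror arc.**  Write `I(A) = lv θ '' DS K L α β` for an arc `A = (α, β)`; it is open
(`isOpen_levels`, `DS_isOpen`), an interval (`levels_ordConnected`), nonempty (`DS_nonempty`).
Fix `c₀ ∈ I(A)` and a right arc `B = (γ, δ)` with `c₀ ∈ I(B)` (`level_left_right`; `c1 < c₀`).
`I(A) ⊆ I(B)`: every `c ∈ I(A)` is in `I(B')` for a right arc `B'` (`level_left_right`), so the two open
sets `I(B)` and `V = ⋃ {I(B') | B' right arc, B' ≠ B}` cover the preconnected set `I(A)`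
(`OrdConnected.isPreconnected`); they are disjoint (`right_disjoint`), and `c₀ ∈ I(A) ∩ I(B)`; so
`I(A) ⊆ I(B)`.  Now let `J = I(B) ∩ Ici c1`, an interval.  Every `c ∈ J` is in `I(A')` for a left arc
`A'` (`level_right_left`), so in the same way (`left_disjoint`) `J ⊆ I(A)`.  If some `c' ∈ I(B)` had
`c' ≤ c1`, then `c1 ∈ I(B)` (an interval containing `c'` and `c₀ > c1`), so `c1 ∈ J ⊆ I(A)`,
contradicting `hc`.  So `I(B) = J ⊆ I(A)`. -/
theorem mirror_left {K L : Set (ℝ × ℝ)} {θ c1 : ℝ} (h : Dir K L θ c1) {α β : ℝ}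
    (hA : IsArc K L α β) (h1 : θ - Real.pi ≤ α) (h2 : β ≤ θ)
    (hc : ∀ w ∈ DS K L α β, c1 < lv θ w) :
    ∃ γ δ, IsArc K L γ δ ∧ θ ≤ γ ∧ δ ≤ θ + Real.pi ∧
      lv θ '' DS K L γ δ = lv θ '' DS K L α β := by
  have hK := h.bK
  have hL := h.bL
  have hopen : ∀ p : ℝ × ℝ, IsOpen (lv θ '' DS K L p.1 p.2) := fun p =>
    isOpen_levels (DS_isOpen K L p.1 p.2) θ
  have hIord := levels_ordConnected hK hL hA θ
  obtain ⟨w0, hw0⟩ := DS_nonempty hK hL hA
  have hc0 : lv θ w0 ∈ lv θ '' DS K L α β := ⟨w0, hw0, rfl⟩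
  have hlt0 : c1 < lv θ w0 := hc w0 hw0
  obtain ⟨γ, δ, hB, h3, h4, hc0B⟩ := level_left_right h hlt0.le h1 h2 hc0
  have hBord := levels_ordConnected hK hL hB θ
  refine ⟨γ, δ, hB, h3, h4, ?_⟩
  -- the levels of the left arc are levels of the right arc
  have hAB : lv θ '' DS K L α β ⊆ lv θ '' DS K L γ δ := by
    refine IsPreconnected.subset_left_of_subset_union (hopen (γ, δ))
      (v := ⋃ (p : ℝ × ℝ) (_ : IsArc K L p.1 p.2 ∧ θ ≤ p.1 ∧ p.2 ≤ θ + Real.pi ∧ ¬ (γ = p.1 ∧ δ = p.2)),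
        lv θ '' DS K L p.1 p.2)
      (isOpen_iUnion fun p => isOpen_iUnion fun _ => hopen p) ?_ ?_ ⟨lv θ w0, hc0, hc0B⟩
      hIord.isPreconnected
    · rw [Set.disjoint_left]
      intro c hcB hcV
      simp only [mem_iUnion] at hcV
      obtain ⟨p, ⟨hp1, hp2, hp3, hp4⟩, hcp⟩ := hcV
      exact hp4 (right_disjoint hK hL hB h3 h4 hp1 hp2 hp3 hcB hcp)
    · rintro c ⟨w, hw, rfl⟩
      obtain ⟨γ', δ', hB', h3', h4', hcB'⟩ := level_left_right h (hc w hw).le h1 h2 ⟨w, hw, rfl⟩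
      by_cases heq : γ = γ' ∧ δ = δ'
      · left
        rw [heq.1, heq.2]
        exact hcB'
      · right
        simp only [mem_iUnion]
        exact ⟨(γ', δ'), ⟨hB', h3', h4', heq⟩, hcB'⟩
  have hJ : lv θ '' DS K L γ δ ∩ Ici c1 ⊆ lv θ '' DS K L α β := by
    refine IsPreconnected.subset_left_of_subset_union (hopen (α, β))
      (v := ⋃ (p : ℝ × ℝ) (_ : IsArc K L p.1 p.2 ∧ θ - Real.pi ≤ p.1 ∧ p.2 ≤ θ ∧ ¬ (α = p.1 ∧ β = p.2)),
        lv θ '' DS K L p.1 p.2)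
      (isOpen_iUnion fun p => isOpen_iUnion fun _ => hopen p) ?_ ?_
      ⟨lv θ w0, ⟨hc0B, hlt0.le⟩, hc0⟩ (hBord.inter ordConnected_Ici).isPreconnected
    · rw [Set.disjoint_left]
      intro c hcB hcV
      simp only [mem_iUnion] at hcV
      obtain ⟨p, ⟨hp1, hp2, hp3, hp4⟩, hcp⟩ := hcV
      exact hp4 (left_disjoint hK hL hA h1 h2 hp1 hp2 hp3 hcB hcp)
    · rintro c ⟨hcB, hcI⟩
      obtain ⟨α', β', hA', h1', h2', hcA'⟩ := level_right_left h hcI h3 h4 hcB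
      by_cases heq : α = α' ∧ β = β'
      · left
        rw [heq.1, heq.2]
        exact hcA'
      · right
        simp only [mem_iUnion]
        exact ⟨(α', β'), ⟨hA', h1', h2', heq⟩, hcA'⟩
  refine Subset.antisymm ?_ hAB
  intro c' hc'
  by_cases hle : c1 ≤ c'
  · exact hJ ⟨hc', hle⟩
  · exfalso
    have hcc : c1 ∈ lv θ '' DS K L γ δ := hBord.out hc' hc0B ⟨(not_le.1 hle).le, hlt0.le⟩
    obtain ⟨w, hw, ew⟩ := hJ ⟨hcc, Set.self_mem_Ici⟩
    have := hc w hw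
    rw [ew] at this
    exact lt_irrefl _ this

end Pool.Agent.XA
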