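import Pool.Agent.XA.M1
import Pool.Agent.XA.B7

set_option autoImplicit false
open MeasureTheory Set

namespace Pool.Agent.XA

theorem m2_rf_rf (K : Set (ℝ × ℝ)) : rf ⁻¹' (rf ⁻¹' K) = K := by
  ext w
  show rf (rf w) ∈ K ↔ w ∈ K
  rw [rf_rf]

/-- Reflection of `mirror_left` (`Dir.rf`, `IsArc.rf`, `DS_rf`, `levels_rf`, `lv_neg`): apply it to
`rf ⁻¹' K`, `rf ⁻¹' L`, `-θ` and the arc `(-δ, -γ)`, which satisfies `-θ - π ≤ -δ`, `-γ ≤ -θ`; then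
reflect the resulting arc back (`rf ⁻¹' (rf ⁻¹' K) = K`). -/
theorem mirror_right {K L : Set (ℝ × ℝ)} {θ c1 : ℝ} (h : Dir K L θ c1) {γ δ : ℝ}
    (hB : IsArc K L γ δ) (h1 : θ ≤ γ) (h2 : δ ≤ θ + Real.pi)
    (hc : ∀ w ∈ DS K L γ δ, c1 < lv θ w) :
    ∃ α β, IsArc K L α β ∧ θ - Real.pi ≤ α ∧ β ≤ θ ∧
      lv θ '' DS K L α β = lv θ '' DS K L γ δ := by
  have hc' : ∀ w ∈ DS (rf ⁻¹' K) (rf ⁻¹' L) (-δ) (-γ), c1 < lv (-θ) w := by
    intro w hw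
    rw [DS_rf] at hw
    rw [lv_neg]
    exact hc _ hw
  obtain ⟨γ', δ', hA, h3, h4, h5⟩ := mirror_left h.rf hB.rf (by linarith) (by linarith) hc'
  have hA' : IsArc K L (-δ') (-γ') := by
    have h6 := hA.rf
    rw [m2_rf_rf, m2_rf_rf] at h6
    exact h6
  refine ⟨-δ', -γ', hA', by linarith, by linarith, ?_⟩
  have h7 := DS_rf K L (-δ') (-γ')
  rw [neg_neg, neg_neg] at h7
  rw [h7, DS_rf, levels_rf, levels_rf] at h5
  exact h5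

end Pool.Agent.XA
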