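import Mathlib

set_option autoImplicit false
open MeasureTheory Set

namespace Pool.Agent.XA

/-- the cross ratio of `a, b, c, d` is irrational: no integral relation between
`(a - b)(c - d)` and `(a - c)(b - d)` -/
def CR (a b c d : ℝ) : Prop :=
  ∀ p q : ℤ, (p : ℝ) * ((a - b) * (c - d)) + q * ((a - c) * (b - d)) = 0 → p = 0 ∧ q = 0

/-- no Möbius transformation maps `s₀, …, s₄` to five different integral powers of one complex
number -/
def MB (s₀ s₁ s₂ s₃ s₄ : ℝ) : Prop :=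
  ∀ k : ℂ, k ≠ 0 → ∀ n : Fin 5 → ℤ, Function.Injective (fun i => k ^ n i) →
    ¬ ((k ^ n 2 - k ^ n 1) * (k ^ n 3 - k ^ n 0) * ((s₂ - s₀) * (s₃ - s₁)) =
        (k ^ n 3 - k ^ n 1) * (k ^ n 2 - k ^ n 0) * ((s₃ - s₀) * (s₂ - s₁)) ∧
      (k ^ n 2 - k ^ n 1) * (k ^ n 4 - k ^ n 0) * ((s₂ - s₀) * (s₄ - s₁)) =
        (k ^ n 4 - k ^ n 1) * (k ^ n 2 - k ^ n 0) * ((s₄ - s₀) * (s₂ - s₁)))

/-- all cross ratios of the five slopes are irrational -/
def H1 (s : Fin 5 → ℝ) : Prop :=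
  ∀ i j k l : Fin 5, i ≠ j → i ≠ k → i ≠ l → j ≠ k → j ≠ l → k ≠ l → CR (s i) (s j) (s k) (s l)

/-- the relations between the `η j`, `j = 0, …, 4`, with the labels `n j` -/
def Rel {V : Type*} [AddCommGroup V] [Module ℂ V] (T : Module.End ℂ V) (s : Fin 5 → ℝ)
    (n : Fin 5 → ℕ) (η : Fin 5 → V) : Prop :=
  ∀ i j k : Fin 5,
    ((s j - s i : ℝ) : ℂ) • Polynomial.aeval T (Polynomial.X ^ n k - Polynomial.X ^ n i : Polynomial ℂ) (η j) =
    ((s k - s i : ℝ) : ℂ) • Polynomial.aeval T (Polynomial.X ^ n j - Polynomial.X ^ n i : Polynomial ℂ) (η k)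

end Pool.Agent.XA
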