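import Pool.Agent.XA.Q0

set_option autoImplicit false
open MeasureTheory Set

namespace Pool.Agent.XA

open Polynomial in
/-- On `(T - lam)`-primary vectors a polynomial with `P(lam) ≠ 0` acts injectively: `P` and
`(X - C lam) ^ ν` are coprime (`X - C lam` does not divide `P`: `dvd_iff_isRoot`; `IsCoprime.pow_right`,
`irreducible` or `EuclideanDomain`/`Polynomial.isCoprime_of_...`), so `a P + b (X - C lam) ^ ν = 1` and
`x = aeval T a (aeval T P x) + aeval T b (aeval T ((X - C lam) ^ ν) x) = 0`. -/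
theorem primary_inj {V : Type*} [AddCommGroup V] [Module ℂ V] (T : Module.End ℂ V) {lam : ℂ}
    {ν : ℕ} {P : ℂ[X]} (hP : P.eval lam ≠ 0) {x : V} (hx : aeval T ((X - C lam) ^ ν) x = 0)
    (hPx : aeval T P x = 0) : x = 0 := by
  have hcop : IsCoprime P ((X - C lam) ^ ν) := by
    apply IsCoprime.pow_right
    have hirr : Irreducible (X - C lam) := irreducible_X_sub_C lam
    rw [isCoprime_comm]
    exact (EuclideanDomain.dvd_or_coprime _ _ hirr).resolve_left
      (fun h => hP (dvd_iff_isRoot.1 h))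
  obtain ⟨a, b, hab⟩ := hcop
  have h1 : aeval T (a * P + b * (X - C lam) ^ ν) x = x := by
    rw [hab]; simp
  rw [map_add, map_mul, map_mul] at h1
  simp only [LinearMap.add_apply, Module.End.mul_apply, hPx, hx, map_zero, add_zero] at h1
  exact h1.symm

open Polynomial in
/-- If `lam ≠ 0` and `lam ^ a = lam ^ b` then `X ^ a - X ^ b = (X - C lam) * g` with
`g(lam) = (a - b) * lam ^ b / lam`.  (`lam` is a root; `g(lam)` is the derivative of `X ^ a - X ^ b` at `lam`,
i.e. `a lam ^ (a - 1) - b lam ^ (b - 1)`.) -/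
theorem factor_diff {lam : ℂ} (h0 : lam ≠ 0) {a b : ℕ} (h : lam ^ a = lam ^ b) :
    ∃ g : ℂ[X], (X ^ a - X ^ b : ℂ[X]) = (X - C lam) * g ∧
      g.eval lam = ((a : ℂ) - b) * (lam ^ b / lam) := by
  have hroot : (X ^ a - X ^ b : ℂ[X]).IsRoot lam := by
    simp [IsRoot.def, h]
  obtain ⟨g, hg⟩ := dvd_iff_isRoot.2 hroot
  refine ⟨g, hg, ?_⟩
  have hd := congrArg (fun q : ℂ[X] => (derivative q).eval lam) hg
  simp only [derivative_mul, derivative_sub, derivative_X_pow, derivative_X, derivative_C,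
    eval_add, eval_sub, eval_mul, eval_C, eval_pow, eval_X, sub_zero, one_mul, sub_self,
    zero_mul, add_zero] at hd
  rw [← hd]
  have key : ∀ c : ℕ, (c : ℂ) * lam ^ (c - 1) = c * (lam ^ c / lam) := by
    intro c
    rcases Nat.eq_zero_or_pos c with h | h
    · subst h; simp
    · congr 1
      rw [eq_div_iff h0, ← pow_succ, Nat.sub_add_cancel h]
  rw [key, key, h]
  ring

open Polynomial in
/-- **A nonzero vector killed by a polynomial has a nonzero primary component.**  Induction on the degree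
of `D` (or: choose `P` of minimal degree with `aeval T P x = 0`, it is not constant, let `lam` be a root,
`P = (X - C lam) P'`; then `y = aeval T P' x ≠ 0` and `T y = lam y`).  `lam` is a root of `D`: otherwise
`primary_inj` (with `ν = 1` and the polynomial `D`) gives `y = 0`.  Let `D = (X - C lam) ^ ν * N` with `N(lam) ≠ 0`
(`Polynomial.exists_eq_pow_rootMultiplicity_mul_and_not_dvd`).  `aeval T N x ≠ 0`: otherwise
`aeval T N y = aeval T (N * P') x = 0`, and `primary_inj` gives `y = 0`. -/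
theorem exists_primary {V : Type*} [AddCommGroup V] [Module ℂ V] (T : Module.End ℂ V)
    {D : ℂ[X]} (hD : D ≠ 0) {x : V} (hx : x ≠ 0) (hDx : aeval T D x = 0) :
    ∃ (lam : ℂ) (ν : ℕ) (N : ℂ[X]), D.IsRoot lam ∧ D = (X - C lam) ^ ν * N ∧ aeval T N x ≠ 0 := by
  classical
  have hex : ∃ m : ℕ, ∃ P : ℂ[X], P ≠ 0 ∧ aeval T P x = 0 ∧ P.natDegree = m :=
    ⟨D.natDegree, D, hD, hDx, rfl⟩
  obtain ⟨P, hP0, hPx, hPm⟩ := Nat.find_spec hex
  have hmin : ∀ Q : ℂ[X], Q ≠ 0 → aeval T Q x = 0 → P.natDegree ≤ Q.natDegree := by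
    intro Q hQ0 hQx
    rw [hPm]
    exact Nat.find_min' hex ⟨Q, hQ0, hQx, rfl⟩
  have hPdeg : P.degree ≠ 0 := by
    intro hdeg
    rw [eq_C_of_degree_eq_zero hdeg] at hPx hP0
    rw [aeval_C] at hPx
    have hc : P.coeff 0 ≠ 0 := by
      intro h; apply hP0; rw [h]; simp
    have : (P.coeff 0) • x = 0 := by simpa [Algebra.algebraMap_eq_smul_one] using hPx
    rcases smul_eq_zero.1 this with h | h
    · exact hc h
    · exact hx h
  obtain ⟨lam, hlam⟩ := IsAlgClosed.exists_root P hPdeg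
  obtain ⟨P', hP'⟩ := dvd_iff_isRoot.2 hlam
  have hP'0 : P' ≠ 0 := by
    rintro rfl; exact hP0 (by simpa using hP')
  have hy : aeval T P' x ≠ 0 := by
    intro h
    have h1 := hmin P' hP'0 h
    have h2 : P.natDegree = 1 + P'.natDegree := by
      rw [hP', natDegree_mul (X_sub_C_ne_zero lam) hP'0, natDegree_X_sub_C]
    omega
  have hyk : aeval T ((X - C lam) ^ 1) (aeval T P' x) = 0 := by
    rw [pow_one, ← Module.End.mul_apply, ← map_mul, ← hP']
    exact hPx
  have hroot : D.IsRoot lam := by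
    by_contra hne
    apply hy
    refine primary_inj T (lam := lam) (ν := 1) (P := D) hne hyk ?_
    rw [← Module.End.mul_apply, ← map_mul, mul_comm, map_mul, Module.End.mul_apply, hDx, map_zero]
  obtain ⟨N, hN, hNd⟩ := exists_eq_pow_rootMultiplicity_mul_and_not_dvd D hD lam
  refine ⟨lam, D.rootMultiplicity lam, N, hroot, hN, ?_⟩
  intro hNx
  apply hy
  have hNe : N.eval lam ≠ 0 := fun h => hNd (dvd_iff_isRoot.2 h)
  refine primary_inj T (lam := lam) (ν := 1) (P := N) hNe hyk ?_
  rw [← Module.End.mul_apply, ← map_mul, mul_comm, map_mul, Module.End.mul_apply, hNx, map_zero]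

end Pool.Agent.XA
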