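import Pool.Agent.XA.Q0

set_option autoImplicit false
open MeasureTheory Set

namespace Pool.Agent.XA

/-- the shift on sequences `ℤ → ℂ` -/
noncomputable def Sh : Module.End ℂ (ℤ → ℂ) := LinearMap.funLeft ℂ ℂ (fun l : ℤ => l + 1)

/-- induction on `k` -/
theorem Sh_pow (k : ℕ) (x : ℤ → ℂ) (l : ℤ) : (Sh ^ k) x l = x (l + k) := by
  induction k generalizing x l with
  | zero => simp
  | succ k ih =>
    rw [pow_succ, Module.End.mul_apply, ih]
    simp only [Sh, LinearMap.funLeft_apply]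
    congr 1
    push_cast
    ring

open Polynomial in
/-- `aeval Sh P = ∑ k ∈ range (natDegree P + 1), P.coeff k • Sh ^ k` (`Polynomial.aeval_eq_sum_range`),
then `Sh_pow`. -/
theorem aeval_Sh (P : ℂ[X]) (x : ℤ → ℂ) (l : ℤ) :
    aeval Sh P x l = ∑ k ∈ Finset.range (P.natDegree + 1), P.coeff k * x (l + k) := by
  rw [aeval_eq_sum_range]
  simp only [LinearMap.sum_apply, LinearMap.smul_apply, Finset.sum_apply, Pi.smul_apply,
    smul_eq_mul, Sh_pow]

open Polynomial in
/-- special case, from `Sh_pow` -/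
theorem aeval_Sh_diff (a b : ℕ) (x : ℤ → ℂ) (l : ℤ) :
    aeval Sh (X ^ a - X ^ b : ℂ[X]) x l = x (l + a) - x (l + b) := by
  simp only [map_sub, map_pow, aeval_X, LinearMap.sub_apply, Pi.sub_apply, Sh_pow]

end Pool.Agent.XA
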