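import Pool.Agent.XA.Q8
import Pool.Agent.XA.Q9

set_option autoImplicit false
open MeasureTheory Set

namespace Pool.Agent.XA

open Polynomial in
/-- **Periodicity of the difference sequence.**  Let `η j l = ((z (l + m j) - z (-l)).1 : ℂ)`; by `hz` (at
`l + m j`) `z (l + m j) - z (-l) = η j l • (1, s j)`.  For `v = (v₁, v₂)` let `F_i v = v₂ - s_i v₁`, `F_i l = F_i (z l)`;
applying it to the difference of the relations for `j` and `i` gives
(∗) `(s j - s i) η j l = F_i (l + m j) - F_i (l + m i)`.
Let `M` be an integer with `M ≤ m j` for all `j` and `n j = (m j - M).toNat` (so `(n j : ℤ) = m j - M`, `n`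
injective).  By (∗) and `aeval_Sh_diff`
`(s j - s i) (Sh^{n k} - Sh^{n i}) η j` at `l` is, with `l' = l - M`,
`F_i (l' + m k + m j) - F_i (l' + m k + m i) - F_i (l' + m i + m j) + F_i (l' + m i + m i)`, symmetric in `j, k`; this is
`Rel Sh s n η`.  The polynomial `D` (mapped to `ℂ`) kills `η j`: multiply by `s j - s i ≠ 0` for some `i ≠ j` and use
(∗), `aeval_Sh` and `hD` (both components of `z` satisfy the recurrence).  `global_thm` (with `D.map`,
coefficient `0` not zero) and `aeval_Sh_diff`: `η 0 (l + n 1) = η 0 (l + n 2)` for all `l`, i.e. (`l ↦ l + M - m 0`)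
the claim, because `(z (l + m 1) - z (m 0 - (l + m 1))).1 = η 0 (l + m 1 - m 0)`. -/
theorem seq_thm {s : Fin 5 → ℝ} (hs : Function.Injective s) (h1 : H1 s)
    (h2 : MB (s 0) (s 1) (s 2) (s 3) (s 4)) {m : Fin 5 → ℤ} (hm : Function.Injective m)
    {z : ℤ → ℝ × ℝ} (hz : ∀ (j : Fin 5) (l : ℤ), ∃ x : ℝ, z l - z (m j - l) = x • ((1 : ℝ), s j))
    {D : ℝ[X]} (hD0 : D.coeff 0 ≠ 0)
    (hD : ∀ l : ℤ, ∑ k ∈ Finset.range (D.natDegree + 1), D.coeff k • z (l + k) = 0) (l : ℤ) :
    (z (l + m 1) - z (m 0 - (l + m 1))).1 = (z (l + m 2) - z (m 0 - (l + m 2))).1 := by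
  classical
  have hz2 : ∀ (j : Fin 5) (l : ℤ), (z (l + m j) - z (-l)).2 = s j * (z (l + m j) - z (-l)).1 := by
    intro j l
    obtain ⟨x, hx⟩ := hz j (l + m j)
    rw [show m j - (l + m j) = -l by ring] at hx
    rw [hx]
    simp [mul_comm]
  let F : Fin 5 → ℤ → ℝ := fun i l => (z l).2 - s i * (z l).1
  let e : Fin 5 → ℤ → ℝ := fun j l => (z (l + m j) - z (-l)).1
  have st0 : ∀ (i j : Fin 5) (l : ℤ), (s j - s i) * e j l = F i (l + m j) - F i (-l) := by
    intro i j l
    have h := hz2 j l
    simp only [Prod.fst_sub, Prod.snd_sub, e, F] at h ⊢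
    linear_combination -h
  have st1 : ∀ (i : Fin 5) (l : ℤ), F i (-l) = F i (l + m i) := by
    intro i l
    have h := st0 i i l
    rw [sub_self, zero_mul] at h
    linarith
  have st : ∀ (i j : Fin 5) (l : ℤ), (s j - s i) * e j l = F i (l + m j) - F i (l + m i) := by
    intro i j l
    rw [st0, st1]
  set M : ℤ := -∑ j, |m j| with hM
  have hMj : ∀ j, M ≤ m j := by
    intro j
    have h1 : |m j| ≤ ∑ j, |m j| :=
      Finset.single_le_sum (f := fun j => |m j|) (fun _ _ => abs_nonneg _) (Finset.mem_univ j)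
    have h2 := neg_abs_le (m j)
    rw [hM]
    linarith
  let n : Fin 5 → ℕ := fun j => (m j - M).toNat
  have hn : ∀ j, (n j : ℤ) = m j - M := fun j => Int.toNat_of_nonneg (by have := hMj j; linarith)
  have hninj : Function.Injective n := by
    intro i j hij
    apply hm
    have h1 := hn i
    have h2 := hn j
    have h3 : (n i : ℤ) = n j := by exact_mod_cast hij
    linarith
  let η : Fin 5 → ℤ → ℂ := fun j l => ((e j l : ℝ) : ℂ)
  have hRel : Rel Sh s n η := by
    intro i j k
    funext l
    rw [Pi.smul_apply, Pi.smul_apply, aeval_Sh_diff, aeval_Sh_diff]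
    simp only [η, smul_eq_mul]
    rw [← Complex.ofReal_sub, ← Complex.ofReal_sub, ← Complex.ofReal_mul, ← Complex.ofReal_mul]
    congr 1
    rw [mul_sub, mul_sub, st, st, st, st, hn, hn, hn]
    rw [show l + (m k - M) + m j = l + (m j - M) + m k by ring,
      show l + (m k - M) + m i = l + (m i - M) + m k by ring,
      show l + (m j - M) + m i = l + (m i - M) + m j by ring]
    ring
  have hDF : ∀ (i : Fin 5) (l : ℤ),
      ∑ k ∈ Finset.range (D.natDegree + 1), D.coeff k * F i (l + k) = 0 := by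
    intro i l
    have h := hD l
    have ha := congrArg Prod.fst h
    have hb := congrArg Prod.snd h
    rw [Prod.fst_sum] at ha
    rw [Prod.snd_sum] at hb
    simp only [Prod.smul_fst, Prod.smul_snd, smul_eq_mul, Prod.fst_zero, Prod.snd_zero] at ha hb
    have : ∑ k ∈ Finset.range (D.natDegree + 1), D.coeff k * F i (l + k) =
        ∑ k ∈ Finset.range (D.natDegree + 1), D.coeff k * (z (l + k)).2 -
          s i * ∑ k ∈ Finset.range (D.natDegree + 1), D.coeff k * (z (l + k)).1 := by
      rw [Finset.mul_sum, ← Finset.sum_sub_distrib]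
      refine Finset.sum_congr rfl fun k _ => ?_
      simp only [F]
      ring
    rw [this, ha, hb]
    ring
  have hDη : ∀ j, aeval Sh (D.map (algebraMap ℝ ℂ)) (η j) = 0 := by
    intro j
    funext l
    rw [aeval_Sh, natDegree_map]
    simp only [coeff_map, η]
    obtain ⟨i, hij⟩ : ∃ i : Fin 5, i ≠ j := ⟨j + 1, by
      fin_cases j <;> simp⟩
    have hne : s j - s i ≠ 0 := sub_ne_zero.2 (fun h => hij (hs h).symm)
    have h0 : ∑ k ∈ Finset.range (D.natDegree + 1), D.coeff k * e j (l + k) = 0 := by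
      have h1 : (s j - s i) * ∑ k ∈ Finset.range (D.natDegree + 1), D.coeff k * e j (l + k) = 0 := by
        rw [Finset.mul_sum]
        have h2 := hDF i (l + m j)
        have h3 := hDF i (l + m i)
        rw [← sub_eq_zero.2 (h2.trans h3.symm), ← Finset.sum_sub_distrib]
        refine Finset.sum_congr rfl fun k _ => ?_
        have h4 := st i j (l + k)
        rw [show l + m j + (k : ℤ) = l + k + m j by ring, show l + m i + (k : ℤ) = l + k + m i by ring]
        linear_combination D.coeff k * h4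
      exact (mul_eq_zero.1 h1).resolve_left hne
    have h5 := congrArg (fun t : ℝ => (t : ℂ)) h0
    simp only [Complex.ofReal_sum, Complex.ofReal_mul, Complex.ofReal_zero] at h5
    exact h5
  have hfin := global_thm Sh hs h1 h2 hninj hRel (D := D.map (algebraMap ℝ ℂ))
    (by rw [coeff_map]; simpa using hD0) hDη
  have h6 := congrFun hfin (l + M - m 0)
  rw [aeval_Sh_diff, hn, hn] at h6
  simp only [η, Pi.zero_apply] at h6
  rw [← Complex.ofReal_sub] at h6
  have h7 := sub_eq_zero.1 (Complex.ofReal_eq_zero.1 h6)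
  simp only [e] at h7
  rw [show l + M - m 0 + (m 1 - M) + m 0 = l + m 1 by ring,
    show l + M - m 0 + (m 2 - M) + m 0 = l + m 2 by ring,
    show -(l + M - m 0 + (m 1 - M)) = m 0 - (l + m 1) by ring,
    show -(l + M - m 0 + (m 2 - M)) = m 0 - (l + m 2) by ring] at h7
  exact h7

end Pool.Agent.XA
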