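import Pool.Agent.XA.Q1

set_option autoImplicit false
open MeasureTheory Set

namespace Pool.Agent.XA

open Polynomial in
/-- **Case A1.**  Write `e_{ab} = X ^ n a - X ^ n b`, `κ_a = lam ^ n a`; all products are polynomials acting
through `aeval T`; `aeval T` of different polynomials commute (`map_mul`, `mul_comm`).  Let
`y_j = e_{io} η_j`, `y_l = e_{io} η_l`.
`Rel o i j`: `(s i - s o) e_{jo} η_i = (s j - s o) y_j`; `Rel o i l`: `(s i - s o) e_{lo} η_i = (s l - s o) y_l`.  Hence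
(1) `(s j - s o) e_{lo} y_j = (s l - s o) e_{jo} y_l`.
`Rel i o j`: `(s o - s i) e_{ji} η_o = (s j - s i) e_{oi} η_j = - (s j - s i) y_j`; `Rel i o l`:
`(s o - s i) e_{li} η_o = - (s l - s i) y_l`.  Hence (2) `(s j - s i) e_{li} y_j = (s l - s i) e_{ji} y_l`.
Multiply (2) by `(s l - s o) e_{jo}` and use (1): `P y_j = 0` with
`P = (s l - s o)(s j - s i) e_{jo} e_{li} - (s l - s i)(s j - s o) e_{ji} e_{lo}`, and (as `κ_i = κ_o`)
`P(lam) = (κ_j - κ_o)(κ_l - κ_o)((s l - s o)(s j - s i) - (s l - s i)(s j - s o))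
       = (κ_j - κ_o)(κ_l - κ_o)(s l - s j)(s o - s i) ≠ 0`.
`primary_inj`: `y_j = 0` (it is killed by `(X - C lam) ^ ν` because `η_j` is).  So `e_{ji} η_o = 0` and
`e_{ji}(lam) = κ_j - κ_o ≠ 0`, so `η_o = 0`. -/
theorem caseA1 {V : Type*} [AddCommGroup V] [Module ℂ V] (T : Module.End ℂ V) {s : Fin 5 → ℝ}
    (hs : Function.Injective s) {n : Fin 5 → ℕ} {η : Fin 5 → V} (h : Rel T s n η) {lam : ℂ}
    {ν : ℕ} (hη : ∀ j, aeval T ((X - C lam) ^ ν) (η j) = 0) {o i j l : Fin 5}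
    (hoi : o ≠ i) (hoj : o ≠ j) (hol : o ≠ l) (hij : i ≠ j) (hil : i ≠ l) (hjl : j ≠ l)
    (hi : lam ^ n i = lam ^ n o) (hj : lam ^ n j ≠ lam ^ n o) (hl : lam ^ n l ≠ lam ^ n o) :
    η o = 0 := by
  classical
  let _ : Module ℂ[X] V := Module.compHom V (aeval T).toRingHom
  have act : ∀ (P : ℂ[X]) (v : V), aeval T P v = P • v := fun _ _ => rfl
  have act2 : ∀ (c : ℂ) (P : ℂ[X]) (v : V), c • aeval T P v = (C c * P) • v := by
    intro c P v
    rw [← act, map_mul, aeval_C]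
    rfl
  have R : ∀ a b c : Fin 5, (C ((s b - s a : ℝ) : ℂ) * (X ^ n c - X ^ n a : ℂ[X])) • η b =
      (C ((s c - s a : ℝ) : ℂ) * (X ^ n b - X ^ n a : ℂ[X])) • η c := by
    intro a b c
    rw [← act2, ← act2]
    exact h a b c
  have r1 := R o i j
  have r2 := R o i l
  have r3 := R i o j
  have r4 := R i o l
  simp only [Complex.ofReal_sub, map_sub] at r1 r2 r3 r4
  set si : ℂ[X] := C ((s i : ℝ) : ℂ) with hsi
  set sj : ℂ[X] := C ((s j : ℝ) : ℂ) with hsj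
  set sl : ℂ[X] := C ((s l : ℝ) : ℂ) with hsl
  set so : ℂ[X] := C ((s o : ℝ) : ℂ) with hso
  have key : ((sl - so) * (sj - si) * (X ^ n j - X ^ n o) * (X ^ n l - X ^ n i) -
      (sl - si) * (sj - so) * (X ^ n j - X ^ n i) * (X ^ n l - X ^ n o) : ℂ[X]) •
        ((X ^ n i - X ^ n o : ℂ[X]) • η j) = 0 := by
    linear_combination (norm := module) ((sl - so) * (X ^ n j - X ^ n o) * (X ^ n l - X ^ n i) : ℂ[X]) • r3
      - ((sl - so) * (X ^ n j - X ^ n o) * (X ^ n j - X ^ n i) : ℂ[X]) • r4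
      + ((sl - si) * (X ^ n j - X ^ n i) * (X ^ n l - X ^ n o) : ℂ[X]) • r1
      - ((sl - si) * (X ^ n j - X ^ n i) * (X ^ n j - X ^ n o) : ℂ[X]) • r2
  have hsne : ∀ a b : Fin 5, a ≠ b → ((s a : ℝ) : ℂ) - ((s b : ℝ) : ℂ) ≠ 0 := by
    intro a b hab hh
    exact hab (hs (Complex.ofReal_injective (sub_eq_zero.1 hh)))
  have hκj : lam ^ n j - lam ^ n o ≠ 0 := sub_ne_zero.2 hj
  have hκl : lam ^ n l - lam ^ n o ≠ 0 := sub_ne_zero.2 hl
  have prim : ∀ (P : ℂ[X]) (v : V), aeval T ((X - C lam) ^ ν) v = 0 →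
      aeval T ((X - C lam) ^ ν) (P • v) = 0 := by
    intro P v hv
    rw [act] at hv ⊢
    rw [smul_comm, hv, smul_zero]
  have y0 : ((X ^ n i - X ^ n o : ℂ[X]) • η j) = 0 := by
    refine primary_inj T (lam := lam) (ν := ν) (P := ((sl - so) * (sj - si) * (X ^ n j - X ^ n o) * (X ^ n l - X ^ n i) -
      (sl - si) * (sj - so) * (X ^ n j - X ^ n i) * (X ^ n l - X ^ n o) : ℂ[X])) ?_ (prim _ _ (hη j)) key
    have e : (((sl - so) * (sj - si) * (X ^ n j - X ^ n o) * (X ^ n l - X ^ n i) -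
      (sl - si) * (sj - so) * (X ^ n j - X ^ n i) * (X ^ n l - X ^ n o) : ℂ[X])).eval lam =
        (lam ^ n j - lam ^ n o) * (lam ^ n l - lam ^ n o) *
          ((((s l : ℝ) : ℂ) - ((s j : ℝ) : ℂ)) * (((s o : ℝ) : ℂ) - ((s i : ℝ) : ℂ))) := by
      simp only [hsi, hsj, hsl, hso, eval_sub, eval_mul, eval_C, eval_pow, eval_X, hi]
      ring
    rw [e]
    exact mul_ne_zero (mul_ne_zero hκj hκl) (mul_ne_zero (hsne _ _ hjl.symm) (hsne _ _ hoi))
  have z0 : ((so - si) * (X ^ n j - X ^ n i) : ℂ[X]) • η o = 0 := by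
    rw [r3]
    have : ((sj - si) * (X ^ n o - X ^ n i) : ℂ[X]) • η j =
        (-(sj - si)) • ((X ^ n i - X ^ n o : ℂ[X]) • η j) := by module
    rw [this, y0, smul_zero]
  refine primary_inj T (lam := lam) (ν := ν) (P := ((so - si) * (X ^ n j - X ^ n i) : ℂ[X])) ?_ (hη o) z0
  simp only [hsi, hso, eval_sub, eval_mul, eval_C, eval_pow, eval_X, hi]
  exact mul_ne_zero (hsne _ _ hoi) hκj

end Pool.Agent.XA
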