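import Pool.Agent.XA.Q1

set_option autoImplicit false
open MeasureTheory Set

namespace Pool.Agent.XA

open Polynomial in
/-- **Case A2.**  Notation as in `caseA1`.
`Rel i o j`: `(s o - s i) e_{ji} η_o = (s j - s i) e_{oi} η_j`; `Rel l o j`: `(s o - s l) e_{jl} η_o = (s j - s l) e_{ol} η_j`.
Multiply the first by `(s o - s l) e_{jl}` and the second by `(s o - s i) e_{ji}`:
`(s o - s l)(s j - s i) e_{jl} e_{oi} η_j = (s o - s i)(s j - s l) e_{ji} e_{ol} η_j`.
`factor_diff`: `e_{oi} = (X - lam) g_{oi}`, `g_{oi}(lam) = (n o - n i) κ_i / lam`, `e_{ol} = (X - lam) g_{ol}` likewise.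
So `P ((X - lam) η_j) = 0`, `P = (s o - s l)(s j - s i) e_{jl} g_{oi} - (s o - s i)(s j - s l) e_{ji} g_{ol}`,
`P(lam) = (κ_j - κ_o)(κ_o / lam) ((s o - s l)(s j - s i)(n o - n i) - (s o - s i)(s j - s l)(n o - n l))`, which is
`≠ 0`: `H1 o l i j` (i.e. `CR (s o) (s l) (s i) (s j)`, about `(s o - s l)(s i - s j)` and `(s o - s i)(s l - s j)`) with
`p = n o - n i ≠ 0`, `q = -(n o - n l)`.  By `primary_inj` `(X - lam) η_j = 0`, so `e_{oi} η_j = 0`, so
`e_{ji} η_o = 0` (`s o ≠ s i`), and `e_{ji}(lam) = κ_j - κ_i ≠ 0` gives `η_o = 0`. -/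
theorem caseA2 {V : Type*} [AddCommGroup V] [Module ℂ V] (T : Module.End ℂ V) {s : Fin 5 → ℝ}
    (hs : Function.Injective s) (h1 : H1 s) {n : Fin 5 → ℕ} (hn : Function.Injective n)
    {η : Fin 5 → V} (h : Rel T s n η) {lam : ℂ} (h0 : lam ≠ 0)
    {ν : ℕ} (hη : ∀ j, aeval T ((X - C lam) ^ ν) (η j) = 0) {o i j l : Fin 5}
    (hoi : o ≠ i) (hoj : o ≠ j) (hol : o ≠ l) (hij : i ≠ j) (hil : i ≠ l) (hjl : j ≠ l)
    (hi : lam ^ n i = lam ^ n o) (hj : lam ^ n j ≠ lam ^ n o) (hl : lam ^ n l = lam ^ n o) :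
    η o = 0 := by
  classical
  let _ : Module ℂ[X] V := Module.compHom V (aeval T).toRingHom
  have act : ∀ (P : ℂ[X]) (v : V), aeval T P v = P • v := fun _ _ => rfl
  have act2 : ∀ (c : ℂ) (P : ℂ[X]) (v : V), c • aeval T P v = (C c * P) • v := by
    intro c P v
    rw [← act, map_mul, aeval_C]
    rfl
  have R : ∀ a b c : Fin 5, (C ((s b - s a : ℝ) : ℂ) * (X ^ n c - X ^ n a : ℂ[X])) • η b =
      (C ((s c - s a : ℝ) : ℂ) * (X ^ n b - X ^ n a : ℂ[X])) • η c := by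
    intro a b c
    rw [← act2, ← act2]
    exact h a b c
  have r1 := R i o j
  have r2 := R l o j
  simp only [Complex.ofReal_sub, map_sub] at r1 r2
  set si : ℂ[X] := C ((s i : ℝ) : ℂ) with hsi
  set sj : ℂ[X] := C ((s j : ℝ) : ℂ) with hsj
  set sl : ℂ[X] := C ((s l : ℝ) : ℂ) with hsl
  set so : ℂ[X] := C ((s o : ℝ) : ℂ) with hso
  obtain ⟨goi, hgoi, egoi⟩ := factor_diff h0 hi.symm
  obtain ⟨gol, hgol, egol⟩ := factor_diff h0 hl.symm
  have hsne : ∀ a b : Fin 5, a ≠ b → ((s a : ℝ) : ℂ) - ((s b : ℝ) : ℂ) ≠ 0 := by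
    intro a b hab hh
    exact hab (hs (Complex.ofReal_injective (sub_eq_zero.1 hh)))
  have hκj : lam ^ n j - lam ^ n o ≠ 0 := sub_ne_zero.2 hj
  have prim : ∀ (P : ℂ[X]) (v : V), aeval T ((X - C lam) ^ ν) v = 0 →
      aeval T ((X - C lam) ^ ν) (P • v) = 0 := by
    intro P v hv
    rw [act] at hv ⊢
    rw [smul_comm, hv, smul_zero]
  have key : ((so - sl) * (sj - si) * (X ^ n j - X ^ n l) * goi -
      (so - si) * (sj - sl) * (X ^ n j - X ^ n i) * gol : ℂ[X]) •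
        ((X - C lam : ℂ[X]) • η j) = 0 := by
    have e1 : ((so - sl) * (sj - si) * (X ^ n j - X ^ n l) * goi -
      (so - si) * (sj - sl) * (X ^ n j - X ^ n i) * gol : ℂ[X]) •
        ((X - C lam : ℂ[X]) • η j) = ((so - sl) * (sj - si) * (X ^ n j - X ^ n l) * (X ^ n o - X ^ n i) -
      (so - si) * (sj - sl) * (X ^ n j - X ^ n i) * (X ^ n o - X ^ n l) : ℂ[X]) • η j := by
      rw [hgoi, hgol]; module
    rw [e1]
    linear_combination (norm := module) (-((so - sl) * (X ^ n j - X ^ n l)) : ℂ[X]) • r1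
      + ((so - si) * (X ^ n j - X ^ n i) : ℂ[X]) • r2
  have y0 : (X - C lam : ℂ[X]) • η j = 0 := by
    refine primary_inj T (lam := lam) (ν := ν) (P := ((so - sl) * (sj - si) * (X ^ n j - X ^ n l) * goi -
      (so - si) * (sj - sl) * (X ^ n j - X ^ n i) * gol : ℂ[X])) ?_ (prim _ _ (hη j)) key
    have e : (((so - sl) * (sj - si) * (X ^ n j - X ^ n l) * goi -
      (so - si) * (sj - sl) * (X ^ n j - X ^ n i) * gol : ℂ[X])).eval lam =
        (lam ^ n j - lam ^ n o) * (lam ^ n o / lam) *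
          ((((s o - s l) * (s j - s i) * ((n o : ℝ) - n i) - (s o - s i) * (s j - s l) * ((n o : ℝ) - n l) : ℝ)) : ℂ) := by
      simp only [hsi, hsj, hsl, hso, eval_sub, eval_mul, eval_C, eval_pow, eval_X, egoi, egol, hi, hl]
      push_cast
      ring
    rw [e]
    refine mul_ne_zero (mul_ne_zero hκj (div_ne_zero (pow_ne_zero _ h0) h0)) ?_
    rw [Complex.ofReal_ne_zero]
    intro hz
    have := h1 o l i j hol hoi hoj hil.symm hjl.symm hij ((n o : ℤ) - n i) (-((n o : ℤ) - n l)) (by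
      push_cast
      linear_combination -hz)
    have h2 : (n o : ℤ) = n i := by linarith [this.1]
    exact hoi (hn (by exact_mod_cast h2))
  have z0 : ((so - si) * (X ^ n j - X ^ n i) : ℂ[X]) • η o = 0 := by
    rw [r1]
    have : ((sj - si) * (X ^ n o - X ^ n i) : ℂ[X]) • η j =
        ((sj - si) * goi) • ((X - C lam : ℂ[X]) • η j) := by rw [hgoi]; module
    rw [this, y0, smul_zero]
  refine primary_inj T (lam := lam) (ν := ν) (P := ((so - si) * (X ^ n j - X ^ n i) : ℂ[X])) ?_ (hη o) z0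
  simp only [hsi, hso, eval_sub, eval_mul, eval_C, eval_pow, eval_X, hi]
  exact mul_ne_zero (hsne _ _ hoi) hκj

end Pool.Agent.XA
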