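import Pool.Agent.XA.Q2
import Pool.Agent.XA.Q3

set_option autoImplicit false
open MeasureTheory Set

namespace Pool.Agent.XA

open Polynomial in
/-- **Case A.**  Choose `l ∉ {o, i, j}` in `Fin 5` and apply `caseA1` or `caseA2`. -/
theorem caseA {V : Type*} [AddCommGroup V] [Module ℂ V] (T : Module.End ℂ V) {s : Fin 5 → ℝ}
    (hs : Function.Injective s) (h1 : H1 s) {n : Fin 5 → ℕ} (hn : Function.Injective n)
    {η : Fin 5 → V} (h : Rel T s n η) {lam : ℂ} (h0 : lam ≠ 0)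
    {ν : ℕ} (hη : ∀ j, aeval T ((X - C lam) ^ ν) (η j) = 0) {o i j : Fin 5}
    (hoi : o ≠ i) (hi : lam ^ n i = lam ^ n o) (hj : lam ^ n j ≠ lam ^ n o) :
    η o = 0 := by
  have hoj : o ≠ j := by
    rintro rfl
    exact hj rfl
  have hij : i ≠ j := by
    rintro rfl
    exact hj hi
  have hex : ∀ o i j : Fin 5, ∃ l : Fin 5, o ≠ l ∧ i ≠ l ∧ j ≠ l := by decide
  obtain ⟨l, hol, hil, hjl⟩ := hex o i j
  by_cases hl : lam ^ n l = lam ^ n o
  · exact caseA2 T hs h1 hn h h0 hη hoi hoj hol hij hil hjl hi hj hl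
  · exact caseA1 T hs h hη hoi hoj hol hij hil hjl hi hj hl

end Pool.Agent.XA
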