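import Pool.Agent.XA.Q1

set_option autoImplicit false
open MeasureTheory Set

namespace Pool.Agent.XA

open Polynomial in
/-- **Case C: all `κ` equal.**  Let `i, j, k` be three different indices `≠ o`.  `Rel i o j`:
`(s o - s i) e_{ji} η_o = (s j - s i) e_{oi} η_j`; `Rel k o j`: `(s o - s k) e_{jk} η_o = (s j - s k) e_{ok} η_j`.
`factor_diff`: `e_{ab} = (X - lam) g_{ab}`, `g_{ab}(lam) = (n a - n b) κ / lam`.  With `x = (X - lam) η_o`,
`y = (X - lam) η_j`: `(s o - s i) g_{ji} x = (s j - s i) g_{oi} y`, `(s o - s k) g_{jk} x = (s j - s k) g_{ok} y`, hence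
`P x = 0` with `P = (s o - s i)(s j - s k) g_{ji} g_{ok} - (s o - s k)(s j - s i) g_{jk} g_{oi}`,
`P(lam) = (κ / lam)² ((s o - s i)(s j - s k)(n j - n i)(n o - n k) - (s o - s k)(s j - s i)(n j - n k)(n o - n i)) ≠ 0`
by `H1 o i k j` (`CR` is about `(s o - s i)(s k - s j)` and `(s o - s k)(s i - s j)`) with
`p = (n j - n i)(n o - n k) ≠ 0`.  `primary_inj`: `x = 0`. -/
theorem caseC {V : Type*} [AddCommGroup V] [Module ℂ V] (T : Module.End ℂ V) {s : Fin 5 → ℝ}
    (hs : Function.Injective s) (h1 : H1 s) {n : Fin 5 → ℕ} (hn : Function.Injective n)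
    {η : Fin 5 → V} (h : Rel T s n η) {lam : ℂ} (h0 : lam ≠ 0)
    {ν : ℕ} (hη : ∀ j, aeval T ((X - C lam) ^ ν) (η j) = 0) (o : Fin 5)
    (hall : ∀ j, lam ^ n j = lam ^ n o) :
    aeval T (X - C lam) (η o) = 0 := by
  have hex : ∀ o : Fin 5, ∃ i j k : Fin 5, o ≠ i ∧ o ≠ j ∧ o ≠ k ∧ i ≠ j ∧ i ≠ k ∧ j ≠ k := by
    decide
  obtain ⟨i, j, k, hoi, hoj, hok, hij, hik, hjk⟩ := hex o
  obtain ⟨gji, hgji, egji⟩ := factor_diff h0 (a := n j) (b := n i) ((hall j).trans (hall i).symm)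
  obtain ⟨goi, hgoi, egoi⟩ := factor_diff h0 (a := n o) (b := n i) (hall i).symm
  obtain ⟨gjk, hgjk, egjk⟩ := factor_diff h0 (a := n j) (b := n k) ((hall j).trans (hall k).symm)
  obtain ⟨gok, hgok, egok⟩ := factor_diff h0 (a := n o) (b := n k) (hall k).symm
  have hc : ∀ (g : ℂ[X]) (v : V),
      aeval T ((X - C lam) * g) v = aeval T g (aeval T (X - C lam) v) := by
    intro g v
    rw [mul_comm, map_mul, Module.End.mul_apply]
  have r1 := h i o j
  have r2 := h k o j
  rw [hgji, hgoi, hc, hc] at r1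
  rw [hgjk, hgok, hc, hc] at r2
  have e1 := congrArg (fun v => ((s j - s k : ℝ) : ℂ) • aeval T gok v) r1
  have e2 := congrArg (fun v => ((s j - s i : ℝ) : ℂ) • aeval T goi v) r2
  simp only [map_smul] at e1 e2
  have hcomm : ∀ (g g' : ℂ[X]) (v : V), aeval T g (aeval T g' v) = aeval T g' (aeval T g v) := by
    intro g g' v
    rw [← Module.End.mul_apply, ← Module.End.mul_apply, ← map_mul, ← map_mul, mul_comm]
  rw [hcomm gok goi] at e1
  have hP : aeval T (C (((s o - s i : ℝ) : ℂ) * ((s j - s k : ℝ) : ℂ)) * (gok * gji) -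
      C (((s o - s k : ℝ) : ℂ) * ((s j - s i : ℝ) : ℂ)) * (goi * gjk))
      (aeval T (X - C lam) (η o)) = 0 := by
    have hlin : ∀ (c₁ c₂ : ℂ) (P₁ P₂ P₃ P₄ : ℂ[X]) (v : V),
        aeval T (C c₁ * (P₁ * P₂) - C c₂ * (P₃ * P₄)) v =
          c₁ • aeval T P₁ (aeval T P₂ v) - c₂ • aeval T P₃ (aeval T P₄ v) := by
      intro c₁ c₂ P₁ P₂ P₃ P₄ v
      simp only [map_sub, LinearMap.sub_apply, map_mul, aeval_C, Module.End.mul_apply,
        Module.algebraMap_end_apply]
    rw [hlin]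
    rw [smul_smul] at e1 e2
    have e1' : (((s o - s i : ℝ) : ℂ) * ((s j - s k : ℝ) : ℂ)) •
        aeval T gok (aeval T gji (aeval T (X - C lam) (η o))) =
        ((s j - s k : ℝ) : ℂ) • ((s j - s i : ℝ) : ℂ) •
          aeval T goi (aeval T gok (aeval T (X - C lam) (η j))) := by
      rw [mul_comm, ← e1]
    have e2' : (((s o - s k : ℝ) : ℂ) * ((s j - s i : ℝ) : ℂ)) •
        aeval T goi (aeval T gjk (aeval T (X - C lam) (η o))) =
        ((s j - s i : ℝ) : ℂ) • ((s j - s k : ℝ) : ℂ) •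
          aeval T goi (aeval T gok (aeval T (X - C lam) (η j))) := by
      rw [mul_comm, ← e2]
    rw [e1', e2', smul_smul, smul_smul, mul_comm, sub_self]
  refine primary_inj T (lam := lam) (ν := ν) ?_ ?_ hP
  · intro hz
    have hcr := h1 o i k j hoi hok hoj hik hij hjk.symm
    simp only [eval_sub, eval_mul, eval_C] at hz
    rw [egji, egoi, egjk, egok, hall i, hall k] at hz
    set κ := lam ^ n o / lam with hκ
    have hκ0 : κ ≠ 0 := div_ne_zero (pow_ne_zero _ h0) h0
    have hE : ((((s o - s i) * (s j - s k) * (((n j : ℝ) - n i) * ((n o : ℝ) - n k)) -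
        (s o - s k) * (s j - s i) * (((n j : ℝ) - n k) * ((n o : ℝ) - n i)) : ℝ)) : ℂ) *
        κ ^ 2 = 0 := by
      push_cast
      push_cast at hz
      linear_combination hz
    have hE' := (mul_eq_zero.1 hE).resolve_right (pow_ne_zero 2 hκ0)
    have hE2 : (s o - s i) * (s j - s k) * (((n j : ℝ) - n i) * ((n o : ℝ) - n k)) -
        (s o - s k) * (s j - s i) * (((n j : ℝ) - n k) * ((n o : ℝ) - n i)) = 0 := by
      exact_mod_cast hE'
    have hpq := hcr (((n j : ℤ) - n i) * ((n o : ℤ) - n k))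
      (-(((n j : ℤ) - n k) * ((n o : ℤ) - n i))) (by push_cast; linear_combination -hE2)
    have hp := hpq.1
    rcases mul_eq_zero.1 hp with hh | hh
    · have : n j = n i := by omega
      exact hij (hn this).symm
    · have : n o = n k := by omega
      exact hok (hn this)
  · rw [hcomm, hη, map_zero]

end Pool.Agent.XA
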