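import Pool.Agent.XA.Q1

set_option autoImplicit false
open MeasureTheory Set

namespace Pool.Agent.XA

open Polynomial in
/-- **Case B3: all `κ` different.**  `Rel 2 0 1`: `(s 0 - s 2) e_{12} η_0 = (s 1 - s 2) e_{02} η_1`; `Rel 3 0 1`:
`(s 0 - s 3) e_{13} η_0 = (s 1 - s 3) e_{03} η_1`.  So `P η_0 = 0` with
`P = (s 0 - s 2)(s 1 - s 3) e_{12} e_{03} - (s 0 - s 3)(s 1 - s 2) e_{13} e_{02}`.  If `η_0 ≠ 0`, then `P(lam) = 0`
(`primary_inj`), i.e. the first relation in `MB` (with `n i` cast to `ℤ`, `zpow_natCast`; all signs cancel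
in pairs); in the same way with `4` instead of `3` the second relation.  This contradicts
`MB (s 0) (s 1) (s 2) (s 3) (s 4)`. -/
theorem caseB3 {V : Type*} [AddCommGroup V] [Module ℂ V] (T : Module.End ℂ V) {s : Fin 5 → ℝ}
    (h2 : MB (s 0) (s 1) (s 2) (s 3) (s 4)) {n : Fin 5 → ℕ}
    {η : Fin 5 → V} (h : Rel T s n η) {lam : ℂ} (h0 : lam ≠ 0)
    {ν : ℕ} (hη : ∀ j, aeval T ((X - C lam) ^ ν) (η j) = 0)
    (hinj : Function.Injective (fun j => lam ^ n j)) : η 0 = 0 := by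
  by_contra hne
  have hcomm : ∀ (g g' : ℂ[X]) (v : V), aeval T g (aeval T g' v) = aeval T g' (aeval T g v) := by
    intro g g' v
    rw [← Module.End.mul_apply, ← Module.End.mul_apply, ← map_mul, ← map_mul, mul_comm]
  have hlin : ∀ (c₁ c₂ : ℂ) (P₁ P₂ P₃ P₄ : ℂ[X]) (v : V),
      aeval T (C c₁ * (P₁ * P₂) - C c₂ * (P₃ * P₄)) v =
        c₁ • aeval T P₁ (aeval T P₂ v) - c₂ • aeval T P₃ (aeval T P₄ v) := by
    intro c₁ c₂ P₁ P₂ P₃ P₄ v
    simp only [map_sub, LinearMap.sub_apply, map_mul, aeval_C, Module.End.mul_apply,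
      Module.algebraMap_end_apply]
  have key : ∀ a b : Fin 5,
      (s 0 - s a : ℂ) * (s 1 - s b) * ((lam ^ n 1 - lam ^ n a) * (lam ^ n 0 - lam ^ n b)) -
      (s 0 - s b) * (s 1 - s a) * ((lam ^ n 1 - lam ^ n b) * (lam ^ n 0 - lam ^ n a)) = 0 := by
    intro a b
    by_contra hPl
    have r1 := h a 0 1
    have r2 := h b 0 1
    generalize hA : (X ^ n 1 - X ^ n a : ℂ[X]) = A at r1
    generalize hB : (X ^ n 0 - X ^ n a : ℂ[X]) = B at r1
    generalize hA' : (X ^ n 1 - X ^ n b : ℂ[X]) = A' at r2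
    generalize hB' : (X ^ n 0 - X ^ n b : ℂ[X]) = B' at r2
    have e1 := congrArg (fun v => ((s 1 - s b : ℝ) : ℂ) • aeval T B' v) r1
    have e2 := congrArg (fun v => ((s 1 - s a : ℝ) : ℂ) • aeval T B v) r2
    simp only [map_smul] at e1 e2
    rw [hcomm B' B] at e1
    have hP : aeval T (C (((s 1 - s b : ℝ) : ℂ) * ((s 0 - s a : ℝ) : ℂ)) * (B' * A) -
        C (((s 1 - s a : ℝ) : ℂ) * ((s 0 - s b : ℝ) : ℂ)) * (B * A')) (η 0) = 0 := by
      rw [hlin, ← smul_smul, ← smul_smul, e1, e2, smul_smul, smul_smul, mul_comm, sub_self]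
    apply hne
    refine primary_inj T (lam := lam) (ν := ν) ?_ (hη 0) hP
    intro hz
    apply hPl
    rw [← hA, ← hB, ← hA', ← hB'] at hz
    simp only [eval_sub, eval_mul, eval_C, eval_pow, eval_X] at hz
    push_cast at hz
    linear_combination hz
  have h23 := key 2 3
  have h24 := key 2 4
  refine h2 lam h0 (fun i => (n i : ℤ)) ?_ ⟨?_, ?_⟩
  · intro i j hij
    simp only [zpow_natCast] at hij
    exact hinj hij
  · simp only [zpow_natCast]
    linear_combination h23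
  · simp only [zpow_natCast]
    linear_combination h24

end Pool.Agent.XA
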