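import Pool.Agent.XA.Q4
import Pool.Agent.XA.Q5
import Pool.Agent.XA.Q6

set_option autoImplicit false
open MeasureTheory Set

namespace Pool.Agent.XA

open Polynomial in
/-- **The primary theorem.**  Let `κ j = lam ^ n j`.
If `κ i = κ 0` for some `i ≠ 0`: if `κ j ≠ κ 0` for some `j`, `caseA` gives `η 0 = 0`; otherwise `caseC`
gives `(X - C lam) η 0 = 0`, and `X ^ n 1 - X ^ n 2 = (X - C lam) g` (`factor_diff`).
Otherwise `κ i ≠ κ 0` for all `i ≠ 0`.  If `κ` is injective: `caseB3`.  If not, `κ i = κ j` with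
`i ≠ j`, both `≠ 0`; `caseA` (base `i`, with `κ 0 ≠ κ i`) gives `η i = 0`.  If `κ k ≠ κ i` for some `k ≠ 0`:
`Rel k 0 i`: `(s 0 - s k) e_{ik} η_0 = (s i - s k) e_{0k} η_i = 0`, so `e_{ik} η_0 = 0` and `primary_inj` gives
`η 0 = 0`.  Otherwise all `κ k`, `k ≠ 0`, are equal, so `η k = 0` for all `k ≠ 0` (`caseA` with base `k`), and
`Rel 1 0 2`: `(s 0 - s 1) e_{21} η_0 = (s 2 - s 1) e_{01} η_2 = 0`. -/
theorem primary_thm {V : Type*} [AddCommGroup V] [Module ℂ V] (T : Module.End ℂ V) {s : Fin 5 → ℝ}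
    (hs : Function.Injective s) (h1 : H1 s) (h2 : MB (s 0) (s 1) (s 2) (s 3) (s 4))
    {n : Fin 5 → ℕ} (hn : Function.Injective n)
    {η : Fin 5 → V} (h : Rel T s n η) {lam : ℂ} (h0 : lam ≠ 0)
    {ν : ℕ} (hη : ∀ j, aeval T ((X - C lam) ^ ν) (η j) = 0) :
    aeval T (X ^ n 1 - X ^ n 2 : ℂ[X]) (η 0) = 0 := by
  have hsne : ∀ a b : Fin 5, a ≠ b → ((s a - s b : ℝ) : ℂ) ≠ 0 := by
    intro a b hab h'
    have : s a - s b = 0 := by exact_mod_cast h'
    exact hab (hs (sub_eq_zero.1 this))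
  by_cases h1c : ∃ i : Fin 5, i ≠ 0 ∧ lam ^ n i = lam ^ n 0
  · obtain ⟨i, hi0, hi⟩ := h1c
    by_cases h2c : ∃ j : Fin 5, lam ^ n j ≠ lam ^ n 0
    · obtain ⟨j, hj⟩ := h2c
      rw [caseA T hs h1 hn h h0 hη (o := 0) (i := i) (j := j) hi0.symm hi hj, map_zero]
    · push Not at h2c
      have hx := caseC T hs h1 hn h h0 hη 0 h2c
      obtain ⟨g, hg, -⟩ := factor_diff h0 (a := n 1) (b := n 2) ((h2c 1).trans (h2c 2).symm)
      rw [hg, mul_comm, map_mul, Module.End.mul_apply, hx, map_zero]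
  · push Not at h1c
    by_cases hinj : Function.Injective (fun j => lam ^ n j)
    · rw [caseB3 T h2 h h0 hη hinj, map_zero]
    · rw [Function.Injective] at hinj
      push Not at hinj
      obtain ⟨i, j, hij, hne⟩ := hinj
      have hi0 : i ≠ 0 := by
        rintro rfl
        exact h1c j hne.symm hij.symm
      have hηi : η i = 0 := caseA T hs h1 hn h h0 hη (o := i) (i := j) (j := 0) hne hij.symm
        (h1c i hi0).symm
      by_cases h3c : ∃ k : Fin 5, k ≠ 0 ∧ lam ^ n k ≠ lam ^ n i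
      · obtain ⟨k, hk0, hk⟩ := h3c
        have r := h k 0 i
        rw [hηi, map_zero, smul_zero] at r
        have r' := (smul_eq_zero.1 r).resolve_left (hsne 0 k hk0.symm)
        have : η 0 = 0 := primary_inj T (lam := lam) (ν := ν)
          (by simp only [eval_sub, eval_pow, eval_X]; exact sub_ne_zero.2 hk.symm) (hη 0) r'
        rw [this, map_zero]
      · push Not at h3c
        have h12 : lam ^ n 1 = lam ^ n 2 := (h3c 1 (by decide)).trans (h3c 2 (by decide)).symm
        have hη2 : η 2 = 0 := caseA T hs h1 hn h h0 hη (o := 2) (i := 1) (j := 0) (by decide)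
          h12 (h1c 2 (by decide)).symm
        have r := h 1 0 2
        rw [hη2, map_zero, smul_zero] at r
        have r' := (smul_eq_zero.1 r).resolve_left (hsne 0 1 (by decide))
        have : (X ^ n 1 - X ^ n 2 : ℂ[X]) = -(X ^ n 2 - X ^ n 1) := by ring
        rw [this, map_neg, LinearMap.neg_apply, r', neg_zero]

end Pool.Agent.XA
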