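import Pool.Agent.XA.Q7

set_option autoImplicit false
open MeasureTheory Set

namespace Pool.Agent.XA

open Polynomial in
/-- **Globalisation.**  Suppose `x = aeval T (X ^ n 1 - X ^ n 2) (η 0) ≠ 0`.  `aeval T D x = 0` (commute).
`exists_primary`: `lam`, `ν`, `N` with `D = (X - C lam) ^ ν * N`, `aeval T N x ≠ 0`; `lam ≠ 0` since `lam` is a root
of `D` and `D.coeff 0 ≠ 0` (`coeff_zero_eq_eval_zero`).  The vectors `η' j = aeval T N (η j)` satisfy `Rel` and
are killed by `(X - C lam) ^ ν`.  `primary_thm` gives `aeval T (X ^ n 1 - X ^ n 2) (η' 0) = 0`, i.e.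
`aeval T N x = 0`, a contradiction. -/
theorem global_thm {V : Type*} [AddCommGroup V] [Module ℂ V] (T : Module.End ℂ V) {s : Fin 5 → ℝ}
    (hs : Function.Injective s) (h1 : H1 s) (h2 : MB (s 0) (s 1) (s 2) (s 3) (s 4))
    {n : Fin 5 → ℕ} (hn : Function.Injective n)
    {η : Fin 5 → V} (h : Rel T s n η) {D : ℂ[X]} (hD0 : D.coeff 0 ≠ 0)
    (hD : ∀ j, aeval T D (η j) = 0) :
    aeval T (X ^ n 1 - X ^ n 2 : ℂ[X]) (η 0) = 0 := by
  have hcomm : ∀ (g g' : ℂ[X]) (v : V), aeval T g (aeval T g' v) = aeval T g' (aeval T g v) := by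
    intro g g' v
    rw [← Module.End.mul_apply, ← Module.End.mul_apply, ← map_mul, ← map_mul, mul_comm]
  by_contra hx
  have hD0' : D ≠ 0 := by
    rintro rfl
    exact hD0 (coeff_zero 0)
  have hDx : aeval T D (aeval T (X ^ n 1 - X ^ n 2 : ℂ[X]) (η 0)) = 0 := by
    rw [hcomm, hD, map_zero]
  obtain ⟨lam, ν, N, hroot, hDN, hN⟩ := exists_primary T hD0' hx hDx
  have h0 : lam ≠ 0 := by
    rintro rfl
    apply hD0
    rw [coeff_zero_eq_eval_zero]
    exact hroot
  have hRel : Rel T s n (fun j => aeval T N (η j)) := by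
    intro i j k
    have r := congrArg (fun v => aeval T N v) (h i j k)
    simp only [map_smul] at r
    rw [hcomm N, hcomm N] at r
    exact r
  have hη' : ∀ j, aeval T ((X - C lam) ^ ν) (aeval T N (η j)) = 0 := by
    intro j
    rw [← Module.End.mul_apply, ← map_mul, ← hDN]
    exact hD j
  have := primary_thm T hs h1 h2 hn hRel h0 hη'
  apply hN
  rw [hcomm]
  exact this

end Pool.Agent.XA
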