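import Pool.Agent.XA.Q0

set_option autoImplicit false
open MeasureTheory Set

namespace Pool.Agent.XA

open Polynomial in
/-- the linear recurrence with the coefficients of `D`, at the place `l` -/
def Rec (D : ℝ[X]) (x : ℤ → ℝ) (l : ℤ) : Prop :=
  ∑ k ∈ Finset.range (D.natDegree + 1), D.coeff k * x (l + k) = 0

end Pool.Agent.XA
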