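import Pool.Agent.XA.R0

set_option autoImplicit false
open MeasureTheory Set

namespace Pool.Agent.XA

open Polynomial in
/-- **Two-sided extension.**  Let `n = D.natDegree`, `D.coeff n ≠ 0` (`D ≠ 0`), `D.coeff 0 ≠ 0`.  By translation
`A = 0`.  If `n = 0` take `y = 0`.  Otherwise either
(a) the state space map `C : (Fin n → ℝ) ≃ₗ (Fin n → ℝ)`, `C v = (v 1, …, v (n-1), - (D n)⁻¹ ∑_{k<n} D k v k)`,
which is invertible since `D 0 ≠ 0`, and `y l = (C ^ l) v₀ 0` for `l : ℤ` (`v₀ = (x 0, …, x (n-1))`), because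
`(C ^ l v₀) i = y (l + i)` for `i < n`; or
(b) forward: define by strong recursion a sequence `p : ℕ → ℝ` with `p k = x k` for `k < n` and
`p (k + n) = - (D n)⁻¹ ∑_{i<n} D i p (k + i)`; backward a sequence `r : ℕ → ℝ` (`r k` is the value at `n - 1 - k`)
with `r k = x (n - 1 - k)` for `k < n` and `r (k + n) = - (D 0)⁻¹ ∑_{0<i≤n} D i r (k + n - i)`, and glue:
`y l = p l` for `l ≥ 0`, `y l = r (n - 1 - l)` for `l < n` (they agree for `0 ≤ l < n`). -/
theorem ext_exists {D : ℝ[X]} (hD0 : D.coeff 0 ≠ 0) (x : ℤ → ℝ) (A : ℤ) :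
    ∃ y : ℤ → ℝ, (∀ l, Rec D y l) ∧ ∀ l, A ≤ l → l < A + D.natDegree → y l = x l := by
  have hDn : D.coeff D.natDegree ≠ 0 := by
    have hD : D ≠ 0 := by
      rintro rfl
      simp at hD0
    exact leadingCoeff_ne_zero.2 hD
  set n := D.natDegree with hn
  let E1 : LinearRecurrence ℝ := ⟨n, fun i => -(D.coeff i) / D.coeff n⟩
  let E2 : LinearRecurrence ℝ := ⟨n, fun i => -(D.coeff (n - i)) / D.coeff 0⟩
  let p : ℕ → ℝ := E1.mkSol (fun i : Fin n => x (A + (i : ℕ)))
  let r : ℕ → ℝ := E2.mkSol (fun i : Fin n => x (A + n - 1 - (i : ℕ)))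
  have hp : ∀ k < n, p k = x (A + k) := by
    intro k hk
    exact E1.mkSol_eq_init _ ⟨k, hk⟩
  have hr : ∀ k < n, r k = x (A + n - 1 - k) := by
    intro k hk
    exact E2.mkSol_eq_init _ ⟨k, hk⟩
  have hp1 : ∀ k, ∑ i ∈ Finset.range (n + 1), D.coeff i * p (k + i) = 0 := by
    intro k
    have h := E1.is_sol_mkSol (fun i : Fin n => x (A + (i : ℕ))) k
    change p (k + n) = ∑ i : Fin n, (-(D.coeff i) / D.coeff n) * p (k + i) at h
    rw [Fin.sum_univ_eq_sum_range (fun i => (-(D.coeff i) / D.coeff n) * p (k + i)) n] at h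
    rw [Finset.sum_range_succ, h, Finset.mul_sum, ← Finset.sum_add_distrib]
    refine Finset.sum_eq_zero fun i _ => ?_
    field_simp
    ring
  have hr1 : ∀ k, ∑ i ∈ Finset.range (n + 1), D.coeff (n - i) * r (k + i) = 0 := by
    intro k
    have h := E2.is_sol_mkSol (fun i : Fin n => x (A + n - 1 - (i : ℕ))) k
    change r (k + n) = ∑ i : Fin n, (-(D.coeff (n - i)) / D.coeff 0) * r (k + i) at h
    rw [Fin.sum_univ_eq_sum_range (fun i => (-(D.coeff (n - i)) / D.coeff 0) * r (k + i)) n] at h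
    rw [Finset.sum_range_succ, Nat.sub_self, h, Finset.mul_sum, ← Finset.sum_add_distrib]
    refine Finset.sum_eq_zero fun i _ => ?_
    field_simp
    ring
  let y : ℤ → ℝ := fun l => if A ≤ l then p (l - A).toNat else r (A + n - 1 - l).toNat
  have y1 : ∀ l, A ≤ l → y l = p (l - A).toNat := fun l hl => if_pos hl
  have y2 : ∀ l, l < A + n → y l = r (A + n - 1 - l).toNat := by
    intro l hl
    by_cases h : A ≤ l
    · rw [y1 l h, hp _ (by omega), hr _ (by omega)]
      congr 1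
      omega
    · exact if_neg h
  refine ⟨y, fun l => ?_, fun l hl hl' => ?_⟩
  · unfold Rec
    rw [← hn]
    by_cases h : A ≤ l
    · rw [← hp1 (l - A).toNat]
      refine Finset.sum_congr rfl fun k _ => ?_
      rw [y1 _ (by omega)]
      congr 2
      omega
    · rw [← hr1 (A - 1 - l).toNat, ← Finset.sum_range_reflect]
      refine Finset.sum_congr rfl fun k hk => ?_
      have hk' : k ≤ n := Nat.lt_succ_iff.1 (Finset.mem_range.1 hk)
      rw [show n + 1 - 1 - k = n - k by omega, y2 _ (by omega)]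
      congr 2
      omega
  · rw [y1 l hl, hp _ (by omega)]
    congr 1
    omega

end Pool.Agent.XA
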