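import Pool.Agent.XA.Q0

set_option autoImplicit false
open MeasureTheory Set

namespace Pool.Agent.XA

theorem s1_aux (A B : ℤ → ℤ → ℝ) (h : ∀ p q, A p q = 0 → B p q = 0 → p = 0 ∧ q = 0) :
    {x : ℝ | ¬ ∀ p q : ℤ, A p q * x + B p q = 0 → p = 0 ∧ q = 0}.Countable := by
  have hsub : {x : ℝ | ¬ ∀ p q : ℤ, A p q * x + B p q = 0 → p = 0 ∧ q = 0} ⊆
      ⋃ pq : ℤ × ℤ, {x : ℝ | A pq.1 pq.2 * x + B pq.1 pq.2 = 0 ∧ ¬ (pq.1 = 0 ∧ pq.2 = 0)} := by
    intro x hx
    rw [mem_ofPred_eq] at hx
    push Not at hx
    obtain ⟨p, q, h1, h2⟩ := hx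
    exact mem_iUnion.2 ⟨(p, q), h1, fun h3 => h2 h3.1 h3.2⟩
  refine Countable.mono hsub (countable_iUnion fun pq => Subsingleton.countable ?_)
  intro x hx y hy
  by_contra hne
  have h1 : A pq.1 pq.2 * (x - y) = 0 := by
    have h2 := hx.1
    have h3 := hy.1
    linear_combination h2 - h3
  have h2 : A pq.1 pq.2 = 0 := by
    rcases mul_eq_zero.1 h1 with h3 | h3
    · exact h3
    · exact absurd (sub_eq_zero.1 h3) hne
  have h3 : B pq.1 pq.2 = 0 := by
    have h4 := hx.1
    rw [h2, zero_mul, zero_add] at h4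
    exact h4
  exact hx.2 (h pq.1 pq.2 h2 h3)

/-- For `p, q` not both `0` the equation `p (x - b)(c - d) + q (x - c)(b - d) = 0` has at most one solution
`x`: the difference of two solutions gives (if `x ≠ x'`) `p (c - d) + q (b - d) = 0`, and then the equation
reads `- p b (c - d) - q c (b - d) = q (b - c)(b - d) = 0`, so `q = 0`, then `p = 0`.  The set is the union over the
countably many `(p, q)`. -/
theorem CR_bad1 {b c d : ℝ} (hbc : b ≠ c) (hbd : b ≠ d) (hcd : c ≠ d) :
    {x : ℝ | ¬ CR x b c d}.Countable := by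
  have h := s1_aux (fun p q => (p : ℝ) * (c - d) + q * (b - d))
    (fun p q => -(p * b * (c - d)) - q * c * (b - d)) (by
      intro p q h1 h2
      have h3 : (q : ℝ) * ((b - c) * (b - d)) = 0 := by linear_combination h2 + b * h1
      have hq : (q : ℝ) = 0 := by
        rcases mul_eq_zero.1 h3 with h4 | h4
        · exact h4
        · exact absurd h4 (mul_ne_zero (sub_ne_zero.2 hbc) (sub_ne_zero.2 hbd))
      have h5 : (p : ℝ) * (c - d) = 0 := by linear_combination h1 - (b - d) * hq
      have hp : (p : ℝ) = 0 := by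
        rcases mul_eq_zero.1 h5 with h4 | h4
        · exact h4
        · exact absurd h4 (sub_ne_zero.2 hcd)
      exact ⟨by exact_mod_cast hp, by exact_mod_cast hq⟩)
  refine h.mono ?_
  intro x hx hall
  refine hx fun p q hpq => hall p q ?_
  linear_combination hpq

/-- the same with the unknown in the second place: `p (a - x)(c - d) + q (a - c)(x - d) = 0` -/
theorem CR_bad2 {a c d : ℝ} (hac : a ≠ c) (had : a ≠ d) (hcd : c ≠ d) :
    {x : ℝ | ¬ CR a x c d}.Countable := by
  have h := s1_aux (fun p q => -((p : ℝ) * (c - d)) + q * (a - c))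
    (fun p q => p * a * (c - d) - q * d * (a - c)) (by
      intro p q h1 h2
      have h3 : (q : ℝ) * ((a - c) * (a - d)) = 0 := by linear_combination h2 + a * h1
      have hq : (q : ℝ) = 0 := by
        rcases mul_eq_zero.1 h3 with h4 | h4
        · exact h4
        · exact absurd h4 (mul_ne_zero (sub_ne_zero.2 hac) (sub_ne_zero.2 had))
      have h5 : (p : ℝ) * (c - d) = 0 := by linear_combination -h1 + (a - c) * hq
      have hp : (p : ℝ) = 0 := by
        rcases mul_eq_zero.1 h5 with h4 | h4
        · exact h4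
        · exact absurd h4 (sub_ne_zero.2 hcd)
      exact ⟨by exact_mod_cast hp, by exact_mod_cast hq⟩)
  refine h.mono ?_
  intro x hx hall
  refine hx fun p q hpq => hall p q ?_
  linear_combination hpq

/-- the same with the unknown in the third place -/
theorem CR_bad3 {a b d : ℝ} (hab : a ≠ b) (had : a ≠ d) (hbd : b ≠ d) :
    {x : ℝ | ¬ CR a b x d}.Countable := by
  have h := s1_aux (fun p q => (p : ℝ) * (a - b) - q * (b - d))
    (fun p q => -(p * d * (a - b)) + q * a * (b - d)) (by
      intro p q h1 h2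
      have h3 : (q : ℝ) * ((a - d) * (b - d)) = 0 := by linear_combination h2 + d * h1
      have hq : (q : ℝ) = 0 := by
        rcases mul_eq_zero.1 h3 with h4 | h4
        · exact h4
        · exact absurd h4 (mul_ne_zero (sub_ne_zero.2 had) (sub_ne_zero.2 hbd))
      have h5 : (p : ℝ) * (a - b) = 0 := by linear_combination h1 + (b - d) * hq
      have hp : (p : ℝ) = 0 := by
        rcases mul_eq_zero.1 h5 with h4 | h4
        · exact h4
        · exact absurd h4 (sub_ne_zero.2 hab)
      exact ⟨by exact_mod_cast hp, by exact_mod_cast hq⟩)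
  refine h.mono ?_
  intro x hx hall
  refine hx fun p q hpq => hall p q ?_
  linear_combination hpq

/-- the same with the unknown in the fourth place -/
theorem CR_bad4 {a b c : ℝ} (hab : a ≠ b) (hac : a ≠ c) (hbc : b ≠ c) :
    {x : ℝ | ¬ CR a b c x}.Countable := by
  have h := s1_aux (fun p q => -((p : ℝ) * (a - b)) - q * (a - c))
    (fun p q => p * c * (a - b) + q * b * (a - c)) (by
      intro p q h1 h2
      have h3 : (q : ℝ) * ((a - c) * (b - c)) = 0 := by linear_combination h2 + c * h1
      have hq : (q : ℝ) = 0 := by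
        rcases mul_eq_zero.1 h3 with h4 | h4
        · exact h4
        · exact absurd h4 (mul_ne_zero (sub_ne_zero.2 hac) (sub_ne_zero.2 hbc))
      have h5 : (p : ℝ) * (a - b) = 0 := by linear_combination -h1 - (a - c) * hq
      have hp : (p : ℝ) = 0 := by
        rcases mul_eq_zero.1 h5 with h4 | h4
        · exact h4
        · exact absurd h4 (sub_ne_zero.2 hab)
      exact ⟨by exact_mod_cast hp, by exact_mod_cast hq⟩)
  refine h.mono ?_
  intro x hx hall
  refine hx fun p q hpq => hall p q ?_
  linear_combination hpq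

end Pool.Agent.XA
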