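import Pool.Agent.XA.Q0

set_option autoImplicit false
open MeasureTheory Set

namespace Pool.Agent.XA

open Polynomial in
theorem s2_der (a b c d : ℕ) : (derivative (derivative
    (((X : ℂ[X]) ^ a - X ^ b) * (X ^ c - X ^ d)))).eval 1 = 2 * (((a : ℂ) - b) * (c - d)) := by
  simp [derivative_mul, derivative_X_pow]
  ring

open Polynomial in
/-- the polynomial of the first relation -/
noncomputable def s2_Q (α β : ℂ) (a : Fin 5 → ℕ) : ℂ[X] :=
  C α * ((X ^ a 2 - X ^ a 1) * (X ^ a 3 - X ^ a 0)) - C β * ((X ^ a 3 - X ^ a 1) * (X ^ a 2 - X ^ a 0))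

open Polynomial in
theorem s2_Q_der (α β : ℂ) (a : Fin 5 → ℕ) : (derivative (derivative (s2_Q α β a))).eval 1 =
    2 * (α * (((a 2 : ℂ) - a 1) * (a 3 - a 0)) - β * (((a 3 : ℂ) - a 1) * (a 2 - a 0))) := by
  have h1 := s2_der (a 2) (a 1) (a 3) (a 0)
  have h2 := s2_der (a 3) (a 1) (a 2) (a 0)
  unfold s2_Q
  rw [derivative_sub, derivative_sub, derivative_C_mul, derivative_C_mul, derivative_C_mul, derivative_C_mul,
    eval_sub, eval_C_mul, eval_C_mul, h1, h2]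
  ring

/-- for fixed exponents there are finitely many `k` -/
theorem s2_fin {s₀ s₁ s₂ s₃ : ℝ} (h : CR s₀ s₂ s₃ s₁) (n : Fin 5 → ℤ) :
    {k : ℂ | k ≠ 0 ∧ Function.Injective (fun i => k ^ n i) ∧
      (k ^ n 2 - k ^ n 1) * (k ^ n 3 - k ^ n 0) * ((s₂ - s₀) * (s₃ - s₁)) =
        (k ^ n 3 - k ^ n 1) * (k ^ n 2 - k ^ n 0) * ((s₃ - s₀) * (s₂ - s₁))}.Finite := by
  by_cases hn : Function.Injective n
  swap
  · refine Set.Finite.subset Set.finite_empty ?_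
    rintro k ⟨-, hk, -⟩
    apply hn
    intro i j hij
    exact hk (by simp only [hij])
  set M : ℤ := -∑ i, |n i| with hM
  have hMn : ∀ i, M ≤ n i := by
    intro i
    have h1 : |n i| ≤ ∑ i, |n i| := Finset.single_le_sum (f := fun i => |n i|) (fun j _ => abs_nonneg _) (Finset.mem_univ i)
    have h2 := neg_abs_le (n i)
    omega
  set a : Fin 5 → ℕ := fun i => (n i - M).toNat with ha
  have han : ∀ i, (n i : ℤ) = M + (a i : ℤ) := by
    intro i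
    have h1 := hMn i
    have h2 : ((n i - M).toNat : ℤ) = n i - M := Int.toNat_of_nonneg (by omega)
    simp only [ha, h2]
    ring
  have hanC : ∀ i, ((a i : ℕ) : ℂ) = (n i : ℂ) - (M : ℂ) := by
    intro i
    have h1 : ((n i : ℤ) : ℂ) = ((M + (a i : ℤ) : ℤ) : ℂ) := by rw [han i]
    push_cast at h1
    linear_combination -h1
  set α : ℂ := ((s₂ : ℂ) - s₀) * ((s₃ : ℂ) - s₁) with hα
  set β : ℂ := ((s₃ : ℂ) - s₀) * ((s₂ : ℂ) - s₁) with hβ
  have hQ : s2_Q α β a ≠ 0 := by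
    intro hQ
    have h1 := s2_Q_der α β a
    rw [hQ, Polynomial.derivative_zero, Polynomial.derivative_zero, Polynomial.eval_zero, hanC, hanC, hanC, hanC] at h1
    have h2 : ((n 2 - n 1) * (n 3 - n 0) : ℂ) * α - ((n 3 - n 1) * (n 2 - n 0)) * β = 0 := by
      linear_combination -(1 / 2) * h1
    have h3 : (((n 2 - n 1) * (n 3 - n 0) : ℤ) : ℝ) * ((s₀ - s₂) * (s₃ - s₁)) +
        ((-((n 3 - n 1) * (n 2 - n 0)) : ℤ) : ℝ) * ((s₀ - s₃) * (s₂ - s₁)) = 0 := by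
      have h4 : (((((n 2 - n 1) * (n 3 - n 0) : ℤ) : ℝ) * ((s₀ - s₂) * (s₃ - s₁)) +
        ((-((n 3 - n 1) * (n 2 - n 0)) : ℤ) : ℝ) * ((s₀ - s₃) * (s₂ - s₁)) : ℝ) : ℂ) = ((0 : ℝ) : ℂ) := by
        push_cast
        rw [hα, hβ] at h2
        linear_combination -h2
      exact_mod_cast h4
    have h5 := (h _ _ h3).1
    rcases mul_eq_zero.1 h5 with h6 | h6
    · have := hn (sub_eq_zero.1 h6)
      exact absurd this (by decide)
    · have := hn (sub_eq_zero.1 h6)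
      exact absurd this (by decide)
  refine Set.Finite.subset (Polynomial.finite_setOf_isRoot hQ) ?_
  rintro k ⟨hk, -, hr⟩
  have hK : k ^ M ≠ 0 := zpow_ne_zero _ hk
  have hkn : ∀ i, k ^ n i = k ^ M * k ^ a i := by
    intro i
    rw [han i, zpow_add₀ hk, zpow_natCast]
  rw [hkn, hkn, hkn, hkn] at hr
  change Polynomial.IsRoot _ k
  rw [Polynomial.IsRoot, s2_Q]
  simp only [Polynomial.eval_sub, Polynomial.eval_mul, Polynomial.eval_C, Polynomial.eval_pow, Polynomial.eval_X]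
  have hK2 : k ^ M * k ^ M ≠ 0 := mul_ne_zero hK hK
  apply mul_left_cancel₀ hK2
  linear_combination hr

/-- the second relation determines `x` -/
theorem s2_sub {s₀ s₁ s₂ : ℝ} (h01 : s₀ ≠ s₁) (h02 : s₀ ≠ s₂) (n : Fin 5 → ℤ) (k : ℂ)
    (hinj : Function.Injective (fun i => k ^ n i)) :
    {x : ℝ | (k ^ n 2 - k ^ n 1) * (k ^ n 4 - k ^ n 0) * ((s₂ - s₀) * (x - s₁)) =
        (k ^ n 4 - k ^ n 1) * (k ^ n 2 - k ^ n 0) * ((x - s₀) * (s₂ - s₁))}.Subsingleton := by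
  have h21 : k ^ n 2 - k ^ n 1 ≠ 0 := by
    intro h0
    have := hinj (sub_eq_zero.1 h0)
    exact absurd this (by decide)
  have h40 : k ^ n 4 - k ^ n 0 ≠ 0 := by
    intro h0
    have := hinj (sub_eq_zero.1 h0)
    exact absurd this (by decide)
  have h20 : ((s₂ : ℂ) - s₀) ≠ 0 := by
    intro h0
    apply h02
    have h1 := sub_eq_zero.1 h0
    exact_mod_cast h1.symm
  intro x hx y hy
  simp only [Set.mem_setOf_eq] at hx hy
  by_contra hxy
  have hxy' : ((x : ℂ) - y) ≠ 0 := by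
    intro h0
    apply hxy
    have h1 := sub_eq_zero.1 h0
    exact_mod_cast h1
  have h1 : (k ^ n 2 - k ^ n 1) * (k ^ n 4 - k ^ n 0) * (s₂ - s₀) =
      (k ^ n 4 - k ^ n 1) * (k ^ n 2 - k ^ n 0) * (s₂ - s₁) := by
    apply mul_left_cancel₀ hxy'
    linear_combination hx - hy
  have h2 : (k ^ n 2 - k ^ n 1) * (k ^ n 4 - k ^ n 0) * (s₂ - s₀) * ((s₀ : ℂ) - s₁) = 0 := by
    linear_combination hx - (x - s₀) * h1
  rcases mul_eq_zero.1 h2 with h3 | h3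
  · exact mul_ne_zero (mul_ne_zero h21 h40) h20 h3
  · apply h01
    have h4 := sub_eq_zero.1 h3
    exact_mod_cast h4

/-- **The Möbius condition excludes countably many slopes.**  `¬ MB s₀ s₁ s₂ s₃ x` means: for some `n` and
`k ≠ 0` with different `κ i = k ^ n i` both relations hold.
(1) For fixed `n` there are finitely many such `k`: `n 0, …, n 3` are different; let `M ≤ n i`, `a i = (n i - M).toNat`,
`α = (s₂ - s₀)(s₃ - s₁)`, `β = (s₃ - s₀)(s₂ - s₁)`.  Dividing the first relation by `k ^ (2 M)`: `k` is a root of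
`Q = C α (X^{a 2} - X^{a 1})(X^{a 3} - X^{a 0}) - C β (X^{a 3} - X^{a 1})(X^{a 2} - X^{a 0})`.  `Q ≠ 0`: write
`X^a - X^b = (X - 1) g` with `g(1) = a - b`; if `Q = 0`, cancel `(X - 1)²` and evaluate at `1`:
`(n 2 - n 1)(n 3 - n 0) α - (n 3 - n 1)(n 2 - n 0) β = 0`, and `CR s₀ s₂ s₃ s₁` (about
`(s₀ - s₂)(s₃ - s₁) = -α`, `(s₀ - s₃)(s₂ - s₁) = -β`) gives `(n 2 - n 1)(n 3 - n 0) = 0`, a contradiction.
(2) For fixed `n, k` the second relation `P (x - s₁) = R (x - s₀)`, `P = (κ 2 - κ 1)(κ 4 - κ 0)(s₂ - s₀) ≠ 0`, has at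
most one solution `x`: two solutions `x ≠ x'` give `P = R`, then `P (s₀ - s₁) = 0`.
So the set is a countable union (over `n : Fin 5 → ℤ`) of finite unions (over the roots `k`) of sets with at most
one element. -/
theorem MB_bad {s₀ s₁ s₂ s₃ : ℝ} (h01 : s₀ ≠ s₁) (h02 : s₀ ≠ s₂) (h : CR s₀ s₂ s₃ s₁) :
    {x : ℝ | ¬ MB s₀ s₁ s₂ s₃ x}.Countable := by
  have key : {x : ℝ | ¬ MB s₀ s₁ s₂ s₃ x} ⊆ ⋃ n : Fin 5 → ℤ, ⋃ k ∈ {k : ℂ | k ≠ 0 ∧ Function.Injective (fun i => k ^ n i) ∧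
      (k ^ n 2 - k ^ n 1) * (k ^ n 3 - k ^ n 0) * ((s₂ - s₀) * (s₃ - s₁)) =
        (k ^ n 3 - k ^ n 1) * (k ^ n 2 - k ^ n 0) * ((s₃ - s₀) * (s₂ - s₁))},
      {x : ℝ | (k ^ n 2 - k ^ n 1) * (k ^ n 4 - k ^ n 0) * ((s₂ - s₀) * (x - s₁)) =
        (k ^ n 4 - k ^ n 1) * (k ^ n 2 - k ^ n 0) * ((x - s₀) * (s₂ - s₁))} := by
    intro x hx
    simp only [Set.mem_setOf_eq, MB] at hx
    push Not at hx
    obtain ⟨k, hk, n, hn, h1, h2⟩ := hx
    simp only [Set.mem_iUnion]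
    exact ⟨n, k, ⟨hk, hn, h1⟩, h2⟩
  refine Set.Countable.mono key ?_
  refine Set.countable_iUnion fun n => ?_
  refine Set.Countable.biUnion (s2_fin h n).countable ?_
  rintro k ⟨-, hk, -⟩
  exact (s2_sub h01 h02 n k hk).finite.countable

end Pool.Agent.XA
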