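import Mathlib

set_option autoImplicit false
open MeasureTheory Set

namespace Pool.Agent.XA

/-- The preimage of the nonempty open interval `Ioo (π r / N) (π (r + 1) / N) ⊆ Ioo 0 π` under
`x ↦ arctan x + π/2` is open (continuity) and nonempty (`x = tan (midpoint - π/2)`, `Real.arctan_tan`), so it
contains an open interval, which is not countable; so it is not contained in a countable set (e.g. a countable
set has measure zero: `Set.Countable.measure_zero`, `IsOpen.measure_pos`). -/
theorem exists_slope {N r : ℕ} (hr : r < N) {B : Set ℝ} (hB : B.Countable) :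
    ∃ x : ℝ, x ∉ B ∧ Real.arctan x + Real.pi / 2 ∈
      Ioo (Real.pi * r / N) (Real.pi * (r + 1) / N) := by
  by_contra hcon
  push Not at hcon
  have hpi := Real.pi_pos
  have hN : (0 : ℝ) < N := by
    have : 0 < N := by omega
    exact_mod_cast this
  have hrN : (r : ℝ) + 1 ≤ N := by exact_mod_cast hr
  have hr0 : (0 : ℝ) ≤ r := Nat.cast_nonneg r
  let S : Set ℝ := (fun x : ℝ => Real.arctan x + Real.pi / 2) ⁻¹'
    Ioo (Real.pi * r / N) (Real.pi * (r + 1) / N)
  have hSo : IsOpen S := isOpen_Ioo.preimage (by fun_prop)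
  have hSB : S ⊆ B := by
    intro x hx
    by_contra hxB
    exact hcon x hxB hx
  have hne : S.Nonempty := by
    refine ⟨Real.tan (Real.pi * (r + 1 / 2) / N - Real.pi / 2), ?_⟩
    have h1 : 0 < Real.pi * (r + 1 / 2) / N := by positivity
    have h2 : Real.pi * (r + 1 / 2) / N < Real.pi := by
      rw [div_lt_iff₀ hN]
      apply mul_lt_mul_of_pos_left _ hpi
      linarith
    have h3 : Real.arctan (Real.tan (Real.pi * (r + 1 / 2) / N - Real.pi / 2)) =
        Real.pi * (r + 1 / 2) / N - Real.pi / 2 :=
      Real.arctan_tan (by linarith) (by linarith)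
    change Real.arctan (Real.tan (Real.pi * (r + 1 / 2) / N - Real.pi / 2)) + Real.pi / 2 ∈
      Ioo (Real.pi * r / N) (Real.pi * (r + 1) / N)
    rw [h3]
    have h4 : Real.pi * (r + 1 / 2) / N - Real.pi / 2 + Real.pi / 2 =
        Real.pi * (r + 1 / 2) / N := by ring
    rw [h4]
    constructor
    · apply div_lt_div_of_pos_right _ hN
      apply mul_lt_mul_of_pos_left _ hpi
      linarith
    · apply div_lt_div_of_pos_right _ hN
      apply mul_lt_mul_of_pos_left _ hpi
      linarith
  have h5 : 0 < volume S := hSo.measure_pos volume hne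
  have h6 : volume S ≤ volume B := measure_mono hSB
  rw [hB.measure_zero volume] at h6
  exact absurd h5 (not_lt.2 h6)

end Pool.Agent.XA
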