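import Pool.Agent.XA.S1
import Pool.Agent.XA.S2
import Pool.Agent.XA.S3

set_option autoImplicit false
open MeasureTheory Set

namespace Pool.Agent.XA

/-- admissible slopes -/
structure Slopes (N : ℕ) (s : ℕ → ℝ) : Prop where
  ang : ∀ r, r < N → Real.arctan (s r) + Real.pi / 2 ∈
    Ioo (Real.pi * r / N) (Real.pi * (r + 1) / N)
  cr : ∀ i j k l, i < N → j < N → k < N → l < N → i ≠ j → i ≠ k → i ≠ l → j ≠ k → j ≠ l →
    k ≠ l → CR (s i) (s j) (s k) (s l)
  mb : ∀ i j k l e, i < e → j < e → k < e → l < e → e < N → i ≠ j → i ≠ k → i ≠ l → j ≠ k →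
    j ≠ l → k ≠ l → MB (s i) (s j) (s k) (s l) (s e)

/-- three different indices below `M` -/
def D3 (M j k l : ℕ) : Prop := j < M ∧ k < M ∧ l < M ∧ j ≠ k ∧ j ≠ l ∧ k ≠ l

/-- four different indices below `M` -/
def D4 (M i j k l : ℕ) : Prop :=
  i < M ∧ j < M ∧ k < M ∧ l < M ∧ i ≠ j ∧ i ≠ k ∧ i ≠ l ∧ j ≠ k ∧ j ≠ l ∧ k ≠ l

theorem ang_ne {N i j : ℕ} (hij : i < j) (hN : 0 < N) {x y : ℝ}
    (hx : Real.arctan x + Real.pi / 2 ∈ Ioo (Real.pi * i / N) (Real.pi * (i + 1) / N))
    (hy : Real.arctan y + Real.pi / 2 ∈ Ioo (Real.pi * j / N) (Real.pi * (j + 1) / N)) :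
    x ≠ y := by
  rintro rfl
  have h1 := hx.2
  have h2 := hy.1
  have h3 : Real.pi * (i + 1) / N ≤ Real.pi * j / N := by
    have hj : (i : ℝ) + 1 ≤ j := by exact_mod_cast hij
    have hN' : (0 : ℝ) < N := by exact_mod_cast hN
    have hpi := Real.pi_pos
    gcongr
  linarith

theorem exists_slopes_aux (N : ℕ) : ∀ M : ℕ, M ≤ N → ∃ s : ℕ → ℝ,
    (∀ r, r < M → Real.arctan (s r) + Real.pi / 2 ∈
      Ioo (Real.pi * r / N) (Real.pi * (r + 1) / N)) ∧
    (∀ i j k l, D4 M i j k l → CR (s i) (s j) (s k) (s l)) ∧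
    (∀ i j k l e, e < M → D4 e i j k l → MB (s i) (s j) (s k) (s l) (s e)) := by
  intro M
  induction M with
  | zero =>
    intro _
    refine ⟨fun _ => 0, fun r hr => absurd hr (by omega), fun i j k l h => absurd h.1 (by omega),
      fun i j k l e he => absurd he (by omega)⟩
  | succ M ih =>
    intro hM
    obtain ⟨s, hang, hcr, hmb⟩ := ih (by omega)
    have hne : ∀ i j, i < M → j < M → i ≠ j → s i ≠ s j := by
      intro i j hi hj hij
      rcases lt_or_gt_of_ne hij with h | h
      · exact ang_ne h (by omega) (hang i hi) (hang j hj)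
      · exact (ang_ne h (by omega) (hang j hj) (hang i hi)).symm
    let B : Set ℝ := (⋃ j, ⋃ k, ⋃ l, ⋃ _ : D3 M j k l,
      ({x | ¬ CR x (s j) (s k) (s l)} ∪ {x | ¬ CR (s j) x (s k) (s l)} ∪
        {x | ¬ CR (s j) (s k) x (s l)} ∪ {x | ¬ CR (s j) (s k) (s l) x})) ∪
      (⋃ i, ⋃ j, ⋃ k, ⋃ l, ⋃ _ : D4 M i j k l, {x | ¬ MB (s i) (s j) (s k) (s l) x})
    have hB : B.Countable := by
      refine Set.Countable.union ?_ ?_
      · refine Set.countable_iUnion fun j => Set.countable_iUnion fun k =>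
          Set.countable_iUnion fun l => Set.countable_iUnion fun h => ?_
        have h1 := hne j k h.1 h.2.1 h.2.2.2.1
        have h2 := hne j l h.1 h.2.2.1 h.2.2.2.2.1
        have h3 := hne k l h.2.1 h.2.2.1 h.2.2.2.2.2
        exact (((CR_bad1 h1 h2 h3).union (CR_bad2 h1 h2 h3)).union
          (CR_bad3 h1 h2 h3)).union (CR_bad4 h1 h2 h3)
      · refine Set.countable_iUnion fun i => Set.countable_iUnion fun j =>
          Set.countable_iUnion fun k => Set.countable_iUnion fun l =>
          Set.countable_iUnion fun h => ?_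
        obtain ⟨hi, hj, hk, hl, hij, hik, hil, hjk, hjl, hkl⟩ := h
        refine MB_bad (hne i j hi hj hij) (hne i k hi hk hik) (hcr i k l j ?_)
        exact ⟨hi, hk, hl, hj, hik, hil, hij, hkl, hjk.symm, hjl.symm⟩
    obtain ⟨x, hxB, hx⟩ := exists_slope (N := N) (r := M) (by omega) hB
    have hx3 : ∀ j k l, D3 M j k l → CR x (s j) (s k) (s l) ∧ CR (s j) x (s k) (s l) ∧
        CR (s j) (s k) x (s l) ∧ CR (s j) (s k) (s l) x := by
      intro j k l h
      have h0 : x ∉ ⋃ j, ⋃ k, ⋃ l, ⋃ _ : D3 M j k l,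
        ({x | ¬ CR x (s j) (s k) (s l)} ∪ {x | ¬ CR (s j) x (s k) (s l)} ∪
          {x | ¬ CR (s j) (s k) x (s l)} ∪ {x | ¬ CR (s j) (s k) (s l) x}) :=
        fun hh => hxB (Or.inl hh)
      simp only [mem_iUnion, not_exists] at h0
      have h1 := h0 j k l h
      simp only [mem_union, mem_setOf_eq, not_or, not_not] at h1
      exact ⟨h1.1.1.1, h1.1.1.2, h1.1.2, h1.2⟩
    have hx4 : ∀ i j k l, D4 M i j k l → MB (s i) (s j) (s k) (s l) x := by
      intro i j k l h
      have h0 : x ∉ ⋃ i, ⋃ j, ⋃ k, ⋃ l, ⋃ _ : D4 M i j k l,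
          {x | ¬ MB (s i) (s j) (s k) (s l) x} :=
        fun hh => hxB (Or.inr hh)
      simp only [mem_iUnion, not_exists] at h0
      have h1 := h0 i j k l h
      simpa only [mem_setOf_eq, not_not] using h1
    have hu : ∀ i, i ≠ M → Function.update s M x i = s i := fun i hi =>
      Function.update_of_ne hi _ _
    have huM : Function.update s M x M = x := Function.update_self _ _ _
    refine ⟨Function.update s M x, ?_, ?_, ?_⟩
    · intro r hr
      rcases Nat.lt_succ_iff_lt_or_eq.1 hr with h | h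
      · rw [hu r (by omega)]
        exact hang r h
      · subst h
        rw [huM]
        exact hx
    · intro i j k l h
      obtain ⟨hi, hj, hk, hl, hij, hik, hil, hjk, hjl, hkl⟩ := h
      by_cases hiM : i = M
      · subst hiM
        rw [huM, hu j hij.symm, hu k hik.symm, hu l hil.symm]
        exact (hx3 j k l ⟨by omega, by omega, by omega, hjk, hjl, hkl⟩).1
      by_cases hjM : j = M
      · subst hjM
        rw [huM, hu i hij, hu k hjk.symm, hu l hjl.symm]
        exact (hx3 i k l ⟨by omega, by omega, by omega, hik, hil, hkl⟩).2.1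
      by_cases hkM : k = M
      · subst hkM
        rw [huM, hu i hik, hu j hjk, hu l hkl.symm]
        exact (hx3 i j l ⟨by omega, by omega, by omega, hij, hil, hjl⟩).2.2.1
      by_cases hlM : l = M
      · subst hlM
        rw [huM, hu i hil, hu j hjl, hu k hkl]
        exact (hx3 i j k ⟨by omega, by omega, by omega, hij, hik, hjk⟩).2.2.2
      rw [hu i hiM, hu j hjM, hu k hkM, hu l hlM]
      exact hcr i j k l ⟨by omega, by omega, by omega, by omega, hij, hik, hil, hjk, hjl, hkl⟩
    · intro i j k l e he h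
      have h' := h
      obtain ⟨hi, hj, hk, hl, hij, hik, hil, hjk, hjl, hkl⟩ := h
      rw [hu i (by omega), hu j (by omega), hu k (by omega), hu l (by omega)]
      rcases Nat.lt_succ_iff_lt_or_eq.1 he with h1 | h1
      · rw [hu e (by omega)]
        exact hmb i j k l e h1 h'
      · subst h1
        rw [huM]
        exact hx4 i j k l h'

/-- **Choice of the slopes.**  Induction on `M ≤ N` for the statement existence of `s : ℕ → ℝ` with the
three properties for all indices `< M` (the intervals are always those for `N`).  Step: `s i ≠ s j` for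
`i ≠ j` (disjoint intervals).  The union `B` of the bad sets `CR_bad1 … CR_bad4` for all triples of different
indices `< M` and of `MB_bad` for all quadruples of different indices `< M` is countable (`Set.Countable.biUnion`,
…); `exists_slope` for `r = M` gives `x ∉ B`; take `Function.update s M x`. -/
theorem exists_slopes (N : ℕ) : ∃ s : ℕ → ℝ, Slopes N s := by
  obtain ⟨s, h1, h2, h3⟩ := exists_slopes_aux N N le_rfl
  exact ⟨s, h1, fun i j k l hi hj hk hl hij hik hil hjk hjl hkl =>
    h2 i j k l ⟨hi, hj, hk, hl, hij, hik, hil, hjk, hjl, hkl⟩,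
    fun i j k l e hi hj hk hl he hij hik hil hjk hjl hkl =>
    h3 i j k l e he ⟨hi, hj, hk, hl, hij, hik, hil, hjk, hjl, hkl⟩⟩

end Pool.Agent.XA
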