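import Pool.Agent.XA.Defs

set_option autoImplicit false
open MeasureTheory Set

namespace Pool.Agent.XA

/-- coordinates: `ℝ × ℝ → EuclideanSpace ℝ (Fin 2)` -/
noncomputable def toE (p : ℝ × ℝ) : EuclideanSpace ℝ (Fin 2) := !₂[p.1, p.2]

end Pool.Agent.XA
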