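import Pool.Agent.XA.V1

set_option autoImplicit false
open MeasureTheory Set

namespace Pool.Agent.XA

/-- **Cone lemma.**  Let `κ = (c3 - c2) / (c3 - c1) ∈ (0, 1]`.  For `pt θ c1 t ∈ K` the point
`κ • pt θ c1 t + (1 - κ) • y ∈ K` is `pt θ c2 (κ t + (1 - κ) tg θ y)` (levels: `κ c1 + (1 - κ) c3 = c2`; use `pt_lv_tg`).
So the slice at `c2` contains the image of the slice at `c1` under the affine map `t ↦ κ t + (1 - κ) tg θ y`,
whose measure is `κ` times the measure of the slice (`Real.volume_preimage_mul_left`, translation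
invariance, or `Measure.addHaar_image_homothety`/`addHaar_smul`). -/
theorem cone_len {K : Set (ℝ × ℝ)} (hK : IsCompact K) (hc : Convex ℝ K) {θ c1 c2 : ℝ}
    {y : ℝ × ℝ} (hy : y ∈ K) (h12 : c1 ≤ c2) (h23 : c2 < lv θ y) :
    (lv θ y - c2) / (lv θ y - c1) * len K θ c1 ≤ len K θ c2 := by
  set κ := (lv θ y - c2) / (lv θ y - c1) with hκ
  have h13 : 0 < lv θ y - c1 := by linarith
  have hκ0 : 0 < κ := div_pos (by linarith) h13
  have hκ1 : κ ≤ 1 := by
    rw [hκ, div_le_one h13]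
    linarith
  have hlev : κ * c1 + (1 - κ) * lv θ y = c2 := by
    rw [hκ]
    field_simp
    ring
  have hpt : ∀ t, pt θ c2 (κ * t + (1 - κ) * tg θ y) = κ • pt θ c1 t + (1 - κ) • y := by
    intro t
    have hy' := pt_lv_tg θ y
    have e : (1 - κ) • y = (1 - κ) • pt θ (lv θ y) (tg θ y) := by rw [hy']
    rw [e, ← hlev]
    ext
    · simp only [pt, Prod.smul_mk, Prod.mk_add_mk, smul_eq_mul]
      ring
    · simp only [pt, Prod.smul_mk, Prod.mk_add_mk, smul_eq_mul]
      ring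
  have hsub : {t : ℝ | pt θ c1 t ∈ K} ⊆ (fun t => κ * t) ⁻¹'
      ((fun t => t + (1 - κ) * tg θ y) ⁻¹' {t : ℝ | pt θ c2 t ∈ K}) := by
    intro t ht
    show pt θ c2 (κ * t + (1 - κ) * tg θ y) ∈ K
    rw [hpt]
    exact hc ht hy hκ0.le (by linarith) (by ring)
  have h1 : volume {t : ℝ | pt θ c1 t ∈ K} ≤
      ENNReal.ofReal |κ⁻¹| * volume {t : ℝ | pt θ c2 t ∈ K} := by
    refine (measure_mono hsub).trans ?_
    rw [Real.volume_preimage_mul_left hκ0.ne', measure_preimage_add_right]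
  have h2 := slice_lt_top hK θ c2
  have h3 : len K θ c1 ≤ κ⁻¹ * len K θ c2 := by
    unfold len
    have h4 := ENNReal.toReal_mono (ENNReal.mul_ne_top ENNReal.ofReal_ne_top h2.ne) h1
    rw [ENNReal.toReal_mul, ENNReal.toReal_ofReal (abs_nonneg _),
      abs_of_pos (inv_pos.2 hκ0)] at h4
    exact h4
  calc κ * len K θ c1 ≤ κ * (κ⁻¹ * len K θ c2) := mul_le_mul_of_nonneg_left h3 hκ0.le
    _ = len K θ c2 := by rw [← mul_assoc, mul_inv_cancel₀ hκ0.ne', one_mul]

end Pool.Agent.XA
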