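import Pool.Agent.XA.Z1
import Pool.Agent.XA.E4
import Pool.Agent.XA.T1
import Pool.Agent.XA.T2
import Pool.Agent.XA.T3
import Pool.Agent.XA.T4

set_option autoImplicit false
open MeasureTheory Set

namespace Pool.Agent.XA

/-- **The outer body is determined** (one of the two orders of the diameters).  `K' = toE ⁻¹' K` etc. are
bodies (`IsBody_toE`).  `w0 = diam K`, `ρ = δ * diam K > 0`, `QK = toE ⁻¹' P`, `QL = toE ⁻¹' Q`; deepness by
`deep_toE` (for `Q`: `closedBall x (δ diam K) ⊆ closedBall x (δ diam L) ⊆ L`, as `diam K ≤ diam L`);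
`QK ⊆ K'` (centre of the ball).  For every `i` with `r = (i % N).toNat < N`: `hX r` and `xray_toE` (`ang_trig`)
give equality of the slices of `K' \ QK`, `L' \ QL` (preimages of differences), and `outer_slice` the equality
of the closed slices above `QK ∪ QL`.  `hs_eq_of_closed` for all `i` (hence also at `ang i + π = ang (i + N)`),
`interior_of_closed`, and `lemmaG` (`2 diam K * (85 * (2 π / N)) < δ diam K`, `width_le_diam`), `eq_of_toE`. -/
theorem outer_thm_aux {N : ℕ} (hN : 5 ≤ N) {s : ℕ → ℝ} (hs' : Slopes N s) {δ : ℝ} (hδ : 0 < δ)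
    (hε : 2 * Real.pi / N ≤ 1 / 100) (hNδ : 170 * (2 * Real.pi / N) < δ)
    {K L P Q : Set (EuclideanSpace ℝ (Fin 2))}
    (hK1 : IsCompact K) (hK2 : Convex ℝ K) (hK3 : (interior K).Nonempty)
    (hL1 : IsCompact L) (hL2 : Convex ℝ L) (hL3 : (interior L).Nonempty)
    (hP : ∀ x ∈ P, Metric.closedBall x (δ * Metric.diam K) ⊆ K)
    (hQ : ∀ x ∈ Q, Metric.closedBall x (δ * Metric.diam L) ⊆ L)
    (hX : ∀ r, r < N → ∀ x : EuclideanSpace ℝ (Fin 2),
      volume {t : ℝ | x + t • !₂[1, s r] ∈ K \ P} = volume {t : ℝ | x + t • !₂[1, s r] ∈ L \ Q})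
    (hdiam : Metric.diam K ≤ Metric.diam L) : K = L := by
  have hN0 : 0 < N := by omega
  have bK := IsBody_toE hK1 hK2 hK3
  have bL := IsBody_toE hL1 hL2 hL3
  have hD : 0 < Metric.diam K := diam_pos hK1 bK
  have hDL : 0 < Metric.diam L := diam_pos hL1 bL
  have hρ : 0 < δ * Metric.diam K := mul_pos hδ hD
  have hQK : ∀ y ∈ toE ⁻¹' P, ∀ ψ, lv ψ y + δ * Metric.diam K ≤ hs (toE ⁻¹' K) ψ :=
    fun y hy ψ => deep_toE bK.compact hρ.le (hP _ hy) ψ
  have hQL : ∀ y ∈ toE ⁻¹' Q, ∀ ψ, lv ψ y + δ * Metric.diam K ≤ hs (toE ⁻¹' L) ψ :=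
    fun y hy ψ => deep_toE bL.compact hρ.le
      ((Metric.closedBall_subset_closedBall (mul_le_mul_of_nonneg_left hdiam hδ.le)).trans
        (hQ _ hy)) ψ
  have hQKs : toE ⁻¹' P ⊆ toE ⁻¹' K :=
    fun y hy => hP _ hy (Metric.mem_closedBall_self hρ.le)
  have hQLs : toE ⁻¹' Q ⊆ toE ⁻¹' L :=
    fun y hy => hQ _ hy (Metric.mem_closedBall_self (mul_pos hδ hDL).le)
  have hX' : ∀ (i : ℤ) (c : ℝ), (∀ y ∈ toE ⁻¹' P ∪ toE ⁻¹' Q, lv (ang N s i) y < c) →
      volume {t : ℝ | pt (ang N s i) c t ∈ toE ⁻¹' K} =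
        volume {t : ℝ | pt (ang N s i) c t ∈ toE ⁻¹' L} := by
    intro i c hc
    have hr : (i % (N : ℤ)).toNat < N := by
      have h1 : 0 ≤ i % (N : ℤ) := Int.emod_nonneg _ (by omega)
      have h2 : i % (N : ℤ) < N := Int.emod_lt_of_pos _ (by omega)
      omega
    obtain ⟨t1, t2⟩ := ang_trig N s i
    have hx := xray_toE (A := K \ P) (B := L \ Q) t1 t2 (hX _ hr) c
    exact outer_slice (P := toE ⁻¹' P) (Q := toE ⁻¹' Q) (fun y hy => hc y (Or.inl hy))
      (fun y hy => hc y (Or.inr hy)) hx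
  have top : ∀ i, hs (toE ⁻¹' K) (ang N s i) = hs (toE ⁻¹' L) (ang N s i) :=
    fun i => hs_eq_of_closed bK bL hρ (fun y hy => hQK y hy _) (fun y hy => hQL y hy _) (hX' i)
  have bot : ∀ i, hs (toE ⁻¹' K) (ang N s i + Real.pi) = hs (toE ⁻¹' L) (ang N s i + Real.pi) := by
    intro i
    rw [← ang_add_N hN0 s i]
    exact top _
  apply eq_of_toE
  refine lemmaG hN hs' bK bL (ρ := δ * Metric.diam K) (w0 := Metric.diam K)
    (fun θ => width_le_diam hK1 bK θ) hε ?_ hQKs hQLs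
    (fun i y hy => hQK y hy _) (fun i y hy => hQL y hy _) ?_
  · have := mul_lt_mul_of_pos_left hNδ hD
    linarith
  · intro i c hc
    exact interior_of_closed bK bL (top i) (bot i) (hX' i c hc)

/-- by symmetry from `outer_thm_aux` -/
theorem outer_thm {N : ℕ} (hN : 5 ≤ N) {s : ℕ → ℝ} (hs' : Slopes N s) {δ : ℝ} (hδ : 0 < δ)
    (hε : 2 * Real.pi / N ≤ 1 / 100) (hNδ : 170 * (2 * Real.pi / N) < δ)
    {K L P Q : Set (EuclideanSpace ℝ (Fin 2))}
    (hK1 : IsCompact K) (hK2 : Convex ℝ K) (hK3 : (interior K).Nonempty)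
    (hL1 : IsCompact L) (hL2 : Convex ℝ L) (hL3 : (interior L).Nonempty)
    (hP : ∀ x ∈ P, Metric.closedBall x (δ * Metric.diam K) ⊆ K)
    (hQ : ∀ x ∈ Q, Metric.closedBall x (δ * Metric.diam L) ⊆ L)
    (hX : ∀ r, r < N → ∀ x : EuclideanSpace ℝ (Fin 2),
      volume {t : ℝ | x + t • !₂[1, s r] ∈ K \ P} = volume {t : ℝ | x + t • !₂[1, s r] ∈ L \ Q}) :
    K = L := by
  rcases le_total (Metric.diam K) (Metric.diam L) with h | h
  · exact outer_thm_aux hN hs' hδ hε hNδ hK1 hK2 hK3 hL1 hL2 hL3 hP hQ hX h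
  · exact (outer_thm_aux hN hs' hδ hε hNδ hL1 hL2 hL3 hK1 hK2 hK3 hQ hP
      (fun r hr x => (hX r hr x).symm) h).symm

end Pool.Agent.XA
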