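import Pool.Agent.XA.Z2
import Pool.Agent.XA.Z3

set_option autoImplicit false
open MeasureTheory Set

namespace Pool.Agent.XA

theorem z4_ne (a : ℝ) : (!₂[1, a] : EuclideanSpace ℝ (Fin 2)) ≠ 0 := by
  intro h
  have h1 := congrFun (congrArg (fun v : EuclideanSpace ℝ (Fin 2) => v.ofLp) h) 0
  simp at h1

/-- **Main theorem.**  Choose `N ≥ 5` with `2 π / N ≤ 1/100` and `170 * (2 π / N) < δ` (Archimedes), `s` from
`exists_slopes N`, `U` the image of `Finset.range N` under `r ↦ !₂[1, s r]` (nonzero: first coordinate `1`).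
First part: `outer_thm`.  Second part: `K₂ ⊆ K₁`, and `interior K₂` plays the role of `P`: `outer_thm` gives
`K₁ = L₁`; then `inner_slice` (with `I = interior K₂`, `J = interior L₂`) and `inner_thm` give `K₂ = L₂`. -/
theorem main (δ : ℝ) (hδ : 0 < δ) :
    ∃ U : Finset (EuclideanSpace ℝ (Fin 2)), (∀ u ∈ U, u ≠ 0) ∧
      (∀ K L P Q : Set (EuclideanSpace ℝ (Fin 2)),
        IsCompact K → Convex ℝ K → (interior K).Nonempty →
        IsCompact L → Convex ℝ L → (interior L).Nonempty →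
        (∀ x ∈ P, Metric.closedBall x (δ * Metric.diam K) ⊆ K) →
        (∀ x ∈ Q, Metric.closedBall x (δ * Metric.diam L) ⊆ L) →
        (∀ u ∈ U, ∀ x : EuclideanSpace ℝ (Fin 2),
          volume {t : ℝ | x + t • u ∈ K \ P} = volume {t : ℝ | x + t • u ∈ L \ Q}) →
        K = L) ∧
      (∀ K₁ K₂ L₁ L₂ : Set (EuclideanSpace ℝ (Fin 2)),
        IsCompact K₁ → Convex ℝ K₁ → (interior K₁).Nonempty →
        IsCompact K₂ → Convex ℝ K₂ → (interior K₂).Nonempty →
        IsCompact L₁ → Convex ℝ L₁ → (interior L₁).Nonempty →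
        IsCompact L₂ → Convex ℝ L₂ → (interior L₂).Nonempty →
        (∀ x ∈ K₂, Metric.closedBall x (δ * Metric.diam K₁) ⊆ K₁) →
        (∀ x ∈ L₂, Metric.closedBall x (δ * Metric.diam L₁) ⊆ L₁) →
        (∀ u ∈ U, ∀ x : EuclideanSpace ℝ (Fin 2),
          volume {t : ℝ | x + t • u ∈ K₁ \ interior K₂} =
            volume {t : ℝ | x + t • u ∈ L₁ \ interior L₂}) →
        K₁ = L₁ ∧ K₂ = L₂) := by
  have hpi := Real.pi_pos
  have hpi4 : Real.pi ≤ 4 := Real.pi_le_four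
  obtain ⟨N, hN⟩ := exists_nat_gt (max 800 (1400 / δ))
  have hN1 : (800 : ℝ) < N := (le_max_left _ _).trans_lt hN
  have hN2 : 1400 / δ < (N : ℝ) := (le_max_right _ _).trans_lt hN
  have hN0 : (0 : ℝ) < N := by linarith
  have hN5 : 5 ≤ N := by
    have : (5 : ℝ) ≤ N := by linarith
    exact_mod_cast this
  have hε : 2 * Real.pi / N ≤ 1 / 100 := by
    rw [div_le_iff₀ hN0]
    linarith
  have hNδ : 170 * (2 * Real.pi / N) < δ := by
    rw [← mul_div_assoc, div_lt_iff₀ hN0]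
    rw [div_lt_iff₀ hδ] at hN2
    linarith
  obtain ⟨s, hs⟩ := exists_slopes N
  refine ⟨(Finset.range N).image (fun r => (!₂[1, s r] : EuclideanSpace ℝ (Fin 2))), ?_, ?_, ?_⟩
  · intro u hu
    rw [Finset.mem_image] at hu
    obtain ⟨r, -, rfl⟩ := hu
    exact z4_ne (s r)
  · intro K L P Q hK1 hK2 hK3 hL1 hL2 hL3 hP hQ hX
    exact outer_thm hN5 hs hδ hε hNδ hK1 hK2 hK3 hL1 hL2 hL3 hP hQ
      (fun r hr x => hX _ (Finset.mem_image.2 ⟨r, Finset.mem_range.2 hr, rfl⟩) x)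
  · intro K₁ K₂ L₁ L₂ hK11 hK12 hK13 hK21 hK22 hK23 hL11 hL12 hL13 hL21 hL22 hL23 hP hQ hX
    have hX' : ∀ r, r < N → ∀ x : EuclideanSpace ℝ (Fin 2),
        volume {t : ℝ | x + t • !₂[1, s r] ∈ K₁ \ interior K₂} =
          volume {t : ℝ | x + t • !₂[1, s r] ∈ L₁ \ interior L₂} :=
      fun r hr x => hX _ (Finset.mem_image.2 ⟨r, Finset.mem_range.2 hr, rfl⟩) x
    have h1 : K₁ = L₁ := outer_thm hN5 hs hδ hε hNδ hK11 hK12 hK13 hL11 hL12 hL13
      (fun x hx => hP x (interior_subset hx)) (fun x hx => hQ x (interior_subset hx)) hX'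
    refine ⟨h1, ?_⟩
    subst h1
    have hr0 : 0 ≤ δ * Metric.diam K₁ := mul_nonneg hδ.le Metric.diam_nonneg
    have hIK : interior K₂ ⊆ K₁ := fun x hx =>
      hP x (interior_subset hx) (Metric.mem_closedBall_self hr0)
    have hJK : interior L₂ ⊆ K₁ := fun x hx =>
      hQ x (interior_subset hx) (Metric.mem_closedBall_self hr0)
    exact inner_thm hN5 hs hε hK21 hK22 hK23 hL21 hL22 hL23 (fun r hr x =>
      inner_slice hK11 isOpen_interior isOpen_interior hIK hJK (z4_ne (s r)) (hX' r hr x))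

end Pool.Agent.XA
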